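import Pool.Agent.ZT.Cayley
import Pool.Agent.MP_5f2667_co.L.L03

/-! # ZT : from placed parent functions to copies of trees in the complete graph -/

set_option autoImplicit false

open Finset

namespace Pool.Agent.ZT

open Pool.Agent.MP5g (zsm mom TT SS tot)

/-- The graph of a parent function. -/
def PG {m : ℕ} (p : Fin (m + 1) → Fin (m + 1)) : SimpleGraph (Fin (m + 1)) :=
  SimpleGraph.fromRel (fun w u => p w = u)

theorem PG_adj {m : ℕ} (p : Fin (m + 1) → Fin (m + 1)) (a b : Fin (m + 1)) :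
    (PG p).Adj a b ↔ a ≠ b ∧ (p a = b ∨ p b = a) := by
  unfold PG
  rw [SimpleGraph.fromRel_adj]

theorem bridge_fix {m : ℕ} {p : Fin (m + 1) → Fin (m + 1)} (hp : p ∈ PT (Fin (m + 1)) 0)
    {w : Fin (m + 1)} (h : p w = w) : w = 0 := by
  obtain ⟨k, hk⟩ := (mem_PT.1 hp).2 w
  have : ∀ k, p^[k] w = w := fun k => Function.iterate_fixed h k
  rw [this k] at hk
  exact hk

theorem bridge_two {m : ℕ} {p : Fin (m + 1) → Fin (m + 1)} (hp : p ∈ PT (Fin (m + 1)) 0)
    {w : Fin (m + 1)} (h : p (p w) = w) : w = 0 := by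
  obtain ⟨k, hk⟩ := (mem_PT.1 hp).2 w
  have h1 : ∀ k, p^[k] w = w ∨ p^[k] w = p w := by
    intro k
    induction k with
    | zero => exact Or.inl rfl
    | succ k ih =>
      rw [Function.iterate_succ_apply']
      rcases ih with ih | ih
      · right
        rw [ih]
      · left
        rw [ih, h]
  rcases h1 k with h2 | h2
  · rw [h2] at hk
    exact hk
  · rw [h2] at hk
    rw [hk, (mem_PT.1 hp).1] at h
    exact h.symm

open Classical in
theorem bridge_edges {m : ℕ} (p : Fin (m + 1) → Fin (m + 1)) (hp : p ∈ PT (Fin (m + 1)) 0) :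
    (PG p).edgeFinset = (univ.erase (0 : Fin (m + 1))).image (fun w => s(w, p w)) := by
  ext e
  rw [SimpleGraph.mem_edgeFinset, mem_image]
  induction e with
  | _ a b =>
    rw [SimpleGraph.mem_edgeSet, PG_adj]
    constructor
    · rintro ⟨hne, h | h⟩
      · refine ⟨a, mem_erase.2 ⟨fun h0 => hne ?_, mem_univ _⟩, by rw [h]⟩
        rw [h0, (mem_PT.1 hp).1] at h
        rw [h0, h]
      · refine ⟨b, mem_erase.2 ⟨fun h0 => hne ?_, mem_univ _⟩, by rw [h, Sym2.eq_swap]⟩
        rw [h0, (mem_PT.1 hp).1] at h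
        rw [h0, h]
    · rintro ⟨w, hw, h⟩
      have hw0 : w ≠ 0 := (mem_erase.1 hw).1
      have hpw : p w ≠ w := fun h => hw0 (bridge_fix hp h)
      rw [Sym2.eq_iff] at h
      rcases h with ⟨rfl, h⟩ | ⟨rfl, h⟩
      · refine ⟨fun h1 => hpw ?_, Or.inl h⟩
        rw [h, ← h1]
      · refine ⟨fun h1 => hpw ?_, Or.inr h⟩
        rw [h, h1]

theorem bridge_injOn {m : ℕ} (p : Fin (m + 1) → Fin (m + 1)) (hp : p ∈ PT (Fin (m + 1)) 0) :
    ∀ w ∈ univ.erase (0 : Fin (m + 1)), ∀ w' ∈ univ.erase (0 : Fin (m + 1)),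
      s(w, p w) = s(w', p w') → w = w' := by
  intro w hw w' _ h
  rw [Sym2.eq_iff] at h
  rcases h with h | h
  · exact h.1
  · exfalso
    have h1 : p (p w) = w := by rw [h.2, ← h.1]
    exact (mem_erase.1 hw).1 (bridge_two hp h1)

/-- The graph of a tree parent function is a tree (it is connected, since every `w` is joined to `0` by
`w, p w, p (p w), …`, and it has at most `m` edges). -/
theorem PG_isTree {m : ℕ} (p : Fin (m + 1) → Fin (m + 1)) (hp : p ∈ PT (Fin (m + 1)) 0) :
    (PG p).IsTree := by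
  classical
  have hconn : (PG p).Connected := by
    have hreach : ∀ w : Fin (m + 1), (PG p).Reachable w 0 := by
      intro w
      obtain ⟨k, hk⟩ := (mem_PT.1 hp).2 w
      induction k generalizing w with
      | zero =>
        rw [Function.iterate_zero, id] at hk
        rw [hk]
      | succ k ih =>
        rw [Function.iterate_succ_apply] at hk
        have h1 := ih (p w) hk
        by_cases h2 : w = p w
        · rw [← h2] at h1
          exact h1
        · have h3 : (PG p).Adj w (p w) := (PG_adj p w (p w)).2 ⟨h2, Or.inl rfl⟩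
          exact h3.reachable.trans h1
    exact ⟨fun u v => (hreach u).trans (hreach v).symm⟩
  rw [SimpleGraph.isTree_iff_connected_and_card]
  refine ⟨hconn, ?_⟩
  have h1 := hconn.card_vert_le_card_edgeSet_add_one
  have h2 : Nat.card (PG p).edgeSet = (PG p).edgeFinset.card := by
    rw [Nat.card_eq_fintype_card, SimpleGraph.edgeFinset_card]
  have h3 : (PG p).edgeFinset.card ≤ m := by
    rw [bridge_edges p hp]
    refine card_image_le.trans ?_
    rw [card_erase_of_mem (mem_univ _), card_univ, Fintype.card_fin]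
    omega
  rw [h2] at h1 ⊢
  rw [Nat.card_eq_fintype_card, Fintype.card_fin] at h1 ⊢
  omega

/-- The edges of `PG p` are `{w, p w}`, `w ≠ 0`, and they are pairwise different; so colour sums agree. -/
theorem PG_sum {m n : ℕ} (c : Sym2 (Fin n) → ZMod m) (p : Fin (m + 1) → Fin (m + 1))
    (hp : p ∈ PT (Fin (m + 1)) 0) (x : Fin (m + 1) → Fin n) :
    SS c (PG p) x = PS (fun u v => c s(u, v)) p 0 x := by
  classical
  unfold SS PS
  rw [bridge_edges p hp, sum_image (bridge_injOn p hp)]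
  refine sum_congr rfl fun w _ => ?_
  rw [Sym2.map_mk]

/-- The parent function is determined by its graph (compare along the path to `0`: induction on the
distance of `w` to `0`; `p w` is the neighbour of `w` which is nearer to `0`). -/
theorem PG_inj {m : ℕ} (p q : Fin (m + 1) → Fin (m + 1)) (hp : p ∈ PT (Fin (m + 1)) 0)
    (hq : q ∈ PT (Fin (m + 1)) 0) (h : PG p = PG q) : p = q := by
  have hp0 := (mem_PT.1 hp).1
  have hq0 := (mem_PT.1 hq).1
  have hstep : ∀ w, p w ≠ q w → p (q w) ≠ q (q w) := by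
    intro w hw hbad
    have hw0 : w ≠ 0 := fun h0 => hw (by rw [h0, hp0, hq0])
    have hqw : w ≠ q w := fun h1 => hw0 (bridge_fix hq h1.symm)
    have h1 : (PG q).Adj w (q w) := (PG_adj q w (q w)).2 ⟨hqw, Or.inl rfl⟩
    rw [← h, PG_adj] at h1
    rcases h1.2 with h2 | h2
    · exact hw h2
    · rw [h2] at hbad
      exact hw0 (bridge_two hq hbad.symm)
  funext w
  by_contra hw
  have hit : ∀ k, p (q^[k] w) ≠ q (q^[k] w) := by
    intro k
    induction k with
    | zero => exact hw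
    | succ k ih =>
      rw [Function.iterate_succ_apply']
      exact hstep _ ih
  obtain ⟨k, hk⟩ := (mem_PT.1 hq).2 w
  have h1 := hit k
  rw [hk, hp0, hq0] at h1
  exact h1 rfl

/-- Every tree is the graph of a tree parent function (`p w` = next vertex on the path from `w` to `0`). -/
theorem PG_surj {m : ℕ} (T : SimpleGraph (Fin (m + 1))) (hT : T.IsTree) :
    ∃ p ∈ PT (Fin (m + 1)) 0, PG p = T := by
  classical
  have hc := hT.1
  -- a neighbour nearer to `0`
  have hnb : ∀ w : Fin (m + 1), w ≠ 0 → ∃ u, T.Adj w u ∧ T.dist u 0 + 1 = T.dist w 0 := by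
    intro w hw
    obtain ⟨wk, hwk⟩ := hc.exists_walk_length_eq_dist w 0
    cases wk with
    | nil => exact absurd rfl hw
    | @cons _ u _ hadj q =>
      refine ⟨u, hadj, ?_⟩
      rw [SimpleGraph.Walk.length_cons] at hwk
      have h1 : T.dist u 0 ≤ q.length := SimpleGraph.dist_le q
      have h2 : T.dist w 0 ≤ T.dist w u + T.dist u 0 := hc.dist_triangle
      have h3 : T.dist w u = 1 := SimpleGraph.dist_eq_one_iff_adj.2 hadj
      omega
  choose! f hf using hnb
  set p : Fin (m + 1) → Fin (m + 1) := fun w => if w = 0 then 0 else f w with hp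
  have hp0 : p 0 = 0 := by simp [hp]
  have hpw : ∀ w, w ≠ 0 → p w = f w := fun w hw => by simp [hp, hw]
  have hPT : p ∈ PT (Fin (m + 1)) 0 := by
    rw [mem_PT]
    refine ⟨hp0, fun w => ?_⟩
    have h1 : ∀ n : ℕ, ∀ w, T.dist w 0 = n → p^[n] w = 0 := by
      intro n
      induction n with
      | zero =>
        intro w hw
        rw [Function.iterate_zero, id]
        exact hc.dist_eq_zero_iff.1 hw
      | succ n ih =>
        intro w hw
        have hw0 : w ≠ 0 := fun h0 => by
          rw [h0, SimpleGraph.dist_self] at hw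
          omega
        rw [Function.iterate_succ_apply, hpw w hw0]
        exact ih _ (by have := (hf w hw0).2; omega)
    exact ⟨_, h1 _ w rfl⟩
  refine ⟨p, hPT, ?_⟩
  have hle : PG p ≤ T := by
    intro a b hab
    rw [PG_adj] at hab
    rcases hab.2 with h1 | h1
    · have ha : a ≠ 0 := fun h0 => hab.1 (by rw [h0, hp0] at h1; rw [h0, h1])
      rw [hpw a ha] at h1
      rw [← h1]
      exact (hf a ha).1
    · have hb : b ≠ 0 := fun h0 => hab.1 (by rw [h0, hp0] at h1; rw [h0, h1])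
      rw [hpw b hb] at h1
      rw [← h1]
      exact (hf b hb).1.symm
  have h1 := (PG_isTree p hPT).card_edgeFinset
  have h2 := hT.card_edgeFinset
  have h3 : (PG p).edgeFinset = T.edgeFinset :=
    eq_of_subset_of_card_le (SimpleGraph.edgeFinset_mono hle) (by omega)
  exact SimpleGraph.edgeFinset_inj.1 h3

theorem card_TT (m : ℕ) : (TT m).card = (m + 1) ^ (m - 1) := by
  classical
  rw [← card_PT_fin]
  symm
  refine card_bij (fun p _ => PG p) (fun p hp => ?_) (fun p hp q hq h => PG_inj p q hp hq h)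
    (fun T hT => ?_)
  · unfold TT
    rw [mem_filter]
    exact ⟨mem_univ _, PG_isTree p hp⟩
  · unfold TT at hT
    rw [mem_filter] at hT
    obtain ⟨p, hp, h⟩ := PG_surj T hT.2
    exact ⟨p, hp, h⟩

/-- the number of maps with `x i = x j` -/
theorem bridge_coinc {m n : ℕ} (i j : Fin (m + 1)) (hij : i ≠ j) :
    cnt (fun x : Fin (m + 1) → Fin n => x i = x j) ≤ n ^ m := by
  classical
  have h1 : n ^ m = cnt (fun _ : Fin m → Fin n => True) := by
    rw [cnt_eq_card, filter_true, card_univ, Fintype.card_fun, Fintype.card_fin, Fintype.card_fin]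
  rw [h1]
  refine cnt_inj (fun x => fun k => x (j.succAbove k)) (fun _ _ => trivial) ?_
  intro x y hx hy h
  have h2 : ∀ k, k ≠ j → x k = y k := by
    intro k hk
    obtain ⟨l, hl⟩ := Fin.exists_succAbove_eq hk
    have h3 : x (j.succAbove l) = y (j.succAbove l) := congrFun h l
    rwa [hl] at h3
  funext k
  by_cases hk : k = j
  · rw [hk, ← hx, ← hy]
    exact h2 i hij
  · exact h2 k hk

theorem bridge_noninj {m n : ℕ} :
    cnt (fun x : Fin (m + 1) → Fin n => ¬ Function.Injective x) ≤ (m + 1) ^ 2 * n ^ m := by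
  classical
  have h1 : cnt (fun x : Fin (m + 1) → Fin n => ¬ Function.Injective x) ≤
      ∑ q : Fin (m + 1) × Fin (m + 1), if q.1 ≠ q.2 then
        cnt (fun x : Fin (m + 1) → Fin n => x q.1 = x q.2) else 0 := by
    rw [cnt_eq_card]
    have h2 : (univ.filter fun x : Fin (m + 1) → Fin n => ¬ Function.Injective x) ⊆
        (univ : Finset (Fin (m + 1) × Fin (m + 1))).biUnion
          (fun q => if q.1 ≠ q.2 then univ.filter (fun x : Fin (m + 1) → Fin n => x q.1 = x q.2)
            else ∅) := by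
      intro x hx
      simp only [mem_filter, mem_univ, true_and, Function.Injective, not_forall] at hx
      obtain ⟨i, j, hij, hne⟩ := hx
      rw [mem_biUnion]
      refine ⟨(i, j), mem_univ _, ?_⟩
      simp only
      rw [if_pos hne]
      simp [hij]
    refine (card_le_card h2).trans (card_biUnion_le.trans (le_of_eq ?_))
    refine sum_congr rfl fun q _ => ?_
    split_ifs with h3
    · rw [cnt_eq_card]
    · rw [card_empty]
  refine h1.trans ?_
  calc ∑ q : Fin (m + 1) × Fin (m + 1), (if q.1 ≠ q.2 then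
        cnt (fun x : Fin (m + 1) → Fin n => x q.1 = x q.2) else 0)
      ≤ ∑ _q : Fin (m + 1) × Fin (m + 1), n ^ m := by
        refine sum_le_sum fun q _ => ?_
        split_ifs with h3
        · exact bridge_coinc q.1 q.2 h3
        · exact Nat.zero_le _
    _ = (m + 1) ^ 2 * n ^ m := by
        rw [sum_const, card_univ, Fintype.card_prod, Fintype.card_fin, smul_eq_mul, sq]

/-- All placements versus injective placements (at most `(m+1)^2 n^m` placements are not injective). -/
theorem NN_le_tot {m n : ℕ} (c : Sym2 (Fin n) → ZMod m) :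
    NN (fun u v => c s(u, v)) m 0 ≤ tot c + (m + 1) ^ (m - 1) * ((m + 1) ^ 2 * n ^ m) := by
  classical
  have h1 : NN (fun u v => c s(u, v)) m 0 ≤
      cnt (fun q : (Fin (m + 1) → Fin (m + 1)) × (Fin (m + 1) → Fin n) =>
        q.1 ∈ PT (Fin (m + 1)) 0 ∧ Function.Injective q.2 ∧ SS c (PG q.1) q.2 = 0) +
      cnt (fun q : (Fin (m + 1) → Fin (m + 1)) × (Fin (m + 1) → Fin n) =>
        q.1 ∈ PT (Fin (m + 1)) 0 ∧ ¬ Function.Injective q.2) := by
    unfold NN
    rw [cnt_eq_card, cnt_eq_card, cnt_eq_card]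
    refine le_trans (card_le_card ?_) (card_union_le _ _)
    intro q hq
    simp only [mem_filter, mem_univ, true_and, mem_union] at hq ⊢
    by_cases hi : Function.Injective q.2
    · left
      exact ⟨hq.1, hi, by rw [PG_sum c q.1 hq.1]; exact hq.2⟩
    · right
      exact ⟨hq.1, hi⟩
  have h2 : cnt (fun q : (Fin (m + 1) → Fin (m + 1)) × (Fin (m + 1) → Fin n) =>
        q.1 ∈ PT (Fin (m + 1)) 0 ∧ ¬ Function.Injective q.2) ≤
      (m + 1) ^ (m - 1) * ((m + 1) ^ 2 * n ^ m) := by
    rw [cnt_prod (fun p : Fin (m + 1) → Fin (m + 1) => p ∈ PT (Fin (m + 1)) 0)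
      (fun x : Fin (m + 1) → Fin n => ¬ Function.Injective x)]
    have h3 : cnt (fun p : Fin (m + 1) → Fin (m + 1) => p ∈ PT (Fin (m + 1)) 0) =
        (m + 1) ^ (m - 1) := by
      rw [cnt_eq_card, filter_mem_eq_inter, univ_inter, card_PT_fin]
    rw [h3]
    exact Nat.mul_le_mul_left _ bridge_noninj
  have h4 : cnt (fun q : (Fin (m + 1) → Fin (m + 1)) × (Fin (m + 1) → Fin n) =>
        q.1 ∈ PT (Fin (m + 1)) 0 ∧ Function.Injective q.2 ∧ SS c (PG q.1) q.2 = 0) ≤ tot c := by
    unfold tot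
    rw [cnt_eq_card, card_eq_sum_card_fiberwise (f := fun q => PG q.1) (t := TT m)]
    · refine sum_le_sum fun T _ => ?_
      unfold MP5g.cnt
      refine card_le_card_of_injOn (fun q => q.2) ?_ ?_
      · intro q hq
        simp only [coe_filter, mem_filter, mem_univ, true_and, Set.mem_ofPred_eq] at hq ⊢
        rw [← hq.2]
        exact hq.1.2
      · intro q hq q' hq' h
        simp only [coe_filter, mem_filter, mem_univ, true_and, Set.mem_ofPred_eq] at hq hq'
        refine Prod.ext ?_ h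
        exact PG_inj _ _ hq.1.1 hq'.1.1 (hq.2.trans hq'.2.symm)
    · intro q hq
      simp only [coe_filter, mem_univ, true_and, Set.mem_ofPred_eq] at hq
      unfold TT
      rw [mem_coe, mem_filter]
      exact ⟨mem_univ _, PG_isTree _ hq.1⟩
  omega

/-- The counts for colourings of the complete graph: a factor `1 + η` more than
`2^{1-m} (m+1)^{m-1} n^{m+1}` placed zero-sum trees suffices.

PROOF.  `tot_eq`, `mom_le`, `card_TT`, `NN_le_tot`; `n ≥ (m+1)^2 2^m / η`. -/
theorem finish (m : ℕ) (hm : 1 ≤ m) (η : ℝ) (hη : 0 < η) : ∃ n0 : ℕ, ∀ n ≥ n0,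
    ∀ c : Sym2 (Fin n) → ZMod m,
    2 * (1 / 2 : ℝ) ^ m * (1 + η) * ((m + 1 : ℕ) : ℝ) ^ (m - 1) * (n : ℝ) ^ (m + 1) ≤
      NN (fun u v => c s(u, v)) m 0 →
    (⨅ c' : Sym2 (Fin n) → Fin 2, mom m c') ≤ zsm m c := by
  obtain ⟨n0, hn0⟩ := exists_nat_ge (((m : ℝ) + 1) ^ 2 * 2 ^ m / η)
  refine ⟨n0, fun n hn c hc => ?_⟩
  have hnr : ((m : ℝ) + 1) ^ 2 * 2 ^ m / η ≤ n := hn0.trans (by exact_mod_cast hn)
  have h1 := MP5g.mom_le (n := n) hm
  have h2 := MP5g.tot_eq hm c
  have h3 := NN_le_tot c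
  rw [card_TT] at h1
  set I : ℕ := (⨅ c' : Sym2 (Fin n) → Fin 2, mom m c') with hI
  set Z : ℕ := zsm m c with hZ
  rw [← h2] at h3
  have h1r : (2 : ℝ) ^ m * (((m + 1).factorial : ℝ) * I) ≤
      2 * (((m : ℝ) + 1) ^ (m - 1) * (n : ℝ) ^ (m + 1)) := by exact_mod_cast h1
  have h3r : (NN (fun u v => c s(u, v)) m 0 : ℝ) ≤ ((m + 1).factorial : ℝ) * Z +
      ((m : ℝ) + 1) ^ (m - 1) * (((m : ℝ) + 1) ^ 2 * (n : ℝ) ^ m) := by exact_mod_cast h3
  push_cast at hc
  set A : ℝ := ((m : ℝ) + 1) ^ (m - 1) with hA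
  have hA0 : 0 < A := by positivity
  have hnm : 0 ≤ (n : ℝ) ^ m := by positivity
  have h5 : ((m : ℝ) + 1) ^ 2 * 2 ^ m ≤ η * n := by
    rw [div_le_iff₀ hη] at hnr
    linarith
  have h2m : (0 : ℝ) < 2 ^ m := by positivity
  have h6 : (1 / 2 : ℝ) ^ m * 2 ^ m = 1 := by
    rw [← mul_pow]
    norm_num
  -- multiply everything by `2 ^ m`
  have h7 : 2 * (1 + η) * (A * (n : ℝ) ^ (m + 1)) ≤
      2 ^ m * (((m + 1).factorial : ℝ) * Z) + A * ((2 ^ m * ((m : ℝ) + 1) ^ 2) * (n : ℝ) ^ m) := by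
    have h8 := mul_le_mul_of_nonneg_left (hc.trans h3r) h2m.le
    calc 2 * (1 + η) * (A * (n : ℝ) ^ (m + 1))
        = ((1 / 2 : ℝ) ^ m * 2 ^ m) * (2 * (1 + η) * (A * (n : ℝ) ^ (m + 1))) := by
          rw [h6, one_mul]
      _ = 2 ^ m * (2 * (1 / 2 : ℝ) ^ m * (1 + η) * A * (n : ℝ) ^ (m + 1)) := by ring
      _ ≤ _ := h8
      _ = _ := by ring
  have h9 : A * ((2 ^ m * ((m : ℝ) + 1) ^ 2) * (n : ℝ) ^ m) ≤ A * ((η * n) * (n : ℝ) ^ m) := by
    have h8 : 2 ^ m * ((m : ℝ) + 1) ^ 2 ≤ η * n := by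
      rw [mul_comm]
      exact h5
    exact mul_le_mul_of_nonneg_left (mul_le_mul_of_nonneg_right h8 hnm) hA0.le
  have h10 : A * ((η * n) * (n : ℝ) ^ m) = η * (A * (n : ℝ) ^ (m + 1)) := by
    rw [pow_succ]
    ring
  have h11 : 0 ≤ η * (A * (n : ℝ) ^ (m + 1)) := by positivity
  have h12 : (2 : ℝ) ^ m * (((m + 1).factorial : ℝ) * I) ≤ 2 ^ m * (((m + 1).factorial : ℝ) * Z) := by
    linarith
  have h13 := le_of_mul_le_mul_left h12 h2m
  have h14 : (0 : ℝ) < ((m + 1).factorial : ℝ) := by positivity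
  have h15 := le_of_mul_le_mul_left h13 h14
  exact_mod_cast h15

end Pool.Agent.ZT
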