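import Pool.Agent.ZT.Far3
import Pool.Agent.ZT.Bridge

/-! # ZT : the far regime for primes, in the language of the problem -/

set_option autoImplicit false

open Finset

namespace Pool.Agent.ZT

open Pool.Agent.MP5g (zsm mom TT SS tot)

/-- FAR COLOURINGS ARE NOT EXTREMAL (primes).

PROOF.  `far` for `c' u v = c s(u, v)` and `finish` with `η = 1`: `(1/2 + γ)^p ≥ 4 (1/2)^p` for `p ≥ p1`
(`(1 + 2γ)^p ≥ 4`). -/
theorem far_final (δ : ℝ) (hδ : 0 < δ) : ∃ p0 : ℕ, ∀ p ≥ p0, p.Prime → ∃ n0 : ℕ, ∀ n ≥ n0,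
    ∀ c : Sym2 (Fin n) → ZMod p,
    (∀ a b : ZMod p, δ * (n : ℝ) ^ 2 ≤
      cnt (fun q : Fin n × Fin n => q.1 ≠ q.2 ∧ c s(q.1, q.2) ≠ a ∧ c s(q.1, q.2) ≠ b)) →
    (⨅ c' : Sym2 (Fin n) → Fin 2, mom p c') ≤ zsm p c := by
  obtain ⟨γ, hγ, p0, n0, hfar⟩ := far δ hδ
  obtain ⟨p1, hp1⟩ := pow_unbounded_of_one_lt (4 : ℝ) (show (1 : ℝ) < 1 + 2 * γ by linarith)
  refine ⟨max p0 p1, fun p hp hpp => ?_⟩
  obtain ⟨N, hN⟩ := finish p hpp.one_le 1 one_pos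
  refine ⟨max n0 N, fun n hn c hc => ?_⟩
  refine hN n (le_trans (le_max_right _ _) hn) c ?_
  have h1 := hfar p (le_trans (le_max_left _ _) hp) hpp (Fin n) (fun u v => c s(u, v))
    (fun x y => by simp only [Sym2.eq_swap]) (by
      rw [Fintype.card_fin]
      exact le_trans (le_max_left _ _) hn) (fun a b => by
      rw [Fintype.card_fin]
      refine (hc a b).trans (Nat.cast_le.2 (cnt_mono (fun q hq => ?_)))
      exact hq.2)
  rw [Fintype.card_fin] at h1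
  refine le_trans ?_ h1
  have h2 : (4 : ℝ) ≤ (1 + 2 * γ) ^ p :=
    hp1.le.trans (pow_le_pow_right₀ (by linarith) (le_trans (le_max_right _ _) hp))
  have h3 : 2 * (1 / 2 : ℝ) ^ p * (1 + 1) ≤ (1 / 2 + γ) ^ p := by
    have h4 : (1 / 2 + γ : ℝ) ^ p = (1 / 2 : ℝ) ^ p * (1 + 2 * γ) ^ p := by
      rw [← mul_pow]
      congr 1
      ring
    rw [h4]
    have h5 : (0 : ℝ) ≤ (1 / 2 : ℝ) ^ p := by positivity
    nlinarith
  have h6 : (0 : ℝ) ≤ ((p + 1 : ℕ) : ℝ) ^ (p - 1) := by positivity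
  have h7 : (0 : ℝ) ≤ (n : ℝ) ^ (p + 1) := by positivity
  exact mul_le_mul_of_nonneg_right (mul_le_mul_of_nonneg_right h3 h6) h7

end Pool.Agent.ZT
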