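import Pool.Agent.ZT.N16
import Pool.Agent.ZT.FarFinal
import Pool.Agent.MP_5f2667_co.L.L20

/-! # [ZN-17] final assembly -/

set_option autoImplicit false

open Finset

namespace Pool.Agent.ZT

open Pool.Agent.MP5g (zsm mom TT SS tot lft mom_eq local_all)

theorem NN_affine {V : Type} [Fintype V] {m : ℕ} (c : V → V → ZMod m) (u : (ZMod m)ˣ) (a : ZMod m) :
    NN (fun x y => ((u⁻¹ : (ZMod m)ˣ) : ZMod m) * (c x y - a)) m 0 = NN c m 0 := by
  unfold NN
  refine cnt_congr fun q => ?_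
  have h : PS (fun x y => ((u⁻¹ : (ZMod m)ˣ) : ZMod m) * (c x y - a)) q.1 0 q.2 =
      ((u⁻¹ : (ZMod m)ˣ) : ZMod m) * PS c q.1 0 q.2 := by
    unfold PS
    rw [← mul_sum, sum_sub_distrib, sum_const, card_erase_of_mem (mem_univ _), card_univ, Fintype.card_fin,
      Nat.add_sub_cancel, nsmul_eq_mul, ZMod.natCast_self, zero_mul, sub_zero]
  rw [h]
  refine and_congr_right fun _ => ?_
  constructor
  · intro h1
    have h2 := congrArg (fun z => (u : ZMod m) * z) h1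
    simpa using h2
  · intro h1
    rw [h1, mul_zero]

/-- the near regime in the language of the problem -/
theorem near_final : ∃ δ : ℝ, 0 < δ ∧ ∃ m0 : ℕ, ∀ m ≥ m0, ∃ n0 : ℕ, ∀ n ≥ n0,
    ∀ (c : Sym2 (Fin n) → ZMod m) (a b : ZMod m), IsUnit (b - a) →
    (cnt (fun q : Fin n × Fin n => q.1 ≠ q.2 ∧ c s(q.1, q.2) ≠ a ∧ c s(q.1, q.2) ≠ b) : ℝ) ≤
      δ * (n : ℝ) ^ 2 →
    (⨅ c' : Sym2 (Fin n) → Fin 2, mom m c') ≤ zsm m c := by
  classical
  obtain ⟨δ0, hδ0, m0, hnear⟩ := near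
  refine ⟨δ0 / 2, by linarith, max 4 m0, fun m hm => ?_⟩
  have hm4 : 4 ≤ m := (le_max_left _ _).trans hm
  have hm0 : m0 ≤ m := (le_max_right _ _).trans hm
  obtain ⟨ε, hε, n1, hloc⟩ := local_all m hm4
  have hη : 0 < min 1 (ε * m) / 4 := by
    have : (0 : ℝ) < m := by exact_mod_cast (by omega : 0 < m)
    have h2 : 0 < min 1 (ε * m) := lt_min one_pos (by positivity)
    linarith
  obtain ⟨n2, hfin⟩ := finish m (by omega) (min 1 (ε * m) / 4) hη
  obtain ⟨n3, hn3⟩ := exists_nat_gt (2 / δ0)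
  refine ⟨n1 + n2 + n3 + 1, fun n hn c a b hab hc => ?_⟩
  have hn0 : 0 < n := by omega
  have hnR : (0 : ℝ) < n := by exact_mod_cast hn0
  rcases le_or_gt (cnt (fun q : Fin n × Fin n => q.1 ≠ q.2 ∧ c s(q.1, q.2) ≠ a ∧ c s(q.1, q.2) ≠ b) : ℝ)
    (ε * (n : ℝ) ^ 2) with h1 | h1
  · have h2 := hloc n (by omega) c a b hab
    rw [cnt_eq_card] at h1
    exact h2 h1
  · obtain ⟨u, hu⟩ := hab
    set c' : Fin n → Fin n → ZMod m := fun x y => ((u⁻¹ : (ZMod m)ˣ) : ZMod m) * (c s(x, y) - a) with hc'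
    have hsymm : ∀ x y, c' x y = c' y x := by
      intro x y
      simp only [hc', Sym2.eq_swap]
    have hiff : ∀ x y, (c' x y ≠ 0 ∧ c' x y ≠ 1) ↔ (c s(x, y) ≠ a ∧ c s(x, y) ≠ b) := by
      intro x y
      have e0 : c' x y = 0 ↔ c s(x, y) = a := by
        simp only [hc', Units.mul_right_eq_zero, sub_eq_zero]
      have e1 : c' x y = 1 ↔ c s(x, y) = b := by
        simp only [hc']
        rw [Units.inv_mul_eq_iff_eq_mul, mul_one, hu, sub_left_inj]
      rw [Ne, Ne, e0, e1]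
    have hd1 : ε ≤ del c' := by
      unfold del
      rw [Fintype.card_fin, le_div_iff₀ (by positivity)]
      refine h1.le.trans ?_
      have : cnt (fun q : Fin n × Fin n => q.1 ≠ q.2 ∧ c s(q.1, q.2) ≠ a ∧ c s(q.1, q.2) ≠ b) ≤
          cnt (fun q : Fin n × Fin n => c' q.1 q.2 ≠ 0 ∧ c' q.1 q.2 ≠ 1) :=
        cnt_mono fun q hq => (hiff q.1 q.2).2 hq.2
      exact_mod_cast this
    have hd2 : del c' ≤ δ0 := by
      unfold del
      rw [Fintype.card_fin, div_le_iff₀ (by positivity)]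
      have h2 : cnt (fun q : Fin n × Fin n => c' q.1 q.2 ≠ 0 ∧ c' q.1 q.2 ≠ 1) ≤
          cnt (fun q : Fin n × Fin n => q.1 ≠ q.2 ∧ c s(q.1, q.2) ≠ a ∧ c s(q.1, q.2) ≠ b) + n := by
        rw [cnt_eq_card, cnt_eq_card]
        have h3 : (univ.filter fun q : Fin n × Fin n => c' q.1 q.2 ≠ 0 ∧ c' q.1 q.2 ≠ 1) ⊆
            (univ.filter fun q : Fin n × Fin n => q.1 ≠ q.2 ∧ c s(q.1, q.2) ≠ a ∧ c s(q.1, q.2) ≠ b) ∪
            (univ.image fun x : Fin n => (x, x)) := by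
          intro q hq
          rw [mem_filter] at hq
          rw [mem_union, mem_filter, mem_image]
          by_cases h4 : q.1 = q.2
          · right
            exact ⟨q.1, mem_univ _, by ext <;> simp [h4]⟩
          · left
            exact ⟨mem_univ _, h4, (hiff q.1 q.2).1 hq.2⟩
        refine (card_le_card h3).trans ((card_union_le _ _).trans ?_)
        refine Nat.add_le_add_left ?_ _
        exact card_image_le.trans (by simp)
      have h2R : (cnt (fun q : Fin n × Fin n => c' q.1 q.2 ≠ 0 ∧ c' q.1 q.2 ≠ 1) : ℝ) ≤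
          cnt (fun q : Fin n × Fin n => q.1 ≠ q.2 ∧ c s(q.1, q.2) ≠ a ∧ c s(q.1, q.2) ≠ b) + n := by
        exact_mod_cast h2
      have h5 : (n : ℝ) ≤ δ0 / 2 * (n : ℝ) ^ 2 := by
        have h6 : 2 / δ0 ≤ n := hn3.le.trans (by exact_mod_cast (by omega : n3 ≤ n))
        rw [div_le_iff₀ hδ0] at h6
        have h7 : (n : ℝ) ^ 2 = n * n := by ring
        rw [h7]
        nlinarith
      linarith
    have hN := hnear m hm0 (Fin n) c' hsymm hd2
    rw [hc', NN_affine (fun x y => c s(x, y)) u a] at hN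
    refine hfin n (by omega) c ?_
    refine le_trans ?_ hN
    rw [Fintype.card_fin]
    have hmono : min 1 (ε * m) ≤ min 1 (del c' * m) :=
      min_le_min le_rfl (mul_le_mul_of_nonneg_right hd1 (Nat.cast_nonneg _))
    gcongr

/-- For all large primes the zero-sum minimum equals the 2-colour minimum (`n` large). -/
theorem large_primes : ∃ p0 : ℕ, ∀ p ≥ p0, p.Prime → ∃ n0 : ℕ, ∀ n ≥ n0,
    (⨅ c : Sym2 (Fin n) → ZMod p, zsm p c) = (⨅ c : Sym2 (Fin n) → Fin 2, mom p c) := by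
  classical
  obtain ⟨δ, hδ, m0, hnear⟩ := near_final
  obtain ⟨p1, hfar⟩ := far_final δ hδ
  refine ⟨max 4 (max m0 p1), fun p hp hprime => ?_⟩
  have hp4 : 4 ≤ p := (le_max_left _ _).trans hp
  have hpm : m0 ≤ p := ((le_max_left _ _).trans (le_max_right _ _)).trans hp
  have hp1 : p1 ≤ p := ((le_max_right _ _).trans (le_max_right _ _)).trans hp
  obtain ⟨n1, h1⟩ := hnear p hpm
  obtain ⟨n2, h2⟩ := hfar p hp1 hprime
  have : Fact p.Prime := ⟨hprime⟩
  refine ⟨n1 + n2, fun n hn => ?_⟩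
  apply le_antisymm
  · apply le_ciInf
    intro c
    rw [mom_eq (by omega)]
    exact ciInf_le (OrderBot.bddBelow _) _
  · apply le_ciInf
    intro c
    by_cases h : ∀ a b : ZMod p, δ * (n : ℝ) ^ 2 ≤
      cnt (fun q : Fin n × Fin n => q.1 ≠ q.2 ∧ c s(q.1, q.2) ≠ a ∧ c s(q.1, q.2) ≠ b)
    · exact h2 n (by omega) c h
    · push Not at h
      obtain ⟨a, b, hab⟩ := h
      by_cases hne : a = b
      · refine h1 n (by omega) c a (a + 1) ?_ ?_
        · rw [add_sub_cancel_left]; exact isUnit_one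
        · refine le_trans ?_ hab.le
          have : cnt (fun q : Fin n × Fin n => q.1 ≠ q.2 ∧ c s(q.1, q.2) ≠ a ∧ c s(q.1, q.2) ≠ a + 1) ≤
              cnt (fun q : Fin n × Fin n => q.1 ≠ q.2 ∧ c s(q.1, q.2) ≠ a ∧ c s(q.1, q.2) ≠ b) :=
            cnt_mono fun q hq => ⟨hq.1, hq.2.1, by rw [← hne]; exact hq.2.1⟩
          exact_mod_cast this
      · exact h1 n (by omega) c a b (isUnit_iff_ne_zero.2 (sub_ne_zero.2 (Ne.symm hne))) hab.le

end Pool.Agent.ZT
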