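import Pool.Agent.ZT.Defs

/-! # ZT : Sidorenko's inequality for trees and weighted kernels -/

set_option autoImplicit false

open Finset

namespace Pool.Agent.ZT

theorem sid_jensen {ι : Type*} (s : Finset ι) (w a : ι → ℝ) (hw : ∀ i ∈ s, 0 ≤ w i)
    (hs : ∑ i ∈ s, w i = 1) (ha : ∀ i ∈ s, 0 < a i) :
    ∑ i ∈ s, w i * Real.log (a i) ≤ Real.log (∑ i ∈ s, w i * a i) := by
  have h := strictConcaveOn_log_Ioi.concaveOn.le_map_sum (t := s) (w := w) (p := a) hw hs
    (fun i hi => ha i hi)
  simpa only [smul_eq_mul] using h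

/-- the weighted sum over placements -/
noncomputable def sidZ {A V : Type} [Fintype A] [DecidableEq A] [Fintype V] (v : A) (p : A → A)
    (K : V → V → ℝ) (a : A → V → ℝ) : ℝ :=
  ∑ x : A → V, (∏ w ∈ univ.erase v, K (x w) (x (p w))) * ∏ w, a w (x w)

/-- a leaf -/
theorem sid_exists_leaf {A : Type} [Fintype A] [DecidableEq A] {v : A} {p : A → A}
    (hp : p ∈ PT A v) (hA : 2 ≤ Fintype.card A) : ∃ u, u ≠ v ∧ ∀ w, p w ≠ u := by
  by_contra hcon
  push Not at hcon
  obtain ⟨hv, hk⟩ := mem_PT.1 hp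
  have hsurj : Function.Surjective p := by
    intro u
    by_cases h : u = v
    · exact ⟨v, by rw [hv, h]⟩
    · exact hcon u h
  have hinj : Function.Injective p := Finite.injective_iff_surjective.2 hsurj
  have hall : ∀ w, w = v := by
    intro w
    obtain ⟨k, hk⟩ := hk w
    have h1 : p^[k] v = v := Function.iterate_fixed hv k
    exact hinj.iterate k (hk.trans h1.symm)
  have : Fintype.card A ≤ 1 := Fintype.card_le_one_iff.2 fun a b => (hall a).trans (hall b).symm
  omega

/-- the restricted parent function -/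
def sidR {A : Type} (p : A → A) (u : A) (hu : ∀ w, p w ≠ u) : {j : A // j ≠ u} → {j : A // j ≠ u} :=
  fun j => ⟨p j, hu j⟩

theorem sidR_iter {A : Type} (p : A → A) (u : A) (hu : ∀ w, p w ≠ u) (k : ℕ) (j : {j : A // j ≠ u}) :
    (((sidR p u hu)^[k] j : {j : A // j ≠ u}) : A) = p^[k] j := by
  induction k generalizing j with
  | zero => rfl
  | succ k ih =>
    rw [Function.iterate_succ_apply, Function.iterate_succ_apply, ih]
    rfl

theorem sidR_mem {A : Type} [Fintype A] [DecidableEq A] {v : A} {p : A → A}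
    (hp : p ∈ PT A v) (u : A) (hu : ∀ w, p w ≠ u) (huv : u ≠ v) :
    sidR p u hu ∈ PT {j : A // j ≠ u} ⟨v, huv.symm⟩ := by
  obtain ⟨hv, hk⟩ := mem_PT.1 hp
  refine mem_PT.2 ⟨Subtype.ext hv, fun w => ?_⟩
  obtain ⟨k, hk⟩ := hk w
  exact ⟨k, Subtype.ext (by rw [sidR_iter, hk])⟩

theorem sid_leaf {A V : Type} [Fintype A] [DecidableEq A] [Fintype V] (v : A) (p : A → A)
    (K : V → V → ℝ) (a : A → V → ℝ) (u : A) (hu : ∀ w, p w ≠ u) (huv : u ≠ v) :
    sidZ v p K a = sidZ (⟨v, huv.symm⟩ : {j : A // j ≠ u}) (sidR p u hu) K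
      (fun j x => a j x * if (j : A) = p u then ∑ y, K y x * a u y else 1) := by
  classical
  unfold sidZ
  rw [← (Equiv.funSplitAt u V).symm.sum_comp, Fintype.sum_prod_type, Finset.sum_comm]
  refine Finset.sum_congr rfl fun g _ => ?_
  have hval : ∀ y : V, ∀ j : {j : A // j ≠ u}, (Equiv.funSplitAt u V).symm (y, g) j = g j := by
    intro y j
    simp [Equiv.funSplitAt, Equiv.piSplitAt, j.2]
  have hvalv : ∀ y : V, (Equiv.funSplitAt u V).symm (y, g) u = y := by
    intro y
    simp [Equiv.funSplitAt, Equiv.piSplitAt]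
  have hprod : ∀ y : V, ∏ w, a w ((Equiv.funSplitAt u V).symm (y, g) w) =
      a u y * ∏ j : {j : A // j ≠ u}, a j (g j) := by
    intro y
    rw [← Finset.mul_prod_erase _ _ (mem_univ u), hvalv]
    congr 1
    rw [Finset.prod_subtype (s := univ.erase u) (p := fun j => j ≠ u) (by simp)
      (fun w => a w ((Equiv.funSplitAt u V).symm (y, g) w))]
    exact Finset.prod_congr rfl fun j _ => by rw [hval]
  have hprod2 : ∀ y : V, ∏ w ∈ univ.erase v,
      K ((Equiv.funSplitAt u V).symm (y, g) w) ((Equiv.funSplitAt u V).symm (y, g) (p w)) =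
      K y (g ⟨p u, hu u⟩) * ∏ w ∈ univ.erase (⟨v, huv.symm⟩ : {j : A // j ≠ u}),
        K (g w) (g (sidR p u hu w)) := by
    intro y
    have hmem : u ∈ univ.erase v := mem_erase.2 ⟨huv, mem_univ _⟩
    rw [← Finset.mul_prod_erase _ _ hmem, hvalv]
    congr 1
    · rw [hval y ⟨p u, hu u⟩]
    · symm
      refine Finset.prod_bij (fun (j : {j : A // j ≠ u}) _ => (j : A)) ?_ ?_ ?_ ?_
      · intro j hj
        rw [mem_erase] at hj
        refine mem_erase.2 ⟨j.2, mem_erase.2 ⟨?_, mem_univ _⟩⟩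
        intro h
        exact hj.1 (Subtype.ext h)
      · intro j _ j' _ h
        exact Subtype.ext h
      · intro w hw
        rw [mem_erase, mem_erase] at hw
        refine ⟨⟨w, hw.1⟩, mem_erase.2 ⟨?_, mem_univ _⟩, rfl⟩
        intro h
        exact hw.2.1 (congrArg Subtype.val h)
      · intro j _
        rw [hval y j]
        congr 1
        exact (hval y (sidR p u hu j)).symm
  simp only [hprod, hprod2]
  rw [Finset.prod_mul_distrib, Finset.prod_eq_single (⟨p u, hu u⟩ : {j : A // j ≠ u})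
    (f := fun j : {j : A // j ≠ u} => if (j : A) = p u then ∑ y, K y (g j) * a u y else 1)]
  · rw [if_pos rfl, Finset.mul_sum, Finset.mul_sum]
    refine Finset.sum_congr rfl fun y _ => ?_
    ring
  · intro j _ hj
    rw [if_neg]
    intro h
    exact hj (Subtype.ext h)
  · intro h
    exact absurd (mem_univ _) h

section main

variable {V : Type} [Fintype V] (K : V → V → ℝ) (hK : ∀ x y, 0 ≤ K x y) (hs : ∀ x y, K x y = K y x)
  (κ : ℝ) (hκ : κ = ∑ x, ∑ y, K x y) (hκ0 : 0 < κ)
include hK hκ hκ0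

/-- sums with weight `π` only see the support -/
theorem sid_supp (φ : V → ℝ) [DecidablePred fun x => 0 < ∑ y, K x y] :
    ∑ x, (∑ y, K x y) / κ * φ x = ∑ x ∈ univ.filter (fun x => 0 < ∑ y, K x y), (∑ y, K x y) / κ * φ x := by
  rw [Finset.sum_filter]
  refine Finset.sum_congr rfl fun x _ => ?_
  split_ifs with h
  · rfl
  · have h1 : ∑ y, K x y = 0 := le_antisymm (not_lt.1 h) (Finset.sum_nonneg fun y _ => hK x y)
    rw [h1]
    simp

theorem sid_base (a : V → ℝ) (ha : ∀ x, 0 ≤ a x) (ha' : ∀ x, 0 < ∑ y, K x y → 0 < a x) :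
    Real.log κ - (∑ x, (∑ y, K x y) / κ * Real.log (∑ y, K x y)) +
      ∑ x, (∑ y, K x y) / κ * Real.log (a x) ≤ Real.log (∑ x, a x) := by
  classical
  have hout := sid_supp K hK κ hκ hκ0
  set S : Finset V := univ.filter fun x => 0 < ∑ y, K x y with hS
  have hw : ∑ x ∈ S, (∑ y, K x y) / κ = 1 := by
    have h1 := hout fun _ => 1
    simp only [mul_one] at h1
    rw [← h1, ← Finset.sum_div, ← hκ, div_self hκ0.ne']
  have hpos : ∀ x ∈ S, 0 < ∑ y, K x y := fun x hx => (mem_filter.1 hx).2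
  have hpa : ∀ x ∈ S, 0 < a x := fun x hx => ha' x (mem_filter.1 hx).2
  have h1 := sid_jensen S (fun x => (∑ y, K x y) / κ)
    (fun x => a x / ((∑ y, K x y) / κ)) (fun x hx => (div_pos (hpos x hx) hκ0).le) hw
    (fun x hx => div_pos (hpa x hx) (div_pos (hpos x hx) hκ0))
  have h2 : ∑ x ∈ S, (∑ y, K x y) / κ * (a x / ((∑ y, K x y) / κ)) = ∑ x ∈ S, a x := by
    refine Finset.sum_congr rfl fun x hx => ?_
    have := (hpos x hx).ne'
    field_simp
  have h3 : ∑ x ∈ S, (∑ y, K x y) / κ * Real.log (a x / ((∑ y, K x y) / κ)) =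
      Real.log κ - (∑ x, (∑ y, K x y) / κ * Real.log (∑ y, K x y)) +
      ∑ x, (∑ y, K x y) / κ * Real.log (a x) := by
    have h4 : ∀ x ∈ S, (∑ y, K x y) / κ * Real.log (a x / ((∑ y, K x y) / κ)) =
        (∑ y, K x y) / κ * Real.log κ - (∑ y, K x y) / κ * Real.log (∑ y, K x y) +
        (∑ y, K x y) / κ * Real.log (a x) := by
      intro x hx
      rw [Real.log_div (hpa x hx).ne' (div_pos (hpos x hx) hκ0).ne',
        Real.log_div (hpos x hx).ne' hκ0.ne']
      ring
    rw [Finset.sum_congr rfl h4, Finset.sum_add_distrib, Finset.sum_sub_distrib, ← Finset.sum_mul,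
      hw, one_mul, hout (fun x => Real.log (∑ y, K x y)), hout (fun x => Real.log (a x))]
  rw [h2, h3] at h1
  refine h1.trans ?_
  have hSne : S.Nonempty := by
    rw [Finset.nonempty_iff_ne_empty]
    intro h
    rw [h, Finset.sum_empty] at hw
    norm_num at hw
  exact Real.log_le_log (Finset.sum_pos hpa hSne)
    (Finset.sum_le_sum_of_subset_of_nonneg (Finset.subset_univ _) fun x _ _ => ha x)

include hs

theorem sid_pos (a : V → ℝ) (ha : ∀ x, 0 ≤ a x) (ha' : ∀ x, 0 < ∑ y, K x y → 0 < a x) (x : V)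
    (hx : 0 < ∑ y, K x y) : 0 < ∑ y, K y x * a y := by
  obtain ⟨y, hy, hy'⟩ : ∃ y ∈ univ, 0 < K x y := by
    by_contra hcon
    push Not at hcon
    exact absurd hx (not_lt.2 (Finset.sum_nonpos hcon))
  have h1 : 0 < K y x := by rw [hs]; exact hy'
  have h2 : 0 < ∑ z, K y z := lt_of_lt_of_le h1
    (Finset.single_le_sum (f := fun z => K y z) (fun z _ => hK y z) (mem_univ x))
  exact lt_of_lt_of_le (mul_pos h1 (ha' y h2))
    (Finset.single_le_sum (f := fun z => K z x * a z) (fun z _ => mul_nonneg (hK z x) (ha z)) (mem_univ y))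

theorem sid_step (a : V → ℝ) (ha : ∀ x, 0 ≤ a x) (ha' : ∀ x, 0 < ∑ y, K x y → 0 < a x) :
    (∑ x, (∑ y, K x y) / κ * Real.log (∑ y, K x y)) +
      ∑ x, (∑ y, K x y) / κ * Real.log (a x) ≤
    ∑ x, (∑ y, K x y) / κ * Real.log (∑ y, K y x * a y) := by
  classical
  have h2 : ∑ x, (∑ y, K x y) / κ * Real.log (a x) =
      ∑ x, (∑ y, K y x * Real.log (a y)) / κ := by
    rw [← Finset.sum_div, Finset.sum_comm, Finset.sum_div]
    refine Finset.sum_congr rfl fun x _ => ?_
    rw [← Finset.sum_mul]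
    ring
  rw [h2, ← Finset.sum_add_distrib]
  refine Finset.sum_le_sum fun x _ => ?_
  rcases (Finset.sum_nonneg fun y _ => hK x y : 0 ≤ ∑ y, K x y).eq_or_lt with h | h
  · have h3 : ∀ y, K y x = 0 := by
      intro y
      rw [hs]
      exact (Finset.sum_eq_zero_iff_of_nonneg fun z _ => hK x z).1 h.symm y (mem_univ y)
    rw [← h]
    simp [h3]
  · set S : Finset V := univ.filter fun y => 0 < K y x with hS
    have hout : ∀ φ : V → ℝ, ∑ y, K y x * φ y = ∑ y ∈ S, K y x * φ y := by
      intro φ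
      rw [hS, Finset.sum_filter]
      refine Finset.sum_congr rfl fun y _ => ?_
      split_ifs with h'
      · rfl
      · rw [le_antisymm (not_lt.1 h') (hK y x), zero_mul]
    have hk : ∑ y, K x y = ∑ y ∈ S, K y x := by
      have h4 := hout fun _ => 1
      simp only [mul_one] at h4
      rw [← h4]
      exact Finset.sum_congr rfl fun y _ => hs x y
    have hpa : ∀ y ∈ S, 0 < a y := by
      intro y hy
      refine ha' y (lt_of_lt_of_le (mem_filter.1 hy).2
        (Finset.single_le_sum (f := fun z => K y z) (fun z _ => hK y z) (mem_univ x)))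
    have hw : ∑ y ∈ S, K y x / (∑ y, K x y) = 1 := by
      rw [← Finset.sum_div, ← hk, div_self h.ne']
    have h5 := sid_jensen S (fun y => K y x / (∑ y, K x y)) a
      (fun y _ => div_nonneg (hK y x) h.le) hw hpa
    have h6 : ∑ y ∈ S, K y x / (∑ y, K x y) * Real.log (a y) =
        (∑ y, K y x * Real.log (a y)) / (∑ y, K x y) := by
      rw [hout, Finset.sum_div]
      exact Finset.sum_congr rfl fun y _ => by ring
    have h7 : ∑ y ∈ S, K y x / (∑ y, K x y) * a y = (∑ y, K y x * a y) / (∑ y, K x y) := by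
      rw [hout, Finset.sum_div]
      exact Finset.sum_congr rfl fun y _ => by ring
    rw [h6, h7, Real.log_div (sid_pos K hK hs κ hκ hκ0 a ha ha' x h).ne' h.ne'] at h5
    have h8 : (∑ y, K x y) / κ * Real.log (∑ y, K x y) + (∑ y, K y x * Real.log (a y)) / κ =
        (∑ y, K x y) / κ * (Real.log (∑ y, K x y) +
          (∑ y, K y x * Real.log (a y)) / (∑ y, K x y)) := by
      have := h.ne'
      have := hκ0.ne'
      field_simp
    rw [h8]
    refine mul_le_mul_of_nonneg_left ?_ (div_nonneg h.le hκ0.le)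
    linarith

/-- the weighted inequality -/
theorem sid_main (N : ℕ) : ∀ (A : Type) [Fintype A] [DecidableEq A] (_ : Fintype.card A = N + 1)
    (v : A) (p : A → A) (_ : p ∈ PT A v) (a : A → V → ℝ) (_ : ∀ w x, 0 ≤ a w x)
    (_ : ∀ w x, 0 < ∑ y, K x y → 0 < a w x),
    Real.log κ + ((N : ℝ) - 1) * (∑ x, (∑ y, K x y) / κ * Real.log (∑ y, K x y)) +
      ∑ w, ∑ x, (∑ y, K x y) / κ * Real.log (a w x) ≤ Real.log (sidZ v p K a) ∧ 0 < sidZ v p K a := by
  classical
  induction N with
  | zero =>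
    intro A _ _ hA v p hp a ha ha'
    have hall : ∀ w : A, w = v := by
      intro w
      exact Fintype.card_le_one_iff.1 (by omega) w v
    have huniq : (univ : Finset A) = {v} := by
      ext w
      simp [hall w]
    have hZ : sidZ v p K a = ∑ x, a v x := by
      unfold sidZ
      have hinst : Unique A := ⟨⟨v⟩, fun w => hall w⟩
      rw [← (Equiv.funUnique A V).symm.sum_comp]
      refine Finset.sum_congr rfl fun x _ => ?_
      rw [huniq]
      simp
    rw [hZ, huniq, Finset.sum_singleton]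
    have h := sid_base K hK κ hκ hκ0 (a v) (ha v) (ha' v)
    refine ⟨by push_cast; linarith, ?_⟩
    obtain ⟨x, -, hx⟩ : ∃ x ∈ univ, 0 < ∑ y, K x y := by
      by_contra hcon
      push Not at hcon
      rw [hκ] at hκ0
      exact absurd hκ0 (not_lt.2 (Finset.sum_nonpos hcon))
    exact lt_of_lt_of_le (ha' v x hx)
      (Finset.single_le_sum (f := fun x => a v x) (fun x _ => ha v x) (mem_univ x))
  | succ N ih =>
    intro A _ _ hA v p hp a ha ha'
    obtain ⟨u, huv, hu⟩ := sid_exists_leaf hp (by omega)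
    rw [sid_leaf v p K a u hu huv]
    have hcard : Fintype.card {j : A // j ≠ u} = N + 1 := by
      rw [Fintype.card_subtype_compl, Fintype.card_subtype_eq, hA]
      omega
    have hnn : ∀ x, 0 ≤ ∑ y, K y x * a u y := fun x =>
      Finset.sum_nonneg fun y _ => mul_nonneg (hK y x) (ha u y)
    have hpp : ∀ x, 0 < ∑ y, K x y → 0 < ∑ y, K y x * a u y := fun x hx =>
      sid_pos K hK hs κ hκ hκ0 (a u) (ha u) (ha' u) x hx
    have h1 := ih {j : A // j ≠ u} hcard ⟨v, huv.symm⟩ (sidR p u hu) (sidR_mem hp u hu huv)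
      (fun j x => a j x * if (j : A) = p u then ∑ y, K y x * a u y else 1)
      (fun w x => mul_nonneg (ha w x) (by split_ifs; exacts [hnn x, zero_le_one]))
      (fun w x hx => mul_pos (ha' w x hx) (by split_ifs; exacts [hpp x hx, one_pos]))
    refine ⟨le_trans ?_ h1.1, h1.2⟩
    have h2 : ∀ j : {j : A // j ≠ u}, ∑ x, (∑ y, K x y) / κ *
        Real.log (a j x * if (j : A) = p u then ∑ y, K y x * a u y else 1) =
        ∑ x, (∑ y, K x y) / κ * Real.log (a j x) +
          if (j : A) = p u then ∑ x, (∑ y, K x y) / κ * Real.log (∑ y, K y x * a u y) else 0 := by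
      intro j
      split_ifs with h
      · rw [← Finset.sum_add_distrib]
        refine Finset.sum_congr rfl fun x _ => ?_
        rcases (Finset.sum_nonneg fun y _ => hK x y : 0 ≤ ∑ y, K x y).eq_or_lt with h0 | h0
        · rw [← h0]
          simp
        · rw [Real.log_mul (ha' j x h0).ne' (hpp x h0).ne', mul_add]
      · simp
    simp only [h2]
    rw [Finset.sum_add_distrib, Finset.sum_eq_single (⟨p u, hu u⟩ : {j : A // j ≠ u})
      (f := fun j : {j : A // j ≠ u} =>
        if (j : A) = p u then ∑ x, (∑ y, K x y) / κ * Real.log (∑ y, K y x * a u y) else 0)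
      (fun j _ hj => if_neg fun h => hj (Subtype.ext h)) (fun h => absurd (mem_univ _) h), if_pos rfl]
    have h3 := sid_step K hK hs κ hκ hκ0 (a u) (ha u) (ha' u)
    have h4 : ∑ w, ∑ x, (∑ y, K x y) / κ * Real.log (a w x) =
        ∑ x, (∑ y, K x y) / κ * Real.log (a u x) +
        ∑ j : {j : A // j ≠ u}, ∑ x, (∑ y, K x y) / κ * Real.log (a j x) := by
      rw [← Finset.add_sum_erase _ _ (mem_univ u)]
      congr 1
      exact Finset.sum_subtype (s := univ.erase u) (p := fun j => j ≠ u) (by simp)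
        (fun w => ∑ x, (∑ y, K x y) / κ * Real.log (a w x))
    rw [h4]
    push_cast
    linarith

omit hs in
theorem sid_entropy : Real.log κ - Real.log (Fintype.card V) ≤
    ∑ x, (∑ y, K x y) / κ * Real.log (∑ y, K x y) := by
  have h := sid_base K hK κ hκ hκ0 (fun _ => 1) (fun _ => zero_le_one) (fun _ _ => one_pos)
  simp only [Real.log_one, mul_zero, Finset.sum_const_zero, add_zero, Finset.sum_const,
    Finset.card_univ, nsmul_eq_mul, mul_one] at h
  linarith

end main

/-- Sidorenko's inequality for a tree `p ∈ PT A v` with `N = |A|` labels and a symmetric kernel `K ≥ 0`: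
`∑_x ∏_{w ≠ v} K (x w) (x (p w)) ≥ n^N (k̄)^(N-1)`, `k̄ = n^{-2} ∑_{x,y} K x y`.

PROOF.  Let `k(x) = ∑_y K x y`, `κ = ∑_x k(x)`; we may assume `κ > 0`.  Let `π(x) = k(x)/κ`.
Weighted version (`sid_main`), induction on the number of labels by removing a leaf. -/
theorem sidorenko {A V : Type} [Fintype A] [DecidableEq A] [Fintype V] (v : A) (p : A → A)
    (hp : p ∈ PT A v) (K : V → V → ℝ) (hK : ∀ x y, 0 ≤ K x y) (hs : ∀ x y, K x y = K y x) :
    (Fintype.card V : ℝ) ^ (Fintype.card A) *
      ((∑ x, ∑ y, K x y) / (Fintype.card V : ℝ) ^ 2) ^ (Fintype.card A - 1)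
    ≤ ∑ x : A → V, ∏ w ∈ univ.erase v, K (x w) (x (p w)) := by
  classical
  have hcA : 0 < Fintype.card A := Fintype.card_pos_iff.2 ⟨v⟩
  obtain ⟨N, hN⟩ : ∃ N, Fintype.card A = N + 1 := ⟨Fintype.card A - 1, by omega⟩
  have hκn : 0 ≤ ∑ x, ∑ y, K x y := Finset.sum_nonneg fun x _ => Finset.sum_nonneg fun y _ => hK x y
  rcases Nat.eq_zero_or_pos N with h0 | h0
  · subst h0
    have hall : ∀ w : A, w = v := fun w => Fintype.card_le_one_iff.1 (by omega) w v
    have huniq : (univ : Finset A).erase v = ∅ := by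
      ext w
      simp [hall w]
    rw [hN, huniq]
    simp [hN]
  rcases hκn.eq_or_lt with h | h
  · rw [← h, zero_div, zero_pow (by omega), mul_zero]
    exact Finset.sum_nonneg fun x _ => Finset.prod_nonneg fun w _ => hK _ _
  · obtain ⟨hmain, hRpos⟩ := sid_main K hK hs _ rfl h N A hN v p hp (fun _ _ => 1)
      (fun _ _ => zero_le_one) (fun _ _ _ => one_pos)
    have hent := sid_entropy K hK _ rfl h
    set κ := ∑ x, ∑ y, K x y with hκ
    have hn : 0 < (Fintype.card V : ℝ) := by
      rw [Nat.cast_pos, Fintype.card_pos_iff]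
      by_contra hV
      rw [not_nonempty_iff] at hV
      rw [hκ, Finset.univ_eq_empty, Finset.sum_empty] at h
      exact lt_irrefl _ h
    have hZ : sidZ v p K (fun _ _ => 1) = ∑ x : A → V, ∏ w ∈ univ.erase v, K (x w) (x (p w)) := by
      unfold sidZ
      simp
    rw [hZ] at hmain hRpos
    simp only [Real.log_one, mul_zero, Finset.sum_const_zero, add_zero] at hmain
    have hN1 : (1 : ℝ) ≤ N := by exact_mod_cast h0
    have h1 : Real.log κ + ((N : ℝ) - 1) * (Real.log κ - Real.log (Fintype.card V)) ≤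
        Real.log (∑ x : A → V, ∏ w ∈ univ.erase v, K (x w) (x (p w))) := by
      refine le_trans ?_ hmain
      have := mul_le_mul_of_nonneg_left hent (by linarith : (0 : ℝ) ≤ (N : ℝ) - 1)
      linarith
    have hL : 0 < (Fintype.card V : ℝ) ^ (N + 1) * (κ / (Fintype.card V : ℝ) ^ 2) ^ N := by positivity
    have hlog : Real.log ((Fintype.card V : ℝ) ^ (N + 1) * (κ / (Fintype.card V : ℝ) ^ 2) ^ N) =
        Real.log κ + ((N : ℝ) - 1) * (Real.log κ - Real.log (Fintype.card V)) := by
      rw [Real.log_mul (by positivity) (by positivity), Real.log_pow, Real.log_pow,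
        Real.log_div (by positivity) (by positivity), Real.log_pow]
      push_cast
      ring
    rw [hN, Nat.add_sub_cancel]
    rw [← hlog] at h1
    exact (Real.log_le_log_iff hL hRpos).1 h1

end Pool.Agent.ZT
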