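import Pool.Agent.ZT.Cayley
import Pool.Agent.ZT.Sid

/-! # ZT : integer kernels; exponential moments of block sums

Integer kernels are functions `c : V → V → ℤ × ℕ`; the pair `(x, y)` is ALLOWED if `(c x y).2 = 0`, and then
`(c x y).1` is its integer colour.  A tree has all edges allowed iff its sum has second component `0`. -/

set_option autoImplicit false

open Finset

namespace Pool.Agent.ZT

theorem block_NN {V G : Type} [Fintype V] [AddCommMonoid G] [DecidableEq G] (c : V → V → G) (e : ℕ)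
    (g : G) : (NN c e g : ℝ) = ∑ p ∈ PT (Fin (e + 1)) 0, ∑ x : Fin (e + 1) → V,
      if PS c p 0 x = g then (1 : ℝ) else 0 := by
  classical
  unfold NN
  rw [cnt_eq_sum, Fintype.sum_prod_type]
  symm
  rw [← Finset.sum_subset (Finset.subset_univ (PT (Fin (e + 1)) 0))]
  · refine sum_congr rfl fun p hp => sum_congr rfl fun x _ => ?_
    simp only [hp, true_and]
  · intro p _ hp
    refine sum_eq_zero fun x _ => ?_
    simp [hp]

/-- Sidorenko and Cayley together. -/
theorem block_sid {V : Type} [Fintype V] (K : V → V → ℝ) (hK : ∀ x y, 0 ≤ K x y)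
    (hs : ∀ x y, K x y = K y x) (e : ℕ) (h : ℝ) (hh : 0 ≤ h)
    (hθ : h * (Fintype.card V : ℝ) ^ 2 ≤ ∑ x, ∑ y, K x y) :
    ((e + 1 : ℕ) : ℝ) ^ (e - 1) * (Fintype.card V : ℝ) ^ (e + 1) * h ^ e ≤
      ∑ p ∈ PT (Fin (e + 1)) 0, ∑ x : Fin (e + 1) → V,
        ∏ w ∈ univ.erase 0, K (x w) (x (p w)) := by
  have hcard : ((PT (Fin (e + 1)) 0).card : ℝ) = ((e + 1 : ℕ) : ℝ) ^ (e - 1) := by
    rw [card_PT_fin]
    push_cast
    rfl
  rcases Nat.eq_zero_or_pos (Fintype.card V) with hV | hV
  · rw [hV]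
    simp only [Nat.cast_zero, ne_eq, Nat.add_eq_zero_iff, one_ne_zero, and_false,
      not_false_eq_true, zero_pow, mul_zero, zero_mul]
    exact sum_nonneg fun p _ => sum_nonneg fun x _ => prod_nonneg fun w _ => hK _ _
  · have hn : (0 : ℝ) < Fintype.card V := by exact_mod_cast hV
    have hle : h ≤ (∑ x, ∑ y, K x y) / (Fintype.card V : ℝ) ^ 2 := by
      rw [le_div_iff₀ (by positivity)]
      exact hθ
    rw [← hcard, mul_assoc, ← nsmul_eq_mul]
    refine Finset.card_nsmul_le_sum _ _ _ fun p hp => ?_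
    have h1 := sidorenko (0 : Fin (e + 1)) p hp K hK hs
    rw [Fintype.card_fin, Nat.add_sub_cancel] at h1
    refine le_trans ?_ h1
    gcongr

/-- The exponential moments of the integer sums of trees with `e` edges.

PROOF.  Let `K x y = exp(θ (c x y).1)` if `(x,y)` is allowed and `0` otherwise.  The right side is
`∑_{p ∈ PT} ∑_x ∏_{w ≠ 0} K (x w) (x (p w))`: a placed tree contributes `exp(θ s)` if all its edges are
allowed and the sum of the integers is `s` (then `|s| ≤ D e` by `hD`), and `0` otherwise.  Now use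
`sidorenko` for every `p` and `card_PT_fin`. -/
theorem block_sum {V : Type} [Fintype V] (c : V → V → ℤ × ℕ) (hc : ∀ x y, c x y = c y x) (D : ℕ)
    (hD : ∀ x y, (c x y).2 = 0 → |(c x y).1| ≤ (D : ℤ)) (e : ℕ) (θ h : ℝ) (hh : 0 ≤ h)
    (hθ : h * (Fintype.card V : ℝ) ^ 2 ≤
      sm (fun q : V × V => (c q.1 q.2).2 = 0) (fun q => Real.exp (θ * (c q.1 q.2).1))) :
    ((e + 1 : ℕ) : ℝ) ^ (e - 1) * (Fintype.card V : ℝ) ^ (e + 1) * h ^ e ≤
      ∑ s ∈ Icc (-((D : ℤ) * e)) ((D : ℤ) * e), (NN c e (s, 0) : ℝ) * Real.exp (θ * s) := by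
  classical
  set K : V → V → ℝ := fun x y => if (c x y).2 = 0 then Real.exp (θ * (c x y).1) else 0 with hKdef
  have hK : ∀ x y, 0 ≤ K x y := by
    intro x y
    simp only [hKdef]
    split_ifs
    · exact (Real.exp_pos _).le
    · exact le_rfl
  have hsum : ∑ x, ∑ y, K x y =
      sm (fun q : V × V => (c q.1 q.2).2 = 0) (fun q => Real.exp (θ * (c q.1 q.2).1)) := by
    rw [sm_eq, sum_filter, Fintype.sum_prod_type]
  rw [← hsum] at hθ
  refine (block_sid K hK (fun x y => by simp only [hKdef, hc x y]) e h hh hθ).trans ?_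
  have hterm : ∀ p ∈ PT (Fin (e + 1)) 0, ∀ x : Fin (e + 1) → V,
      ∏ w ∈ univ.erase 0, K (x w) (x (p w)) ≤
        ∑ s ∈ Icc (-((D : ℤ) * e)) ((D : ℤ) * e),
          (if PS c p 0 x = (s, 0) then (1 : ℝ) else 0) * Real.exp (θ * s) := by
    intro p _ x
    have hnn : ∀ s ∈ Icc (-((D : ℤ) * e)) ((D : ℤ) * e),
        0 ≤ (if PS c p 0 x = (s, 0) then (1 : ℝ) else 0) * Real.exp (θ * s) := by
      intro s _
      have := (Real.exp_pos (θ * s)).le
      split_ifs
      · linarith
      · simp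
    by_cases hall : ∀ w ∈ univ.erase (0 : Fin (e + 1)), (c (x w) (x (p w))).2 = 0
    · have hPS2 : (PS c p 0 x).2 = 0 := by
        unfold PS
        rw [Prod.snd_sum]
        exact sum_eq_zero hall
      have hPS1 : (PS c p 0 x).1 = ∑ w ∈ univ.erase (0 : Fin (e + 1)), (c (x w) (x (p w))).1 := by
        unfold PS
        rw [Prod.fst_sum]
      have hcd : (univ.erase (0 : Fin (e + 1))).card = e := by
        rw [card_erase_of_mem (mem_univ _), card_univ, Fintype.card_fin]
        rfl
      have hab : |(PS c p 0 x).1| ≤ (D : ℤ) * e := by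
        rw [hPS1]
        refine (abs_sum_le_sum_abs _ _).trans ?_
        refine (sum_le_sum fun w hw => hD _ _ (hall w hw)).trans ?_
        rw [sum_const, hcd, nsmul_eq_mul]
        linarith
      have hmem : (PS c p 0 x).1 ∈ Icc (-((D : ℤ) * e)) ((D : ℤ) * e) := by
        rw [mem_Icc]
        exact abs_le.mp hab
      refine le_trans (le_of_eq ?_) (single_le_sum hnn hmem)
      have h1 : PS c p 0 x = ((PS c p 0 x).1, 0) := Prod.ext rfl hPS2
      rw [if_pos h1, one_mul, hPS1]
      push_cast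
      rw [mul_sum, Real.exp_sum]
      refine prod_congr rfl fun w hw => ?_
      simp only [hKdef]
      rw [if_pos (hall w hw)]
    · push Not at hall
      obtain ⟨w, hw, hne⟩ := hall
      have h0 : ∏ w ∈ univ.erase 0, K (x w) (x (p w)) = 0 := by
        refine prod_eq_zero hw ?_
        simp only [hKdef]
        rw [if_neg hne]
      rw [h0]
      exact sum_nonneg hnn
  refine (sum_le_sum fun p hp => sum_le_sum fun x _ => hterm p hp x).trans (le_of_eq ?_)
  have h2 : ∀ s : ℤ, (NN c e (s, 0) : ℝ) * Real.exp (θ * s) =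
      ∑ p ∈ PT (Fin (e + 1)) 0, ∑ x : Fin (e + 1) → V,
        (if PS c p 0 x = (s, 0) then (1 : ℝ) else 0) * Real.exp (θ * s) := by
    intro s
    rw [block_NN, sum_mul]
    refine sum_congr rfl fun p _ => ?_
    rw [sum_mul]
  rw [sum_congr rfl fun s _ => h2 s, sum_comm (s := Icc (-((D : ℤ) * e)) ((D : ℤ) * e))]
  exact sum_congr rfl fun p _ => sum_comm

/-- The total number of placed trees bounds each `NN`. -/
theorem NN_le {V G : Type} [Fintype V] [AddCommMonoid G] (c : V → V → G) (e : ℕ) (g : G) :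
    (NN c e g : ℝ) ≤ ((e + 1 : ℕ) : ℝ) ^ (e - 1) * (Fintype.card V : ℝ) ^ (e + 1) := by
  classical
  have hcard : ((PT (Fin (e + 1)) 0).card : ℝ) = ((e + 1 : ℕ) : ℝ) ^ (e - 1) := by
    rw [card_PT_fin]
    push_cast
    rfl
  rw [block_NN, ← hcard, ← nsmul_eq_mul]
  refine sum_le_card_nsmul _ _ _ fun p _ => ?_
  have h1 : ∑ x : Fin (e + 1) → V, (if PS c p 0 x = g then (1 : ℝ) else 0) ≤
      ∑ x : Fin (e + 1) → V, 1 := by
    refine sum_le_sum fun x _ => ?_
    split_ifs
    · exact le_rfl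
    · exact zero_le_one
  refine h1.trans (le_of_eq ?_)
  simp

/-- Monochromatic (or: one allowed class) trees: if the pairs with `c x y = a` have density `≥ l`, then
at least `l^e` of all placed trees have all edges of colour `a` (`sidorenko` with the 0/1-kernel,
`card_PT_fin`); their sum is `e • a`. -/
theorem mono {V G : Type} [Fintype V] [DecidableEq G] [AddCommMonoid G] (c : V → V → G)
    (hc : ∀ x y, c x y = c y x) (a : G) (l : ℝ) (hl : 0 ≤ l) (e : ℕ)
    (h : l * (Fintype.card V : ℝ) ^ 2 ≤ cnt (fun q : V × V => c q.1 q.2 = a)) :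
    ((e + 1 : ℕ) : ℝ) ^ (e - 1) * (Fintype.card V : ℝ) ^ (e + 1) * l ^ e ≤ NN c e (e • a) := by
  classical
  set K : V → V → ℝ := fun x y => if c x y = a then 1 else 0 with hKdef
  have hK : ∀ x y, 0 ≤ K x y := by
    intro x y
    simp only [hKdef]
    split_ifs
    · exact zero_le_one
    · exact le_rfl
  have hsum : ∑ x, ∑ y, K x y = (cnt (fun q : V × V => c q.1 q.2 = a) : ℝ) := by
    rw [cnt_eq_sum, Fintype.sum_prod_type]
  rw [← hsum] at h
  refine (block_sid K hK (fun x y => by simp only [hKdef, hc x y]) e l hl h).trans ?_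
  rw [block_NN]
  refine sum_le_sum fun p _ => sum_le_sum fun x _ => ?_
  by_cases hall : ∀ w ∈ univ.erase (0 : Fin (e + 1)), c (x w) (x (p w)) = a
  · have hcd : (univ.erase (0 : Fin (e + 1))).card = e := by
      rw [card_erase_of_mem (mem_univ _), card_univ, Fintype.card_fin]
      rfl
    have hPS : PS c p 0 x = e • a := by
      unfold PS
      rw [sum_congr rfl hall, sum_const, hcd]
    rw [if_pos hPS]
    refine prod_le_one (fun w _ => hK _ _) fun w _ => ?_
    simp only [hKdef]
    split_ifs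
    · exact le_rfl
    · exact zero_le_one
  · push Not at hall
    obtain ⟨w, hw, hne⟩ := hall
    have h0 : ∏ w ∈ univ.erase 0, K (x w) (x (p w)) = 0 := by
      refine prod_eq_zero hw ?_
      simp only [hKdef]
      rw [if_neg hne]
    rw [h0]
    split_ifs
    · exact zero_le_one
    · exact le_rfl

end Pool.Agent.ZT
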