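import Pool.Agent.ZT.Defs

/-! # ZT : numerical estimate -/

set_option autoImplicit false

open Finset

namespace Pool.Agent.ZT

/-- upper bound of `b!` -/
theorem core3_fact (b : ℕ) : Real.log ((b + 1).factorial : ℝ) ≤
    1 + Real.log (b + 1) + (b + 1) * Real.log (b + 1) - (b + 1) := by
  induction b with
  | zero => simp
  | succ b ih =>
    have hb : (0 : ℝ) < (b : ℝ) + 1 := by positivity
    have hb2 : (0 : ℝ) < (b : ℝ) + 1 + 1 := by positivity
    have h1 : Real.log (((b + 1 + 1).factorial : ℕ) : ℝ) =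
        Real.log ((b : ℝ) + 1 + 1) + Real.log ((b + 1).factorial : ℝ) := by
      rw [Nat.factorial_succ (b + 1)]
      push_cast
      rw [Real.log_mul hb2.ne' (by positivity)]
    rw [h1]
    push_cast
    have h2 := Real.one_sub_inv_le_log_of_pos (x := ((b : ℝ) + 1 + 1) / (b + 1)) (by positivity)
    rw [Real.log_div hb2.ne' hb.ne', inv_div] at h2
    have h3 : (1 - ((b : ℝ) + 1) / (b + 1 + 1)) * (b + 1 + 1) = 1 := by
      field_simp
      ring
    have h4 := mul_le_mul_of_nonneg_right h2 hb2.le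
    rw [h3] at h4
    nlinarith

/-- lower bound of the number of trees of a block -/
theorem core3_block (e : ℕ) : Real.exp ((e : ℝ) - 2 * Real.log (e + 1)) ≤
    ((e + 1 : ℕ) : ℝ) ^ (e - 1) / e.factorial := by
  have hb : (0 : ℝ) < (e : ℝ) + 1 := by positivity
  have hf : (0 : ℝ) < e.factorial := by positivity
  have h1 := core3_fact e
  have h2 : Real.log ((e + 1).factorial : ℝ) = Real.log ((e : ℝ) + 1) + Real.log (e.factorial : ℝ) := by
    rw [Nat.factorial_succ e]
    push_cast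
    rw [Real.log_mul hb.ne' hf.ne']
  rw [h2] at h1
  have h3 : ((e : ℝ) + 1) ^ e ≤ ((e : ℝ) + 1) ^ (e - 1) * (e + 1) := by
    rw [← pow_succ]
    exact pow_le_pow_right₀ (by linarith [(Nat.cast_nonneg e : (0 : ℝ) ≤ e)]) (by omega)
  have h4 : Real.exp ((e : ℝ) - 2 * Real.log (e + 1)) * (e.factorial * (e + 1)) ≤ ((e : ℝ) + 1) ^ e := by
    have h5 : Real.exp ((e : ℝ) - 2 * Real.log (e + 1)) * (e.factorial * (e + 1)) =
        Real.exp ((e : ℝ) - 2 * Real.log (e + 1) + (Real.log e.factorial + Real.log (e + 1))) := by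
      rw [Real.exp_add, Real.exp_add (Real.log _), Real.exp_log hf, Real.exp_log hb]
    have h6 : ((e : ℝ) + 1) ^ e = Real.exp (e * Real.log (e + 1)) := by
      rw [Real.exp_nat_mul, Real.exp_log hb]
    rw [h5, h6, Real.exp_le_exp]
    linarith
  rw [le_div_iff₀ hf]
  push_cast
  have h7 : Real.exp ((e : ℝ) - 2 * Real.log (e + 1)) * e.factorial * (e + 1) ≤
      ((e : ℝ) + 1) ^ (e - 1) * (e + 1) := by
    rw [mul_assoc]
    exact h4.trans h3
  exact le_of_mul_le_mul_right h7 hb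

theorem core3_stir (m : ℕ) (hm : 1 ≤ m) : (m : ℝ) * Real.log m - m ≤ Real.log (m.factorial : ℝ) := by
  have hm0 : (0 : ℝ) < m := by exact_mod_cast hm
  have h1 := Real.pow_div_factorial_le_exp (m : ℝ) hm0.le m
  rw [div_le_iff₀ (by positivity)] at h1
  have h2 := Real.log_le_log (by positivity) h1
  rw [Real.log_pow, Real.log_mul (Real.exp_pos _).ne' (by positivity), Real.log_exp] at h2
  linarith

theorem core3_a1 {x T L : ℝ} (hx : 0 ≤ x) (hT : 1 ≤ T) (hL : L ≤ T) : x + 2 * L ≤ (x + 2) * T := by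
  nlinarith

theorem core3_a2 {x y L : ℝ} (hx : 0 ≤ x) (hy : y ≤ 1) (hL : 1 ≤ L) :
    x + y + L ≤ (x + 2) * L := by
  nlinarith

theorem core3_a3 {k k' T : ℝ} (hk : k' ≤ k) (hk0 : 0 ≤ k) (hT : 1 ≤ T) : k' ≤ k * T := by
  nlinarith

theorem core3_a4 {M C s : ℝ} (h : M ≤ C * s) (hs : 1 ≤ s) : M + 2 ≤ (C + 2) * s := by
  nlinarith

theorem core3_a5 {a L : ℝ} (h : 0 ≤ a) (hL : 1 ≤ L) : a + L ≤ (a + 1) * L := by
  nlinarith

theorem core3_a6 {s L : ℝ} (hs : 1 ≤ s) (hL : 1 ≤ L) : 1 ≤ s * L ∧ s ≤ s * L ∧ L ≤ s * L := by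
  refine ⟨?_, ?_, ?_⟩ <;> nlinarith

theorem core3_a8 {D e m : ℝ} (hD : 0 ≤ D) (h : 2 * D * e ≤ 2 * D * m) (hm : 1 ≤ m) :
    2 * D * e + 1 ≤ (2 * D + 1) * m := by
  nlinarith

/-- The numerical estimate.  `b = e + 1 = ⌊√m⌋`, `M, J ≤ C' √m`.

PROOF.  Take logarithms.  `log m! ≥ m log m - m`, `(m-1) log (m+1) ≤ (m-1) log m + 1`;
`(e+1)^(e-1)/e! = b^(b-1)/b! ≥ e^(b-1)/b^2` (`b! ≤ e b (b/e)^b`), so `M log((e+1)^(e-1)/e!) ≥
M b - M - 2 M log b` and `M b = m - 2k - J`; `(M+2) e ≤ m + 2b`.  All remaining terms are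
`O(√m log m)` with constants depending only on `C', k, D, κ, h`. -/
theorem int_num (D k C' : ℕ) (κ h : ℝ) (hκ0 : 0 < κ) (hh0 : 0 < h) (hh1 : h ≤ 1) :
    ∃ C : ℝ, 0 < C ∧ ∀ e M J m k' : ℕ, 3 ≤ m → k' ≤ k → e + 1 = Nat.sqrt m →
      m = M * (e + 1) + 2 * k' + J → (M : ℝ) ≤ C' * Real.sqrt m → (J : ℝ) ≤ C' * Real.sqrt m →
      h ^ m * Real.exp (-C * Real.sqrt m * Real.log m) * ((m + 1 : ℕ) : ℝ) ^ (m - 1) ≤
      (m.factorial : ℝ) / 2 *
      (((e + 1 : ℕ) : ℝ) ^ (e - 1) / e.factorial / (2 * (2 * D + 1) * m)) ^ M *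
      Real.exp (-((M : ℝ) + 2) * (Real.log (2 * D * e + 1) - e * Real.log h)) *
      (κ / (4 * (2 * D + 1) ^ 2 * (m : ℝ) ^ 2)) ^ k' * (κ / (2 * m)) ^ J := by
  set a1 : ℝ := Real.log (2 * (2 * D + 1)) with ha1
  set a2 : ℝ := Real.log (2 * D + 1) with ha2
  set a3 : ℝ := Real.log (4 * (2 * D + 1) ^ 2) with ha3
  have hD0 : (0 : ℝ) ≤ D := Nat.cast_nonneg D
  have hC'0 : (0 : ℝ) ≤ C' := Nat.cast_nonneg C'
  have hk0 : (0 : ℝ) ≤ k := Nat.cast_nonneg k
  have ha10 : 0 ≤ a1 := Real.log_nonneg (by linarith)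
  have ha20 : 0 ≤ a2 := Real.log_nonneg (by linarith)
  have ha30 : 0 ≤ a3 := Real.log_nonneg (by nlinarith)
  have hlk : 0 ≤ |Real.log κ| := abs_nonneg _
  have hlh : 0 ≤ |Real.log h| := abs_nonneg _
  set C : ℝ := 1 + 2 * k + C' + C' + 2 * C' + 1 + C' * a1 + C' + (C' + 2) * (a2 + 1) +
    2 * |Real.log h| + k * (|Real.log κ| + a3 + 2) + C' * (|Real.log κ| + 2) with hC
  have hCpos : 0 < C := by positivity
  refine ⟨C, hCpos, ?_⟩
  intro e M J m k' hm hk' he hmM hM hJ
  have hm0 : (0 : ℝ) < m := by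
    have : 0 < m := by omega
    exact_mod_cast this
  have hm3 : (3 : ℝ) ≤ m := by exact_mod_cast hm
  set s : ℝ := Real.sqrt m with hs
  set L : ℝ := Real.log m with hL
  have hs1 : 1 ≤ s := by
    rw [hs]
    exact Real.one_le_sqrt.2 (by linarith)
  have hL1 : 1 ≤ L := by
    rw [hL, Real.le_log_iff_exp_le hm0]
    have := Real.exp_one_lt_d9
    linarith
  have hΛ1 : 1 ≤ s * L := (core3_a6 hs1 hL1).1
  have hsΛ : s ≤ s * L := (core3_a6 hs1 hL1).2.1
  have hLΛ : L ≤ s * L := (core3_a6 hs1 hL1).2.2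
  have heb : ((e : ℝ) + 1) ≤ s := by
    have h1 : (e + 1) * (e + 1) ≤ m := by
      rw [he]
      exact Nat.sqrt_le m
    have h2 : ((e : ℝ) + 1) * (e + 1) ≤ m := by exact_mod_cast h1
    rw [hs]
    apply Real.le_sqrt_of_sq_le
    rw [sq]
    exact h2
  have he0 : (0 : ℝ) ≤ e := Nat.cast_nonneg e
  have hM0 : (0 : ℝ) ≤ M := Nat.cast_nonneg M
  have hJ0 : (0 : ℝ) ≤ J := Nat.cast_nonneg J
  have hk'0 : (0 : ℝ) ≤ k' := Nat.cast_nonneg k'
  have hk'k : (k' : ℝ) ≤ k := by exact_mod_cast hk'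
  have hmMr : (m : ℝ) = M * (e + 1) + 2 * k' + J := by
    have : (m : ℝ) = ((M * (e + 1) + 2 * k' + J : ℕ) : ℝ) := by rw [← hmM]
    rw [this]
    push_cast
    ring
  have hsm : s ≤ m := by
    have h1 : s * s = m := by
      rw [hs]
      exact Real.mul_self_sqrt hm0.le
    nlinarith
  have hlogb : Real.log ((e : ℝ) + 1) ≤ L := Real.log_le_log (by positivity) (by linarith)
  have hlogb0 : 0 ≤ Real.log ((e : ℝ) + 1) := Real.log_nonneg (by linarith)
  -- logarithms of the factors on the right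
  have hfac := core3_stir m (by omega)
  have hfacpos : (0 : ℝ) < m.factorial := by positivity
  set X : ℝ := ((e + 1 : ℕ) : ℝ) ^ (e - 1) / e.factorial / (2 * (2 * D + 1) * m) with hX
  have hXpos : 0 < X := by positivity
  have hlogX : (e : ℝ) - 2 * Real.log (e + 1) - a1 - L ≤ Real.log X := by
    have h1 : 0 < ((e + 1 : ℕ) : ℝ) ^ (e - 1) / e.factorial := by positivity
    rw [hX, Real.log_div h1.ne' (by positivity), Real.log_mul (by positivity) hm0.ne']
    have h2 := Real.log_le_log (Real.exp_pos _) (core3_block e)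
    rw [Real.log_exp] at h2
    linarith
  set Y : ℝ := κ / (4 * (2 * D + 1) ^ 2 * (m : ℝ) ^ 2) with hY
  have hYpos : 0 < Y := by positivity
  have hlogY : Real.log Y = Real.log κ - a3 - 2 * L := by
    rw [hY, Real.log_div hκ0.ne' (by positivity), Real.log_mul (by positivity) (by positivity),
      Real.log_pow]
    push_cast
    ring
  set Z : ℝ := κ / (2 * m) with hZ
  have hZpos : 0 < Z := by positivity
  have hlogZ : Real.log Z = Real.log κ - Real.log 2 - L := by
    rw [hZ, Real.log_div hκ0.ne' (by positivity), Real.log_mul (by norm_num) hm0.ne']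
    ring
  set E : ℝ := -((M : ℝ) + 2) * (Real.log (2 * D * e + 1) - e * Real.log h) with hE
  have hRpos : 0 < (m.factorial : ℝ) / 2 * X ^ M * Real.exp E * Y ^ k' * Z ^ J := by positivity
  have hLpos : 0 < h ^ m * Real.exp (-C * s * L) * ((m + 1 : ℕ) : ℝ) ^ (m - 1) := by positivity
  rw [← Real.log_le_log_iff hLpos hRpos]
  have hlogR : Real.log ((m.factorial : ℝ) / 2 * X ^ M * Real.exp E * Y ^ k' * Z ^ J) =
      Real.log (m.factorial : ℝ) - Real.log 2 + M * Real.log X + E + k' * Real.log Y +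
        J * Real.log Z := by
    rw [Real.log_mul (by positivity) (by positivity), Real.log_mul (by positivity) (by positivity),
      Real.log_mul (by positivity) (by positivity), Real.log_mul (by positivity) (by positivity),
      Real.log_div (by positivity) (by norm_num), Real.log_pow, Real.log_pow, Real.log_pow,
      Real.log_exp]
  have hlogL : Real.log (h ^ m * Real.exp (-C * s * L) * ((m + 1 : ℕ) : ℝ) ^ (m - 1)) =
      m * Real.log h - C * (s * L) + (m - 1) * Real.log (m + 1) := by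
    rw [Real.log_mul (by positivity) (by positivity), Real.log_mul (by positivity) (by positivity),
      Real.log_pow, Real.log_pow, Real.log_exp, Nat.cast_sub (by omega)]
    push_cast
    ring
  rw [hlogR, hlogL]
  -- estimates
  have hl1 : ((m : ℝ) - 1) * Real.log (m + 1) ≤ (m - 1) * L + 1 := by
    have h1 : Real.log ((m : ℝ) + 1) ≤ L + 1 / m := by
      have h2 := Real.log_le_sub_one_of_pos (x := ((m : ℝ) + 1) / m) (by positivity)
      rw [Real.log_div (by positivity) hm0.ne'] at h2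
      have h3 : ((m : ℝ) + 1) / m - 1 = 1 / m := by
        field_simp
        ring
      rw [h3] at h2
      linarith
    have h4 : (0 : ℝ) ≤ m - 1 := by linarith
    have h5 := mul_le_mul_of_nonneg_left h1 h4
    have h6 : ((m : ℝ) - 1) * (L + 1 / m) = (m - 1) * L + (1 - 1 / m) := by
      field_simp
    have h7 : 0 ≤ 1 / (m : ℝ) := by positivity
    linarith
  have hlog2 : Real.log 2 ≤ 1 := by
    have := Real.log_two_lt_d9
    linarith
  have hlog20 : 0 ≤ Real.log 2 := Real.log_nonneg (by norm_num)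
  have hMX : (M : ℝ) * ((e : ℝ) - 2 * Real.log (e + 1) - a1 - L) ≤ M * Real.log X :=
    mul_le_mul_of_nonneg_left hlogX hM0
  have hlogh : Real.log h ≤ 0 := Real.log_nonpos hh0.le hh1
  have habsh : |Real.log h| = - Real.log h := abs_of_nonpos hlogh
  have hDe : Real.log (2 * D * e + 1) ≤ a2 + L := by
    rw [ha2, hL, ← Real.log_mul (by positivity) hm0.ne']
    apply Real.log_le_log (by positivity)
    have h1 : (e : ℝ) ≤ m := by linarith
    have h2 : 2 * (D : ℝ) * e ≤ 2 * D * m := by gcongr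
    exact core3_a8 hD0 h2 (by linarith)
  have hDe0 : 0 ≤ Real.log (2 * D * e + 1) := Real.log_nonneg (by
    have : 0 ≤ 2 * (D : ℝ) * e := by positivity
    linarith)
  -- each error term is at most a constant times `s * L`
  have t1 : (J : ℝ) ≤ C' * (s * L) := hJ.trans (by gcongr)
  have t2 : (M : ℝ) ≤ C' * (s * L) := hM.trans (by gcongr)
  have t3 : (M : ℝ) * Real.log (e + 1) ≤ C' * (s * L) := by
    calc (M : ℝ) * Real.log (e + 1) ≤ (C' * s) * L := by gcongr
      _ = _ := by ring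
  have t4 : (M : ℝ) * a1 ≤ C' * a1 * (s * L) := by
    calc (M : ℝ) * a1 ≤ C' * (s * L) * a1 := by gcongr
      _ = _ := by ring
  have t5 : (M : ℝ) * L ≤ C' * (s * L) := by
    calc (M : ℝ) * L ≤ (C' * s) * L := by gcongr
      _ = _ := by ring
  have t6 : ((M : ℝ) + 2) * Real.log (2 * D * e + 1) ≤ (C' + 2) * (a2 + 1) * (s * L) := by
    have h1 : (M : ℝ) + 2 ≤ (C' + 2) * s := core3_a4 hM hs1
    have h2 : a2 + L ≤ (a2 + 1) * L := core3_a5 ha20 hL1
    calc ((M : ℝ) + 2) * Real.log (2 * D * e + 1) ≤ ((C' + 2) * s) * ((a2 + 1) * L) := by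
          gcongr
          exact hDe.trans h2
      _ = _ := by ring
  have t7 : 2 * (e : ℝ) * |Real.log h| ≤ 2 * |Real.log h| * (s * L) := by
    have h1 : (e : ℝ) ≤ s * L := by linarith
    calc 2 * (e : ℝ) * |Real.log h| ≤ 2 * (s * L) * |Real.log h| := by gcongr
      _ = _ := by ring
  have t8 : (k' : ℝ) * (|Real.log κ| + a3 + 2 * L) ≤ k * (|Real.log κ| + a3 + 2) * (s * L) := by
    have h1 : |Real.log κ| + a3 + 2 * L ≤ (|Real.log κ| + a3 + 2) * (s * L) :=
      core3_a1 (by positivity) hΛ1 hLΛ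
    calc (k' : ℝ) * (|Real.log κ| + a3 + 2 * L) ≤ k * ((|Real.log κ| + a3 + 2) * (s * L)) := by
          gcongr
      _ = _ := by ring
  have t9 : (J : ℝ) * (|Real.log κ| + Real.log 2 + L) ≤ C' * (|Real.log κ| + 2) * (s * L) := by
    have h1 : |Real.log κ| + Real.log 2 + L ≤ (|Real.log κ| + 2) * L :=
      core3_a2 hlk hlog2 hL1
    calc (J : ℝ) * (|Real.log κ| + Real.log 2 + L) ≤ (C' * s) * ((|Real.log κ| + 2) * L) := by
          gcongr
      _ = _ := by ring
  have t10 : (k' : ℝ) ≤ k * (s * L) := core3_a3 hk'k hk0 hΛ1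
  have u8 : -((k' : ℝ) * (|Real.log κ| + a3 + 2 * L)) ≤ k' * Real.log Y := by
    rw [hlogY]
    have h1 := neg_abs_le (Real.log κ)
    have h2 : (k' : ℝ) * (Real.log κ - a3 - 2 * L) - -((k' : ℝ) * (|Real.log κ| + a3 + 2 * L)) =
        k' * (Real.log κ + |Real.log κ|) := by ring
    have h3 : 0 ≤ (k' : ℝ) * (Real.log κ + |Real.log κ|) := mul_nonneg hk'0 (by linarith)
    linarith
  have u9 : -((J : ℝ) * (|Real.log κ| + Real.log 2 + L)) ≤ J * Real.log Z := by
    rw [hlogZ]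
    have h1 := neg_abs_le (Real.log κ)
    have h2 : (J : ℝ) * (Real.log κ - Real.log 2 - L) -
        -((J : ℝ) * (|Real.log κ| + Real.log 2 + L)) = J * (Real.log κ + |Real.log κ|) := by ring
    have h3 : 0 ≤ (J : ℝ) * (Real.log κ + |Real.log κ|) := mul_nonneg hJ0 (by linarith)
    linarith
  have u7 : m * Real.log h - 2 * e * |Real.log h| ≤ E + (M + 2) * Real.log (2 * D * e + 1) -
      0 := by
    have h1 : 0 ≤ ((M : ℝ) + 2 * k' + J) * (-Real.log h) := by
      have : 0 ≤ -Real.log h := by linarith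
      positivity
    have h2 : E + (M + 2) * Real.log (2 * D * e + 1) - 0 -
        (m * Real.log h - 2 * e * |Real.log h|) = ((M : ℝ) + 2 * k' + J) * (-Real.log h) := by
      rw [hE, habsh, hmMr]
      ring
    linarith
  have hCe : C * (s * L) = (s * L) + 2 * (k * (s * L)) + C' * (s * L) + C' * (s * L) +
      2 * (C' * (s * L)) + (s * L) + C' * a1 * (s * L) + C' * (s * L) +
      (C' + 2) * (a2 + 1) * (s * L) + 2 * |Real.log h| * (s * L) +
      k * (|Real.log κ| + a3 + 2) * (s * L) + C' * (|Real.log κ| + 2) * (s * L) := by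
    rw [hC]
    ring
  rw [hCe]
  have hMe : (M : ℝ) * ((e : ℝ) - 2 * Real.log (e + 1) - a1 - L) = (m - 2 * k' - J) - M -
      2 * (M * Real.log (e + 1)) - M * a1 - M * L := by
    rw [hmMr]
    ring
  have hmL : (m : ℝ) * L - (m - 1) * L = L := by ring
  linarith

end Pool.Agent.ZT
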