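import Pool.Agent.ZT.Level

/-! # ZT : the level inequality for a good pair -/

set_option autoImplicit false

open Finset

namespace Pool.Agent.ZT

/-- Sum of the sizes of the fibres over a set. -/
theorem far1_fiber {S G : Type} [Fintype S] (T : Finset G) (P : S → Prop) (f : S → G) :
    ∑ x ∈ T, (cnt (fun q => P q ∧ f q = x) : ℝ) = cnt (fun q => P q ∧ f q ∈ T) := by
  classical
  simp only [cnt_eq_sum]
  rw [sum_comm]
  refine sum_congr rfl fun q _ => ?_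
  by_cases hP : P q
  · simp only [hP, true_and]
    rw [sum_ite_eq]
  · simp only [hP, false_and, if_false, sum_const_zero]

/-- Fubini. -/
theorem far1_prod {S T : Type} [Fintype S] [Fintype T] (R : S → T → Prop) :
    (cnt (fun q : S × T => R q.1 q.2) : ℝ) = ∑ x, (cnt (fun y => R x y) : ℝ) := by
  classical
  simp only [cnt_eq_sum]
  rw [Fintype.sum_prod_type]

theorem far1_or {S : Type} [Fintype S] {P Q R : S → Prop} (h : ∀ s, P s → Q s ∨ R s) :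
    cnt P ≤ cnt Q + cnt R := by
  classical
  rw [cnt_eq_card, cnt_eq_card, cnt_eq_card]
  refine (card_le_card fun s hs => ?_).trans (card_union_le _ _)
  simp only [mem_filter, mem_univ, true_and, mem_union] at hs ⊢
  exact h s hs

/-- The level inequality for a good pair.

PROOF.  Let `n = card V`, `λ_x = #{(u,v) ∈ U × U | c u v = x}/n^2` for `x ∈ F`,
`L = ∑_{x ∈ F} λ_x ≥ (1 - δ/100)^2 ≥ 1 - δ/50` (`|U| ≥ (1-δ/100) n`, degrees).  For an integer `k` at most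
two colours `b, b' ∈ F` have `a ∈ {k, k+1}` (`a` determines `x`), and `λ_b + λ_b' ≤ 1 - δ` by `h3`, so the
other colours of `F` carry at least `L - (1 - δ) ≥ δ - δ/50 ≥ (49/50) δ L`.  `level` with `ι = F` (as a
subtype), `δ' = (49/50) δ` gives `t` with all moments
`≥ min(3/4)(1/2 + δ'/8) (1 - δ/50) ≥ 1/2 + δ/10` (`δ ≤ 1`).  If some `λ_x ≥ 1/2 + δ/10` the first
alternative holds; otherwise `interior` gives `x, x' ∈ F` with `a_x' < t < a_x`. -/
theorem far_level {V : Type} [Fintype V] (hV : 0 < Fintype.card V) {m : ℕ} (c : V → V → ZMod m)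
    (δ : ℝ) (hδ : 0 < δ) (hδ1 : δ ≤ 1)
    (h3 : ∀ a b : ZMod m, δ * (Fintype.card V : ℝ) ^ 2 ≤
      cnt (fun q : V × V => c q.1 q.2 ≠ a ∧ c q.1 q.2 ≠ b))
    (U : Finset V) (hU : (1 - δ / 100) * Fintype.card V ≤ U.card) (F : Finset (ZMod m))
    (hdeg : ∀ x ∈ U, (1 - δ / 100) * Fintype.card V ≤ cnt (fun y : V => y ∈ U ∧ c x y ∈ F))
    (a : ZMod m → ℕ) (x0 g : ZMod m) (ha : ∀ x ∈ F, x = x0 + (a x : ZMod m) * g) :
    (∃ x ∈ F, (1 / 2 + δ / 10) * (Fintype.card V : ℝ) ^ 2 ≤ cnt (fun q : V × V => c q.1 q.2 = x)) ∨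
    (∃ t : ℕ, 0 < t ∧ (∃ x ∈ F, t < a x) ∧ ∀ θ : ℝ, (1 / 2 + δ / 10) * (Fintype.card V : ℝ) ^ 2 ≤
      ∑ x ∈ F, (cnt (fun q : V × V => q.1 ∈ U ∧ q.2 ∈ U ∧ c q.1 q.2 = x) : ℝ) *
          Real.exp (θ * ((a x : ℤ) - (t : ℤ) : ℤ))) := by
  classical
  by_cases hfirst : ∃ x ∈ F, (1 / 2 + δ / 10) * (Fintype.card V : ℝ) ^ 2 ≤
      cnt (fun q : V × V => c q.1 q.2 = x)
  · exact Or.inl hfirst
  right
  push Not at hfirst
  set n : ℝ := (Fintype.card V : ℝ) with hn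
  have hn0 : 0 < n := by rw [hn]; exact_mod_cast hV
  set lam : ZMod m → ℝ := fun x => (cnt (fun q : V × V => q.1 ∈ U ∧ q.2 ∈ U ∧ c q.1 q.2 = x) : ℝ)
    with hlam
  have hlam0 : ∀ x, 0 ≤ lam x := fun x => Nat.cast_nonneg _
  have hfib : ∀ T : Finset (ZMod m), ∑ x ∈ T, lam x =
      cnt (fun q : V × V => (q.1 ∈ U ∧ q.2 ∈ U) ∧ c q.1 q.2 ∈ T) := by
    intro T
    rw [← far1_fiber]
    refine sum_congr rfl fun x _ => ?_
    exact congrArg (Nat.cast : ℕ → ℝ) (cnt_congr fun q => and_assoc.symm)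
  set L : ℝ := ∑ x ∈ F, lam x with hL
  -- lower bound of `L`
  have hLlow : (1 - δ / 50) * n ^ 2 ≤ L := by
    rw [hL, hfib F, far1_prod (S := V) (T := V) (fun x y => (x ∈ U ∧ y ∈ U) ∧ c x y ∈ F)]
    have h1 : ∑ x ∈ U, ((1 - δ / 100) * n) ≤
        ∑ x, (cnt (fun y : V => (x ∈ U ∧ y ∈ U) ∧ c x y ∈ F) : ℝ) := by
      calc ∑ x ∈ U, ((1 - δ / 100) * n) ≤ ∑ x ∈ U, (cnt (fun y : V => (x ∈ U ∧ y ∈ U) ∧ c x y ∈ F) : ℝ) := by
            refine sum_le_sum fun x hx => (hdeg x hx).trans (Nat.cast_le.2 ?_)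
            exact cnt_mono fun y hy => ⟨⟨hx, hy.1⟩, hy.2⟩
        _ ≤ _ := sum_le_sum_of_subset_of_nonneg (subset_univ _) fun _ _ _ => Nat.cast_nonneg _
    refine le_trans ?_ h1
    rw [sum_const, nsmul_eq_mul]
    have h2 : 0 ≤ (1 - δ / 100) * n := mul_nonneg (by linarith) hn0.le
    calc (1 - δ / 50) * n ^ 2 ≤ ((1 - δ / 100) * n) * ((1 - δ / 100) * n) := by nlinarith [sq_nonneg (δ * n)]
      _ ≤ (U.card : ℝ) * ((1 - δ / 100) * n) := mul_le_mul_of_nonneg_right hU h2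
  have hLpos : 0 < L := lt_of_lt_of_le (mul_pos (by linarith) (by positivity)) hLlow
  -- the colour is determined by the integer
  have hinj : ∀ x ∈ F, ∀ y ∈ F, a x = a y → x = y := by
    intro x hx y hy h
    rw [ha x hx, ha y hy, h]
  -- two adjacent integers
  have hadj : ∀ k : ℤ, 49 / 50 * δ * L ≤ sm (fun i : F => (a i : ℤ) ≠ k ∧ (a i : ℤ) ≠ k + 1) (fun i => lam i) := by
    intro k
    have e1 : sm (fun i : F => (a i : ℤ) ≠ k ∧ (a i : ℤ) ≠ k + 1) (fun i => lam i) =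
        ∑ x ∈ F.filter (fun x => (a x : ℤ) ≠ k ∧ (a x : ℤ) ≠ k + 1), lam x := by
      rw [sm_eq, sum_filter, sum_filter,
        sum_coe_sort F (fun x => if (a x : ℤ) ≠ k ∧ (a x : ℤ) ≠ k + 1 then lam x else 0)]
    rw [e1, hfib]
    set b : ZMod m := x0 + ((k.toNat : ℕ) : ZMod m) * g with hb
    set b' : ZMod m := x0 + (((k + 1).toNat : ℕ) : ZMod m) * g with hb'
    have h5 : cnt (fun q : V × V => (q.1 ∈ U ∧ q.2 ∈ U) ∧ c q.1 q.2 ∈ F) ≤
        cnt (fun q : V × V => (q.1 ∈ U ∧ q.2 ∈ U) ∧ c q.1 q.2 ∈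
          F.filter (fun x => (a x : ℤ) ≠ k ∧ (a x : ℤ) ≠ k + 1)) +
        cnt (fun q : V × V => ¬ (c q.1 q.2 ≠ b ∧ c q.1 q.2 ≠ b')) := by
      refine far1_or fun q hq => ?_
      by_cases h6 : (a (c q.1 q.2) : ℤ) ≠ k ∧ (a (c q.1 q.2) : ℤ) ≠ k + 1
      · left
        exact ⟨hq.1, mem_filter.2 ⟨hq.2, h6⟩⟩
      · right
        rw [not_and_or, not_not, not_not] at h6 ⊢
        rcases h6 with h6 | h6
        · left
          rw [hb, ← h6, Int.toNat_natCast]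
          exact ha _ hq.2
        · right
          rw [hb', ← h6, Int.toNat_natCast]
          exact ha _ hq.2
    have h6 := cnt_add_not (fun q : V × V => c q.1 q.2 ≠ b ∧ c q.1 q.2 ≠ b')
    have h7 := h3 b b'
    have h8 : (Fintype.card (V × V) : ℝ) = n ^ 2 := by
      rw [Fintype.card_prod, hn]
      push_cast
      ring
    have h5' : L ≤ (cnt (fun q : V × V => (q.1 ∈ U ∧ q.2 ∈ U) ∧ c q.1 q.2 ∈
          F.filter (fun x => (a x : ℤ) ≠ k ∧ (a x : ℤ) ≠ k + 1)) : ℝ) +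
        (cnt (fun q : V × V => ¬ (c q.1 q.2 ≠ b ∧ c q.1 q.2 ≠ b')) : ℝ) := by
      rw [hL, hfib F]
      exact_mod_cast h5
    have h6' : (cnt (fun q : V × V => c q.1 q.2 ≠ b ∧ c q.1 q.2 ≠ b') : ℝ) +
        (cnt (fun q : V × V => ¬ (c q.1 q.2 ≠ b ∧ c q.1 q.2 ≠ b')) : ℝ) = n ^ 2 := by
      rw [← h8, ← h6]
      push_cast
      ring
    have h9 : (1 - δ) * n ^ 2 ≤ L * (1 - 49 / 50 * δ) := by
      have h10 : (1 - δ / 50) * n ^ 2 * (1 - 49 / 50 * δ) ≤ L * (1 - 49 / 50 * δ) :=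
        mul_le_mul_of_nonneg_right hLlow (by linarith)
      nlinarith [sq_nonneg (δ * n)]
    linarith
  obtain ⟨t, ht⟩ := level (ι := F) (fun i => lam i) (fun i => hlam0 _) (fun i => (a i : ℤ)) L
    (49 / 50 * δ) (sum_coe_sort F lam) hLpos (by positivity) hadj
  have hnum : (1 / 2 + δ / 10) * n ^ 2 ≤ min (3 / 4) (1 / 2 + 49 / 50 * δ / 8) * L := by
    have h1 : 1 / 2 + δ / 10 ≤ min (3 / 4) (1 / 2 + 49 / 50 * δ / 8) * (1 - δ / 50) := by
      rw [min_mul_of_nonneg _ _ (by linarith)]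
      refine le_min (by nlinarith) (by nlinarith)
    have h2 : 0 ≤ min (3 / 4 : ℝ) (1 / 2 + 49 / 50 * δ / 8) := le_min (by norm_num) (by positivity)
    calc (1 / 2 + δ / 10) * n ^ 2 ≤ (min (3 / 4) (1 / 2 + 49 / 50 * δ / 8) * (1 - δ / 50)) * n ^ 2 :=
          mul_le_mul_of_nonneg_right h1 (by positivity)
      _ = min (3 / 4) (1 / 2 + 49 / 50 * δ / 8) * ((1 - δ / 50) * n ^ 2) := by ring
      _ ≤ _ := mul_le_mul_of_nonneg_left hLlow h2
  have hmom : ∀ θ : ℝ, (1 / 2 + δ / 10) * n ^ 2 ≤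
      ∑ i : F, lam i * Real.exp (θ * (((a i : ℤ) : ℝ) - (t : ℝ))) := fun θ => hnum.trans (ht θ)
  have hpos : 0 < (1 / 2 + δ / 10) * n ^ 2 := by positivity
  obtain ⟨⟨i, hi, hti⟩, ⟨i', hi', hti'⟩⟩ := interior (ι := F) (fun i => lam i) (fun i => hlam0 _)
    (fun i => (a i : ℤ)) (fun i i' h => Subtype.ext (hinj _ i.2 _ i'.2 (Int.ofNat_inj.1 h))) t
    ((1 / 2 + δ / 10) * n ^ 2) hpos hmom (fun i => by
      refine lt_of_le_of_lt (Nat.cast_le.2 ?_) (hfirst _ i.2)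
      exact cnt_mono fun q hq => hq.2.2)
  have ht0 : 0 < t := lt_of_le_of_lt (Int.natCast_nonneg _) hti'
  obtain ⟨s, rfl⟩ := Int.eq_ofNat_of_zero_le ht0.le
  refine ⟨s, by exact_mod_cast ht0, ⟨i, i.2, by exact_mod_cast hti⟩, fun θ => ?_⟩
  have h1 := hmom θ
  rw [sum_coe_sort F (fun x => lam x * Real.exp (θ * (((a x : ℤ) : ℝ) - ((s : ℤ) : ℝ))))] at h1
  refine h1.trans (le_of_eq ?_)
  refine sum_congr rfl fun x _ => ?_
  push_cast
  rfl

end Pool.Agent.ZT
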