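import Pool.Agent.ZT.Defs

/-! # ZT : a good pair (set of colours, set of vertices) -/

set_option autoImplicit false

open Finset

namespace Pool.Agent.ZT

/-- The number of ordered pairs of `U` with colour in `F`. -/
private noncomputable def goodpair_E {V C : Type} [DecidableEq C] (c : V → V → C)
    (F : Finset C) (U : Finset V) : ℕ := ((U ×ˢ U).filter (fun q => c q.1 q.2 ∈ F)).card

private theorem goodpair_E_le {V C : Type} [DecidableEq C] (c : V → V → C)
    (F : Finset C) (U : Finset V) : goodpair_E c F U ≤ U.card ^ 2 := by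
  unfold goodpair_E
  refine (card_filter_le _ _).trans ?_
  rw [card_product, pow_two]

private theorem goodpair_E_univ {V C : Type} [Fintype V] [DecidableEq C] (c : V → V → C)
    (F : Finset C) :
    goodpair_E c F (univ : Finset V) + cnt (fun q : V × V => c q.1 q.2 ∉ F) = Fintype.card V ^ 2 := by
  classical
  unfold goodpair_E
  rw [cnt_eq_card, univ_product_univ, card_filter_add_card_filter_not, card_univ, Fintype.card_prod,
    pow_two]

private theorem goodpair_E_erase_vertex {V C : Type} [Fintype V] [DecidableEq V] [DecidableEq C]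
    (c : V → V → C) (hc : ∀ x y, c x y = c y x) (F : Finset C) (U : Finset V) (x : V) (hx : x ∈ U) :
    goodpair_E c F U ≤ goodpair_E c F (U.erase x) + 2 * cnt (fun y : V => y ∈ U ∧ c x y ∈ F) := by
  classical
  unfold goodpair_E
  rw [cnt_eq_card]
  set N := univ.filter (fun y : V => y ∈ U ∧ c x y ∈ F) with hN
  have hsub : (U ×ˢ U).filter (fun q => c q.1 q.2 ∈ F) ⊆
      ((U.erase x) ×ˢ (U.erase x)).filter (fun q => c q.1 q.2 ∈ F) ∪
        (N.image (fun y => (x, y)) ∪ N.image (fun y => (y, x))) := by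
    rintro ⟨a, b⟩ hq
    simp only [mem_filter, mem_product] at hq
    obtain ⟨⟨ha, hb⟩, hF⟩ := hq
    by_cases hax : a = x
    · subst hax
      refine mem_union_right _ (mem_union_left _ ?_)
      exact mem_image.2 ⟨b, by simp [hN, hb, hF], rfl⟩
    · by_cases hbx : b = x
      · subst hbx
        refine mem_union_right _ (mem_union_right _ ?_)
        exact mem_image.2 ⟨a, by simp [hN, ha, hc b a, hF], rfl⟩
      · refine mem_union_left _ ?_
        simp [ha, hb, hF, hax, hbx]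
  refine (card_le_card hsub).trans ((card_union_le _ _).trans ?_)
  refine Nat.add_le_add_left ((card_union_le _ _).trans ?_) _
  rw [two_mul]
  exact Nat.add_le_add card_image_le card_image_le

private theorem goodpair_E_erase_colour {V C : Type} [Fintype V] [DecidableEq C]
    (c : V → V → C) (F : Finset C) (U : Finset V) (a : C) :
    goodpair_E c F U ≤ goodpair_E c (F.erase a) U +
      cnt (fun q : V × V => q.1 ∈ U ∧ q.2 ∈ U ∧ c q.1 q.2 = a) := by
  classical
  unfold goodpair_E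
  rw [cnt_eq_card]
  refine (card_le_card ?_).trans (card_union_le _ _)
  rintro ⟨x, y⟩ hq
  simp only [mem_filter, mem_product] at hq
  obtain ⟨⟨hx, hy⟩, hF⟩ := hq
  by_cases hca : c x y = a
  · refine mem_union_right _ ?_
    simp [hx, hy, hca]
  · refine mem_union_left _ ?_
    simp [hx, hy, hca, hF]

/-- Good pairs.

PROOF.  Let `n = card V`, `β = 2 (1 - ρ3)`.  Among the (finitely many) pairs `(F, U)` with `F ⊆ F0`,
`U : Finset V`, `n - |U| ≤ ρ3 n`, choose one that maximises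
`Φ(F,U) = E_F(U) - β n |U| - κ n^2 |F|`, `E_F(U) = #{(x,y) ∈ U × U | c x y ∈ F}` (`(F0, univ)` is
such a pair).  Put `v = (n - |U|)/n`.  As `Φ(F0, univ) ≥ (1 - ρ1) n^2 - β n^2 - ρ1 n^2` and
`Φ(F,U) ≤ (1-v)^2 n^2 - β (1-v) n^2`, we get `v (2 ρ3 - v) ≤ 2 ρ1`, and `v ≤ ρ3` gives
`v ≤ 2 ρ1/ρ3 ≤ ρ3/2`; hence `(F, U \ {x})` is again admissible for `x ∈ U` (`1/n ≤ ρ3/2`), and
maximality gives `2 #{y ∈ U | c x y ∈ F} ≥ E_F(U) - E_F(U \ {x}) ≥ β n` (symmetry of `c`), i.e. the
degree condition.  For `a ∈ F` compare with `(F \ {a}, U)`: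
`#{(x,y) ∈ U × U | c x y = a} ≥ κ n^2`. -/
theorem good_pair {V C : Type} [Fintype V] [DecidableEq V] [DecidableEq C] (c : V → V → C)
    (hc : ∀ x y, c x y = c y x) (F0 : Finset C) (ρ1 ρ3 κ : ℝ) (h1 : 0 ≤ ρ1) (h3 : 0 < ρ3)
    (h3' : ρ3 ≤ 1) (h13 : 4 * ρ1 ≤ ρ3 ^ 2) (hκ0 : 0 ≤ κ) (hκ : κ * F0.card ≤ ρ1)
    (hn : 2 / ρ3 ≤ Fintype.card V)
    (h : (cnt (fun q : V × V => c q.1 q.2 ∉ F0) : ℝ) ≤ ρ1 * (Fintype.card V : ℝ) ^ 2) :
    ∃ F ⊆ F0, ∃ U : Finset V, (1 - ρ3) * Fintype.card V ≤ U.card ∧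
      (∀ x ∈ U, (1 - ρ3) * Fintype.card V ≤ cnt (fun y : V => y ∈ U ∧ c x y ∈ F)) ∧
      ∀ a ∈ F, κ * (Fintype.card V : ℝ) ^ 2 ≤
        cnt (fun q : V × V => q.1 ∈ U ∧ q.2 ∈ U ∧ c q.1 q.2 = a) := by
  classical
  set n : ℝ := (Fintype.card V : ℝ) with hndef
  have hn0 : 0 < n := lt_of_lt_of_le (by positivity) hn
  have hn1 : 1 ≤ ρ3 * n / 2 := by
    rw [div_le_iff₀ h3] at hn
    linarith
  set β : ℝ := 2 * (1 - ρ3) with hβ
  have hβ0 : 0 ≤ β := by
    rw [hβ]
    linarith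
  -- admissible pairs
  set Pr : Finset (Finset C × Finset V) := F0.powerset ×ˢ
    (univ : Finset (Finset V)).filter (fun U => n - (U.card : ℝ) ≤ ρ3 * n) with hPr
  have hPrm : ∀ F U, (F, U) ∈ Pr ↔ F ⊆ F0 ∧ n - (U.card : ℝ) ≤ ρ3 * n := by
    intro F U
    simp [hPr]
  set Φ : Finset C × Finset V → ℝ := fun q =>
    (goodpair_E c q.1 q.2 : ℝ) - β * n * q.2.card - κ * n ^ 2 * q.1.card with hΦ
  have hbase : (F0, (univ : Finset V)) ∈ Pr := by
    rw [hPrm]
    refine ⟨Subset.refl _, ?_⟩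
    rw [card_univ, ← hndef]
    have : 0 ≤ ρ3 * n := by positivity
    linarith
  obtain ⟨⟨F, U⟩, hFU, hmax⟩ := exists_max_image Pr Φ ⟨_, hbase⟩
  obtain ⟨hF, hU⟩ := (hPrm F U).1 hFU
  have hUn : (U.card : ℝ) ≤ n := by
    rw [hndef]
    exact_mod_cast card_le_univ U
  -- the first estimate
  have hw : n - (U.card : ℝ) ≤ ρ3 * n / 2 := by
    have h1' := hmax _ hbase
    simp only [hΦ] at h1'
    have e1 : (goodpair_E c F0 (univ : Finset V) : ℝ) + (cnt (fun q : V × V => c q.1 q.2 ∉ F0) : ℝ) =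
        n ^ 2 := by
      rw [hndef]
      exact_mod_cast goodpair_E_univ c F0
    have e2 : (goodpair_E c F U : ℝ) ≤ (U.card : ℝ) ^ 2 := by
      exact_mod_cast goodpair_E_le c F U
    have e3 : ((univ : Finset V).card : ℝ) = n := by rw [card_univ]
    rw [e3] at h1'
    have e4 : κ * n ^ 2 * F0.card ≤ ρ1 * n ^ 2 := by
      have := mul_le_mul_of_nonneg_right hκ (sq_nonneg n)
      calc κ * n ^ 2 * F0.card = κ * F0.card * n ^ 2 := by ring
        _ ≤ ρ1 * n ^ 2 := this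
    have e5 : 0 ≤ κ * n ^ 2 * (F.card : ℝ) := by positivity
    -- w = n - |U|
    set w : ℝ := n - (U.card : ℝ) with hwdef
    have hw0 : 0 ≤ w := by
      rw [hwdef]
      linarith
    have hu : (U.card : ℝ) = n - w := by
      rw [hwdef]
      ring
    rw [hu] at h1' e2
    have e6 : w * (2 * ρ3 * n - w) ≤ 2 * ρ1 * n ^ 2 := by
      rw [hβ] at h1'
      nlinarith
    have e7 : w * (ρ3 * n) ≤ w * (2 * ρ3 * n - w) := by
      refine mul_le_mul_of_nonneg_left ?_ hw0
      linarith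
    have e8 : 2 * ρ1 * n ^ 2 ≤ ρ3 * n / 2 * (ρ3 * n) := by
      have := mul_le_mul_of_nonneg_right h13 (sq_nonneg n)
      nlinarith
    exact le_of_mul_le_mul_right (e7.trans (e6.trans e8)) (by positivity)
  refine ⟨F, hF, U, ?_, ?_, ?_⟩
  · linarith
  · intro x hx
    have hc' : ((U.erase x).card : ℝ) = (U.card : ℝ) - 1 := by
      rw [card_erase_of_mem hx, Nat.cast_sub (card_pos.2 ⟨x, hx⟩)]
      norm_num
    have hadm : (F, U.erase x) ∈ Pr := by
      rw [hPrm]
      refine ⟨hF, ?_⟩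
      rw [hc']
      linarith
    have h1' := hmax _ hadm
    simp only [hΦ] at h1'
    rw [hc'] at h1'
    have h2' : (goodpair_E c F U : ℝ) ≤ (goodpair_E c F (U.erase x) : ℝ) +
        2 * (cnt (fun y : V => y ∈ U ∧ c x y ∈ F) : ℝ) := by
      exact_mod_cast goodpair_E_erase_vertex c hc F U x hx
    rw [hβ] at h1'
    linarith
  · intro a ha
    have hc' : ((F.erase a).card : ℝ) = (F.card : ℝ) - 1 := by
      rw [card_erase_of_mem ha, Nat.cast_sub (card_pos.2 ⟨a, ha⟩)]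
      norm_num
    have hadm : (F.erase a, U) ∈ Pr := by
      rw [hPrm]
      exact ⟨(erase_subset _ _).trans hF, hU⟩
    have h1' := hmax _ hadm
    simp only [hΦ] at h1'
    rw [hc'] at h1'
    have h2' : (goodpair_E c F U : ℝ) ≤ (goodpair_E c (F.erase a) U : ℝ) +
        (cnt (fun q : V × V => q.1 ∈ U ∧ q.2 ∈ U ∧ c q.1 q.2 = a) : ℝ) := by
      exact_mod_cast goodpair_E_erase_colour c F U a
    linarith

end Pool.Agent.ZT
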