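import Pool.Agent.ZT.Defs

/-! # ZT : two block values suffice (one-dimensional duality) -/

set_option autoImplicit false

open Finset

namespace Pool.Agent.ZT

theorem dual_aux (s1 s2 : ℤ) (w : ℝ) (h0 : 0 ≤ w) (h1 : w ≤ 1 / 2) (hw : w * s1 + (1 - w) * s2 = 0)
    (p1 p2 : ℝ) (hp1 : 0 < p1) (hp1' : p1 ≤ 1) (hp2 : 0 < p2) (hp2' : p2 ≤ 1) (E : ℝ)
    (hE : -E ≤ w * Real.log p1 + (1 - w) * Real.log p2) (M : ℕ) :
    ∃ n1 n2 : ℕ, n1 + n2 = M ∧ |(n1 : ℤ) * s1 + n2 * s2| ≤ |s2 - s1| ∧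
      Real.exp (-((M : ℝ) + 2) * E) ≤ p1 ^ n1 * p2 ^ n2 := by
  have hM : (0 : ℝ) ≤ M := Nat.cast_nonneg M
  have hwM : 0 ≤ w * M := mul_nonneg h0 hM
  obtain ⟨n1, hn1⟩ : ∃ n : ℕ, n = ⌊w * M⌋₊ := ⟨_, rfl⟩
  have f1 : (n1 : ℝ) ≤ w * M := by rw [hn1]; exact Nat.floor_le hwM
  have f2 : w * M < n1 + 1 := by rw [hn1]; exact Nat.lt_floor_add_one _
  have hn1M : n1 ≤ M := by
    have : (n1 : ℝ) ≤ M := f1.trans (by nlinarith)
    exact_mod_cast this
  have hn2 : ((M - n1 : ℕ) : ℝ) = M - n1 := by push_cast [hn1M]; ring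
  have l1 : Real.log p1 ≤ 0 := Real.log_nonpos hp1.le hp1'
  have l2 : Real.log p2 ≤ 0 := Real.log_nonpos hp2.le hp2'
  refine ⟨n1, M - n1, by omega, ?_, ?_⟩
  · have e1 : (((n1 : ℤ) * s1 + ((M - n1 : ℕ) : ℤ) * s2 : ℤ) : ℝ) = (n1 - w * M) * (s1 - s2) := by
      push_cast
      rw [hn2]
      linear_combination (M : ℝ) * hw
    have e2 : ((|(n1 : ℤ) * s1 + ((M - n1 : ℕ) : ℤ) * s2| : ℤ) : ℝ) ≤ ((|s2 - s1| : ℤ) : ℝ) := by
      rw [Int.cast_abs, e1, abs_mul, Int.cast_abs]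
      push_cast
      rw [abs_sub_comm (s2 : ℝ) s1]
      have : |(n1 : ℝ) - w * M| ≤ 1 := by
        rw [abs_le]
        constructor <;> linarith
      exact mul_le_of_le_one_left (abs_nonneg _) this
    exact_mod_cast e2
  · have e1 : w * M * Real.log p1 ≤ n1 * Real.log p1 := mul_le_mul_of_nonpos_right f1 l1
    have e2 : ((1 - w) * M + 1) * Real.log p2 ≤ ((M - n1 : ℕ) : ℝ) * Real.log p2 := by
      refine mul_le_mul_of_nonpos_right ?_ l2
      rw [hn2]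
      linarith
    have e3 : -(2 * E) ≤ Real.log p2 := by
      have g1 : w * Real.log p1 ≤ 0 := mul_nonpos_of_nonneg_of_nonpos h0 l1
      have g2 : (1 - w) * Real.log p2 ≤ 1 / 2 * Real.log p2 :=
        mul_le_mul_of_nonpos_right (by linarith) l2
      linarith
    have e4 : (M : ℝ) * -E ≤ M * (w * Real.log p1 + (1 - w) * Real.log p2) :=
      mul_le_mul_of_nonneg_left hE hM
    have e5 : -((M : ℝ) + 2) * E ≤ n1 * Real.log p1 + ((M - n1 : ℕ) : ℝ) * Real.log p2 := by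
      have g1 : (M : ℝ) * (w * Real.log p1 + (1 - w) * Real.log p2) =
          w * M * Real.log p1 + (1 - w) * M * Real.log p2 := by ring
      linarith
    have e6 : p1 ^ n1 * p2 ^ (M - n1) =
        Real.exp (n1 * Real.log p1 + ((M - n1 : ℕ) : ℝ) * Real.log p2) := by
      rw [Real.exp_add, Real.exp_nat_mul, Real.exp_nat_mul, Real.exp_log hp1, Real.exp_log hp2]
    rw [e6]
    exact Real.exp_le_exp.2 e5

/-- One-dimensional duality.

PROOF.  Let `g = log f` on `S⁺ = {s ∈ S | f s > 0}`, `Q' = log (Q / |S|)`.  For every `θ` some `s ∈ S⁺` has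
`f s e^{θ s} ≥ Q/|S|`, i.e. `g s + θ s ≥ Q'`.  Suppose the conclusion fails.  Then `g 0 < Q'` if `0 ∈ S⁺`
(`s1 = s2 = 0`), and for `s1 < 0 < s2` in `S⁺`, with `w = s2/(s2 - s1)`, we get
`s2 g(s1) - s1 g(s2) < Q' (s2 - s1)`, i.e. `(g s1 - Q')/(-s1) < (Q' - g s2)/s2`.  By
`Order.exists_between_finsets` there is `θ` with `(g s1 - Q')/(-s1) < θ < (Q' - g s2)/s2` for all such
`s1, s2`, and then `g s + θ s < Q'` for all `s ∈ S⁺`, a contradiction. -/
theorem dual (S : Finset ℤ) (f : ℤ → ℝ) (hf : ∀ s ∈ S, 0 ≤ f s) (Q : ℝ) (hQ : 0 < Q)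
    (h : ∀ θ : ℝ, Q ≤ ∑ s ∈ S, f s * Real.exp (θ * s)) :
    ∃ s1 ∈ S, ∃ s2 ∈ S, ∃ w : ℝ, 0 ≤ w ∧ w ≤ 1 ∧ w * s1 + (1 - w) * s2 = 0 ∧ 0 < f s1 ∧ 0 < f s2 ∧
      Real.log (Q / S.card) ≤ w * Real.log (f s1) + (1 - w) * Real.log (f s2) := by
  by_contra hcon
  push Not at hcon
  have hcard : 0 < S.card := by
    rw [Finset.card_pos, Finset.nonempty_iff_ne_empty]
    rintro rfl
    have := h 0
    rw [Finset.sum_empty] at this
    linarith
  have hn : (0 : ℝ) < S.card := by exact_mod_cast hcard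
  set Q' := Real.log (Q / S.card) with hQ'
  have hex : ∀ θ : ℝ, ∃ s ∈ S, 0 < f s ∧ Q' ≤ Real.log (f s) + θ * s := by
    intro θ
    by_contra hc
    push Not at hc
    have h1 : ∀ s ∈ S, f s * Real.exp (θ * s) < Q / S.card := by
      intro s hs
      rcases (hf s hs).lt_or_eq with h2 | h2
      · have h3 := hc s hs h2
        have h4 : f s * Real.exp (θ * s) = Real.exp (Real.log (f s) + θ * s) := by
          rw [Real.exp_add, Real.exp_log h2]
        rw [h4]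
        calc _ < Real.exp Q' := Real.exp_lt_exp.2 h3
          _ = Q / S.card := by rw [hQ', Real.exp_log (by positivity)]
      · rw [← h2, zero_mul]
        positivity
    have h2 : ∑ s ∈ S, f s * Real.exp (θ * s) < ∑ s ∈ S, Q / S.card :=
      Finset.sum_lt_sum_of_nonempty (Finset.card_pos.1 hcard) h1
    rw [Finset.sum_const, nsmul_eq_mul, mul_div_cancel₀ _ hn.ne'] at h2
    linarith [h θ]
  obtain ⟨θ, hθ1, hθ2⟩ := Order.exists_between_finsets
    ((S.filter fun s => 0 < f s ∧ s < 0).image fun s : ℤ => (Real.log (f s) - Q') / (-(s : ℝ)))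
    ((S.filter fun s => 0 < f s ∧ 0 < s).image fun s : ℤ => (Q' - Real.log (f s)) / (s : ℝ)) (by
      intro x hx y hy
      rw [Finset.mem_image] at hx hy
      obtain ⟨s1, hs1, rfl⟩ := hx
      obtain ⟨s2, hs2, rfl⟩ := hy
      rw [Finset.mem_filter] at hs1 hs2
      obtain ⟨m1, q1, r1⟩ := hs1
      obtain ⟨m2, q2, r2⟩ := hs2
      have r1' : (s1 : ℝ) < 0 := by exact_mod_cast r1
      have r2' : (0 : ℝ) < s2 := by exact_mod_cast r2
      have hd : (0 : ℝ) < s2 - s1 := by linarith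
      have h1 := hcon s1 m1 s2 m2 (s2 / (s2 - s1)) (by positivity)
        (by rw [div_le_one hd]; linarith) (by field_simp; ring) q1 q2
      rw [div_lt_div_iff₀ (by linarith) r2']
      have h2 : (s2 / (s2 - s1) * Real.log (f s1) + (1 - s2 / (s2 - s1)) * Real.log (f s2)) *
          (s2 - s1) = s2 * Real.log (f s1) - s1 * Real.log (f s2) := by
        field_simp
        ring
      have h3 := mul_lt_mul_of_pos_right h1 hd
      rw [h2] at h3
      linarith)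
  obtain ⟨s, hs, hfs, hle⟩ := hex θ
  rcases lt_trichotomy s 0 with h1 | h1 | h1
  · have h1' : (s : ℝ) < 0 := by exact_mod_cast h1
    have h2 := hθ1 _ (Finset.mem_image.2 ⟨s, Finset.mem_filter.2 ⟨hs, hfs, h1⟩, rfl⟩)
    rw [div_lt_iff₀ (by linarith)] at h2
    linarith
  · subst h1
    have h2 := hcon 0 hs 0 hs 0 le_rfl zero_le_one (by simp) hfs hfs
    simp only [zero_mul, sub_zero, one_mul, zero_add, Int.cast_zero, mul_zero, add_zero] at h2 hle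
    linarith
  · have h1' : (0 : ℝ) < s := by exact_mod_cast h1
    have h2 := hθ2 _ (Finset.mem_image.2 ⟨s, Finset.mem_filter.2 ⟨hs, hfs, h1⟩, rfl⟩)
    rw [lt_div_iff₀ h1'] at h2
    linarith

/-- Rounding the weights.

PROOF.  By symmetry `w ≤ 1/2`.  Take `n1 = ⌊w M⌋`, `n2 = M - n1`.  Then
`n1 s1 + n2 s2 = (n1 - w M)(s1 - s2)`; `n1 log p1 ≥ w M log p1` and
`n2 log p2 ≥ ((1-w) M + 1) log p2` as the logarithms are `≤ 0`, and `log p2 ≥ -E/(1-w) ≥ -2E`. -/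
theorem round_weights (s1 s2 : ℤ) (w : ℝ) (h0 : 0 ≤ w) (h1 : w ≤ 1) (hw : w * s1 + (1 - w) * s2 = 0)
    (p1 p2 : ℝ) (hp1 : 0 < p1) (hp1' : p1 ≤ 1) (hp2 : 0 < p2) (hp2' : p2 ≤ 1) (E : ℝ)
    (hE : -E ≤ w * Real.log p1 + (1 - w) * Real.log p2) (M : ℕ) :
    ∃ n1 n2 : ℕ, n1 + n2 = M ∧ |(n1 : ℤ) * s1 + n2 * s2| ≤ |s2 - s1| ∧
      Real.exp (-((M : ℝ) + 2) * E) ≤ p1 ^ n1 * p2 ^ n2 := by
  rcases le_total w (1 / 2) with h | h
  · exact dual_aux s1 s2 w h0 h hw p1 p2 hp1 hp1' hp2 hp2' E hE M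
  · obtain ⟨n2, n1, e1, e2, e3⟩ := dual_aux s2 s1 (1 - w) (by linarith) (by linarith)
      (by linarith) p2 p1 hp2 hp2' hp1 hp1' E (by linarith) M
    refine ⟨n1, n2, by omega, ?_, ?_⟩
    · rw [add_comm, abs_sub_comm s2 s1]
      exact e2
    · rw [mul_comm (p1 ^ n1)]
      exact e3

end Pool.Agent.ZT
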