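import Pool.Agent.ZT.Defs

/-! # ZT : Cauchy-Davenport for many sets, spread coins -/

set_option autoImplicit false

open Finset

namespace Pool.Agent.ZT

theorem coin_cd_aux (p : ℕ) [Fact p.Prime] (r : ℕ) (hr : 1 ≤ r) (J : ℕ) :
    ∀ (A : Fin J → Finset (ZMod p)), (∀ j, r ≤ (A j).card) →
      ∃ T : Finset (ZMod p), min p (J * (r - 1) + 1) ≤ T.card ∧
        ∀ τ ∈ T, ∃ a : Fin J → ZMod p, (∀ j, a j ∈ A j) ∧ ∑ j, a j = τ := by
  induction J with
  | zero =>
    intro A _
    refine ⟨{0}, ?_, ?_⟩
    · simp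
    · intro τ hτ
      rw [mem_singleton] at hτ
      exact ⟨fun j => j.elim0, fun j => j.elim0, by simp [hτ]⟩
  | succ J ih =>
    intro A hA
    obtain ⟨T, hT, hT'⟩ := ih (fun j => A j.succ) (fun j => hA _)
    have hA0 : (A 0).Nonempty := card_pos.1 (by have := hA 0; omega)
    have hp : 2 ≤ p := (Fact.out : p.Prime).two_le
    have hTne : T.Nonempty := card_pos.1 (by
      have : 1 ≤ min p (J * (r - 1) + 1) := le_min (by omega) (by omega)
      omega)
    refine ⟨Finset.image₂ (· + ·) (A 0) T, ?_, ?_⟩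
    · have := ZMod.cauchy_davenport (Fact.out : p.Prime) hA0 hTne
      refine le_trans ?_ this
      have h0 := hA 0
      have e : (J + 1) * (r - 1) = J * (r - 1) + (r - 1) := by ring
      rw [e]
      generalize J * (r - 1) = u at *
      omega
    · intro τ hτ
      obtain ⟨x, hx, y, hy, rfl⟩ := Finset.mem_image₂.1 hτ
      obtain ⟨a, ha, ha'⟩ := hT' y hy
      refine ⟨Fin.cons x a, ?_, ?_⟩
      · intro j
        refine Fin.cases ?_ (fun j => ?_) j
        · simpa using hx
        · simpa using ha j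
      · rw [Fin.sum_univ_succ]
        simp [ha']

theorem coin_fib {S : Type} [Fintype S] [DecidableEq S] (S0 : Finset S) (r : ℕ) (i : Fin r) (x : S)
    (h0 : 0 < S0.card) :
    ((Fintype.piFinset (fun _ : Fin r => S0)).filter (fun b => b i = x)).card ≤ S0.card ^ (r - 1) := by
  classical
  have h1 : (((Fintype.piFinset (fun _ : Fin r => S0)).filter (fun b => b i = x)) ×ˢ S0).card ≤
      (Fintype.piFinset (fun _ : Fin r => S0)).card := by
    refine card_le_card_of_injOn (fun q => Function.update q.1 i q.2) ?_ ?_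
    · rintro ⟨b, s⟩ hq
      simp only [coe_product, coe_filter, Set.mem_prod, Set.mem_ofPred_eq, mem_coe,
        Fintype.mem_piFinset] at hq
      simp only [mem_coe, Fintype.mem_piFinset]
      intro k
      by_cases hk : k = i
      · subst hk
        simpa using hq.2
      · rw [Function.update_of_ne hk]
        exact hq.1.1 k
    · rintro ⟨b, s⟩ hq ⟨b', s'⟩ hq' he
      simp only [coe_product, coe_filter, Set.mem_prod, Set.mem_ofPred_eq, mem_coe,
        Fintype.mem_piFinset] at hq hq'
      simp only at he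
      have e1 : s = s' := by
        have := congrFun he i
        simpa using this
      have e2 : b = b' := by
        funext k
        by_cases hk : k = i
        · subst hk
          rw [hq.1.2, hq'.1.2]
        · have := congrFun he k
          simpa [Function.update_of_ne hk] using this
      rw [e1, e2]
  rw [card_product, Fintype.card_piFinset] at h1
  simp only [prod_const, card_univ, Fintype.card_fin] at h1
  have hr : S0.card ^ r = S0.card ^ (r - 1) * S0.card := by
    rw [← pow_succ]
    congr 1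
    have := i.2
    omega
  rw [hr] at h1
  exact Nat.le_of_mul_le_mul_right h1 h0

theorem coin_pair (p : ℕ) {S : Type} [Fintype S] [DecidableEq S] (f : S → ZMod p)
    (S0 : Finset S) (θ : ℝ) (r : ℕ)
    (hθ : ∀ g, (cnt (fun s : S => s ∈ S0 ∧ f s = g) : ℝ) ≤ θ * S0.card) (i i' : Fin r)
    (hi : i ≠ i') (h0 : 0 < S0.card) :
    (((Fintype.piFinset (fun _ : Fin r => S0)).filter (fun b => f (b i) = f (b i'))).card : ℝ) ≤
      θ * (S0.card : ℝ) ^ r := by
  classical
  set P := Fintype.piFinset (fun _ : Fin r => S0) with hP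
  have hPc : P.card = S0.card ^ r := by
    rw [hP, Fintype.card_piFinset]
    simp
  have h1 : ((P.filter (fun b => f (b i) = f (b i'))) ×ˢ S0).card ≤
      (P.sigma (fun b => S0.filter (fun s => f s = f (b i')))).card := by
    refine card_le_card_of_injOn (fun q => ⟨Function.update q.1 i q.2, q.1 i⟩) ?_ ?_
    · rintro ⟨b, s⟩ hq
      simp only [coe_product, coe_filter, Set.mem_prod, Set.mem_ofPred_eq, mem_coe,
        hP, Fintype.mem_piFinset] at hq
      simp only [mem_coe, mem_sigma, mem_filter, hP, Fintype.mem_piFinset]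
      refine ⟨fun k => ?_, hq.1.1 i, ?_⟩
      · by_cases hk : k = i
        · subst hk
          simpa using hq.2
        · rw [Function.update_of_ne hk]
          exact hq.1.1 k
      · rw [Function.update_of_ne hi.symm]
        exact hq.1.2
    · rintro ⟨b, s⟩ hq ⟨b', s'⟩ hq' he
      simp only [Sigma.mk.injEq, heq_eq_eq] at he
      have e1 : s = s' := by
        have := congrFun he.1 i
        simpa using this
      have e2 : b = b' := by
        funext k
        by_cases hk : k = i
        · subst hk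
          exact he.2
        · have := congrFun he.1 k
          simpa [Function.update_of_ne hk] using this
      rw [e1, e2]
  rw [card_product, card_sigma] at h1
  have h2 : ((∑ b ∈ P, (S0.filter (fun s => f s = f (b i'))).card : ℕ) : ℝ) ≤
      (S0.card : ℝ) ^ r * (θ * S0.card) := by
    push_cast
    calc ∑ b ∈ P, ((S0.filter (fun s => f s = f (b i'))).card : ℝ) ≤ ∑ b ∈ P, (θ * S0.card) := by
          refine sum_le_sum fun b _ => ?_
          have h3 := hθ (f (b i'))
          rw [cnt_eq_card] at h3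
          have e : S0.filter (fun s => f s = f (b i')) =
              univ.filter (fun s : S => s ∈ S0 ∧ f s = f (b i')) := by
            ext s
            simp
          rw [e]
          exact h3
      _ = (S0.card : ℝ) ^ r * (θ * S0.card) := by
          rw [sum_const, hPc, nsmul_eq_mul]
          push_cast
          ring
  have h3 : ((P.filter (fun b => f (b i) = f (b i'))).card : ℝ) * S0.card ≤
      (S0.card : ℝ) ^ r * (θ * S0.card) := by
    refine le_trans ?_ h2
    exact_mod_cast h1
  have h4 : (0 : ℝ) < S0.card := by exact_mod_cast h0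
  have h5 : ((P.filter (fun b => f (b i) = f (b i'))).card : ℝ) * S0.card ≤
      (θ * (S0.card : ℝ) ^ r) * S0.card := by
    refine le_trans h3 (le_of_eq ?_)
    ring
  exact le_of_mul_le_mul_right h5 h4

theorem coin_rows (p : ℕ) {S : Type} [Fintype S] [DecidableEq S] (f : S → ZMod p)
    (S0 : Finset S) (θ : ℝ) (r : ℕ)
    (hθ : ∀ g, (cnt (fun s : S => s ∈ S0 ∧ f s = g) : ℝ) ≤ θ * S0.card)
    (hrθ : (r : ℝ) ^ 2 * θ ≤ 1) (h0 : 0 < S0.card) :
    (S0.card : ℝ) ^ r / 2 ≤ (((Fintype.piFinset (fun _ : Fin r => S0)).filter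
      (fun b => ∀ i i', f (b i) = f (b i') → i = i')).card : ℝ) := by
  classical
  set P := Fintype.piFinset (fun _ : Fin r => S0) with hP
  have hPc : P.card = S0.card ^ r := by
    rw [hP, Fintype.card_piFinset]
    simp
  have hθ0 : 0 ≤ θ := by
    have h3 := hθ 0
    have h4 : (0 : ℝ) < S0.card := by exact_mod_cast h0
    have h5 : (0 : ℝ) ≤ θ * S0.card := le_trans (Nat.cast_nonneg _) h3
    by_contra hneg
    have := mul_neg_of_neg_of_pos (not_le.1 hneg) h4
    linarith
  have hsplit := card_filter_add_card_filter_not (s := P)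
    (fun b : Fin r → S => ∀ i i', f (b i) = f (b i') → i = i')
  -- the bad rows
  set Bd := P.filter (fun b => ¬ ∀ i i', f (b i) = f (b i') → i = i') with hBd
  set Q := (univ : Finset (Fin r × Fin r)).filter (fun q => q.1 < q.2) with hQ
  have h1 : Bd ⊆ Q.biUnion (fun q => P.filter (fun b => f (b q.1) = f (b q.2))) := by
    intro b hb
    rw [hBd, mem_filter] at hb
    obtain ⟨hbP, hb⟩ := hb
    push Not at hb
    obtain ⟨i, i', he, hne⟩ := hb
    rw [mem_biUnion]
    rcases lt_or_gt_of_ne hne with hlt | hlt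
    · exact ⟨(i, i'), by simp [hQ, hlt], by simp [hbP, he]⟩
    · exact ⟨(i', i), by simp [hQ, hlt], by simp [hbP, he]⟩
  have h2 : (Bd.card : ℝ) ≤ Q.card * (θ * (S0.card : ℝ) ^ r) := by
    calc (Bd.card : ℝ) ≤ ((Q.biUnion (fun q => P.filter (fun b => f (b q.1) = f (b q.2)))).card : ℝ) := by
          exact_mod_cast card_le_card h1
      _ ≤ ((∑ q ∈ Q, (P.filter (fun b => f (b q.1) = f (b q.2))).card : ℕ) : ℝ) := by
          exact_mod_cast card_biUnion_le
      _ = ∑ q ∈ Q, ((P.filter (fun b => f (b q.1) = f (b q.2))).card : ℝ) := by push_cast; rfl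
      _ ≤ ∑ q ∈ Q, θ * (S0.card : ℝ) ^ r := by
          refine sum_le_sum fun q hq => ?_
          have hq' : q.1 < q.2 := by simpa [hQ] using hq
          exact coin_pair p f S0 θ r hθ q.1 q.2 (ne_of_lt hq') h0
      _ = Q.card * (θ * (S0.card : ℝ) ^ r) := by rw [sum_const, nsmul_eq_mul]
  have h3 : 2 * Q.card ≤ r ^ 2 := by
    set Q' := (univ : Finset (Fin r × Fin r)).filter (fun q => q.2 < q.1) with hQ'
    have e1 : Q.card = Q'.card := by
      refine card_bij (fun q _ => (q.2, q.1)) ?_ ?_ ?_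
      · intro q hq
        have hq' : q.1 < q.2 := by simpa [hQ] using hq
        simp [hQ', hq']
      · rintro ⟨a, b⟩ _ ⟨c, d⟩ _ h
        simp only [Prod.mk.injEq] at h
        simp [h.1, h.2]
      · rintro ⟨a, b⟩ hq
        have hq' : b < a := by simpa [hQ'] using hq
        exact ⟨(b, a), by simp [hQ, hq'], rfl⟩
    have e2 : Disjoint Q Q' := by
      rw [disjoint_left]
      intro q h h'
      have a1 : q.1 < q.2 := by simpa [hQ] using h
      have a2 : q.2 < q.1 := by simpa [hQ'] using h'
      exact absurd a1 (not_lt.2 (le_of_lt a2))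
    have e3 := card_union_of_disjoint e2
    have e4 : (Q ∪ Q').card ≤ (univ : Finset (Fin r × Fin r)).card := card_le_card (subset_univ _)
    rw [card_univ, Fintype.card_prod, Fintype.card_fin] at e4
    rw [pow_two]
    omega
  have h3' : 2 * (Q.card : ℝ) ≤ (r : ℝ) ^ 2 := by exact_mod_cast h3
  have h4 : (0 : ℝ) ≤ θ * (S0.card : ℝ) ^ r := by positivity
  have h5 : 2 * (Bd.card : ℝ) ≤ (S0.card : ℝ) ^ r := by
    have a1 : 2 * (Bd.card : ℝ) ≤ (2 * Q.card) * (θ * (S0.card : ℝ) ^ r) := by linarith
    have a2 : (2 * (Q.card : ℝ)) * (θ * (S0.card : ℝ) ^ r) ≤ (r : ℝ) ^ 2 * (θ * (S0.card : ℝ) ^ r) :=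
      mul_le_mul_of_nonneg_right h3' h4
    have a3 : (r : ℝ) ^ 2 * (θ * (S0.card : ℝ) ^ r) = ((r : ℝ) ^ 2 * θ) * (S0.card : ℝ) ^ r := by ring
    have a4 : ((r : ℝ) ^ 2 * θ) * (S0.card : ℝ) ^ r ≤ 1 * (S0.card : ℝ) ^ r :=
      mul_le_mul_of_nonneg_right hrθ (by positivity)
    linarith
  have h6 : ((P.filter (fun b => ∀ i i', f (b i) = f (b i') → i = i')).card : ℝ) + Bd.card =
      (S0.card : ℝ) ^ r := by
    rw [hPc] at hsplit
    exact_mod_cast hsplit
  linarith


/-- Cauchy-Davenport for `J` sets: by induction on `J` the sumset of the first `j` sets has at least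
`min (p, j (r - 1) + 1)` elements (`ZMod.cauchy_davenport`). -/
theorem cd_sets (p : ℕ) [Fact p.Prime] (J r : ℕ) (hr : 1 ≤ r) (A : Fin J → Finset (ZMod p))
    (hA : ∀ j, r ≤ (A j).card) (hJ : p ≤ J * (r - 1) + 1) (τ : ZMod p) :
    ∃ a : Fin J → ZMod p, (∀ j, a j ∈ A j) ∧ ∑ j, a j = τ := by
  classical
  obtain ⟨T, hT, hT'⟩ := coin_cd_aux p r hr J A hA
  have h1 : p ≤ T.card := by
    rw [min_eq_left hJ] at hT
    exact hT
  have h2 : T = univ := by
    rw [← card_eq_iff_eq_univ, ZMod.card]
    refine le_antisymm ?_ h1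
    have := card_le_univ T
    rwa [ZMod.card] at this
  exact hT' τ (by rw [h2]; exact mem_univ _)

/-- Spread coins: if every fibre of `f` on `S0` has at most `θ |S0|` elements, `r^2 θ ≤ 1` and
`J (r - 1) + 1 ≥ p`, then at least `(|S0| / 2r)^J` of the `J`-tuples have `f`-sum `τ`.

PROOF.  Let `σ = |S0|`.  Consider matrices `B : Fin J → Fin r → S0` such that in every row the values
`f (B j i)` are pairwise different: their number is at least `(σ^r (1 - C(r,2) θ))^J ≥ (σ^r / 2)^J`
(union bound over the pairs of columns: for `i < i'` at most `θ σ^r` rows have `f (B i) = f (B i')`).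
For each of them `cd_sets` (with `A j = {f (B j i) | i}`) gives `i : Fin J → Fin r` with
`∑_j f (B j (i j)) = τ`.  The map `B ↦ (i, (B j (i j))_j, the other entries)` is injective, so
`(σ^r / 2)^J ≤ r^J · #{s : Fin J → S | ∑ f (s j) = τ} · σ^((r-1) J)`. -/
theorem coin (p : ℕ) [Fact p.Prime] {S : Type} [Fintype S] [DecidableEq S] (f : S → ZMod p)
    (S0 : Finset S) (θ : ℝ) (r J : ℕ) (hr : 1 ≤ r)
    (hθ : ∀ g, (cnt (fun s : S => s ∈ S0 ∧ f s = g) : ℝ) ≤ θ * S0.card)
    (hrθ : (r : ℝ) ^ 2 * θ ≤ 1) (hJ : p ≤ J * (r - 1) + 1) (τ : ZMod p) :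
    ((S0.card : ℝ) / (2 * r)) ^ J ≤ (cnt (fun s : Fin J → S => ∑ j, f (s j) = τ) : ℝ) := by
  classical
  have hp : 2 ≤ p := (Fact.out : p.Prime).two_le
  have hJ0 : J ≠ 0 := by
    rintro rfl
    simp at hJ
    omega
  rcases Nat.eq_zero_or_pos S0.card with h0 | h0
  · rw [h0]
    simp [hJ0]
  set P := Fintype.piFinset (fun _ : Fin r => S0) with hP
  set R := P.filter (fun b => ∀ i i', f (b i) = f (b i') → i = i') with hR
  set T := (univ : Finset (Fin J → S)).filter (fun s => ∑ j, f (s j) = τ) with hT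
  have hrows : (S0.card : ℝ) ^ r / 2 ≤ (R.card : ℝ) := coin_rows p f S0 θ r hθ hrθ h0
  set G := Fintype.piFinset (fun _ : Fin J => R) with hG
  have hGc : G.card = R.card ^ J := by
    rw [hG, Fintype.card_piFinset]
    simp
  have hsub : G ⊆ (univ : Finset (Fin J → Fin r)).biUnion (fun i => T.biUnion (fun s =>
      Fintype.piFinset (fun j => P.filter (fun b => b (i j) = s j)))) := by
    intro B hB
    rw [hG, Fintype.mem_piFinset] at hB
    have hB1 : ∀ j, B j ∈ P := fun j => (mem_filter.1 (hB j)).1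
    have hB2 : ∀ j, ∀ i i', f (B j i) = f (B j i') → i = i' := fun j => (mem_filter.1 (hB j)).2
    obtain ⟨a, ha, hs⟩ := cd_sets p J r hr (fun j => univ.image (fun i : Fin r => f (B j i)))
      (fun j => by
        rw [card_image_of_injective _ (fun i i' h => hB2 j i i' h), card_univ, Fintype.card_fin]) hJ τ
    have ha' : ∀ j, ∃ i : Fin r, f (B j i) = a j := fun j => by
      obtain ⟨i, _, hi⟩ := mem_image.1 (ha j)
      exact ⟨i, hi⟩
    choose i hi using ha'
    rw [mem_biUnion]
    refine ⟨i, mem_univ _, ?_⟩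
    rw [mem_biUnion]
    refine ⟨fun j => B j (i j), ?_, ?_⟩
    · rw [hT, mem_filter]
      refine ⟨mem_univ _, ?_⟩
      rw [← hs]
      exact sum_congr rfl fun j _ => hi j
    · rw [Fintype.mem_piFinset]
      intro j
      rw [mem_filter]
      exact ⟨hB1 j, rfl⟩
  have hcard : R.card ^ J ≤ r ^ J * (T.card * (S0.card ^ (r - 1)) ^ J) := by
    rw [← hGc]
    refine (card_le_card hsub).trans (card_biUnion_le.trans ?_)
    calc ∑ i : Fin J → Fin r, (T.biUnion (fun s =>
          Fintype.piFinset (fun j => P.filter (fun b => b (i j) = s j)))).card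
        ≤ ∑ i : Fin J → Fin r, (T.card * (S0.card ^ (r - 1)) ^ J) := by
          refine sum_le_sum fun i _ => ?_
          refine card_biUnion_le.trans ?_
          calc ∑ s ∈ T, (Fintype.piFinset (fun j => P.filter (fun b => b (i j) = s j))).card
              ≤ ∑ s ∈ T, (S0.card ^ (r - 1)) ^ J := by
                refine sum_le_sum fun s _ => ?_
                rw [Fintype.card_piFinset]
                calc ∏ j, (P.filter (fun b => b (i j) = s j)).card ≤ ∏ _j : Fin J, S0.card ^ (r - 1) :=
                      prod_le_prod (fun _ _ => Nat.zero_le _) (fun j _ => coin_fib S0 r (i j) (s j) h0)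
                  _ = (S0.card ^ (r - 1)) ^ J := by simp
            _ = T.card * (S0.card ^ (r - 1)) ^ J := by rw [sum_const, smul_eq_mul]
      _ = r ^ J * (T.card * (S0.card ^ (r - 1)) ^ J) := by
          rw [sum_const, smul_eq_mul, card_univ, Fintype.card_fun, Fintype.card_fin, Fintype.card_fin]
  have hcard' : (R.card : ℝ) ^ J ≤ (r : ℝ) ^ J * (T.card * ((S0.card : ℝ) ^ (r - 1)) ^ J) := by
    exact_mod_cast hcard
  have hTc : (cnt (fun s : Fin J → S => ∑ j, f (s j) = τ) : ℝ) = T.card := by
    rw [cnt_eq_card]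
  rw [hTc]
  have hσ : (0 : ℝ) < S0.card := by exact_mod_cast h0
  have hr0 : (0 : ℝ) < r := by exact_mod_cast hr
  have hpow : (S0.card : ℝ) ^ r = (S0.card : ℝ) ^ (r - 1) * S0.card := by
    rw [← pow_succ]
    congr 1
    omega
  have h1 : ((S0.card : ℝ) ^ r / 2) ^ J ≤ (R.card : ℝ) ^ J :=
    pow_le_pow_left₀ (by positivity) hrows J
  have h2 : ((S0.card : ℝ) ^ r / 2) ^ J =
      ((S0.card : ℝ) / (2 * r)) ^ J * ((r : ℝ) ^ J * ((S0.card : ℝ) ^ (r - 1)) ^ J) := by
    rw [← mul_pow, ← mul_pow]
    congr 1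
    rw [hpow]
    field_simp
  have h3 : ((S0.card : ℝ) / (2 * r)) ^ J * ((r : ℝ) ^ J * ((S0.card : ℝ) ^ (r - 1)) ^ J) ≤
      (T.card : ℝ) * ((r : ℝ) ^ J * ((S0.card : ℝ) ^ (r - 1)) ^ J) := by
    rw [← h2]
    refine h1.trans (hcard'.trans (le_of_eq ?_))
    ring
  exact le_of_mul_le_mul_right h3 (by positivity)

end Pool.Agent.ZT
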