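import Pool.Agent.ZT.Defs

/-! # ZT : Chebyshev, typical placements -/

set_option autoImplicit false

open Finset

namespace Pool.Agent.ZT

theorem cheb_second {V : Type} [Fintype V] (g : V → ℝ) (hg : ∑ v, g v = 0) (N : ℕ) :
    (Fintype.card V : ℝ) * ∑ x : Fin N → V, (∑ i, g (x i)) ^ 2 =
      N * (Fintype.card V : ℝ) ^ N * ∑ v, g v ^ 2 := by
  classical
  induction N with
  | zero => simp
  | succ N ih =>
    have e1 : ∑ x : Fin (N + 1) → V, (∑ i, g (x i)) ^ 2 =
        ∑ v : V, ∑ x : Fin N → V, (g v + ∑ i, g (x i)) ^ 2 := by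
      rw [← Fintype.sum_prod_type']
      refine (Fintype.sum_equiv (Fin.consEquiv fun _ : Fin (N + 1) => V) _ _ fun q => ?_).symm
      show (g q.1 + ∑ i, g (q.2 i)) ^ 2 = (∑ i, g ((Fin.cons q.1 q.2 : Fin (N + 1) → V) i)) ^ 2
      rw [Fin.sum_univ_succ]
      simp only [Fin.cons_zero, Fin.cons_succ]
    have e2 : ∀ v : V, ∑ x : Fin N → V, (g v + ∑ i, g (x i)) ^ 2 =
        (Fintype.card V : ℝ) ^ N * g v ^ 2 + g v * (2 * ∑ x : Fin N → V, ∑ i, g (x i)) +
          ∑ x : Fin N → V, (∑ i, g (x i)) ^ 2 := by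
      intro v
      have e3 : ∀ x : Fin N → V, (g v + ∑ i, g (x i)) ^ 2 =
          g v ^ 2 + g v * (2 * ∑ i, g (x i)) + (∑ i, g (x i)) ^ 2 := fun x => by ring
      rw [sum_congr rfl fun x _ => e3 x, sum_add_distrib, sum_add_distrib, ← mul_sum, ← mul_sum]
      congr 2
      rw [sum_const, card_univ, Fintype.card_fun, Fintype.card_fin, nsmul_eq_mul]
      push_cast
      ring
    rw [e1, sum_congr rfl fun v _ => e2 v, sum_add_distrib, sum_add_distrib, ← mul_sum, ← sum_mul, hg,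
      zero_mul, add_zero, sum_const, card_univ, nsmul_eq_mul]
    rw [mul_add, ih]
    push_cast
    ring

/-- Chebyshev: for `f : V → [0,1]` with mean `μ` the number of `x : Fin N → V` with
`|∑ f (x i) - N μ| ≥ ε N` is at most `n^N μ / (ε^2 N)`.

PROOF.  `∑_x (∑_i (f (x i) - μ))^2 = N n^(N-1) ∑_v (f v - μ)^2 ≤ N n^N μ` (cross terms vanish,
`∑_v (f v - μ)^2 ≤ ∑_v f v ^2 ≤ ∑_v f v = μ n`), and every bad `x` contributes at least `ε^2 N^2`. -/
theorem cheb {V : Type} [Fintype V] (N : ℕ) (f : V → ℝ) (h0 : ∀ x, 0 ≤ f x) (h1 : ∀ x, f x ≤ 1)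
    (μ : ℝ) (hμ0 : 0 ≤ μ) (hμ : ∑ v, f v = μ * Fintype.card V) (ε : ℝ) (hε : 0 < ε) :
    (cnt (fun x : Fin N → V => ε * N ≤ |∑ i, f (x i) - N * μ|) : ℝ) * (ε ^ 2 * N)
    ≤ (Fintype.card V : ℝ) ^ N * μ := by
  classical
  rcases Nat.eq_zero_or_pos N with hN | hN
  · subst hN
    simp only [Nat.cast_zero, mul_zero, pow_zero, one_mul]
    exact hμ0
  have hN' : (0 : ℝ) < N := by exact_mod_cast hN
  set g : V → ℝ := fun v => f v - μ with hg
  have hg0 : ∑ v, g v = 0 := by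
    rw [hg, sum_sub_distrib, hμ, sum_const, card_univ, nsmul_eq_mul]
    ring
  have hsq : ∑ v, g v ^ 2 ≤ μ * Fintype.card V := by
    have e1 : ∀ v, g v ^ 2 = f v ^ 2 - 2 * μ * f v + μ ^ 2 := fun v => by simp only [hg]; ring
    rw [sum_congr rfl fun v _ => e1 v, sum_add_distrib, sum_sub_distrib, ← mul_sum, hμ, sum_const,
      card_univ, nsmul_eq_mul]
    have h2 : ∑ v, f v ^ 2 ≤ ∑ v, f v := by
      refine sum_le_sum fun v _ => ?_
      nlinarith [h0 v, h1 v]
    rw [hμ] at h2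
    have h3 : (0 : ℝ) ≤ Fintype.card V := Nat.cast_nonneg _
    nlinarith [mul_nonneg (mul_nonneg hμ0 hμ0) h3]
  -- the second moment
  have hS : ∑ x : Fin N → V, (∑ i, g (x i)) ^ 2 ≤ N * (Fintype.card V : ℝ) ^ N * μ := by
    rcases Nat.eq_zero_or_pos (Fintype.card V) with hV | hV
    · have : IsEmpty V := Fintype.card_eq_zero_iff.1 hV
      have : IsEmpty (Fin N → V) := by
        refine ⟨fun x => ?_⟩
        exact isEmptyElim (x ⟨0, hN⟩)
      rw [Finset.univ_eq_empty, sum_empty]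
      positivity
    · have hV' : (0 : ℝ) < Fintype.card V := by exact_mod_cast hV
      have h2 := cheb_second g hg0 N
      have h3 : (Fintype.card V : ℝ) * ∑ x : Fin N → V, (∑ i, g (x i)) ^ 2 ≤
          (Fintype.card V : ℝ) * (N * (Fintype.card V : ℝ) ^ N * μ) := by
        rw [h2]
        calc (N : ℝ) * (Fintype.card V : ℝ) ^ N * ∑ v, g v ^ 2
            ≤ N * (Fintype.card V : ℝ) ^ N * (μ * Fintype.card V) := by gcongr
          _ = _ := by ring
      exact le_of_mul_le_mul_left h3 hV'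
  have hbad : (cnt (fun x : Fin N → V => ε * N ≤ |∑ i, f (x i) - N * μ|) : ℝ) * (ε * N) ^ 2 ≤
      ∑ x : Fin N → V, (∑ i, g (x i)) ^ 2 := by
    rw [cnt_eq_sum, sum_mul]
    refine sum_le_sum fun x _ => ?_
    split_ifs with h
    · rw [one_mul]
      have e : ∑ i, g (x i) = ∑ i, f (x i) - N * μ := by
        simp only [hg]
        rw [sum_sub_distrib, sum_const, card_univ, Fintype.card_fin, nsmul_eq_mul]
      rw [e, ← sq_abs (∑ i, f (x i) - N * μ)]
      exact pow_le_pow_left₀ (by positivity) h 2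
    · rw [zero_mul]
      positivity
  have h4 := hbad.trans hS
  have h5 : (N : ℝ) * ((cnt (fun x : Fin N → V => ε * N ≤ |∑ i, f (x i) - N * μ|) : ℝ) * (ε ^ 2 * N)) ≤
      N * ((Fintype.card V : ℝ) ^ N * μ) := by
    calc _ = (cnt (fun x : Fin N → V => ε * N ≤ |∑ i, f (x i) - N * μ|) : ℝ) * (ε * N) ^ 2 := by ring
      _ ≤ _ := h4
      _ = _ := by ring
  exact le_of_mul_le_mul_left h5 hN'

theorem cheb_cnt_prod {S T : Type} [Fintype S] [Fintype T] (R : S → T → Prop) :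
    (cnt (fun q : S × T => R q.1 q.2) : ℝ) = ∑ s, (cnt (fun t => R s t) : ℝ) := by
  classical
  rw [cnt_eq_sum, Fintype.sum_prod_type]
  exact sum_congr rfl fun s _ => (cnt_eq_sum _).symm

theorem cheb_cnt_prod' {S T : Type} [Fintype S] [Fintype T] (R : S → T → Prop) :
    (cnt (fun q : S × T => R q.1 q.2) : ℝ) = ∑ t, (cnt (fun s => R s t) : ℝ) := by
  classical
  rw [cnt_eq_sum, Fintype.sum_prod_type_right]
  exact sum_congr rfl fun s _ => (cnt_eq_sum _).symm

theorem cheb_union {S G : Type} [Fintype S] (F : Finset G) (B : G → S → Prop) :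
    (cnt (fun s : S => ∃ a ∈ F, B a s) : ℝ) ≤ ∑ a ∈ F, (cnt (B a) : ℝ) := by
  classical
  rw [cnt_eq_sum, sum_congr rfl fun a _ => cnt_eq_sum (B a), sum_comm]
  refine sum_le_sum fun s _ => ?_
  split_ifs with h
  · obtain ⟨a, ha, hB⟩ := h
    calc (1 : ℝ) = if B a s then 1 else 0 := by rw [if_pos hB]
      _ ≤ ∑ a ∈ F, if B a s then (1 : ℝ) else 0 :=
        single_le_sum (f := fun a => if B a s then (1 : ℝ) else 0)
          (fun a _ => by split_ifs <;> norm_num) ha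
  · exact sum_nonneg fun a _ => by split_ifs <;> norm_num

theorem cheb_disj {S G : Type} [Fintype S] [DecidableEq G] (F : Finset G) (h : S → G) :
    ∑ a ∈ F, (cnt (fun s : S => h s = a) : ℝ) ≤ Fintype.card S := by
  classical
  rw [sum_congr rfl fun a _ => cnt_eq_sum (fun s : S => h s = a), sum_comm]
  have e : (Fintype.card S : ℝ) = ∑ _s : S, (1 : ℝ) := by
    rw [sum_const, card_univ, nsmul_eq_mul, mul_one]
  rw [e]
  refine sum_le_sum fun s _ => ?_
  rw [sum_ite_eq]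
  split_ifs <;> norm_num

theorem cheb_rel {V : Type} [Fintype V] (hV : 0 < Fintype.card V) (R : V → V → Prop) (N : ℕ) (l : ℝ)
    (hl : (cnt (fun q : V × V => R q.1 q.2) : ℝ) = l * (Fintype.card V : ℝ) ^ 2) (ε : ℝ) (hε : 0 < ε) :
    (cnt (fun x : Fin N → V => ε * N * Fintype.card V ≤
      |(cnt (fun s : Fin N × V => R s.2 (x s.1)) : ℝ) - N * l * Fintype.card V|) : ℝ) * (ε ^ 2 * N) ≤
      (Fintype.card V : ℝ) ^ N * l := by
  have hV' : (0 : ℝ) < Fintype.card V := by exact_mod_cast hV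
  have hl0 : 0 ≤ l := by
    have h1 : (0 : ℝ) ≤ l * (Fintype.card V : ℝ) ^ 2 := by
      rw [← hl]
      exact Nat.cast_nonneg _
    have h2 : (0 : ℝ) < (Fintype.card V : ℝ) ^ 2 := by positivity
    exact nonneg_of_mul_nonneg_left h1 h2
  have hs : ∑ v, (cnt (fun z => R z v) : ℝ) / Fintype.card V = l * Fintype.card V := by
    rw [← sum_div, ← cheb_cnt_prod' R, hl]
    field_simp
  have hx : ∀ x : Fin N → V, (cnt (fun s : Fin N × V => R s.2 (x s.1)) : ℝ) =
      Fintype.card V * ∑ i, (cnt (fun z => R z (x i)) : ℝ) / Fintype.card V := by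
    intro x
    rw [cheb_cnt_prod (fun (i : Fin N) (z : V) => R z (x i)), ← sum_div]
    field_simp
  have key := cheb N (fun v => (cnt (fun z => R z v) : ℝ) / Fintype.card V)
    (fun v => by positivity)
    (fun v => by
      rw [div_le_one hV']
      exact_mod_cast cnt_le_card _) l hl0 hs ε hε
  have e : cnt (fun x : Fin N → V => ε * N * Fintype.card V ≤
      |(cnt (fun s : Fin N × V => R s.2 (x s.1)) : ℝ) - N * l * Fintype.card V|) =
      cnt (fun x : Fin N → V => ε * N ≤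
        |∑ i, (cnt (fun z => R z (x i)) : ℝ) / Fintype.card V - N * l|) := by
    refine cnt_congr fun x => ?_
    rw [hx x]
    have e1 : (Fintype.card V : ℝ) * (∑ i, (cnt (fun z => R z (x i)) : ℝ) / Fintype.card V) -
        N * l * Fintype.card V = Fintype.card V *
          (∑ i, (cnt (fun z => R z (x i)) : ℝ) / Fintype.card V - N * l) := by ring
    rw [e1, abs_mul, abs_of_pos hV', mul_comm (ε * N) (Fintype.card V : ℝ)]
    exact mul_le_mul_iff_right₀ hV'
  rw [e]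
  exact key

/-- Typical placements see every heavy colour.

PROOF.  For `a ∈ F` let `f(x) = cnt (fun z => c z x = a) / n`, with mean `λ_a ≥ κ`.  By `cheb` with
`ε = λ_a / 2` at most `n^N · 4 / (λ_a N) ≤ n^N · 4 / (κ N)` of the `x` have
`∑_i f (x i) ≤ (κ/2) N ≤ (λ_a / 2) N`.  `|F| κ ≤ 1` since the colour classes are disjoint, so the union
bound loses at most `|F| 4/(κ N) ≤ 4/(κ^2 N) ≤ 1/2`.  (`cnt` of pairs `(i, z)` is `∑_i n f (x i)`;
the case `n = 0` is trivial.) -/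
theorem typ_heavy {V G : Type} [Fintype V] [DecidableEq G] (c : V → V → G) (F : Finset G) (κ : ℝ)
    (hκ : 0 < κ)
    (hF : ∀ a ∈ F, κ * (Fintype.card V : ℝ) ^ 2 ≤ cnt (fun q : V × V => c q.1 q.2 = a))
    (N : ℕ) (hN : 8 / κ ^ 2 ≤ N) :
    (Fintype.card V : ℝ) ^ N / 2 ≤ cnt (fun x : Fin N → V => ∀ a ∈ F,
      κ / 2 * (N * Fintype.card V : ℝ) ≤ cnt (fun s : Fin N × V => c s.2 (x s.1) = a)) := by
  classical
  have hN0 : (0 : ℝ) < N := lt_of_lt_of_le (by positivity) hN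
  rcases Nat.eq_zero_or_pos (Fintype.card V) with hV | hV
  · have hN1 : N ≠ 0 := by
      rintro rfl
      simp at hN0
    rw [hV, Nat.cast_zero, zero_pow hN1, zero_div]
    exact Nat.cast_nonneg _
  have hV' : (0 : ℝ) < Fintype.card V := by exact_mod_cast hV
  set n : ℝ := (Fintype.card V : ℝ) with hn
  -- the means
  set l : G → ℝ := fun a => (cnt (fun q : V × V => c q.1 q.2 = a) : ℝ) / n ^ 2 with hl
  have hla : ∀ a, (cnt (fun q : V × V => c q.1 q.2 = a) : ℝ) = l a * n ^ 2 := by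
    intro a
    simp only [hl]
    field_simp
  have hlk : ∀ a ∈ F, κ ≤ l a := by
    intro a ha
    have h1 := hF a ha
    rw [hla] at h1
    exact le_of_mul_le_mul_right h1 (by positivity)
  have hFk : (F.card : ℝ) * κ ≤ 1 := by
    have h1 : ∑ a ∈ F, l a * n ^ 2 ≤ n ^ 2 := by
      rw [← sum_congr rfl fun a _ => hla a]
      refine (cheb_disj F (fun q : V × V => c q.1 q.2)).trans ?_
      rw [Fintype.card_prod]
      push_cast
      rw [sq]
    have h2 : (F.card : ℝ) * κ * n ^ 2 ≤ 1 * n ^ 2 := by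
      calc (F.card : ℝ) * κ * n ^ 2 = ∑ _a ∈ F, κ * n ^ 2 := by
            rw [sum_const, nsmul_eq_mul]
            ring
        _ ≤ ∑ a ∈ F, l a * n ^ 2 := by
            refine sum_le_sum fun a ha => ?_
            exact mul_le_mul_of_nonneg_right (hlk a ha) (by positivity)
        _ ≤ 1 * n ^ 2 := by linarith
    exact le_of_mul_le_mul_right h2 (by positivity)
  set B : G → (Fin N → V) → Prop := fun a x => l a / 2 * N * n ≤
    |(cnt (fun s : Fin N × V => c s.2 (x s.1) = a) : ℝ) - N * l a * n| with hB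
  have hcB : ∀ a ∈ F, (cnt (B a) : ℝ) ≤ 4 / (κ * N) * n ^ N := by
    intro a ha
    have hla0 : 0 < l a := lt_of_lt_of_le hκ (hlk a ha)
    have h1 := cheb_rel hV (fun z x => c z x = a) N (l a) (hla a) (l a / 2) (by positivity)
    have h2 : (cnt (B a) : ℝ) * ((l a / 2) ^ 2 * N) ≤ n ^ N * l a := h1
    have h3 : (cnt (B a) : ℝ) ≤ 4 / (l a * N) * n ^ N := by
      have h4 : (cnt (B a) : ℝ) ≤ n ^ N * l a / ((l a / 2) ^ 2 * N) := by
        rw [le_div_iff₀ (by positivity)]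
        exact h2
      refine h4.trans (le_of_eq ?_)
      field_simp
      ring
    refine h3.trans ?_
    have := hlk a ha
    gcongr
  have hcard : (Fintype.card (Fin N → V) : ℝ) = n ^ N := by
    rw [Fintype.card_fun, Fintype.card_fin]
    push_cast
    rfl
  have hgood : (cnt (fun x : Fin N → V => ¬ ∃ a ∈ F, B a x) : ℝ) ≤ cnt (fun x : Fin N → V => ∀ a ∈ F,
      κ / 2 * (N * n : ℝ) ≤ cnt (fun s : Fin N × V => c s.2 (x s.1) = a)) := by
    refine Nat.cast_le.2 (cnt_mono fun x hx a ha => ?_)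
    by_contra hcon
    apply hx
    refine ⟨a, ha, ?_⟩
    have h1 := hlk a ha
    push Not at hcon
    have h2 : κ / 2 * (N * n) ≤ l a / 2 * (N * n) := by gcongr
    show l a / 2 * N * n ≤ |(cnt (fun s : Fin N × V => c s.2 (x s.1) = a) : ℝ) - N * l a * n|
    rw [abs_sub_comm]
    refine le_trans ?_ (le_abs_self _)
    nlinarith
  refine le_trans ?_ hgood
  have h5 : (cnt (fun x : Fin N → V => ∃ a ∈ F, B a x) : ℝ) + cnt (fun x : Fin N → V => ¬ ∃ a ∈ F, B a x) = n ^ N := by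
    rw [← hcard, ← cnt_add_not (fun x : Fin N → V => ∃ a ∈ F, B a x)]
    push_cast
    rfl
  have e7 : 4 / (κ * N) = κ * (4 / (κ ^ 2 * N)) := by field_simp
  have h8 : 4 / (κ ^ 2 * N) ≤ 1 / 2 := by
    rw [div_le_div_iff₀ (by positivity) (by norm_num)]
    rw [div_le_iff₀ (by positivity)] at hN
    linarith
  have h6 : (cnt (fun x : Fin N → V => ∃ a ∈ F, B a x) : ℝ) ≤ n ^ N / 2 := by
    calc (cnt (fun x : Fin N → V => ∃ a ∈ F, B a x) : ℝ) ≤ ∑ a ∈ F, (cnt (B a) : ℝ) := cheb_union F B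
      _ ≤ ∑ _a ∈ F, 4 / (κ * N) * n ^ N := sum_le_sum hcB
      _ = F.card * κ * (4 / (κ ^ 2 * N)) * n ^ N := by
          rw [sum_const, nsmul_eq_mul, e7]
          ring
      _ ≤ 1 * (1 / 2) * n ^ N := by
          refine mul_le_mul_of_nonneg_right ?_ (by positivity)
          exact mul_le_mul hFk h8 (by positivity) zero_le_one
      _ = n ^ N / 2 := by ring
  linarith

/-- Typical placements: light colours stay light and keep their mass.

PROOF.  (i) `f(x) = cnt (fun z => c z x ∈ Λ) / n` has mean `μ ≥ ρ`; by `cheb` with `ε = μ/2` at most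
`n^N 4/(μ N) ≤ n^N 4/(ρ N) ≤ n^N / 4` of the `x` have `∑_i f (x i) < (ρ/2) N`.
(ii) For `g ∈ Λ`, `f_g(x) = cnt (fun z => c z x = g) / n` has mean `λ_g ≤ κ`; by `cheb` with `ε = κ` at
most `n^N λ_g / (κ^2 N)` of the `x` have `∑_i f_g (x i) > 2 κ N`; summing over `g ∈ Λ`
(`∑_g λ_g ≤ 1`) gives at most `n^N / (κ^2 N) ≤ n^N / 4`. -/
theorem typ_light {V G : Type} [Fintype V] [DecidableEq G] (c : V → V → G) (L : Finset G) (κ ρ : ℝ)
    (hκ : 0 < κ) (hρ : 0 < ρ)
    (hL : ∀ a ∈ L, (cnt (fun q : V × V => c q.1 q.2 = a) : ℝ) ≤ κ * (Fintype.card V : ℝ) ^ 2)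
    (hL' : ρ * (Fintype.card V : ℝ) ^ 2 ≤ cnt (fun q : V × V => c q.1 q.2 ∈ L))
    (N : ℕ) (hN : 4 / κ ^ 2 ≤ N) (hN' : 16 / ρ ≤ N) :
    (Fintype.card V : ℝ) ^ N / 2 ≤ cnt (fun x : Fin N → V =>
      ρ / 2 * (N * Fintype.card V : ℝ) ≤ cnt (fun s : Fin N × V => c s.2 (x s.1) ∈ L) ∧
      ∀ a ∈ L, (cnt (fun s : Fin N × V => c s.2 (x s.1) = a) : ℝ) ≤ 2 * κ * (N * Fintype.card V : ℝ)) := by
  classical
  have hN0 : (0 : ℝ) < N := lt_of_lt_of_le (by positivity) hN
  rcases Nat.eq_zero_or_pos (Fintype.card V) with hV | hV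
  · have hN1 : N ≠ 0 := by
      rintro rfl
      simp at hN0
    rw [hV, Nat.cast_zero, zero_pow hN1, zero_div]
    exact Nat.cast_nonneg _
  have hV' : (0 : ℝ) < Fintype.card V := by exact_mod_cast hV
  set n : ℝ := (Fintype.card V : ℝ) with hn
  set l : G → ℝ := fun a => (cnt (fun q : V × V => c q.1 q.2 = a) : ℝ) / n ^ 2 with hl
  have hla : ∀ a, (cnt (fun q : V × V => c q.1 q.2 = a) : ℝ) = l a * n ^ 2 := by
    intro a
    simp only [hl]
    field_simp
  have hlk : ∀ a ∈ L, l a ≤ κ := by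
    intro a ha
    have h1 := hL a ha
    rw [hla] at h1
    exact le_of_mul_le_mul_right h1 (by positivity)
  have hl0 : ∀ a, 0 ≤ l a := fun a => by
    simp only [hl]
    positivity
  have hsum : ∑ a ∈ L, l a ≤ 1 := by
    have h1 : ∑ a ∈ L, l a * n ^ 2 ≤ n ^ 2 := by
      rw [← sum_congr rfl fun a _ => hla a]
      refine (cheb_disj L (fun q : V × V => c q.1 q.2)).trans ?_
      rw [Fintype.card_prod]
      push_cast
      rw [sq]
    rw [← sum_mul] at h1
    have h2 : (∑ a ∈ L, l a) * n ^ 2 ≤ 1 * n ^ 2 := by linarith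
    exact le_of_mul_le_mul_right h2 (by positivity)
  set μ : ℝ := (cnt (fun q : V × V => c q.1 q.2 ∈ L) : ℝ) / n ^ 2 with hμ
  have hμ' : (cnt (fun q : V × V => c q.1 q.2 ∈ L) : ℝ) = μ * n ^ 2 := by
    rw [hμ]
    field_simp
  have hμρ : ρ ≤ μ := by
    rw [hμ'] at hL'
    exact le_of_mul_le_mul_right hL' (by positivity)
  have hμ0 : 0 < μ := lt_of_lt_of_le hρ hμρ
  set A : (Fin N → V) → Prop := fun x => μ / 2 * N * n ≤
    |(cnt (fun s : Fin N × V => c s.2 (x s.1) ∈ L) : ℝ) - N * μ * n| with hA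
  set B : G → (Fin N → V) → Prop := fun a x => κ * N * n ≤
    |(cnt (fun s : Fin N × V => c s.2 (x s.1) = a) : ℝ) - N * l a * n| with hB
  have hcA : (cnt A : ℝ) ≤ n ^ N / 4 := by
    have h2 : (cnt A : ℝ) * ((μ / 2) ^ 2 * N) ≤ n ^ N * μ :=
      cheb_rel hV (fun z x => c z x ∈ L) N μ hμ' (μ / 2) (by positivity)
    have h4 : (cnt A : ℝ) ≤ n ^ N * μ / ((μ / 2) ^ 2 * N) := by
      rw [le_div_iff₀ (by positivity)]
      exact h2
    refine h4.trans ?_
    have e : n ^ N * μ / ((μ / 2) ^ 2 * N) = n ^ N * (4 / (μ * N)) := by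
      field_simp
      ring
    rw [e, div_eq_mul_inv (n ^ N) 4]
    gcongr
    rw [div_le_iff₀ (by positivity)]
    rw [div_le_iff₀ hρ] at hN'
    nlinarith
  have hcB : ∑ a ∈ L, (cnt (B a) : ℝ) ≤ n ^ N / 4 := by
    have h1 : ∀ a ∈ L, (cnt (B a) : ℝ) ≤ n ^ N / (κ ^ 2 * N) * l a := by
      intro a _
      have h2 : (cnt (B a) : ℝ) * (κ ^ 2 * N) ≤ n ^ N * l a :=
        cheb_rel hV (fun z x => c z x = a) N (l a) (hla a) κ hκ
      rw [div_mul_eq_mul_div, le_div_iff₀ (by positivity)]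
      exact h2
    calc ∑ a ∈ L, (cnt (B a) : ℝ) ≤ ∑ a ∈ L, n ^ N / (κ ^ 2 * N) * l a := sum_le_sum h1
      _ = n ^ N / (κ ^ 2 * N) * ∑ a ∈ L, l a := by rw [mul_sum]
      _ ≤ n ^ N / (κ ^ 2 * N) * 1 := by gcongr
      _ ≤ n ^ N / 4 := by
          rw [mul_one]
          gcongr
          rw [div_le_iff₀ (by positivity)] at hN
          linarith
  have hcard : (Fintype.card (Fin N → V) : ℝ) = n ^ N := by
    rw [Fintype.card_fun, Fintype.card_fin]
    push_cast
    rfl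
  have hgood : (cnt (fun x : Fin N → V => ¬ (A x ∨ ∃ a ∈ L, B a x)) : ℝ) ≤ cnt (fun x : Fin N → V =>
      ρ / 2 * (N * n : ℝ) ≤ cnt (fun s : Fin N × V => c s.2 (x s.1) ∈ L) ∧
      ∀ a ∈ L, (cnt (fun s : Fin N × V => c s.2 (x s.1) = a) : ℝ) ≤ 2 * κ * (N * n : ℝ)) := by
    refine Nat.cast_le.2 (cnt_mono fun x hx => ?_)
    rw [not_or] at hx
    obtain ⟨hx1, hx2⟩ := hx
    constructor
    · by_contra hcon
      apply hx1
      push Not at hcon
      have h2 : ρ / 2 * (N * n) ≤ μ / 2 * (N * n) := by gcongr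
      show μ / 2 * N * n ≤ |(cnt (fun s : Fin N × V => c s.2 (x s.1) ∈ L) : ℝ) - N * μ * n|
      rw [abs_sub_comm]
      refine le_trans ?_ (le_abs_self _)
      nlinarith
    · intro a ha
      by_contra hcon
      apply hx2
      refine ⟨a, ha, ?_⟩
      push Not at hcon
      have h1 := hlk a ha
      have h2 : l a * (N * n) ≤ κ * (N * n) := by gcongr
      show κ * N * n ≤ |(cnt (fun s : Fin N × V => c s.2 (x s.1) = a) : ℝ) - N * l a * n|
      refine le_trans ?_ (le_abs_self _)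
      nlinarith
  refine le_trans ?_ hgood
  have h5 : (cnt (fun x : Fin N → V => A x ∨ ∃ a ∈ L, B a x) : ℝ) +
      cnt (fun x : Fin N → V => ¬ (A x ∨ ∃ a ∈ L, B a x)) = n ^ N := by
    rw [← hcard, ← cnt_add_not (fun x : Fin N → V => A x ∨ ∃ a ∈ L, B a x)]
    push_cast
    rfl
  have h6 : (cnt (fun x : Fin N → V => A x ∨ ∃ a ∈ L, B a x) : ℝ) ≤
      cnt A + cnt (fun x : Fin N → V => ∃ a ∈ L, B a x) := by
    rw [cnt_eq_sum, cnt_eq_sum, cnt_eq_sum, ← sum_add_distrib]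
    refine sum_le_sum fun x _ => ?_
    by_cases h1 : A x
    · rw [if_pos (Or.inl h1), if_pos h1]
      split_ifs <;> norm_num
    · by_cases h2 : ∃ a ∈ L, B a x
      · rw [if_pos (Or.inr h2), if_neg h1, if_pos h2]
        norm_num
      · rw [if_neg (not_or.2 ⟨h1, h2⟩), if_neg h1, if_neg h2]
        norm_num
  have h7 := cheb_union L B
  linarith

end Pool.Agent.ZT
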