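import Pool.Agent.ZT.Defs

/-! # ZT : planting leaves -/

set_option autoImplicit false

open Finset

namespace Pool.Agent.ZT

/-- old labels and leaves -/
def leaf_sig (e J : ℕ) : Fin (e + 1) ⊕ Fin J ≃ Fin (e + J + 1) :=
  finSumFinEquiv.trans (finCongr (by omega))

theorem leaf_sig_zero (e J : ℕ) : leaf_sig e J (Sum.inl 0) = 0 := by
  apply Fin.ext
  simp [leaf_sig]

/-- the parent function with the leaves -/
def leaf_par {V : Type} {e J : ℕ} (p : Fin (e + 1) → Fin (e + 1)) (s : Fin J → Fin (e + 1) × V) :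
    Fin (e + 1) ⊕ Fin J → Fin (e + 1) ⊕ Fin J :=
  Sum.elim (fun i => Sum.inl (p i)) (fun j => Sum.inl (s j).1)

/-- the placement with the leaves -/
def leaf_plc {V : Type} {e J : ℕ} (x : Fin (e + 1) → V) (s : Fin J → Fin (e + 1) × V) :
    Fin (e + 1) ⊕ Fin J → V :=
  Sum.elim x (fun j => (s j).2)

theorem leaf_iter_inl {V : Type} {e J : ℕ} (p : Fin (e + 1) → Fin (e + 1))
    (s : Fin J → Fin (e + 1) × V) (k : ℕ) : ∀ i, (leaf_par p s)^[k] (Sum.inl i) = Sum.inl (p^[k] i) := by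
  induction k with
  | zero => intro i; rfl
  | succ k ih =>
    intro i
    rw [Function.iterate_succ_apply, Function.iterate_succ_apply]
    exact ih (p i)

theorem leaf_iter_conj {A B : Type} (σ : A ≃ B) (f : A → A) (k : ℕ) :
    ∀ b, (fun w => σ (f (σ.symm w)))^[k] b = σ (f^[k] (σ.symm b)) := by
  induction k with
  | zero => intro b; simp
  | succ k ih =>
    intro b
    rw [Function.iterate_succ_apply, Function.iterate_succ_apply, ih, Equiv.symm_apply_apply]

/-- the new pair -/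
def leaf_map {V : Type} {e J : ℕ}
    (q : ((Fin (e + 1) → Fin (e + 1)) × (Fin (e + 1) → V)) × (Fin J → Fin (e + 1) × V)) :
    (Fin (e + J + 1) → Fin (e + J + 1)) × (Fin (e + J + 1) → V) :=
  (fun w => leaf_sig e J (leaf_par q.1.1 q.2 ((leaf_sig e J).symm w)),
    fun w => leaf_plc q.1.2 q.2 ((leaf_sig e J).symm w))

theorem leaf_map_PT {V : Type} {e J : ℕ} (p : Fin (e + 1) → Fin (e + 1)) (x : Fin (e + 1) → V)
    (s : Fin J → Fin (e + 1) × V) (hp : p ∈ PT (Fin (e + 1)) 0) :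
    (leaf_map ((p, x), s)).1 ∈ PT (Fin (e + J + 1)) 0 := by
  rw [mem_PT] at hp ⊢
  obtain ⟨hp0, hp1⟩ := hp
  have h0 : (leaf_sig e J).symm 0 = Sum.inl 0 := by
    rw [Equiv.symm_apply_eq, leaf_sig_zero]
  constructor
  · show leaf_sig e J (leaf_par p s ((leaf_sig e J).symm 0)) = 0
    rw [h0]
    show leaf_sig e J (Sum.inl (p 0)) = 0
    rw [hp0, leaf_sig_zero]
  · intro w
    rcases hw : (leaf_sig e J).symm w with i | j
    · obtain ⟨k, hk⟩ := hp1 i
      refine ⟨k, ?_⟩
      show (fun w => leaf_sig e J (leaf_par p s ((leaf_sig e J).symm w)))^[k] w = 0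
      rw [leaf_iter_conj, hw, leaf_iter_inl, hk, leaf_sig_zero]
    · obtain ⟨k, hk⟩ := hp1 (s j).1
      refine ⟨k + 1, ?_⟩
      show (fun w => leaf_sig e J (leaf_par p s ((leaf_sig e J).symm w)))^[k + 1] w = 0
      rw [leaf_iter_conj, hw, Function.iterate_succ_apply]
      show leaf_sig e J ((leaf_par p s)^[k] (Sum.inl (s j).1)) = 0
      rw [leaf_iter_inl, hk, leaf_sig_zero]

theorem leaf_map_PS {V G : Type} [AddCommMonoid G] (c : V → V → G) {e J : ℕ}
    (p : Fin (e + 1) → Fin (e + 1)) (x : Fin (e + 1) → V) (s : Fin J → Fin (e + 1) × V) :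
    PS c (leaf_map ((p, x), s)).1 0 (leaf_map ((p, x), s)).2 =
      PS c p 0 x + ∑ j, c (s j).2 (x (s j).1) := by
  classical
  unfold PS
  have h1 : ∑ w ∈ univ.erase (0 : Fin (e + J + 1)),
      c ((leaf_map ((p, x), s)).2 w) ((leaf_map ((p, x), s)).2 ((leaf_map ((p, x), s)).1 w)) =
      ∑ a ∈ univ.erase (Sum.inl 0 : Fin (e + 1) ⊕ Fin J),
        c (leaf_plc x s a) (leaf_plc x s (leaf_par p s a)) := by
    symm
    refine sum_bij (fun a _ => leaf_sig e J a) ?_ ?_ ?_ ?_
    · intro a ha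
      rw [mem_erase] at ha ⊢
      refine ⟨fun h => ha.1 ?_, mem_univ _⟩
      rw [← leaf_sig_zero e J] at h
      exact (leaf_sig e J).injective h
    · intro a _ b _ h
      exact (leaf_sig e J).injective h
    · intro w hw
      rw [mem_erase] at hw
      refine ⟨(leaf_sig e J).symm w, ?_, Equiv.apply_symm_apply _ _⟩
      rw [mem_erase]
      refine ⟨fun h => hw.1 ?_, mem_univ _⟩
      rw [Equiv.symm_apply_eq, leaf_sig_zero] at h
      exact h
    · intro a _
      simp only [leaf_map, Equiv.symm_apply_apply]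
  have h2 : univ.erase (Sum.inl 0 : Fin (e + 1) ⊕ Fin J) =
      (univ.erase (0 : Fin (e + 1))).disjSum (univ : Finset (Fin J)) := by
    ext a
    rcases a with i | j
    · simp
    · simp
  rw [h1, h2, sum_disjSum]
  rfl

theorem leaf_map_inj {V : Type} {e J : ℕ}
    (q q' : ((Fin (e + 1) → Fin (e + 1)) × (Fin (e + 1) → V)) × (Fin J → Fin (e + 1) × V))
    (h : leaf_map q = leaf_map q') : q = q' := by
  obtain ⟨⟨p, x⟩, s⟩ := q
  obtain ⟨⟨p', x'⟩, s'⟩ := q'
  have h1 := congrArg Prod.fst h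
  have h2 := congrArg Prod.snd h
  have h3 : ∀ a, leaf_par p s a = leaf_par p' s' a := by
    intro a
    have := congrFun h1 (leaf_sig e J a)
    simp only [leaf_map, Equiv.symm_apply_apply] at this
    exact (leaf_sig e J).injective this
  have h4 : ∀ a, leaf_plc x s a = leaf_plc x' s' a := by
    intro a
    have := congrFun h2 (leaf_sig e J a)
    simpa only [leaf_map, Equiv.symm_apply_apply] using this
  have hp : p = p' := funext fun i => Sum.inl_injective (h3 (Sum.inl i))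
  have hx : x = x' := funext fun i => h4 (Sum.inl i)
  have hs : s = s' := funext fun j => Prod.ext (Sum.inl_injective (h3 (Sum.inr j))) (h4 (Sum.inr j))
  rw [hp, hx, hs]

/-- Leaf planting: `J` leaves with prescribed labels are hung on a tree with `e` edges.

PROOF.  To `(p, x)` on `Fin (e+1)` and `s : Fin J → Fin (e+1) × V` associate the tree `p'` on
`Fin (e+1+J)` (use `Fin.castAdd`, `Fin.natAdd` and `Fin.addCases`, or first the label type
`Fin (e+1) ⊕ Fin J` and then `finSumFinEquiv`): `p' = p` on the old labels, `p' (leaf j) = (s j).1`, and the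
placement `x' = x` on the old labels, `x' (leaf j) = (s j).2`.  `p' ∈ PT`, the colour sum is
`PS c p 0 x + ∑_j c (s j).2 (x (s j).1)`, and the map is injective.  (`e + J + 1 = e + 1 + J`.) -/
theorem leaf_plant {V G : Type} [Fintype V] [AddCommMonoid G] (c : V → V → G) (e J : ℕ) (g : G) :
    ∑ p ∈ PT (Fin (e + 1)) 0, ∑ x : Fin (e + 1) → V,
      cnt (fun s : Fin J → Fin (e + 1) × V => PS c p 0 x + ∑ j, c (s j).2 (x (s j).1) = g)
    ≤ NN c (e + J) g := by
  classical
  have h1 : ∑ p ∈ PT (Fin (e + 1)) 0, ∑ x : Fin (e + 1) → V,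
      cnt (fun s : Fin J → Fin (e + 1) × V => PS c p 0 x + ∑ j, c (s j).2 (x (s j).1) = g) =
      cnt (fun q : ((Fin (e + 1) → Fin (e + 1)) × (Fin (e + 1) → V)) ×
        (Fin J → Fin (e + 1) × V) => q.1.1 ∈ PT (Fin (e + 1)) 0 ∧
          PS c q.1.1 0 q.1.2 + ∑ j, c (q.2 j).2 (q.1.2 (q.2 j).1) = g) := by
    rw [cnt_eq_card, card_filter, Fintype.sum_prod_type, Fintype.sum_prod_type]
    rw [← sum_filter_add_sum_filter_not univ (fun p => p ∈ PT (Fin (e + 1)) 0)]
    have h2 : (univ.filter fun p => p ∈ PT (Fin (e + 1)) 0) = PT (Fin (e + 1)) 0 := by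
      ext p
      simp
    have h3 : ∑ p ∈ univ.filter (fun p => ¬ p ∈ PT (Fin (e + 1)) 0), ∑ x : Fin (e + 1) → V,
        ∑ s : Fin J → Fin (e + 1) × V, (if p ∈ PT (Fin (e + 1)) 0 ∧
          PS c p 0 x + ∑ j, c (s j).2 (x (s j).1) = g then 1 else 0) = 0 := by
      refine sum_eq_zero fun p hp => ?_
      rw [mem_filter] at hp
      refine sum_eq_zero fun x _ => sum_eq_zero fun s _ => ?_
      rw [if_neg (fun h => hp.2 h.1)]
    rw [h2]
    simp only at h3 ⊢
    rw [h3, add_zero]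
    refine sum_congr rfl fun p hp => sum_congr rfl fun x _ => ?_
    rw [cnt_eq_card, card_filter]
    refine sum_congr rfl fun s _ => ?_
    simp only [hp, true_and]
  rw [h1]
  unfold NN
  refine cnt_inj leaf_map ?_ ?_
  · rintro ⟨⟨p, x⟩, s⟩ ⟨hp, hg⟩
    refine ⟨leaf_map_PT p x s hp, ?_⟩
    rw [leaf_map_PS]
    exact hg
  · intro q q' _ _ h
    exact leaf_map_inj q q' h

/-- The tree counts compared with Cayley's number: `(e+1)^(m-1) ≥ (m+1)^(m-1) e^{-2J}` for `m = e + J`,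
`2 J ≤ m + 1` (as `1 - x ≥ e^{-2x}` for `0 ≤ x ≤ 1/2`, `x = J/(m+1)`). -/
theorem ratio (e J : ℕ) (h : 2 * J ≤ e + J + 1) :
    Real.exp (-2 * (J : ℝ)) * ((e + J + 1 : ℕ) : ℝ) ^ (e + J - 1) ≤ ((e + 1 : ℕ) : ℝ) ^ (e + J - 1) := by
  set M : ℝ := ((e + J + 1 : ℕ) : ℝ) with hM
  have hM0 : 0 < M := by rw [hM]; positivity
  set x : ℝ := (J : ℝ) / M with hx
  have hx0 : 0 ≤ x := by positivity
  have hxM : x * M = J := by rw [hx]; field_simp
  have h' : 2 * (J : ℝ) ≤ M := by rw [hM]; exact_mod_cast h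
  have hx1 : x ≤ 1 / 2 := by
    rw [hx, div_le_iff₀ hM0]
    linarith
  have he : ((e + 1 : ℕ) : ℝ) = (1 - x) * M := by
    rw [sub_mul, hxM, one_mul, hM]
    push_cast
    ring
  have h1 : Real.exp (-(2 * x)) ≤ 1 - x := by
    have h2 : 1 + 2 * x ≤ Real.exp (2 * x) := by
      have := Real.add_one_le_exp (2 * x)
      linarith
    rw [Real.exp_neg, inv_eq_one_div, div_le_iff₀ (Real.exp_pos _)]
    nlinarith
  rw [he, mul_pow]
  refine mul_le_mul_of_nonneg_right ?_ (by positivity)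
  have h3 : Real.exp (-2 * (J : ℝ)) ≤ Real.exp (-(2 * x)) ^ (e + J - 1) := by
    rw [← Real.exp_nat_mul]
    apply Real.exp_le_exp.2
    have h4 : ((e + J - 1 : ℕ) : ℝ) ≤ M := by
      rw [hM]
      exact_mod_cast (by omega : e + J - 1 ≤ e + J + 1)
    nlinarith
  exact h3.trans (pow_le_pow_left₀ (Real.exp_pos _).le h1 _)

end Pool.Agent.ZT
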