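import Pool.Agent.ZT.Cayley
import Pool.Agent.ZT.Leaf
import Pool.Agent.ZT.Coin
import Pool.Agent.ZT.Cheb

/-! # ZT : pendant leaves -/

set_option autoImplicit false

open Finset

namespace Pool.Agent.ZT

theorem cases1_prod {S : Type} [Fintype S] (J : ℕ) (P : Fin J → S → Prop) :
    cnt (fun s : Fin J → S => ∀ j, P j (s j)) = ∏ j, cnt (P j) := by
  classical
  simp only [cnt_eq_card]
  rw [← Fintype.card_piFinset]
  congr 1
  ext s
  simp [Fintype.mem_piFinset]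

/-- Summation over trees and typical placements. -/
theorem cases1_main {V G : Type} [Fintype V] [AddCommGroup G] (c : V → V → G)
    (e J : ℕ) (hJ : 2 * J ≤ e + J + 1) (g : G) (K : ℝ) (hK : 0 ≤ K) (Q : (Fin (e + 1) → V) → Prop)
    (hQ : (Fintype.card V : ℝ) ^ (e + 1) / 2 ≤ cnt Q)
    (h : ∀ (p : Fin (e + 1) → Fin (e + 1)) (x : Fin (e + 1) → V), Q x →
      (K * (((e + 1 : ℕ) : ℝ) * Fintype.card V)) ^ J ≤
        cnt (fun s : Fin J → Fin (e + 1) × V => PS c p 0 x + ∑ j, c (s j).2 (x (s j).1) = g)) :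
    1 / 2 * Real.exp (-2 * (J : ℝ)) * K ^ J * ((e + J + 1 : ℕ) : ℝ) ^ (e + J - 1) *
      (Fintype.card V : ℝ) ^ (e + J + 1) ≤ NN c (e + J) g := by
  classical
  set n : ℝ := (Fintype.card V : ℝ) with hn
  have hn0 : 0 ≤ n := Nat.cast_nonneg _
  have h1 := leaf_plant c e J g
  have h2 : ((∑ p ∈ PT (Fin (e + 1)) 0, ∑ x : Fin (e + 1) → V,
      cnt (fun s : Fin J → Fin (e + 1) × V => PS c p 0 x + ∑ j, c (s j).2 (x (s j).1) = g) : ℕ) : ℝ)
      ≤ NN c (e + J) g := by exact_mod_cast h1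
  push_cast at h2
  refine le_trans ?_ h2
  have h3 : ∀ p ∈ PT (Fin (e + 1)) 0, (cnt Q : ℝ) * (K * (((e + 1 : ℕ) : ℝ) * n)) ^ J ≤
      ∑ x : Fin (e + 1) → V, (cnt (fun s : Fin J → Fin (e + 1) × V =>
        PS c p 0 x + ∑ j, c (s j).2 (x (s j).1) = g) : ℝ) := by
    intro p _
    calc (cnt Q : ℝ) * (K * (((e + 1 : ℕ) : ℝ) * n)) ^ J
        = ∑ x ∈ univ.filter Q, (K * (((e + 1 : ℕ) : ℝ) * n)) ^ J := by
          rw [Finset.sum_const, nsmul_eq_mul, cnt_eq_card]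
      _ ≤ ∑ x ∈ univ.filter Q, (cnt (fun s : Fin J → Fin (e + 1) × V =>
            PS c p 0 x + ∑ j, c (s j).2 (x (s j).1) = g) : ℝ) :=
          Finset.sum_le_sum fun x hx => h p x (Finset.mem_filter.1 hx).2
      _ ≤ _ := Finset.sum_le_sum_of_subset_of_nonneg (Finset.subset_univ _)
          fun x _ _ => Nat.cast_nonneg _
  have h4 : ((e + 1 : ℕ) : ℝ) ^ (e - 1) * ((cnt Q : ℝ) * (K * (((e + 1 : ℕ) : ℝ) * n)) ^ J) ≤
      ∑ p ∈ PT (Fin (e + 1)) 0, ∑ x : Fin (e + 1) → V, (cnt (fun s : Fin J → Fin (e + 1) × V =>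
        PS c p 0 x + ∑ j, c (s j).2 (x (s j).1) = g) : ℝ) := by
    calc _ = ∑ _p ∈ PT (Fin (e + 1)) 0, (cnt Q : ℝ) * (K * (((e + 1 : ℕ) : ℝ) * n)) ^ J := by
          rw [Finset.sum_const, nsmul_eq_mul, card_PT_fin]
          push_cast
          ring
      _ ≤ _ := Finset.sum_le_sum h3
  refine le_trans ?_ h4
  have hW : ((e + 1 : ℕ) : ℝ) ^ (e - 1) * ((e + 1 : ℕ) : ℝ) ^ J = ((e + 1 : ℕ) : ℝ) ^ (e + J - 1) := by
    rcases Nat.eq_zero_or_pos e with h0 | h0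
    · subst h0
      simp
    · rw [← pow_add]
      congr 1
      omega
  have hr := ratio e J hJ
  calc 1 / 2 * Real.exp (-2 * (J : ℝ)) * K ^ J * ((e + J + 1 : ℕ) : ℝ) ^ (e + J - 1) *
      n ^ (e + J + 1)
      = (Real.exp (-2 * (J : ℝ)) * ((e + J + 1 : ℕ) : ℝ) ^ (e + J - 1)) *
        (1 / 2 * K ^ J * n ^ (e + J + 1)) := by ring
    _ ≤ ((e + 1 : ℕ) : ℝ) ^ (e + J - 1) * (1 / 2 * K ^ J * n ^ (e + J + 1)) :=
        mul_le_mul_of_nonneg_right hr (by positivity)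
    _ = ((e + 1 : ℕ) : ℝ) ^ (e - 1) * ((n ^ (e + 1) / 2) *
        (K * (((e + 1 : ℕ) : ℝ) * n)) ^ J) := by
        rw [← hW, mul_pow, mul_pow]
        have : n ^ (e + J + 1) = n ^ (e + 1) * n ^ J := by
          rw [← pow_add]
          congr 1
          omega
        rw [this]
        ring
    _ ≤ _ := by gcongr

/-- Case (a): every group element is a sum of exactly `J` heavy colours.

PROOF.  `leaf_plant`.  Let `x : Fin (e+1) → V` be typical (`typ_heavy` with `N = e+1`) and `p` any tree;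
choose `γ` with `∑ γ = g - PS c p 0 x`; the number of `s` with `c (s j).2 (x (s j).1) = γ j` for all `j` is
`∏_j cnt(…) ≥ (κ/2 (e+1) n)^J`.  Sum over the `(e+1)^(e-1)` trees (`card_PT_fin`) and at least `n^(e+1)/2`
placements, and use `ratio`. -/
theorem case_a {V G : Type} [Fintype V] [DecidableEq G] [AddCommGroup G] (c : V → V → G) (F : Finset G)
    (κ : ℝ) (hκ : 0 < κ)
    (hF : ∀ a ∈ F, κ * (Fintype.card V : ℝ) ^ 2 ≤ cnt (fun q : V × V => c q.1 q.2 = a))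
    (e J : ℕ) (hJ : 2 * J ≤ e + J + 1) (he : 8 / κ ^ 2 ≤ ((e + 1 : ℕ) : ℝ))
    (hsum : ∀ τ : G, ∃ γ : Fin J → G, (∀ j, γ j ∈ F) ∧ ∑ j, γ j = τ) (g : G) :
    1 / 2 * Real.exp (-2 * (J : ℝ)) * (κ / 2) ^ J * ((e + J + 1 : ℕ) : ℝ) ^ (e + J - 1) *
      (Fintype.card V : ℝ) ^ (e + J + 1) ≤ NN c (e + J) g := by
  classical
  refine cases1_main c e J hJ g (κ / 2) (by positivity) _ (typ_heavy c F κ hκ hF (e + 1) he) ?_
  intro p x hx
  obtain ⟨γ, hγ, hγs⟩ := hsum (g - PS c p 0 x)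
  have h1 : cnt (fun s : Fin J → Fin (e + 1) × V => ∀ j, c (s j).2 (x (s j).1) = γ j) ≤
      cnt (fun s : Fin J → Fin (e + 1) × V => PS c p 0 x + ∑ j, c (s j).2 (x (s j).1) = g) := by
    refine cnt_mono fun s hs => ?_
    rw [Finset.sum_congr rfl fun j _ => hs j, hγs]
    abel
  have h2 := cases1_prod J (fun j (s : Fin (e + 1) × V) => c s.2 (x s.1) = γ j)
  rw [h2] at h1
  have h3 : ((∏ j, cnt (fun s : Fin (e + 1) × V => c s.2 (x s.1) = γ j) : ℕ) : ℝ) ≤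
      cnt (fun s : Fin J → Fin (e + 1) × V => PS c p 0 x + ∑ j, c (s j).2 (x (s j).1) = g) := by
    exact_mod_cast h1
  refine le_trans ?_ h3
  push_cast
  calc (κ / 2 * (((e : ℝ) + 1) * Fintype.card V)) ^ J
      = ∏ _j : Fin J, (κ / 2 * (((e : ℝ) + 1) * Fintype.card V)) := by
        rw [Finset.prod_const, Finset.card_univ, Fintype.card_fin]
    _ ≤ _ := by
        refine Finset.prod_le_prod (fun j _ => by positivity) fun j _ => ?_
        have := hx (γ j) (hγ j)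
        push_cast at this
        exact this

/-- The light case: light colours of total mass `≥ ρ`.

PROOF.  `leaf_plant`.  Let `x` be typical (`typ_light`), `p` any tree.  Apply `coin` with
`S = Fin (e+1) × V`, `f (i, z) = c z (x i)`, `S0 = {s | f s ∈ L}`: `|S0| ≥ (ρ/2)(e+1) n`, fibres
`≤ 2 κ (e+1) n ≤ θ |S0|` with `θ = 4κ/ρ`, `r^2 θ ≤ 1`; it gives at least
`(|S0|/(2r))^J ≥ (ρ (e+1) n/(4r))^J` tuples with sum `g - PS c p 0 x`.  Sum over trees and placements,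
`ratio`. -/
theorem case_light (p : ℕ) [Fact p.Prime] {V : Type} [Fintype V] (c : V → V → ZMod p)
    (L : Finset (ZMod p)) (κ ρ : ℝ) (hκ : 0 < κ) (hρ : 0 < ρ)
    (hL : ∀ a ∈ L, (cnt (fun q : V × V => c q.1 q.2 = a) : ℝ) ≤ κ * (Fintype.card V : ℝ) ^ 2)
    (hL' : ρ * (Fintype.card V : ℝ) ^ 2 ≤ cnt (fun q : V × V => c q.1 q.2 ∈ L))
    (r : ℕ) (hr : 1 ≤ r) (hrκ : 4 * (r : ℝ) ^ 2 * κ ≤ ρ) (e J : ℕ) (hpJ : p ≤ J * (r - 1) + 1)
    (hJ : 2 * J ≤ e + J + 1) (he : 4 / κ ^ 2 ≤ ((e + 1 : ℕ) : ℝ)) (he' : 16 / ρ ≤ ((e + 1 : ℕ) : ℝ))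
    (g : ZMod p) :
    1 / 2 * Real.exp (-2 * (J : ℝ)) * (ρ / (4 * r)) ^ J * ((e + J + 1 : ℕ) : ℝ) ^ (e + J - 1) *
      (Fintype.card V : ℝ) ^ (e + J + 1) ≤ NN c (e + J) g := by
  classical
  have hr0 : (0 : ℝ) < r := by
    have : 0 < r := by omega
    exact_mod_cast this
  refine cases1_main c e J hJ g (ρ / (4 * r)) (by positivity) _
    (typ_light c L κ ρ hκ hρ hL hL' (e + 1) he he') ?_
  intro q x hx
  obtain ⟨hx1, hx2⟩ := hx
  set f : Fin (e + 1) × V → ZMod p := fun s => c s.2 (x s.1) with hf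
  set S0 : Finset (Fin (e + 1) × V) := univ.filter (fun s => c s.2 (x s.1) ∈ L) with hS0
  have hcard : (cnt (fun s : Fin (e + 1) × V => c s.2 (x s.1) ∈ L) : ℝ) = S0.card := by
    rw [cnt_eq_card]
  rw [hcard] at hx1
  set n : ℝ := (Fintype.card V : ℝ) with hn
  have hn0 : 0 ≤ n := Nat.cast_nonneg _
  have hcoin := coin p f S0 (4 * κ / ρ) r J hr (by
    intro a
    by_cases ha : a ∈ L
    · have h0 : cnt (fun s : Fin (e + 1) × V => s ∈ S0 ∧ f s = a) ≤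
          cnt (fun s : Fin (e + 1) × V => c s.2 (x s.1) = a) := cnt_mono fun s hs => hs.2
      calc (cnt (fun s : Fin (e + 1) × V => s ∈ S0 ∧ f s = a) : ℝ)
          ≤ cnt (fun s : Fin (e + 1) × V => c s.2 (x s.1) = a) := by
            exact_mod_cast h0
        _ ≤ 2 * κ * (((e + 1 : ℕ) : ℝ) * n) := hx2 a ha
        _ = 4 * κ / ρ * (ρ / 2 * (((e + 1 : ℕ) : ℝ) * n)) := by
            field_simp
            ring
        _ ≤ 4 * κ / ρ * S0.card := mul_le_mul_of_nonneg_left hx1 (by positivity)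
    · have h0 : cnt (fun s : Fin (e + 1) × V => s ∈ S0 ∧ f s = a) = 0 := by
        rw [cnt_eq_card, Finset.card_eq_zero, Finset.filter_eq_empty_iff]
        rintro s _ ⟨hs1, hs2⟩
        rw [hS0, Finset.mem_filter] at hs1
        exact ha (hs2 ▸ hs1.2)
      rw [h0]
      push_cast
      positivity) (by
    rw [mul_div_assoc', div_le_one hρ]
    linarith) hpJ (g - PS c q 0 x)
  have h1 : cnt (fun s : Fin J → Fin (e + 1) × V => ∑ j, f (s j) = g - PS c q 0 x) ≤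
      cnt (fun s : Fin J → Fin (e + 1) × V => PS c q 0 x + ∑ j, c (s j).2 (x (s j).1) = g) := by
    refine cnt_mono fun s hs => ?_
    change PS c q 0 x + ∑ j, f (s j) = g
    rw [hs]
    abel
  have h2 : (cnt (fun s : Fin J → Fin (e + 1) × V => ∑ j, f (s j) = g - PS c q 0 x) : ℝ) ≤
      cnt (fun s : Fin J → Fin (e + 1) × V => PS c q 0 x + ∑ j, c (s j).2 (x (s j).1) = g) := by
    exact_mod_cast h1
  refine le_trans ?_ (hcoin.trans h2)
  gcongr
  calc ρ / (4 * r) * (((e + 1 : ℕ) : ℝ) * n) = (ρ / 2 * (((e + 1 : ℕ) : ℝ) * n)) / (2 * r) := by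
        field_simp
        ring
    _ ≤ (S0.card : ℝ) / (2 * r) := by gcongr

end Pool.Agent.ZT
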