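import Pool.Agent.ZT.Cases1

/-! # ZT : case (a), large p -/

set_option autoImplicit false

open Finset

namespace Pool.Agent.ZT

theorem cases2_num (κ : ℝ) (hκ : 0 < κ) (B : ℝ) (hB : B = 2 + |Real.log (κ / 2)|) (p J : ℕ)
    (hp : 13 * (1 + B) ≤ (p : ℝ)) (hJ : (J : ℝ) ≤ p / (50 * B) + 1) :
    (9 / 10 : ℝ) ^ p ≤ 1 / 2 * Real.exp (-2 * (J : ℝ)) * (κ / 2) ^ J := by
  have hB2 : 2 ≤ B := by rw [hB]; linarith [abs_nonneg (Real.log (κ / 2))]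
  have hB0 : 0 < B := by linarith
  have h1 : (9 / 10 : ℝ) ^ p ≤ Real.exp (-(p : ℝ) / 10) := by
    have h2 := Real.add_one_le_exp (-(1 / 10 : ℝ))
    have h3 : (9 / 10 : ℝ) ≤ Real.exp (-(1 / 10 : ℝ)) := by linarith
    calc (9 / 10 : ℝ) ^ p ≤ Real.exp (-(1 / 10 : ℝ)) ^ p := pow_le_pow_left₀ (by norm_num) h3 p
      _ = Real.exp (-(p : ℝ) / 10) := by
        rw [← Real.exp_nat_mul]
        congr 1
        ring
  have h2 : (κ / 2) ^ J = Real.exp ((J : ℝ) * Real.log (κ / 2)) := by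
    rw [Real.exp_nat_mul, Real.exp_log (by positivity)]
  have h3 : Real.exp (-1) ≤ 1 / 2 := by
    have h4 := Real.add_one_le_exp (1 : ℝ)
    rw [Real.exp_neg, ← one_div]
    exact one_div_le_one_div_of_le (by norm_num) (by linarith)
  have h4 : (J : ℝ) * B ≤ p / 50 + B := by
    have h5 := mul_le_mul_of_nonneg_right hJ hB0.le
    have h6 : ((p : ℝ) / (50 * B) + 1) * B = p / 50 + B := by
      field_simp
    rwa [h6] at h5
  have h5 : -|Real.log (κ / 2)| ≤ Real.log (κ / 2) := neg_abs_le _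
  have h6 : (J : ℝ) * (-|Real.log (κ / 2)|) ≤ (J : ℝ) * Real.log (κ / 2) :=
    mul_le_mul_of_nonneg_left h5 (Nat.cast_nonneg J)
  have h7 : (J : ℝ) * B = 2 * J + (J : ℝ) * |Real.log (κ / 2)| := by rw [hB]; ring
  calc (9 / 10 : ℝ) ^ p ≤ Real.exp (-(p : ℝ) / 10) := h1
    _ ≤ Real.exp (-1 + (-2 * (J : ℝ)) + (J : ℝ) * Real.log (κ / 2)) := by
      apply Real.exp_le_exp.2
      rw [mul_neg] at h6
      linarith
    _ = Real.exp (-1) * Real.exp (-2 * (J : ℝ)) * (κ / 2) ^ J := by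
      rw [Real.exp_add, Real.exp_add, h2]
    _ ≤ 1 / 2 * Real.exp (-2 * (J : ℝ)) * (κ / 2) ^ J := by
      gcongr

/-- Case (a) for large `p`: `J = ⌈η p⌉`.

PROOF.  `η = min (1/10) (1/(50 (2 + log (2/κ) )))` if `κ ≤ 1` (for `κ > 1` the hypotheses with `F ≠ ∅` force
`n = 0`; note `F ≠ ∅` by `hsum` as `J ≥ 1`).  `case_a` with `e = p - J`, and
`(1/2) e^{-2J} (κ/2)^J ≥ (9/10)^p` for `p ≥ p0`. -/
theorem far_a (κ : ℝ) (hκ : 0 < κ) : ∃ η > (0 : ℝ), ∃ p0 : ℕ, ∀ p ≥ p0, ∀ J : ℕ, J = ⌈η * p⌉₊ →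
    ∀ (V : Type) [Fintype V] (c : V → V → ZMod p) (F : Finset (ZMod p)),
    (∀ a ∈ F, κ * (Fintype.card V : ℝ) ^ 2 ≤ cnt (fun q : V × V => c q.1 q.2 = a)) →
    (∀ τ : ZMod p, ∃ γ : Fin J → ZMod p, (∀ j, γ j ∈ F) ∧ ∑ j, γ j = τ) →
    (9 / 10 : ℝ) ^ p * ((p + 1 : ℕ) : ℝ) ^ (p - 1) * (Fintype.card V : ℝ) ^ (p + 1) ≤ NN c p 0 := by
  obtain ⟨B, hB⟩ : ∃ B : ℝ, B = 2 + |Real.log (κ / 2)| := ⟨_, rfl⟩
  have hB2 : 2 ≤ B := by rw [hB]; linarith [abs_nonneg (Real.log (κ / 2))]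
  have hB0 : 0 < B := by linarith
  have hη : 0 < min (1 / 10 : ℝ) (1 / (50 * B)) := lt_min (by norm_num) (by positivity)
  refine ⟨min (1 / 10) (1 / (50 * B)), hη, ⌈9 / κ ^ 2⌉₊ + ⌈13 * (1 + B)⌉₊, ?_⟩
  intro p hp J hJ V _ c F hF hsum
  have hp1 : 9 / κ ^ 2 ≤ (p : ℝ) := by
    refine (Nat.le_ceil _).trans ?_
    exact_mod_cast (Nat.le_add_right _ _).trans hp
  have hp2 : 13 * (1 + B) ≤ (p : ℝ) := by
    refine (Nat.le_ceil _).trans ?_
    exact_mod_cast (Nat.le_add_left _ _).trans hp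
  have hp39 : (39 : ℝ) ≤ p := by linarith
  have hJle : (J : ℝ) ≤ min (1 / 10) (1 / (50 * B)) * p + 1 := by
    rw [hJ]
    exact (Nat.ceil_lt_add_one (by positivity)).le
  have hJ1 : (J : ℝ) ≤ p / (50 * B) + 1 := by
    refine hJle.trans ?_
    have h1 := mul_le_mul_of_nonneg_right (min_le_right (1 / 10 : ℝ) (1 / (50 * B))) (Nat.cast_nonneg (α := ℝ) p)
    have h2 : 1 / (50 * B) * (p : ℝ) = p / (50 * B) := by ring
    linarith
  have hJ2 : (J : ℝ) ≤ p / 10 + 1 := by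
    refine hJle.trans ?_
    have h1 := mul_le_mul_of_nonneg_right (min_le_left (1 / 10 : ℝ) (1 / (50 * B))) (Nat.cast_nonneg (α := ℝ) p)
    linarith
  have hJp : J ≤ p := by
    have : (J : ℝ) ≤ p := by linarith
    exact_mod_cast this
  have hJpos : 0 < J := by
    rw [hJ]
    exact Nat.ceil_pos.2 (by positivity)
  clear hJ
  rcases Nat.eq_zero_or_pos (Fintype.card V) with hn | hn
  · rw [hn, Nat.cast_zero, zero_pow (Nat.succ_ne_zero p), mul_zero]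
    exact Nat.cast_nonneg _
  obtain ⟨e, rfl⟩ : ∃ e, p = e + J := ⟨p - J, by omega⟩
  have he : 8 / κ ^ 2 ≤ ((e + 1 : ℕ) : ℝ) := by
    have h1 : 9 / κ ^ 2 = 9 / 8 * (8 / κ ^ 2) := by ring
    have h2 : 0 ≤ 8 / κ ^ 2 := by positivity
    push_cast at hp1 hp39 hJ2 ⊢
    rw [h1] at hp1
    linarith
  have h2J : 2 * J ≤ e + J + 1 := by
    have : (2 * J : ℝ) ≤ e + J + 1 := by
      push_cast at hp39 hJ2
      linarith
    exact_mod_cast this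
  have h1 := case_a c F κ hκ hF e J h2J he hsum 0
  refine le_trans ?_ h1
  have h2 := cases2_num κ hκ B hB (e + J) J hp2 hJ1
  have h3 : (0 : ℝ) ≤ ((e + J + 1 : ℕ) : ℝ) ^ (e + J - 1) := by positivity
  have h4 : (0 : ℝ) ≤ (Fintype.card V : ℝ) ^ (e + J + 1) := by positivity
  exact mul_le_mul_of_nonneg_right (mul_le_mul_of_nonneg_right h2 h3) h4

end Pool.Agent.ZT
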