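import Pool.Agent.ZT.Cases1

/-! # ZT : light case, large primes -/

set_option autoImplicit false

open Finset

namespace Pool.Agent.ZT

/-- The choice of `s = r - 1`. -/
theorem cases3_s (ρ : ℝ) (hρ : 0 < ρ) : ∃ s : ℕ, 4 ≤ s ∧ ρ ≤ 4 * ((s : ℝ) + 1) ^ 2 ∧
    Real.exp (-((s : ℝ) / 50)) ≤ Real.exp (-2) * (ρ / (4 * ((s : ℝ) + 1))) := by
  refine ⟨⌈360000 / ρ⌉₊ + ⌈ρ⌉₊ + 4, by omega, ?_, ?_⟩
  · push_cast
    have h1 := Nat.le_ceil ρ
    have h2 : (0 : ℝ) ≤ (⌈360000 / ρ⌉₊ : ℝ) := Nat.cast_nonneg _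
    have h3 : (0 : ℝ) ≤ (⌈ρ⌉₊ : ℝ) := Nat.cast_nonneg _
    nlinarith
  · set s : ℕ := ⌈360000 / ρ⌉₊ + ⌈ρ⌉₊ + 4 with hs
    have hs1 : 360000 / ρ ≤ (s : ℝ) := by
      have h1 := Nat.le_ceil (360000 / ρ)
      have h3 : (0 : ℝ) ≤ (⌈ρ⌉₊ : ℝ) := Nat.cast_nonneg _
      rw [hs]
      push_cast
      linarith
    have hs4 : (4 : ℝ) ≤ (s : ℝ) := by
      have : 4 ≤ s := by omega
      exact_mod_cast this
    have hs0 : (0 : ℝ) < s := by linarith
    rw [div_le_iff₀ hρ] at hs1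
    have he2 : Real.exp 2 ≤ 9 := by
      have h1 : Real.exp 2 = Real.exp 1 * Real.exp 1 := by
        rw [← Real.exp_add]
        norm_num
      have h2 : Real.exp 1 ≤ 3 := by
        have := Real.exp_one_lt_d9
        linarith
      have h3 : 0 ≤ Real.exp 1 := (Real.exp_pos 1).le
      rw [h1]
      nlinarith
    have hexp : (s : ℝ) ^ 2 / 5000 ≤ Real.exp ((s : ℝ) / 50) := by
      have h1 := Real.quadratic_le_exp_of_nonneg (x := (s : ℝ) / 50) (by positivity)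
      have h2 : ((s : ℝ) / 50) ^ 2 / 2 = (s : ℝ) ^ 2 / 5000 := by ring
      have h3 : 0 ≤ (s : ℝ) / 50 := by positivity
      linarith
    have hmain : 36 * ((s : ℝ) + 1) ≤ ρ * Real.exp ((s : ℝ) / 50) := by
      have h1 : 36 * ((s : ℝ) + 1) ≤ 72 * s := by linarith
      have h2 : 72 * (s : ℝ) ≤ ρ * ((s : ℝ) ^ 2 / 5000) := by nlinarith
      have h3 : ρ * ((s : ℝ) ^ 2 / 5000) ≤ ρ * Real.exp ((s : ℝ) / 50) := by gcongr
      linarith
    rw [Real.exp_neg, Real.exp_neg, ← mul_div_assoc, inv_eq_one_div, inv_eq_one_div,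
      one_div_mul_eq_div, div_div, div_le_div_iff₀ (Real.exp_pos _) (by positivity)]
    have h4 : Real.exp 2 * (4 * ((s : ℝ) + 1)) ≤ 9 * (4 * ((s : ℝ) + 1)) := by gcongr
    linarith

/-- The light case for large primes.

PROOF.  Choose `r ≥ 2` with `(3 + log (4 r/ρ))/(r - 1) ≤ 1/50` and `κ = ρ/(4 r^2)`; `J = ⌈(p-1)/(r-1)⌉₊`,
`e = p - J`; `case_light` and `(1/2) e^{-2J} (ρ/(4r))^J ≥ (9/10)^p` for `p ≥ p0`. -/
theorem far_light (ρ : ℝ) (hρ : 0 < ρ) : ∃ κ > (0 : ℝ), κ ≤ 1 ∧ ∃ p0 : ℕ, ∀ p ≥ p0, p.Prime →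
    ∀ (V : Type) [Fintype V] (c : V → V → ZMod p),
    (ρ * (Fintype.card V : ℝ) ^ 2 ≤ cnt (fun q : V × V =>
      (cnt (fun q' : V × V => c q'.1 q'.2 = c q.1 q.2) : ℝ) ≤ κ * (Fintype.card V : ℝ) ^ 2)) →
    (9 / 10 : ℝ) ^ p * ((p + 1 : ℕ) : ℝ) ^ (p - 1) * (Fintype.card V : ℝ) ^ (p + 1) ≤ NN c p 0 := by
  classical
  obtain ⟨s, hs4, hsρ, hsb⟩ := cases3_s ρ hρ
  have hs0 : 0 < s := by omega
  set κ : ℝ := ρ / (4 * ((s : ℝ) + 1) ^ 2) with hκ
  have hκ0 : 0 < κ := by positivity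
  refine ⟨κ, hκ0, ?_, ⌈8 / κ ^ 2⌉₊ + ⌈32 / ρ⌉₊ + s + 20, ?_⟩
  · rw [hκ, div_le_one (by positivity)]
    exact hsρ
  intro p hp hprime V _ c hV
  have : Fact p.Prime := ⟨hprime⟩
  have : NeZero p := ⟨hprime.ne_zero⟩
  set J : ℕ := (p - 1) / s + 1 with hJ
  have hJs : J * s = (p - 1) / s * s + s := by rw [hJ]; ring
  have hd1 : (p - 1) / s * s ≤ p - 1 := Nat.div_mul_le_self _ _
  have hd2 : p - 1 < (p - 1) / s * s + s := Nat.lt_div_mul_add hs0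
  have hJ4 : J * 4 ≤ J * s := Nat.mul_le_mul_left _ hs4
  have hJ1 : (p - 1) / s ≤ (p - 1) / 4 := Nat.div_le_div_left hs4 (by norm_num)
  have hp20 : 20 ≤ p := by omega
  have hJp : 2 * J ≤ p := by omega
  have heJ : p - J + J = p := by omega
  have hp1 : 8 / κ ^ 2 ≤ (p : ℝ) := by
    refine (Nat.le_ceil _).trans ?_
    exact_mod_cast (by omega : ⌈8 / κ ^ 2⌉₊ ≤ p)
  have hp2 : 32 / ρ ≤ (p : ℝ) := by
    refine (Nat.le_ceil _).trans ?_
    exact_mod_cast (by omega : ⌈32 / ρ⌉₊ ≤ p)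
  have he : (p : ℝ) / 2 ≤ ((p - J + 1 : ℕ) : ℝ) := by
    rw [div_le_iff₀ (by norm_num)]
    exact_mod_cast (by omega : p ≤ (p - J + 1) * 2)
  have key := case_light p c
    (univ.filter fun a : ZMod p => (cnt (fun q : V × V => c q.1 q.2 = a) : ℝ) ≤
      κ * (Fintype.card V : ℝ) ^ 2) κ ρ hκ0 hρ
    (fun a ha => (mem_filter.mp ha).2)
    (by
      refine hV.trans (le_of_eq ?_)
      congr 1
      refine cnt_congr fun q => ?_
      simp)
    (s + 1) (by omega)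
    (by
      rw [hκ]
      push_cast
      exact le_of_eq (by field_simp))
    (p - J) J
    (by
      rw [Nat.add_sub_cancel]
      omega)
    (by omega)
    (by
      refine le_trans ?_ he
      have h1 : 4 / κ ^ 2 = 8 / κ ^ 2 / 2 := by ring
      rw [h1]
      linarith)
    (by
      refine le_trans ?_ he
      have h1 : 16 / ρ = 32 / ρ / 2 := by ring
      rw [h1]
      linarith) 0
  rw [heJ] at key
  refine le_trans ?_ key
  gcongr
  -- the numerical inequality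
  have h1 : Real.exp (-2 * (J : ℝ)) * (ρ / (4 * ((s + 1 : ℕ) : ℝ))) ^ J =
      (Real.exp (-2) * (ρ / (4 * ((s : ℝ) + 1)))) ^ J := by
    rw [mul_pow, ← Real.exp_nat_mul]
    push_cast
    congr 2
    ring
  rw [mul_assoc, h1]
  have h2 : Real.exp (-((s : ℝ) / 50)) ^ J ≤
      (Real.exp (-2) * (ρ / (4 * ((s : ℝ) + 1)))) ^ J := by gcongr
  have h3 : Real.exp (-((s : ℝ) / 50)) ^ J = Real.exp (-(((J * s : ℕ) : ℝ) / 50)) := by
    rw [← Real.exp_nat_mul]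
    push_cast
    congr 1
    ring
  have h4 : (((J * s : ℕ) : ℝ)) ≤ (p : ℝ) + s := by
    exact_mod_cast (by omega : J * s ≤ p + s)
  have h5 : Real.exp (-(((p : ℝ) + s) / 50)) ≤ Real.exp (-(((J * s : ℕ) : ℝ) / 50)) := by
    apply Real.exp_le_exp.mpr
    linarith
  have h6 : Real.exp (-1) ≤ 1 / 2 := by
    rw [Real.exp_neg, inv_eq_one_div]
    apply one_div_le_one_div_of_le (by norm_num)
    have := Real.add_one_le_exp (1 : ℝ)
    linarith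
  have h7 : (9 / 10 : ℝ) ^ p ≤ Real.exp (-((p : ℝ) / 10)) := by
    have h71 : (9 / 10 : ℝ) ≤ Real.exp (-(1 / 10)) := by
      have := Real.add_one_le_exp (-(1 / 10) : ℝ)
      linarith
    calc (9 / 10 : ℝ) ^ p ≤ Real.exp (-(1 / 10)) ^ p := by gcongr
      _ = _ := by
        rw [← Real.exp_nat_mul]
        congr 1
        ring
  have h8 : Real.exp (-((p : ℝ) / 10)) ≤ Real.exp (-1) * Real.exp (-(((p : ℝ) + s) / 50)) := by
    rw [← Real.exp_add]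
    apply Real.exp_le_exp.mpr
    have h81 : (s : ℝ) + 20 ≤ p := by exact_mod_cast (by omega : s + 20 ≤ p)
    linarith
  calc (9 / 10 : ℝ) ^ p ≤ Real.exp (-((p : ℝ) / 10)) := h7
    _ ≤ Real.exp (-1) * Real.exp (-(((p : ℝ) + s) / 50)) := h8
    _ ≤ 1 / 2 * (Real.exp (-2) * (ρ / (4 * ((s : ℝ) + 1)))) ^ J := by
      rw [h3] at h2
      gcongr
      exact h5.trans h2

end Pool.Agent.ZT
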