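import Pool.Agent.ZT.Defs

/-! # ZT : Cayley's formula for parent functions -/

set_option autoImplicit false

open Finset

namespace Pool.Agent.ZT

/-- the row of the label `w` with parent `u` -/
def cay_g {A : Type} [DecidableEq A] (v w u : A) : A → ℚ :=
  if w = v then Pi.single v 1 else Pi.single w 1 - Pi.single u 1

theorem cay_det_one {A : Type} [Fintype A] [DecidableEq A] {v : A} {p : A → A}
    (hp : ∀ w, ∃ k : ℕ, p^[k] w = v) : (Matrix.of fun w => cay_g v w (p w)).det = 1 := by
  classical
  set d : A → ℕ := fun w => Nat.find (hp w) with hd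
  have hlt : ∀ w, w ≠ v → d (p w) < d w := by
    intro w hw
    have h1 := Nat.find_spec (hp w)
    rcases hk : Nat.find (hp w) with _ | k
    · rw [hk] at h1
      exact absurd h1 hw
    · rw [hk, Function.iterate_succ_apply] at h1
      have h2 : d (p w) ≤ k := Nat.find_min' (hp (p w)) h1
      have h3 : d w = k + 1 := hk
      omega
  set M : Matrix A A ℚ := Matrix.of fun w => cay_g v w (p w) with hM
  have hentry : ∀ i j, M i j = if i = v then (if j = v then 1 else 0) else
      ((if j = i then 1 else 0) - (if j = p i then 1 else 0)) := by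
    intro i j
    simp only [hM, Matrix.of_apply, cay_g]
    split_ifs with h1 h2 h3 h4 h5 <;> simp_all
  have hbt : M.BlockTriangular (fun w => OrderDual.toDual (d w)) := by
    intro i j hij
    rw [OrderDual.toDual_lt_toDual] at hij
    rw [hentry]
    by_cases hi : i = v
    · subst hi
      have hj : j ≠ i := by
        rintro rfl
        exact lt_irrefl _ hij
      simp [hj]
    · have h1 := hlt i hi
      have h2 : j ≠ i := by
        rintro rfl
        exact lt_irrefl _ hij
      have h3 : j ≠ p i := by
        rintro rfl
        omega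
      simp [hi, h2, h3]
  rw [hbt.det]
  refine prod_eq_one fun a _ => ?_
  have : M.toSquareBlock (fun w => OrderDual.toDual (d w)) a = 1 := by
    ext ⟨i, hi⟩ ⟨j, hj⟩
    rw [Matrix.toSquareBlock_def, Matrix.of_apply, hentry, Matrix.one_apply]
    simp only [Subtype.mk.injEq]
    have hij : d i = d j := by
      rw [← hj] at hi
      exact OrderDual.toDual.injective hi
    by_cases hiv : i = v
    · subst hiv
      simp only [if_true]
      by_cases h : j = i
      · simp [h]
      · simp [h, Ne.symm h]
    · have h1 := hlt i hiv
      have h3 : j ≠ p i := by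
        rintro rfl
        omega
      simp only [hiv, if_false, h3, sub_zero]
      by_cases h : j = i
      · simp [h]
      · simp [h, Ne.symm h]
  rw [this, Matrix.det_one]

theorem cay_det_zero {A : Type} [Fintype A] [DecidableEq A] {v : A} {p : A → A}
    (hp : ¬ ∀ w, ∃ k : ℕ, p^[k] w = v) : (Matrix.of fun w => cay_g v w (p w)).det = 0 := by
  classical
  push Not at hp
  obtain ⟨w₀, hw₀⟩ := hp
  rw [← Matrix.exists_mulVec_eq_zero_iff]
  refine ⟨fun w => if ∀ k : ℕ, p^[k] w ≠ v then 1 else 0, ?_, ?_⟩
  · intro h
    have := congrFun h w₀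
    simp [hw₀] at this
  · ext w
    rw [Pi.zero_apply]
    show (cay_g v w (p w)) ⬝ᵥ (fun w => if ∀ k : ℕ, p^[k] w ≠ v then (1 : ℚ) else 0) = 0
    by_cases hw : w = v
    · subst hw
      simp only [cay_g, if_true]
      rw [single_dotProduct, one_mul, if_neg]
      intro h
      exact h 0 rfl
    · simp only [cay_g, hw, if_false]
      rw [sub_dotProduct, single_dotProduct, single_dotProduct, one_mul, one_mul, sub_eq_zero]
      congr 1
      apply propext
      constructor
      · intro h k
        rw [← Function.iterate_succ_apply]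
        exact h (k + 1)
      · intro h k
        rcases k with _ | k
        · exact hw
        · rw [Function.iterate_succ_apply]
          exact h k

theorem cay_det_sum {A : Type} [Fintype A] [DecidableEq A] (v : A) :
    (Matrix.of fun w => ∑ u ∈ (if w = v then {v} else univ), cay_g v w u).det =
      (Fintype.card A : ℚ) ^ (Fintype.card A - 2) := by
  classical
  set N : ℚ := (Fintype.card A : ℚ) with hN
  have hN0 : N ≠ 0 := by
    have : 0 < Fintype.card A := Fintype.card_pos_iff.2 ⟨v⟩
    rw [hN]
    positivity
  set D : A → ℚ := fun w => if w = v then 1 else N with hD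
  set u : A → ℚ := fun w => if w = v then 0 else -(1 / N) with hu
  have hmat : (Matrix.of fun w => ∑ u ∈ (if w = v then {v} else univ), cay_g v w u) =
      Matrix.diagonal D * (1 + Matrix.replicateCol Unit u * Matrix.replicateRow Unit (fun _ => (1 : ℚ))) := by
    ext w x
    rw [Matrix.diagonal_mul, Matrix.add_apply, Matrix.mul_apply, Matrix.of_apply]
    simp only [Finset.univ_unique, Matrix.replicateCol_apply, Matrix.replicateRow_apply,
      sum_singleton, mul_one]
    by_cases hw : w = v
    · subst hw
      simp [cay_g, hD, hu, Pi.single_apply, Matrix.one_apply, eq_comm]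
    · simp only [hw, if_false, cay_g, hD, hu]
      rw [Finset.sum_apply]
      simp only [Pi.sub_apply, Pi.single_apply]
      rw [sum_sub_distrib]
      simp only [sum_const, card_univ, nsmul_eq_mul, sum_ite_eq, mem_univ, if_true]
      rw [← hN, Matrix.one_apply]
      by_cases hx : x = w
      · subst hx
        simp
        field_simp
        ring
      · simp [hx, Ne.symm hx]
        field_simp
  rw [hmat, Matrix.det_mul, Matrix.det_diagonal, Matrix.det_one_add_replicateCol_mul_replicateRow]
  have hcard : (univ.filter fun w : A => ¬ w = v).card = Fintype.card A - 1 := by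
    rw [filter_not, filter_eq', if_pos (mem_univ v), card_sdiff_of_subset (by simp)]
    simp [card_univ]
  have hprod : ∏ i, D i = N ^ (Fintype.card A - 1) := by
    rw [hD, prod_ite]
    simp only [prod_const_one, prod_const, one_mul]
    rw [hcard]
  have hdot : (fun _ : A => (1 : ℚ)) ⬝ᵥ u = - ((Fintype.card A - 1 : ℕ) : ℚ) / N := by
    rw [hu]
    simp only [dotProduct, one_mul]
    rw [sum_ite, sum_const_zero, zero_add, sum_const, hcard]
    simp
    ring
  rw [hprod, hdot]
  have hpos : 0 < Fintype.card A := Fintype.card_pos_iff.2 ⟨v⟩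
  rcases Nat.lt_or_ge (Fintype.card A) 2 with h | h
  · have h1 : Fintype.card A = 1 := by omega
    simp [h1]
  · obtain ⟨m, hm⟩ := Nat.exists_eq_add_of_le h
    have e1 : Fintype.card A - 1 = m + 1 := by omega
    have e2 : Fintype.card A - 2 = m := by omega
    have e3 : N = m + 2 := by
      rw [hN, hm]
      push_cast
      ring
    rw [e1, e2]
    push_cast
    rw [pow_succ]
    have : N * (1 + -((m : ℚ) + 1) / N) = 1 := by
      field_simp
      rw [e3]
      ring
    rw [mul_assoc, this, mul_one]

/-- Cayley's formula (for card A = 1 both sides are 1).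

PROOF A (levels).  For finite types `S` (non-roots), `R` (roots) let `FR S R` be the set of functions
`f : S → S ⊕ R` such that every `s` reaches `R` after finitely many steps.  Claim:
`|FR S R| = |R| (|S| + |R|)^(|S| - 1)` for `|S| ≥ 1` (and `1` for `S` empty).  Induction on `n = |S|`, `k = |R|`:
`f` is determined by `S₁ = {s | f s ∈ R}`, `f|S₁ : S₁ → R` and the map `S \ S₁ → (S \ S₁) ⊕ S₁`, which
is in `FR (S \ S₁) S₁`; conversely all such data give elements of `FR S R`.  Hence
`|FR S R| = ∑_j C(n,j) k^j · j n^(n-j-1)` (for `j = n` the last factor is `1 = n · n^{-1}`), and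
`∑_j C(n,j) j k^j n^(n-j) = n k (n + k)^(n-1)`.  Finally `PT A v ≅ FR (A \ {v}) {v}`.

PROOF B (leaves, inclusion-exclusion).  `t_N = |PT A v|`, `N = |A| ≥ 2`.  For a set `L ∌ v` of labels the
number of `p ∈ PT A v` such that no element of `L` is a value of `p` is `t_{N-|L|} (N-|L|)^{|L|}` (delete
the leaves in `L`), and every `p` has a label `≠ v` which is not a value of `p`; inclusion-exclusion gives
`∑_{k=0}^{N-1} (-1)^k C(N-1,k) (N-k)^k t_{N-k} = 0`, which determines `t_N`, and `t_N = N^(N-2)`
satisfies it since an `(N-1)`-st finite difference of the polynomial `x^(N-2)` vanishes. -/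
theorem card_PT (A : Type) [Fintype A] [DecidableEq A] (v : A) :
    (PT A v).card = (Fintype.card A) ^ (Fintype.card A - 2) := by
  classical
  have h1 := (Matrix.detRowAlternating (n := A) (R := ℚ)).toMultilinearMap.map_sum_finset
    (fun w u => cay_g v w u) (fun w => if w = v then {v} else univ)
  have h2 : (Matrix.detRowAlternating (n := A) (R := ℚ)).toMultilinearMap
      (fun w => ∑ u ∈ (if w = v then {v} else univ), cay_g v w u) =
      (Matrix.of fun w => ∑ u ∈ (if w = v then {v} else univ), cay_g v w u).det := rfl
  rw [h2, cay_det_sum v] at h1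
  have h3 : ∑ r ∈ Fintype.piFinset (fun w : A => if w = v then ({v} : Finset A) else univ),
      (Matrix.detRowAlternating (n := A) (R := ℚ)).toMultilinearMap (fun w => cay_g v w (r w)) =
      ∑ r ∈ Fintype.piFinset (fun w : A => if w = v then ({v} : Finset A) else univ),
        (if ∀ w, ∃ k : ℕ, r^[k] w = v then (1 : ℚ) else 0) := by
    refine sum_congr rfl fun r _ => ?_
    have h4 : (Matrix.detRowAlternating (n := A) (R := ℚ)).toMultilinearMap
      (fun w => cay_g v w (r w)) = (Matrix.of fun w => cay_g v w (r w)).det := rfl
    rw [h4]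
    split_ifs with h
    · exact cay_det_one h
    · exact cay_det_zero h
  rw [h3, sum_boole] at h1
  have h5 : (Fintype.piFinset (fun w : A => if w = v then ({v} : Finset A) else univ)).filter
      (fun r => ∀ w, ∃ k : ℕ, r^[k] w = v) = PT A v := by
    ext r
    rw [mem_PT, mem_filter, Fintype.mem_piFinset]
    constructor
    · rintro ⟨h6, h7⟩
      refine ⟨?_, h7⟩
      have := h6 v
      simpa using this
    · rintro ⟨h6, h7⟩
      refine ⟨fun w => ?_, h7⟩
      by_cases hw : w = v
      · subst hw
        simp [h6]
      · simp [hw]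
  rw [h5] at h1
  exact_mod_cast h1.symm

theorem card_PT_fin (e : ℕ) : (PT (Fin (e + 1)) 0).card = (e + 1) ^ (e - 1) := by
  rw [card_PT, Fintype.card_fin]
  rfl

end Pool.Agent.ZT
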