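import Pool.Agent.ZT.Gadget

/-! # ZT : hub with blocks and gadgets -/

set_option autoImplicit false

open Finset

namespace Pool.Agent.ZT

/-- A hub with `n1` blocks of sum `s1`, `n2` blocks of sum `s2` (each block has `e` edges) and the gadgets.

PROOF.  `gadgets` gives `j`; `pigeon_block` (with `f z = rr c e z (s_k, 0)`) gives integers `i1, i2`,
`|i_k| ≤ D`, with `β_k n ≤ sm (c z y = (i_k,0)) …`; `blocks_glue` twice (from `e0 = 0`, `rr_zero`) and then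
`gadgets`; `j0 = n1 i1 + n2 i2 + j`. -/
theorem core {V : Type} [Fintype V] {c : V → V → ℤ × ℕ} {U : Finset V} {D : ℕ} (H : IK c U D)
    (κ : ℝ) (hκ0 : 0 < κ) (I : Finset ℤ)
    (hκ : ∀ i ∈ I, κ * (Fintype.card V : ℝ) ^ 2 ≤ cnt (fun q : V × V => c q.1 q.2 = (i, 0)))
    (e : ℕ) (s1 s2 : ℤ) (β1 β2 : ℝ) (hβ1 : 0 ≤ β1) (hβ2 : 0 ≤ β2) (y : V) (hy : y ∈ U)
    (h1 : (2 * D + 1) * β1 * (Fintype.card V : ℝ) ≤
      sm (fun z => (c z y).2 = 0) (fun z => rr c e z (s1, 0)))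
    (h2 : (2 * D + 1) * β2 * (Fintype.card V : ℝ) ≤
      sm (fun z => (c z y).2 = 0) (fun z => rr c e z (s2, 0)))
    (n1 n2 : ℕ) :
    ∃ j0 : ℤ, |j0| ≤ (D : ℤ) * (n1 + n2) + 2 * (D : ℤ) * I.card ∧
      ∀ (ν : ℤ → ℕ) (m : ℕ), m = (n1 + n2) * (e + 1) + 2 * I.card + ∑ i ∈ I, ν i →
      (β1 / m) ^ n1 * (β2 / m) ^ n2 * (κ / (4 * (2 * D + 1) ^ 2 * (m : ℝ) ^ 2)) ^ I.card *
        (κ / (2 * m)) ^ (∑ i ∈ I, ν i) ≤
        rr c m y (n1 * s1 + n2 * s2 + j0 + ∑ i ∈ I, (ν i : ℤ) * i, 0) := by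
  obtain ⟨j, hj, hgad⟩ := gadgets H κ hκ0 I hκ y hy
  obtain ⟨i1, hi1, hp1⟩ := pigeon_block H y (fun z => rr c e z (s1, 0)) (fun z => rr_nonneg _ _ _ _)
  obtain ⟨i2, hi2, hp2⟩ := pigeon_block H y (fun z => rr c e z (s2, 0)) (fun z => rr_nonneg _ _ _ _)
  have hD : (0 : ℝ) < 2 * D + 1 := by positivity
  have hb1 : β1 * (Fintype.card V : ℝ) ≤
      sm (fun z => c z y = (i1, 0)) (fun z => rr c e z (s1, 0)) := by
    have := h1.trans hp1
    rw [mul_assoc] at this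
    exact le_of_mul_le_mul_left this hD
  have hb2 : β2 * (Fintype.card V : ℝ) ≤
      sm (fun z => c z y = (i2, 0)) (fun z => rr c e z (s2, 0)) := by
    have := h2.trans hp2
    rw [mul_assoc] at this
    exact le_of_mul_le_mul_left this hD
  refine ⟨n1 * i1 + n2 * i2 + j, ?_, ?_⟩
  · have e1 : |(n1 : ℤ) * i1| ≤ n1 * D := by
      rw [abs_mul, abs_of_nonneg (by positivity : (0 : ℤ) ≤ n1)]
      exact mul_le_mul_of_nonneg_left hi1 (by positivity)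
    have e2 : |(n2 : ℤ) * i2| ≤ n2 * D := by
      rw [abs_mul, abs_of_nonneg (by positivity : (0 : ℤ) ≤ n2)]
      exact mul_le_mul_of_nonneg_left hi2 (by positivity)
    have e3 := abs_add_three ((n1 : ℤ) * i1) (n2 * i2) j
    nlinarith
  · intro ν m hm
    have hm1 : 0 + n1 * (e + 1) ≤ m := by rw [hm, add_mul]; omega
    have hm2 : 0 + n1 * (e + 1) + n2 * (e + 1) ≤ m := by rw [hm, add_mul]; omega
    have hm3 : 0 + n1 * (e + 1) + n2 * (e + 1) + 2 * I.card + ∑ i ∈ I, ν i = m := by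
      rw [hm, add_mul]; omega
    have g1 := blocks_glue c y e 0 n1 m 0 s1 i1 β1 hβ1 hb1 hm1
    have g2 := blocks_glue c y e (0 + n1 * (e + 1)) n2 m (0 + n1 * (s1 + i1)) s2 i2 β2 hβ2 hb2 hm2
    have g3 := hgad ν (0 + n1 * (e + 1) + n2 * (e + 1)) m (0 + n1 * (s1 + i1) + n2 * (s2 + i2)) hm3.le
    rw [show ((0 : ℤ), (0 : ℕ)) = 0 from rfl, rr_zero, one_mul] at g1
    rw [hm3] at g3
    have e4 : (0 : ℤ) + n1 * (s1 + i1) + n2 * (s2 + i2) + j + ∑ i ∈ I, (ν i : ℤ) * i =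
        n1 * s1 + n2 * s2 + (n1 * i1 + n2 * i2 + j) + ∑ i ∈ I, (ν i : ℤ) * i := by ring
    rw [e4] at g3
    refine le_trans ?_ g3
    refine mul_le_mul_of_nonneg_right (mul_le_mul_of_nonneg_right ?_ (by positivity)) (by positivity)
    exact (mul_le_mul_of_nonneg_right g1 (by positivity)).trans g2

end Pool.Agent.ZT
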