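import Pool.Agent.ZT.Core1
import Pool.Agent.ZT.Block
import Pool.Agent.ZT.Dual

/-! # ZT : the integer case, all parameters -/

set_option autoImplicit false

open Finset

namespace Pool.Agent.ZT

/-- All parameters together: `M` blocks with `e` edges, `J` leaves, `m = M (e+1) + 2|I| + J`.
`E = log (2 D e + 1) - e log h`.

PROOF.  Let `f s = NN c e (s,0)`, `Q = (e+1)^(e-1) n^(e+1) h^e`; `block_sum` and `dual` (with
`S = Icc (-De) (De)`, `2De + 1` elements) give `s1 ≤ 0 ≤ s2`, `w` with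
`w log f(s1) + (1-w) log f(s2) ≥ log (Q/(2De+1))`, i.e. for `p_k = f(s_k)/((e+1)^(e-1) n^(e+1)) ∈ (0,1]`
(`NN_le`) `w log p1 + (1-w) log p2 ≥ -E`.  `round_weights` gives `n1 + n2 = M`,
`|n1 s1 + n2 s2| ≤ |s2 - s1| ≤ 2 D e`, `p1^n1 p2^n2 ≥ e^{-(M+2)E}`.  For every hub `y` from `hub_two`
(at least `n/2` of them) apply `core` with
`β_k = (1/(2(2D+1))) (∑_z rr c e z (s_k,0))/n = p_k (e+1)^(e-1)/(e! 2 (2D+1))` (`sum_rr`), and choose `ν` by
`hpat` with `r = -(n1 s1 + n2 s2 + j0)`, `|r| ≤ 2De + DM + 2D|I|`.  Sum over `y`: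
`NN c m 0 = m! n^m ∑_y rr c m y 0`. -/
theorem int_raw {V : Type} [Fintype V] {c : V → V → ℤ × ℕ} {U : Finset V} {D : ℕ} (H : IK c U D)
    (κ : ℝ) (hκ0 : 0 < κ) (I : Finset ℤ)
    (hκ : ∀ i ∈ I, κ * (Fintype.card V : ℝ) ^ 2 ≤ cnt (fun q : V × V => c q.1 q.2 = (i, 0)))
    (h : ℝ) (hh0 : 0 < h)
    (hθ : ∀ θ : ℝ, h * (Fintype.card V : ℝ) ^ 2 ≤
      sm (fun q : V × V => (c q.1 q.2).2 = 0) (fun q => Real.exp (θ * (c q.1 q.2).1)))
    (C : ℕ) (hpat : ∀ (J : ℕ) (r : ℤ), |r| + C ≤ J →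
      ∃ ν : ℤ → ℕ, ∑ i ∈ I, ν i = J ∧ ∑ i ∈ I, (ν i : ℤ) * i = r)
    (e M J m : ℕ) (he : 1 ≤ e) (hm : m = M * (e + 1) + 2 * I.card + J)
    (hJ : D * M + 2 * D * I.card + 2 * D * e + C ≤ J) :
    (m.factorial : ℝ) / 2 * (Fintype.card V : ℝ) ^ (m + 1) *
      (((e + 1 : ℕ) : ℝ) ^ (e - 1) / e.factorial / (2 * (2 * D + 1) * m)) ^ M *
      Real.exp (-((M : ℝ) + 2) * (Real.log (2 * D * e + 1) - e * Real.log h)) *
      (κ / (4 * (2 * D + 1) ^ 2 * (m : ℝ) ^ 2)) ^ I.card * (κ / (2 * m)) ^ J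
    ≤ NN c m (0, 0) := by
  classical
  set n : ℝ := (Fintype.card V : ℝ) with hn
  have hnpos : 0 < n := by
    obtain ⟨u, _⟩ := H.ne
    rw [hn]
    exact_mod_cast Fintype.card_pos_iff.2 ⟨u⟩
  set A : ℝ := ((e + 1 : ℕ) : ℝ) ^ (e - 1) with hA
  have hApos : 0 < A := by positivity
  set T : ℝ := A * n ^ (e + 1) with hT
  have hTpos : 0 < T := by positivity
  set S : Finset ℤ := Icc (-((D : ℤ) * e)) ((D : ℤ) * e) with hS
  have hScard : (S.card : ℝ) = 2 * D * e + 1 := by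
    have h1 : S.card = 2 * (D * e) + 1 := by
      rw [hS, Int.card_Icc]
      have : ((D : ℤ) * e) = ((D * e : ℕ) : ℤ) := by push_cast; ring
      rw [this]
      omega
    rw [h1]
    push_cast
    ring
  obtain ⟨s1, hs1, s2, hs2, w, hw0, hw1, hws, hf1, hf2, hlog⟩ :=
    dual S (fun s => (NN c e (s, 0) : ℝ)) (fun s _ => Nat.cast_nonneg _) (T * h ^ e)
      (by positivity) (fun θ => block_sum c H.symm D H.bdd e θ h hh0.le (hθ θ))
  set f1 : ℝ := (NN c e (s1, 0) : ℝ) with hf1d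
  set f2 : ℝ := (NN c e (s2, 0) : ℝ) with hf2d
  have hp1 : 0 < f1 / T := by positivity
  have hp2 : 0 < f2 / T := by positivity
  have hp1' : f1 / T ≤ 1 := by
    rw [div_le_one hTpos]
    exact NN_le c e (s1, 0)
  have hp2' : f2 / T ≤ 1 := by
    rw [div_le_one hTpos]
    exact NN_le c e (s2, 0)
  set E : ℝ := Real.log (2 * D * e + 1) - e * Real.log h with hE
  have hEle : -E ≤ w * Real.log (f1 / T) + (1 - w) * Real.log (f2 / T) := by
    rw [Real.log_div hf1.ne' hTpos.ne', Real.log_div hf2.ne' hTpos.ne']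
    rw [hScard, Real.log_div (by positivity) (by positivity), Real.log_mul hTpos.ne' (by positivity),
      Real.log_pow] at hlog
    rw [hE]
    linarith
  obtain ⟨n1, n2, hn12, habs, hexp⟩ := round_weights s1 s2 w hw0 hw1 hws (f1 / T) (f2 / T) hp1 hp1'
    hp2 hp2' E hEle M
  have hs12 : |s2 - s1| ≤ 2 * ((D : ℤ) * e) := by
    rw [hS, mem_Icc] at hs1 hs2
    rw [abs_le]
    constructor <;> linarith [hs1.1, hs1.2, hs2.1, hs2.2]
  -- the constant for one hub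
  set B : ℝ := A / e.factorial / (2 * (2 * D + 1) * m) with hB
  have hB0 : 0 ≤ B := by positivity
  set LB : ℝ := B ^ M * Real.exp (-((M : ℝ) + 2) * E) *
      (κ / (4 * (2 * D + 1) ^ 2 * (m : ℝ) ^ 2)) ^ I.card * (κ / (2 * m)) ^ J with hLB
  have hLB0 : 0 ≤ LB := by positivity
  have hβ : ∀ s : ℤ, (1 / (2 * (2 * (D : ℝ) + 1))) * (∑ z, rr c e z (s, 0)) / n / m =
      (NN c e (s, 0) : ℝ) / T * B := by
    intro s
    rw [sum_rr, hB, hT, ← hn]
    have hDp : (0 : ℝ) < 2 * D + 1 := by positivity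
    have hfac : (0 : ℝ) < e.factorial := by positivity
    rcases eq_or_ne (m : ℝ) 0 with hm0 | hm0
    · rw [hm0]
      simp
    · field_simp
      ring
  have key : ∀ y : V, (y ∈ U ∧
      1 / 2 * ∑ z, rr c e z (s1, 0) ≤ sm (fun z => (c z y).2 = 0) (fun z => rr c e z (s1, 0)) ∧
      1 / 2 * ∑ z, rr c e z (s2, 0) ≤ sm (fun z => (c z y).2 = 0) (fun z => rr c e z (s2, 0))) →
      LB ≤ rr c m y (0, 0) := by
    rintro y ⟨hyU, hy1, hy2⟩
    have hDp : (0 : ℝ) < 2 * D + 1 := by positivity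
    have hnn : ∀ s : ℤ, 0 ≤ ∑ z, rr c e z (s, 0) := fun s =>
      sum_nonneg fun z _ => rr_nonneg c e z (s, 0)
    have hval : ∀ s : ℤ, (2 * (D : ℝ) + 1) *
        ((1 / (2 * (2 * (D : ℝ) + 1))) * (∑ z, rr c e z (s, 0)) / n) * n =
        1 / 2 * ∑ z, rr c e z (s, 0) := by
      intro s
      field_simp
    have hb0 : ∀ s : ℤ, 0 ≤ (1 / (2 * (2 * (D : ℝ) + 1))) * (∑ z, rr c e z (s, 0)) / n := fun s =>
      div_nonneg (mul_nonneg (by positivity) (hnn s)) hnpos.le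
    obtain ⟨j0, hj0, hcore⟩ := core H κ hκ0 I hκ e s1 s2
      ((1 / (2 * (2 * (D : ℝ) + 1))) * (∑ z, rr c e z (s1, 0)) / n)
      ((1 / (2 * (2 * (D : ℝ) + 1))) * (∑ z, rr c e z (s2, 0)) / n)
      (hb0 s1) (hb0 s2) y hyU
      (by rw [← hn, hval]; exact hy1) (by rw [← hn, hval]; exact hy2) n1 n2
    set r : ℤ := -((n1 : ℤ) * s1 + n2 * s2 + j0) with hr
    have hMn : ((n1 : ℤ) + n2) = (M : ℤ) := by exact_mod_cast hn12
    have hrle : |r| + (C : ℤ) ≤ J := by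
      have h1 : |r| ≤ |(n1 : ℤ) * s1 + n2 * s2| + |j0| := by
        rw [hr, abs_neg]
        exact abs_add_le _ _
      have h2 : |(n1 : ℤ) * s1 + n2 * s2| ≤ 2 * ((D : ℤ) * e) := habs.trans hs12
      rw [hMn] at hj0
      have h3 : ((D * M + 2 * D * I.card + 2 * D * e + C : ℕ) : ℤ) ≤ (J : ℤ) := by
        exact_mod_cast hJ
      push_cast at h3
      linarith
    obtain ⟨ν, hν1, hν2⟩ := hpat J r hrle
    have h4 := hcore ν m (by rw [hm, hν1, hn12])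
    rw [hν2, hν1, hβ s1, hβ s2] at h4
    have h5 : ((n1 : ℤ) * s1 + n2 * s2 + j0 + r) = 0 := by rw [hr]; ring
    rw [h5] at h4
    refine le_trans ?_ h4
    rw [hLB]
    have h6 : (f1 / T * B) ^ n1 * (f2 / T * B) ^ n2 =
        B ^ M * ((f1 / T) ^ n1 * (f2 / T) ^ n2) := by
      rw [← hn12, pow_add, mul_pow, mul_pow]
      ring
    rw [h6]
    gcongr
  have hub := hub_two H e he s1 s2
  rw [cnt_eq_card] at hub
  have hsum : n / 2 * LB ≤ ∑ y, rr c m y (0, 0) := by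
    calc n / 2 * LB ≤ ((univ.filter (fun y : V => y ∈ U ∧
          1 / 2 * ∑ z, rr c e z (s1, 0) ≤ sm (fun z => (c z y).2 = 0) (fun z => rr c e z (s1, 0)) ∧
          1 / 2 * ∑ z, rr c e z (s2, 0) ≤
            sm (fun z => (c z y).2 = 0) (fun z => rr c e z (s2, 0)))).card : ℝ) * LB := by
          gcongr
          linarith
      _ = ∑ y ∈ univ.filter (fun y : V => y ∈ U ∧
          1 / 2 * ∑ z, rr c e z (s1, 0) ≤ sm (fun z => (c z y).2 = 0) (fun z => rr c e z (s1, 0)) ∧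
          1 / 2 * ∑ z, rr c e z (s2, 0) ≤
            sm (fun z => (c z y).2 = 0) (fun z => rr c e z (s2, 0))), LB := by
          rw [sum_const, nsmul_eq_mul]
      _ ≤ ∑ y ∈ univ.filter (fun y : V => y ∈ U ∧
          1 / 2 * ∑ z, rr c e z (s1, 0) ≤ sm (fun z => (c z y).2 = 0) (fun z => rr c e z (s1, 0)) ∧
          1 / 2 * ∑ z, rr c e z (s2, 0) ≤
            sm (fun z => (c z y).2 = 0) (fun z => rr c e z (s2, 0))), rr c m y (0, 0) :=
          sum_le_sum fun y hy => key y (mem_filter.1 hy).2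
      _ ≤ ∑ y, rr c m y (0, 0) :=
          sum_le_sum_of_subset_of_nonneg (filter_subset _ _) fun y _ _ => rr_nonneg c m y _
  rw [sum_rr, ← hn, le_div_iff₀ (by positivity)] at hsum
  refine le_trans (le_of_eq ?_) hsum
  rw [hLB, pow_succ]
  ring

end Pool.Agent.ZT
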