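import Pool.Agent.ZT.Core2
import Pool.Agent.ZT.Core3

/-! # ZT : the integer case -/

set_option autoImplicit false

open Finset

namespace Pool.Agent.ZT

/-- The integer case.

PROOF.  For `m ≥ m0(D, K, C0)` let `e + 1 = ⌊√m⌋ = b`, `k' = |I| ≤ K`, `J0 = D (b+2) + 2DK + 2Db + C0`,
`M = (m - 2k' - J0)/b`, `J = m - 2k' - M b`, so that `J0 ≤ J < J0 + b` and `M ≤ m/b ≤ b + 2`.  Apply
`int_raw` and `int_num` (with `C'` such that `J0 + b ≤ C' √m`, `b + 2 ≤ C' √m`). -/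
theorem int_case (D K C0 : ℕ) (κ h : ℝ) (hκ0 : 0 < κ) (hh0 : 0 < h) (hh1 : h ≤ 1) :
    ∃ C : ℝ, 0 < C ∧ ∃ m0 : ℕ, ∀ m ≥ m0, ∀ (V : Type) [Fintype V] (c : V → V → ℤ × ℕ) (U : Finset V)
      (I : Finset ℤ), IK c U D → I.card ≤ K →
      (∀ i ∈ I, κ * (Fintype.card V : ℝ) ^ 2 ≤ cnt (fun q : V × V => c q.1 q.2 = (i, 0))) →
      (∀ θ : ℝ, h * (Fintype.card V : ℝ) ^ 2 ≤
        sm (fun q : V × V => (c q.1 q.2).2 = 0) (fun q => Real.exp (θ * (c q.1 q.2).1))) →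
      (∀ (J : ℕ) (r : ℤ), |r| + C0 ≤ J →
        ∃ ν : ℤ → ℕ, ∑ i ∈ I, ν i = J ∧ ∑ i ∈ I, (ν i : ℤ) * i = r) →
      h ^ m * Real.exp (-C * Real.sqrt m * Real.log m) * ((m + 1 : ℕ) : ℝ) ^ (m - 1) *
        (Fintype.card V : ℝ) ^ (m + 1) ≤ NN c m (0, 0) := by
  obtain ⟨C, hC, hnum⟩ := int_num D K (5 * D + 2 * D * K + C0 + 4) κ h hκ0 hh0 hh1
  set B := 5 * D + 2 * K + 2 * D * K + C0 + 3 with hB
  refine ⟨C, hC, (B + 1) ^ 2, fun m hm V _ c U I H hI hκ hθ hpat => ?_⟩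
  -- `b = ⌊√m⌋`
  set b := Nat.sqrt m with hb
  have hb1 : b * b ≤ m := Nat.sqrt_le m
  have hb2 : m ≤ b * b + b + b := Nat.sqrt_le_add m
  have hBb : B + 1 ≤ b := by
    rw [hb, Nat.le_sqrt']
    exact hm
  obtain ⟨e, he⟩ : ∃ e, b = e + 1 := ⟨b - 1, by omega⟩
  have he1 : 1 ≤ e := by omega
  have hbB : b * (B + 1) ≤ b * b := Nat.mul_le_mul_left b hBb
  set k' := I.card with hk'
  set J0 := D * (b + 2) + 2 * D * K + 2 * D * b + C0 with hJ0
  have e1 : J0 = 3 * (D * b) + 2 * D + 2 * (D * K) + C0 := by rw [hJ0]; ring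
  have e2 : b * (B + 1) = 5 * (D * b) + 2 * (K * b) + 2 * (D * K * b) + C0 * b + 4 * b := by
    rw [hB]; ring
  have f1 : D ≤ D * b := Nat.le_mul_of_pos_right _ (by omega)
  have f2 : K ≤ K * b := Nat.le_mul_of_pos_right _ (by omega)
  have f3 : D * K ≤ D * K * b := Nat.le_mul_of_pos_right _ (by omega)
  have f4 : C0 ≤ C0 * b := Nat.le_mul_of_pos_right _ (by omega)
  have hJ0m : 2 * k' + J0 ≤ m := by omega
  obtain ⟨M, R, hR, hMR⟩ : ∃ M R, R < b ∧ m = M * b + 2 * k' + (J0 + R) := by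
    refine ⟨(m - 2 * k' - J0) / b, (m - 2 * k' - J0) % b, Nat.mod_lt _ (by omega), ?_⟩
    have := Nat.div_add_mod (m - 2 * k' - J0) b
    rw [mul_comm] at this
    omega
  have hM : M ≤ b + 2 := by
    by_contra hcon
    push Not at hcon
    have := Nat.mul_le_mul_right b hcon
    have e3 : (b + 2).succ * b = b * b + 3 * b := by
      rw [Nat.succ_eq_add_one]; ring
    omega
  have hbs : (b : ℝ) ≤ Real.sqrt m := by
    apply Real.le_sqrt_of_sq_le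
    rw [sq]
    exact_mod_cast hb1
  have hMs : (M : ℝ) ≤ ((5 * D + 2 * D * K + C0 + 4 : ℕ) : ℝ) * Real.sqrt m := by
    refine le_trans ?_ (mul_le_mul_of_nonneg_left hbs (by positivity))
    have : M ≤ (5 * D + 2 * D * K + C0 + 4) * b := by
      have e4 : (5 * D + 2 * D * K + C0 + 4) * b = 5 * (D * b) + 2 * (D * K * b) + C0 * b + 4 * b := by
        ring
      omega
    exact_mod_cast this
  have hJs : ((J0 + R : ℕ) : ℝ) ≤ ((5 * D + 2 * D * K + C0 + 4 : ℕ) : ℝ) * Real.sqrt m := by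
    refine le_trans ?_ (mul_le_mul_of_nonneg_left hbs (by positivity))
    have : J0 + R ≤ (5 * D + 2 * D * K + C0 + 4) * b := by
      have e4 : (5 * D + 2 * D * K + C0 + 4) * b = 5 * (D * b) + 2 * (D * K * b) + C0 * b + 4 * b := by
        ring
      omega
    exact_mod_cast this
  have g1 := hnum e M (J0 + R) m k' (by nlinarith) hI he.symm (by rw [← he]; exact hMR) hMs hJs
  have g2 := int_raw H κ hκ0 I hκ h hh0 hθ C0 hpat e M (J0 + R) m he1 (by rw [← he]; exact hMR) (by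
    have h1 : D * M ≤ D * (b + 2) := Nat.mul_le_mul_left _ hM
    have h2 : 2 * D * I.card ≤ 2 * D * K := Nat.mul_le_mul_left _ hI
    change D * M + 2 * D * I.card + 2 * D * e + C0 ≤ J0 + R
    have h3 : 2 * D * e ≤ 2 * D * b := Nat.mul_le_mul_left _ (by omega)
    omega)
  refine le_trans (mul_le_mul_of_nonneg_right g1 (by positivity)) (le_trans (le_of_eq ?_) g2)
  ring

end Pool.Agent.ZT
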