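import Pool.Agent.ZT.Defs

/-! # ZT : negligible losses -/

set_option autoImplicit false

open Finset

namespace Pool.Agent.ZT

/-- The loss `exp(-C √m log m)` is negligible. -/
theorem final_num (C h γ : ℝ) (hC : 0 < C) (hγ : 0 < γ) (hh : 0 < h) :
    ∃ m0 : ℕ, ∀ m ≥ m0, h ^ m ≤ (h + γ) ^ m * Real.exp (-C * Real.sqrt m * Real.log m) := by
  set δ := Real.log ((h + γ) / h) with hδ
  have hδ0 : 0 < δ := Real.log_pos (by rw [lt_div_iff₀ hh]; linarith)
  have h1 : ∀ᶠ x : ℝ in Filter.atTop, Real.log x ≤ (δ / C) * x ^ (1 / 2 : ℝ) := by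
    have := (isLittleO_log_rpow_atTop (show (0:ℝ) < 1 / 2 by norm_num)).bound
      (show 0 < δ / C by positivity)
    filter_upwards [this, Filter.eventually_ge_atTop 1] with x hx hx1
    rwa [Real.norm_of_nonneg (Real.log_nonneg hx1), Real.norm_of_nonneg (by positivity)] at hx
  have h2 := (tendsto_natCast_atTop_atTop (R := ℝ)).eventually h1
  obtain ⟨m0, hm0⟩ := Filter.eventually_atTop.1 h2
  refine ⟨m0, fun m hm => ?_⟩
  have h3 := hm0 m hm
  rw [← Real.sqrt_eq_rpow] at h3
  have h5 : C * Real.sqrt m * Real.log m ≤ m * δ := by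
    have h7 : Real.sqrt m * Real.sqrt m = m := Real.mul_self_sqrt (by positivity)
    calc C * Real.sqrt m * Real.log m ≤ C * Real.sqrt m * (δ / C * Real.sqrt m) := by gcongr
      _ = δ * (Real.sqrt m * Real.sqrt m) := by field_simp
      _ = m * δ := by rw [h7, mul_comm]
  have h6 : (h + γ) ^ m = h ^ m * Real.exp (m * δ) := by
    rw [Real.exp_nat_mul, Real.exp_log (by positivity), ← mul_pow]
    congr 1
    field_simp
  rw [h6, mul_assoc, ← Real.exp_add]
  exact le_mul_of_one_le_right (by positivity) (Real.one_le_exp (by nlinarith))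

end Pool.Agent.ZT
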