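import Mathlib

/-! # ZT : zero-sum trees for large m (MP_5f2667_co) — definitions

Rooted labelled trees are PARENT FUNCTIONS.  `V` is the finite set of vertices of the coloured complete
graph (with loops: `c` is a symmetric function `V → V → G`), `A` is a finite type of labels.
`n` in the docstrings is always `Fintype.card V`. -/

set_option autoImplicit false

open Finset

namespace Pool.Agent.ZT

open Classical in
/-- The number of elements of the finite type `S` with property `P`. -/
noncomputable def cnt {S : Type} [Fintype S] (P : S → Prop) : ℕ := (univ.filter P).card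

open Classical in
/-- The sum of `f` over the elements with property `P`. -/
noncomputable def sm {S : Type} [Fintype S] (P : S → Prop) (f : S → ℝ) : ℝ := ∑ s ∈ univ.filter P, f s

open Classical in
/-- Rooted labelled trees on the label type `A` with root `v`: parent functions `p` with `p v = v` such
that every label is sent to `v` by some iterate of `p`. -/
noncomputable def PT (A : Type) [Fintype A] [DecidableEq A] (v : A) : Finset (A → A) :=
  univ.filter (fun p => p v = v ∧ ∀ w, ∃ k : ℕ, p^[k] w = v)

/-- The sum of the colours of the edges `{w, p w}`, `w ≠ v`, of the tree `p` placed by `x`. -/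
def PS {A V G : Type} [Fintype A] [DecidableEq A] [AddCommMonoid G] (c : V → V → G) (p : A → A)
    (v : A) (x : A → V) : G :=
  ∑ w ∈ univ.erase v, c (x w) (x (p w))

/-- The number of pairs (tree on `A` with root `v`, placement `x`) with `x v = y` and colour sum `g`. -/
noncomputable def RR {V G : Type} [Fintype V] [AddCommMonoid G] (c : V → V → G)
    (A : Type) [Fintype A] [DecidableEq A] (v : A) (y : V) (g : G) : ℕ :=
  cnt (fun q : (A → A) × (A → V) => q.1 ∈ PT A v ∧ q.2 v = y ∧ PS c q.1 v q.2 = g)

/-- The normalised count for trees with `e` edges on the labels `Fin (e + 1)`, root `0`. -/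
noncomputable def rr {V G : Type} [Fintype V] [AddCommMonoid G] (c : V → V → G) (e : ℕ) (y : V)
    (g : G) : ℝ :=
  (RR c (Fin (e + 1)) 0 y g : ℝ) / ((e.factorial : ℝ) * (Fintype.card V : ℝ) ^ e)

/-- The number of pairs (tree with `e` edges on `Fin (e + 1)`, root `0`; placement) with colour
sum `g`. -/
noncomputable def NN {V G : Type} [Fintype V] [AddCommMonoid G] (c : V → V → G) (e : ℕ) (g : G) : ℕ :=
  cnt (fun q : (Fin (e + 1) → Fin (e + 1)) × (Fin (e + 1) → V) =>
    q.1 ∈ PT (Fin (e + 1)) 0 ∧ PS c q.1 0 q.2 = g)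

section basic

variable {S T : Type} [Fintype S] [Fintype T]

theorem cnt_eq_card (P : S → Prop) [DecidablePred P] : cnt P = (univ.filter P).card := by
  unfold cnt
  congr

theorem cnt_mono {P Q : S → Prop} (h : ∀ s, P s → Q s) : cnt P ≤ cnt Q := by
  classical
  rw [cnt_eq_card, cnt_eq_card]
  exact card_le_card (fun s hs => by
    simp only [mem_filter, mem_univ, true_and] at hs ⊢
    exact h s hs)

theorem cnt_congr {P Q : S → Prop} (h : ∀ s, P s ↔ Q s) : cnt P = cnt Q :=
  le_antisymm (cnt_mono fun s hs => (h s).1 hs) (cnt_mono fun s hs => (h s).2 hs)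

theorem cnt_le_card (P : S → Prop) : cnt P ≤ Fintype.card S := by
  classical
  rw [cnt_eq_card]
  exact card_le_univ _

theorem cnt_add_not (P : S → Prop) : cnt P + cnt (fun s => ¬ P s) = Fintype.card S := by
  classical
  rw [cnt_eq_card, cnt_eq_card, ← card_univ]
  exact card_filter_add_card_filter_not _

/-- Injections. -/
theorem cnt_inj {P : S → Prop} {Q : T → Prop} (f : S → T) (hf : ∀ s, P s → Q (f s))
    (hi : ∀ s t, P s → P t → f s = f t → s = t) : cnt P ≤ cnt Q := by
  classical
  rw [cnt_eq_card, cnt_eq_card]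
  refine card_le_card_of_injOn f (fun s hs => ?_) (fun s hs t ht h => ?_)
  · simp only [coe_filter, mem_univ, true_and, Set.mem_ofPred_eq] at hs ⊢
    exact hf s hs
  · simp only [coe_filter, mem_univ, true_and, Set.mem_ofPred_eq] at hs ht
    exact hi s t hs ht h

theorem cnt_eq_sum (P : S → Prop) [DecidablePred P] : (cnt P : ℝ) = ∑ s, if P s then (1 : ℝ) else 0 := by
  rw [cnt_eq_card, card_filter]
  push_cast
  rfl

theorem sm_eq (P : S → Prop) [DecidablePred P] (f : S → ℝ) : sm P f = ∑ s ∈ univ.filter P, f s := by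
  unfold sm
  congr

theorem cnt_prod (P : S → Prop) (Q : T → Prop) :
    cnt (fun q : S × T => P q.1 ∧ Q q.2) = cnt P * cnt Q := by
  classical
  rw [cnt_eq_card, cnt_eq_card, cnt_eq_card, ← card_product]
  congr 1
  ext q
  simp

end basic

theorem mem_PT {A : Type} [Fintype A] [DecidableEq A] {v : A} {p : A → A} :
    p ∈ PT A v ↔ p v = v ∧ ∀ w, ∃ k : ℕ, p^[k] w = v := by
  simp [PT]

theorem RR_congr {V G : Type} [Fintype V] [AddCommMonoid G] (c : V → V → G)
    (A : Type) [Fintype A] [DecidableEq A] (v : A) (y : V) (g : G) :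
    RR c A v y g = cnt (fun q : (A → A) × (A → V) => q.1 ∈ PT A v ∧ q.2 v = y ∧ PS c q.1 v q.2 = g) :=
  rfl

theorem NN_eq_sum {V G : Type} [Fintype V] [AddCommMonoid G] (c : V → V → G) (e : ℕ) (g : G) :
    NN c e g = ∑ y : V, RR c (Fin (e + 1)) 0 y g := by
  classical
  unfold NN RR
  simp only [cnt_eq_card]
  rw [card_eq_sum_card_fiberwise (f := fun q : (Fin (e + 1) → Fin (e + 1)) × (Fin (e + 1) → V) => q.2 0)
    (t := univ) (fun _ _ => mem_coe.2 (mem_univ _))]
  refine sum_congr rfl fun y _ => ?_
  congr 1
  ext q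
  simp only [mem_filter, mem_univ, true_and]
  tauto

theorem rr_nonneg {V G : Type} [Fintype V] [AddCommMonoid G] (c : V → V → G) (e : ℕ) (y : V) (g : G) :
    0 ≤ rr c e y g := by
  unfold rr
  positivity

/-- `∑_y rr = NN / (e! n^e)`. -/
theorem sum_rr {V G : Type} [Fintype V] [AddCommMonoid G] (c : V → V → G) (e : ℕ) (g : G) :
    ∑ y, rr c e y g = (NN c e g : ℝ) / ((e.factorial : ℝ) * (Fintype.card V : ℝ) ^ e) := by
  unfold rr
  rw [← sum_div, NN_eq_sum]
  push_cast
  rfl

end Pool.Agent.ZT
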