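import Pool.Agent.ZT.Defs

/-! # ZT : covering, Dirichlet -/

set_option autoImplicit false

open Finset

namespace Pool.Agent.ZT

theorem dich1_fill {M : Type} [AddCommMonoid M] (x y : M) (n1 n2 J : ℕ) (h : n1 + n2 ≤ J) :
    ∃ γ : Fin J → M, (∀ j, γ j = x ∨ γ j = y ∨ γ j = 0) ∧ ∑ j, γ j = n1 • x + n2 • y := by
  obtain ⟨n3, rfl⟩ := Nat.exists_eq_add_of_le h
  refine ⟨fun j => if (j : ℕ) < n1 then x else if (j : ℕ) < n1 + n2 then y else 0, ?_, ?_⟩
  · intro j
    dsimp only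
    split_ifs
    · exact Or.inl rfl
    · exact Or.inr (Or.inl rfl)
    · exact Or.inr (Or.inr rfl)
  · rw [Fin.sum_univ_eq_sum_range (fun j => if j < n1 then x else if j < n1 + n2 then y else 0)]
    rw [Finset.sum_range_add, Finset.sum_range_add]
    have e1 : ∑ j ∈ range n1, (if j < n1 then x else if j < n1 + n2 then y else 0) = n1 • x := by
      rw [Finset.sum_congr rfl (g := fun _ => x)]
      · simp
      · intro j hj
        rw [if_pos (Finset.mem_range.1 hj)]
    have e2 : ∑ j ∈ range n2, (if n1 + j < n1 then x else if n1 + j < n1 + n2 then y else 0) =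
        n2 • y := by
      rw [Finset.sum_congr rfl (g := fun _ => y)]
      · simp
      · intro j hj
        have := Finset.mem_range.1 hj
        rw [if_neg (by omega), if_pos (by omega)]
    have e3 : ∑ j ∈ range n3, (if n1 + n2 + j < n1 then x else
        if n1 + n2 + j < n1 + n2 then y else 0) = 0 := by
      rw [Finset.sum_congr rfl (g := fun _ => (0 : M))]
      · simp
      · intro j _
        rw [if_neg (by omega), if_neg (by omega)]
    rw [e1, e2, e3, add_zero]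

/-- Covering: if `0, 1, x ∈ F`, `k x = i` in `ZMod p` with `1 ≤ k ≤ K` and `B < |i| ≤ I`, then every residue
is a sum of exactly `J` elements of `F` as soon as `(p / B + 1) K + I ≤ J`.

PROOF.  Let `τ = t (mod p)`, `0 ≤ t < p`.  If `i > 0` write `t = q i + s`, `0 ≤ s < i`; if `i < 0` write
`p - t = q |i| - s` with `0 ≤ s < |i|`, so that `τ = q i + s` again.  In both cases `0 ≤ q ≤ p/B + 1`,
`0 ≤ s ≤ I`, and `τ` is the sum of `q k` copies of `x`, `s` copies of `1` and `J - q k - s` copies of `0`. -/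
theorem cover (p : ℕ) (hp : p.Prime) (F : Finset (ZMod p)) (x : ZMod p) (h0 : (0 : ZMod p) ∈ F)
    (h1 : (1 : ZMod p) ∈ F) (hx : x ∈ F) (K B I k : ℕ) (i : ℤ) (hk1 : 1 ≤ k) (hk : k ≤ K)
    (hB : 1 ≤ B) (hBi : (B : ℤ) < |i|) (hi : |i| ≤ (I : ℤ)) (hki : (k : ZMod p) * x = (i : ZMod p))
    (J : ℕ) (hJ : (p / B + 1) * K + I ≤ J) (τ : ZMod p) :
    ∃ γ : Fin J → ZMod p, (∀ j, γ j ∈ F) ∧ ∑ j, γ j = τ := by
  have : NeZero p := ⟨hp.ne_zero⟩
  -- it is enough to write `τ = q i + s`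
  have key : ∀ q s : ℕ, q ≤ p / B + 1 → s ≤ I → (q : ZMod p) * (i : ZMod p) + (s : ZMod p) = τ →
      ∃ γ : Fin J → ZMod p, (∀ j, γ j ∈ F) ∧ ∑ j, γ j = τ := by
    intro q s hq hs hτ
    have hle : q * k + s ≤ J := by
      have h2 : q * k ≤ (p / B + 1) * K := Nat.mul_le_mul hq hk
      omega
    obtain ⟨γ, hγ, hsum⟩ := dich1_fill x (1 : ZMod p) (q * k) s J hle
    refine ⟨γ, ?_, ?_⟩
    · intro j
      rcases hγ j with h | h | h <;> rw [h]
      · exact hx
      · exact h1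
      · exact h0
    · rw [hsum, ← hτ, ← hki]
      simp only [nsmul_eq_mul]
      push_cast
      ring
  have ht : τ.val < p := ZMod.val_lt τ
  have hτv : ((τ.val : ℕ) : ZMod p) = τ := ZMod.natCast_zmod_val τ
  rcases lt_trichotomy i 0 with hi0 | hi0 | hi0
  · -- negative
    obtain ⟨a, ha⟩ : ∃ a : ℕ, i = -(a : ℤ) := ⟨(-i).toNat, by omega⟩
    have haB : B < a := by
      rw [ha, abs_neg, Nat.abs_cast] at hBi
      exact_mod_cast hBi
    have haI : a ≤ I := by
      rw [ha, abs_neg, Nat.abs_cast] at hi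
      exact_mod_cast hi
    have ha0 : 0 < a := by omega
    set u := p - τ.val with hu
    have hdm := Nat.div_add_mod (u + (a - 1)) a
    have hmod := Nat.mod_lt (u + (a - 1)) ha0
    set q := (u + (a - 1)) / a with hq
    have hqu : u ≤ a * q := by omega
    refine key q (a * q - u) ?_ ?_ ?_
    · have h3 : q ≤ (u + a) / a := Nat.div_le_div_right (by omega)
      have h4 : (u + a) / a = u / a + 1 := Nat.add_div_right u ha0
      have h5 : u / a ≤ p / B :=
        (Nat.div_le_div_right (by omega)).trans (Nat.div_le_div_left haB.le (by omega))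
      omega
    · have : a * q - u ≤ a := by omega
      omega
    · rw [ha, Nat.cast_sub hqu, hu, Nat.cast_sub ht.le, hτv]
      push_cast
      rw [ZMod.natCast_self]
      ring
  · rw [hi0, abs_zero] at hBi
    omega
  · obtain ⟨a, ha⟩ : ∃ a : ℕ, i = (a : ℤ) := ⟨i.toNat, by omega⟩
    have haB : B < a := by
      rw [ha, Nat.abs_cast] at hBi
      exact_mod_cast hBi
    have haI : a ≤ I := by
      rw [ha, Nat.abs_cast] at hi
      exact_mod_cast hi
    have ha0 : 0 < a := by omega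
    have hdm := Nat.div_add_mod τ.val a
    have hmod := Nat.mod_lt τ.val ha0
    refine key (τ.val / a) (τ.val % a) ?_ ?_ ?_
    · have h5 : τ.val / a ≤ p / B :=
        (Nat.div_le_div_right ht.le).trans (Nat.div_le_div_left haB.le (by omega))
      omega
    · omega
    · rw [ha]
      have h6 : ((a * (τ.val / a) + τ.val % a : ℕ) : ZMod p) = τ := by rw [hdm, hτv]
      push_cast at h6 ⊢
      rw [mul_comm]
      exact h6

/-- Dirichlet: for `K ≥ 1` every residue `x` has a multiple `k x = i`, `1 ≤ k ≤ K`, `|i| ≤ p / (K + 1)`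
(`Real.exists_int_int_abs_mul_sub_le` or the pigeonhole principle). -/
theorem dirichlet (p : ℕ) (hp : p.Prime) (K : ℕ) (hK : 1 ≤ K) (x : ZMod p) :
    ∃ (k : ℕ) (i : ℤ), 1 ≤ k ∧ k ≤ K ∧ (|i| : ℝ) ≤ (p : ℝ) / (K + 1) ∧
      (k : ZMod p) * x = (i : ZMod p) := by
  have : NeZero p := ⟨hp.ne_zero⟩
  have hp0 : (0 : ℝ) < p := by exact_mod_cast hp.pos
  obtain ⟨j, k, hk0, hkK, hjk⟩ := Real.exists_int_int_abs_mul_sub_le ((x.val : ℝ) / p)
    (show 0 < K by omega)
  obtain ⟨k', rfl⟩ : ∃ k' : ℕ, k = (k' : ℤ) := ⟨k.toNat, by omega⟩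
  refine ⟨k', (k' : ℤ) * (x.val : ℤ) - j * (p : ℤ), by omega, by exact_mod_cast hkK, ?_, ?_⟩
  · have e : (((k' : ℤ) * (x.val : ℤ) - j * (p : ℤ) : ℤ) : ℝ) =
        (p : ℝ) * (((k' : ℤ) : ℝ) * ((x.val : ℝ) / p) - (j : ℝ)) := by
      push_cast
      field_simp
    rw [e, abs_mul, abs_of_pos hp0]
    calc (p : ℝ) * |((k' : ℤ) : ℝ) * ((x.val : ℝ) / p) - (j : ℝ)| ≤ (p : ℝ) * (1 / ((K : ℝ) + 1)) := by
          gcongr
      _ = (p : ℝ) / (K + 1) := by ring
  · push_cast
    rw [ZMod.natCast_self, ZMod.natCast_zmod_val]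
    ring

end Pool.Agent.ZT
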