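import Pool.Agent.ZT.Defs

/-! # ZT : bounded relations -/

set_option autoImplicit false

open Finset

namespace Pool.Agent.ZT

/-- Bounded relations give bounded integers: if every `x ∈ F` satisfies `k x = i` with `1 ≤ k ≤ K`,
`|i| ≤ B`, and `K! · B · 2 < p`, then `F = x0 + g {a_x}` with integers `0 ≤ a_x ≤ 2 B K!`, minimum `0`
and gcd `1` (`F` must have two elements).

PROOF.  Let `L = K!`, a unit mod `p` (`K < p`).  `x = (i L / k) · L⁻¹` in `ZMod p`, where `b_x = i L / k`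
is an integer, `|b_x| ≤ B L`.  Let `β = min b_x`, `d = gcd_x (b_x - β)`, which is `≥ 1` because
`b_x` determines `x` and `F` has two elements, and `d ≤ 2 B L < p`.  Put `a_x = (b_x - β)/d`,
`x0 = β L⁻¹`, `g = d L⁻¹ ≠ 0`. -/
theorem bounded_of_rel (p : ℕ) (hp : p.Prime) (F : Finset (ZMod p)) (hF : 2 ≤ F.card) (K B : ℕ)
    (hK : K < p) (hB : 2 * B * K.factorial < p)
    (h : ∀ x ∈ F, ∃ (k : ℕ) (i : ℤ), 1 ≤ k ∧ k ≤ K ∧ |i| ≤ (B : ℤ) ∧ (k : ZMod p) * x = (i : ZMod p)) :
    ∃ x0 g : ZMod p, g ≠ 0 ∧ ∃ a : ZMod p → ℕ,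
      (∀ x ∈ F, a x ≤ 2 * B * K.factorial ∧ x = x0 + (a x : ZMod p) * g) ∧
      (∃ x ∈ F, a x = 0) ∧ F.gcd a = 1 := by
  classical
  have : Fact p.Prime := ⟨hp⟩
  have hLne : ((K.factorial : ℕ) : ZMod p) ≠ 0 := by
    intro h0
    rw [ZMod.natCast_eq_zero_iff] at h0
    have := (hp.dvd_factorial).1 h0
    omega
  set L : ZMod p := ((K.factorial : ℕ) : ZMod p) with hL
  have hb : ∀ x : ZMod p, ∃ b : ℤ, x ∈ F → |b| ≤ (B : ℤ) * K.factorial ∧ L * x = (b : ZMod p) := by
    intro x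
    by_cases hx : x ∈ F
    · obtain ⟨k, i, hk1, hkK, hiB, hki⟩ := h x hx
      obtain ⟨m, hm⟩ : k ∣ K.factorial := Nat.dvd_factorial (by omega) hkK
      refine ⟨i * m, fun _ => ⟨?_, ?_⟩⟩
      · rw [abs_mul, Nat.abs_cast]
        have hmle : m ≤ K.factorial := by
          rw [hm]
          exact Nat.le_mul_of_pos_left m (by omega)
        exact mul_le_mul hiB (by exact_mod_cast hmle) (by positivity) (by positivity)
      · rw [hL, hm]
        push_cast
        rw [mul_comm (k : ZMod p) (m : ZMod p), mul_assoc, hki]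
        ring
    · exact ⟨0, fun hx' => absurd hx' hx⟩
  choose b hb using hb
  have hne : F.Nonempty := Finset.card_pos.1 (by omega)
  obtain ⟨x₁, hx₁, hmin⟩ := Finset.exists_min_image F b hne
  set c : ZMod p → ℕ := fun x => (b x - b x₁).toNat with hc
  have hcb : ∀ x ∈ F, (c x : ℤ) = b x - b x₁ := by
    intro x hx
    have := hmin x hx
    simp only [hc]
    omega
  have hcle : ∀ x ∈ F, c x ≤ 2 * B * K.factorial := by
    intro x hx
    have h1 := abs_le.1 (hb x hx).1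
    have h2 := abs_le.1 (hb x₁ hx₁).1
    have h3 := hcb x hx
    have h4 : (c x : ℤ) ≤ 2 * B * K.factorial := by
      rw [h3]
      nlinarith [h1.2, h2.1]
    exact_mod_cast h4
  obtain ⟨y, hy, hy0⟩ : ∃ y ∈ F, c y ≠ 0 := by
    by_contra hcon
    push Not at hcon
    have : ∀ x ∈ F, ∀ y ∈ F, x = y := by
      intro x hx y hy
      have h1 := hcb x hx
      have h2 := hcb y hy
      rw [hcon x hx] at h1
      rw [hcon y hy] at h2
      have h3 : b x = b y := by
        push_cast at h1 h2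
        omega
      have h4 := (hb x hx).2
      have h5 := (hb y hy).2
      rw [h3, ← h5] at h4
      exact mul_left_cancel₀ hLne h4
    have h6 := Finset.card_le_one.2 this
    omega
  set d := F.gcd c with hd
  have hdy : d ∣ c y := Finset.gcd_dvd hy
  have hd0 : 0 < d := Nat.pos_of_ne_zero fun h0 => hy0 (by rw [h0] at hdy; exact zero_dvd_iff.1 hdy)
  have hdle : d ≤ c y := Nat.le_of_dvd (Nat.pos_of_ne_zero hy0) hdy
  have hdp : d < p := lt_of_le_of_lt (hdle.trans (hcle y hy)) hB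
  have hdne : ((d : ℕ) : ZMod p) ≠ 0 := by
    intro h0
    rw [ZMod.natCast_eq_zero_iff] at h0
    exact absurd (Nat.le_of_dvd hd0 h0) (by omega)
  refine ⟨(b x₁ : ZMod p) * L⁻¹, (d : ZMod p) * L⁻¹, mul_ne_zero hdne (inv_ne_zero hLne),
    fun x => c x / d, ?_, ⟨x₁, hx₁, ?_⟩, ?_⟩
  · intro x hx
    refine ⟨(Nat.div_le_self _ _).trans (hcle x hx), ?_⟩
    have h1 : c x / d * d = c x := Nat.div_mul_cancel (Finset.gcd_dvd hx)
    have h2 : ((c x / d : ℕ) : ZMod p) * (d : ZMod p) = (c x : ZMod p) := by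
      rw [← Nat.cast_mul, h1]
    have h3 : (c x : ZMod p) = (b x : ZMod p) - (b x₁ : ZMod p) := by
      have := congrArg (fun z : ℤ => (z : ZMod p)) (hcb x hx)
      push_cast at this
      exact this
    have h4 := (hb x hx).2
    have h5 : x = L⁻¹ * (b x : ZMod p) := by
      rw [← h4, ← mul_assoc, inv_mul_cancel₀ hLne, one_mul]
    calc x = L⁻¹ * (b x : ZMod p) := h5
      _ = (b x₁ : ZMod p) * L⁻¹ + ((c x / d : ℕ) : ZMod p) * ((d : ZMod p) * L⁻¹) := by
        rw [← mul_assoc, h2, h3]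
        ring
  · have : c x₁ = 0 := by simp [hc]
    simp [this]
  · exact Finset.gcd_div_eq_one hy hy0

end Pool.Agent.ZT
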