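import Pool.Agent.ZT.Dich1
import Pool.Agent.ZT.Dich2

/-! # ZT : dichotomy -/

set_option autoImplicit false

open Finset

namespace Pool.Agent.ZT

/-- The dichotomy.

PROOF.  Let `K = ⌈2/η⌉`, `B = ⌈8 K/η⌉` (so that `(p/B + 1) K + p/(K+1) ≤ η p` for large `p`),
`D = 2 B K!`.  Pick `y0 ≠ y1` in `F` and replace `F` by `F' = (y1 - y0)⁻¹ (F - y0) ∋ 0, 1`.  For every
`x ∈ F'` take `(k, i)` from `dirichlet`.  If `|i| > B` for some `x`, `cover` gives the first alternative for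
`F'`, hence for `F` (`∑ γ_j = J y0 + (y1 - y0) ∑ γ'_j`).  Otherwise `bounded_of_rel` gives the second
alternative for `F'` and so for `F`. -/
theorem dich (η : ℝ) (hη : 0 < η) : ∃ D p0 : ℕ, ∀ p : ℕ, p.Prime → p0 ≤ p → ∀ F : Finset (ZMod p),
    2 ≤ F.card → ∀ J : ℕ, η * p ≤ J →
    (∀ τ : ZMod p, ∃ γ : Fin J → ZMod p, (∀ j, γ j ∈ F) ∧ ∑ j, γ j = τ) ∨
    (∃ x0 g : ZMod p, g ≠ 0 ∧ ∃ a : ZMod p → ℕ,
      (∀ x ∈ F, a x ≤ D ∧ x = x0 + (a x : ZMod p) * g) ∧ (∃ x ∈ F, a x = 0) ∧ F.gcd a = 1) := by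
  classical
  set K : ℕ := ⌈2 / η⌉₊ + 1 with hK
  set B : ℕ := ⌈8 * K / η⌉₊ + 1 with hB
  have hK1 : 1 ≤ K := by omega
  have hB1 : 1 ≤ B := by omega
  have hKη : 2 / η ≤ K := by
    rw [hK]
    push_cast
    linarith [Nat.le_ceil (2 / η)]
  have hBη : 8 * K / η ≤ B := by
    rw [hB]
    push_cast
    linarith [Nat.le_ceil (8 * (K : ℝ) / η)]
  have hKη' : 2 ≤ K * η := by rwa [div_le_iff₀ hη] at hKη
  have hBη' : 8 * K ≤ B * η := by rwa [div_le_iff₀ hη] at hBη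
  refine ⟨2 * B * K.factorial, 2 * B * K.factorial + K + B + 1, fun p hp hp0 F hF J hJ => ?_⟩
  have : Fact p.Prime := ⟨hp⟩
  have hKp : K < p := by omega
  have hBp : 2 * B * K.factorial < p := by omega
  have hBp' : B ≤ p := by omega
  obtain ⟨y0, hy0, y1, hy1, hne⟩ := Finset.one_lt_card.1 (by omega : 1 < F.card)
  set s : ZMod p := y1 - y0 with hs
  have hs0 : s ≠ 0 := sub_ne_zero.2 (Ne.symm hne)
  set φ : ZMod p → ZMod p := fun y => (y - y0) * s⁻¹ with hφ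
  have hφ' : ∀ y, y0 + s * φ y = y := by
    intro y
    rw [hφ]
    simp only
    rw [mul_comm s, mul_assoc, inv_mul_cancel₀ hs0, mul_one]
    ring
  set F' := F.image φ with hF'
  have h0 : (0 : ZMod p) ∈ F' := by
    rw [hF', Finset.mem_image]
    exact ⟨y0, hy0, by rw [hφ]; simp⟩
  have h1 : (1 : ZMod p) ∈ F' := by
    rw [hF', Finset.mem_image]
    refine ⟨y1, hy1, ?_⟩
    rw [hφ]
    simp only
    exact mul_inv_cancel₀ hs0
  by_cases H : ∃ x ∈ F', ∃ (k : ℕ) (i : ℤ), 1 ≤ k ∧ k ≤ K ∧ (B : ℤ) < |i| ∧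
      (|i| : ℝ) ≤ (p : ℝ) / (K + 1) ∧ (k : ZMod p) * x = (i : ZMod p)
  · left
    intro τ
    obtain ⟨x, hx, k, i, hk1, hk, hBi, hi, hki⟩ := H
    have hI : |i| ≤ ((⌊(p : ℝ) / (K + 1)⌋₊ : ℕ) : ℤ) := by
      have h2 : (i.natAbs : ℝ) ≤ (p : ℝ) / (K + 1) := by
        rw [Nat.cast_natAbs, Int.cast_abs]
        exact hi
      have h3 := Nat.le_floor h2
      rw [Int.abs_eq_natAbs]
      exact_mod_cast h3
    have hJ' : (p / B + 1) * K + ⌊(p : ℝ) / (K + 1)⌋₊ ≤ J := by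
      have h2 : ((p / B : ℕ) : ℝ) ≤ (p : ℝ) / B := Nat.cast_div_le
      have h3 : ((⌊(p : ℝ) / (K + 1)⌋₊ : ℕ) : ℝ) ≤ (p : ℝ) / (K + 1) :=
        Nat.floor_le (by positivity)
      have hpos : (0 : ℝ) < p := by exact_mod_cast hp.pos
      have hB0 : (0 : ℝ) < B := by exact_mod_cast hB1
      have hK0 : (0 : ℝ) < K := by exact_mod_cast hK1
      have h4 : (p : ℝ) / B * K ≤ η * p / 8 := by
        rw [div_mul_eq_mul_div, div_le_iff₀ hB0]
        nlinarith [mul_le_mul_of_nonneg_left hBη' hpos.le]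
      have h5 : (p : ℝ) / (K + 1) ≤ η * p / 2 := by
        rw [div_le_iff₀ (by positivity)]
        nlinarith [mul_le_mul_of_nonneg_left hKη' hpos.le]
      have h6 : (K : ℝ) ≤ η * p / 8 := by
        have h7 : (B : ℝ) ≤ p := by exact_mod_cast hBp'
        nlinarith [mul_le_mul_of_nonneg_left h7 hη.le]
      have h8 : (((p / B + 1) * K + ⌊(p : ℝ) / (K + 1)⌋₊ : ℕ) : ℝ) ≤ (J : ℝ) := by
        push_cast
        nlinarith
      exact_mod_cast h8
    obtain ⟨γ, hγ, hγs⟩ := cover p hp F' x h0 h1 hx K B _ k i hk1 hk hB1 hBi hI hki J hJ'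
      ((τ - J * y0) * s⁻¹)
    have hch : ∀ j, ∃ y ∈ F, φ y = γ j := fun j => Finset.mem_image.1 (hγ j)
    choose y hy hyγ using hch
    refine ⟨y, hy, ?_⟩
    have e1 : ∀ j, y j = y0 + s * γ j := fun j => by rw [← hyγ j, hφ']
    rw [Finset.sum_congr rfl fun j _ => e1 j, Finset.sum_add_distrib, ← Finset.mul_sum, hγs,
      Finset.sum_const, Finset.card_univ, Fintype.card_fin, nsmul_eq_mul, mul_comm s, mul_assoc,
      inv_mul_cancel₀ hs0, mul_one]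
    ring
  · right
    obtain ⟨x0, g, hg, a, ha, ⟨x1, hx1, hax1⟩, hgcd⟩ := bounded_of_rel p hp F' (by
      have : 1 < F'.card := Finset.one_lt_card.2 ⟨0, h0, 1, h1, zero_ne_one⟩
      omega) K B hKp hBp (by
      intro x hx
      obtain ⟨k, i, hk1, hk, hi, hki⟩ := dirichlet p hp K hK1 x
      refine ⟨k, i, hk1, hk, ?_, hki⟩
      by_contra hcon
      push Not at hcon
      exact H ⟨x, hx, k, i, hk1, hk, hcon, hi, hki⟩)
    refine ⟨y0 + s * x0, s * g, mul_ne_zero hs0 hg, fun x => a (φ x), ?_, ?_, ?_⟩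
    · intro x hx
      obtain ⟨h2, h3⟩ := ha (φ x) (Finset.mem_image_of_mem φ hx)
      refine ⟨h2, ?_⟩
      calc x = y0 + s * φ x := (hφ' x).symm
        _ = y0 + s * (x0 + (a (φ x) : ZMod p) * g) := by rw [← h3]
        _ = y0 + s * x0 + (a (φ x) : ZMod p) * (s * g) := by ring
    · obtain ⟨y, hy, rfl⟩ := Finset.mem_image.1 hx1
      exact ⟨y, hy, hax1⟩
    · rw [hF', Finset.gcd_image] at hgcd
      exact hgcd

end Pool.Agent.ZT
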