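import Pool.Agent.ZT.Defs

/-! # ZT : sums of exactly `J` elements of a finite set of integers -/

set_option autoImplicit false

open Finset

namespace Pool.Agent.ZT

/-- Uniform numerical semigroup lemma.

PROOF.  For every `S ⊆ range (D+1)` with gcd `1` all integers `≥ C_S` are in the additive monoid generated
by `S` (`Nat.exists_mem_closure_of_ge`, `Nat.exists_mem_span_nat_finset_of_ge`, or by Bezout modulo an
element of `S`); take the maximum of the `C_S`. -/
theorem semigroup_aux (D : ℕ) : ∃ C : ℕ, ∀ S : Finset ℕ, (∀ a ∈ S, a ≤ D) → S.gcd id = 1 →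
    ∀ r : ℕ, C ≤ r → ∃ ν : ℕ → ℕ, ∑ a ∈ S, ν a * a = r := by
  classical
  have h1 : ∀ S : Finset ℕ, ∃ C : ℕ, S.gcd id = 1 →
      ∀ r : ℕ, C ≤ r → ∃ ν : ℕ → ℕ, ∑ a ∈ S, ν a * a = r := by
    intro S
    obtain ⟨n, hn⟩ := Nat.exists_mem_closure_of_ge (S : Set ℕ)
    refine ⟨n, fun hS r hr => ?_⟩
    have hg : Nat.setGcd (S : Set ℕ) ∣ r := by
      have h2 : Nat.setGcd (S : Set ℕ) ∣ S.gcd id :=
        Finset.dvd_gcd fun a ha => Nat.setGcd_dvd_of_mem (by exact_mod_cast ha)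
      rw [hS] at h2
      exact h2.trans (one_dvd r)
    obtain ⟨f, -, hf⟩ := AddSubmonoid.mem_closure_finset.1 (hn r hr hg)
    exact ⟨f, by simpa using hf⟩
  choose C hC using h1
  refine ⟨(range (D + 1)).powerset.sup C, fun S hSD hS r hr => hC S hS r ?_⟩
  refine le_trans (Finset.le_sup (f := C) ?_) hr
  rw [Finset.mem_powerset]
  intro a ha
  rw [Finset.mem_range]
  have := hSD a ha
  omega

/-- Sums of exactly `J` elements of `S ∋ 0`.

PROOF.  Let `M = max S ≥ 1`, `C0` from `semigroup_aux`, `C = C0 + D (C0 + D)`.  For `C ≤ r ≤ M J - C` write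
`r = q M + r0` with `C0 ≤ r0 < C0 + M`; `r0` is a sum of at most `r0 ≤ C0 + D` nonzero elements of `S`, so
`r` is a sum of at most `q + C0 + D` elements, and `q M ≤ r ≤ M J - C ≤ M (J - (C0 + D))` gives
`q + C0 + D ≤ J`; fill up with zeros. -/
theorem semigroup (D : ℕ) : ∃ C : ℕ, ∀ S : Finset ℕ, (∀ a ∈ S, a ≤ D) → 0 ∈ S → S.gcd id = 1 →
    ∀ M ∈ S, (∀ a ∈ S, a ≤ M) → ∀ J r : ℕ, C ≤ r → r + C ≤ M * J →
    ∃ ν : ℕ → ℕ, ∑ a ∈ S, ν a = J ∧ ∑ a ∈ S, ν a * a = r := by
  obtain ⟨C0, hC0⟩ := semigroup_aux D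
  refine ⟨C0 + D * (C0 + D), fun S hSD h0 hS M hM hmax J r hr1 hr2 => ?_⟩
  have hM1 : 1 ≤ M := by
    by_contra hc
    have hM0 : M = 0 := by omega
    have h1 : S.gcd id = 0 := by
      rw [Finset.gcd_eq_zero_iff]
      intro a ha
      have := hmax a ha
      simp only [id]
      omega
    omega
  have hMD := hSD M hM
  -- `r = q M + r0` with `C0 ≤ r0 < C0 + M`
  obtain ⟨q, r0, hr, hr0, hr0'⟩ : ∃ q r0 : ℕ, r = q * M + r0 ∧ C0 ≤ r0 ∧ r0 < C0 + M := by
    refine ⟨(r - C0) / M, C0 + (r - C0) % M, ?_, by omega, ?_⟩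
    · have := Nat.div_add_mod (r - C0) M
      rw [mul_comm] at this
      omega
    · have := Nat.mod_lt (r - C0) (show M > 0 by omega)
      omega
  obtain ⟨ν, hν⟩ := hC0 S hSD hS r0 hr0
  -- the number of nonzero elements used for `r0`
  have hcnt : ∑ a ∈ S.erase 0, ν a ≤ r0 := by
    rw [← hν, ← Finset.sum_erase_add S _ h0, mul_zero, add_zero]
    refine Finset.sum_le_sum fun a ha => ?_
    have : a ≠ 0 := Finset.ne_of_mem_erase ha
    exact Nat.le_mul_of_pos_right _ (by omega)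
  have hJ : q + r0 ≤ J := by
    have h2 : q * M + M * (C0 + D) ≤ M * J := by
      have h3 : M * (C0 + D) ≤ D * (C0 + D) := Nat.mul_le_mul_right _ hMD
      omega
    have h4 : M * (q + (C0 + D)) ≤ M * J := by
      calc M * (q + (C0 + D)) = q * M + M * (C0 + D) := by ring
        _ ≤ M * J := h2
    have h5 : q + (C0 + D) ≤ J := Nat.le_of_mul_le_mul_left h4 (by omega)
    omega
  set N := ∑ a ∈ S.erase 0, ν a with hN
  refine ⟨fun a => if a = 0 then J - (q + N) else (if a = M then q else 0) + ν a, ?_, ?_⟩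
  · rw [← Finset.sum_erase_add S _ h0, if_pos rfl]
    have e1 : ∑ a ∈ S.erase 0, (if a = 0 then J - (q + N) else (if a = M then q else 0) + ν a) =
        ∑ a ∈ S.erase 0, ((if a = M then q else 0) + ν a) := by
      refine Finset.sum_congr rfl fun a ha => ?_
      rw [if_neg (Finset.ne_of_mem_erase ha)]
    have e2 : ∑ a ∈ S.erase 0, (if a = M then q else 0) = q := by
      rw [Finset.sum_ite_eq' (S.erase 0) M (fun _ => q),
        if_pos (Finset.mem_erase.2 ⟨by omega, hM⟩)]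
    rw [e1, Finset.sum_add_distrib, e2, ← hN]
    omega
  · rw [← Finset.sum_erase_add S _ h0, mul_zero, add_zero]
    have e1 : ∑ a ∈ S.erase 0, (if a = 0 then J - (q + N) else (if a = M then q else 0) + ν a) * a =
        ∑ a ∈ S.erase 0, ((if a = M then q * M else 0) + ν a * a) := by
      refine Finset.sum_congr rfl fun a ha => ?_
      rw [if_neg (Finset.ne_of_mem_erase ha)]
      split_ifs with h
      · rw [h]
        ring
      · ring
    have e2 : ∑ a ∈ S.erase 0, (if a = M then q * M else 0) = q * M := by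
      rw [Finset.sum_ite_eq' (S.erase 0) M (fun _ => q * M),
        if_pos (Finset.mem_erase.2 ⟨by omega, hM⟩)]
    have e3 : ∑ a ∈ S.erase 0, ν a * a = r0 := by
      rw [← hν, ← Finset.sum_erase_add S _ h0, mul_zero, add_zero]
    rw [e1, Finset.sum_add_distrib, e2, e3]
    omega

/-- The pattern lemma: `S` as before, `t` strictly between `0` and `max S`; every small integer `r` is a
sum of exactly `J` of the numbers `a - t`, `a ∈ S`.

PROOF.  `semigroup` for `r' = t J + r`: `r' ≥ J - |r| ≥ C` and `r' ≤ (M - 1) J + |r| ≤ M J - C`. -/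
theorem pattern (D : ℕ) : ∃ C : ℕ, ∀ S : Finset ℕ, (∀ a ∈ S, a ≤ D) → 0 ∈ S → S.gcd id = 1 →
    ∀ t : ℕ, 0 < t → (∃ a ∈ S, t < a) → ∀ (J : ℕ) (r : ℤ), |r| + C ≤ J →
    ∃ ν : ℕ → ℕ, ∑ a ∈ S, ν a = J ∧ ∑ a ∈ S, (ν a : ℤ) * ((a : ℤ) - t) = r := by
  obtain ⟨C, hC⟩ := semigroup D
  refine ⟨C, fun S hSD h0 hS t ht0 hta J r hr => ?_⟩
  obtain ⟨M, hM, hmax⟩ := Finset.exists_max_image S id ⟨0, h0⟩
  have htM : t < M := by
    obtain ⟨a, ha, hta⟩ := hta
    exact lt_of_lt_of_le hta (hmax a ha)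
  have h1 := neg_abs_le r
  have h2 := le_abs_self r
  have h3 : (0 : ℤ) ≤ |r| := abs_nonneg r
  have hJ0 : (0 : ℤ) ≤ J := by positivity
  have ht1 : (J : ℤ) ≤ t * J := by
    have : (1 : ℤ) ≤ t := by exact_mod_cast ht0
    nlinarith
  have htM' : (t : ℤ) * J + J ≤ M * J := by
    have : (t : ℤ) + 1 ≤ M := by exact_mod_cast htM
    nlinarith
  obtain ⟨r', hr'⟩ : ∃ r' : ℕ, (r' : ℤ) = t * J + r := ⟨(t * J + r).toNat, by
    rw [Int.toNat_of_nonneg]
    have : (0 : ℤ) ≤ C := by positivity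
    linarith⟩
  obtain ⟨ν, hν1, hν2⟩ := hC S hSD h0 hS M hM (fun a ha => hmax a ha) J r' (by
    have : (C : ℤ) ≤ r' := by
      rw [hr']
      linarith
    exact_mod_cast this) (by
    have : (r' : ℤ) + C ≤ M * J := by
      rw [hr']
      linarith
    exact_mod_cast this)
  refine ⟨ν, hν1, ?_⟩
  have h4 : (∑ a ∈ S, (ν a : ℤ) * (a : ℤ)) = r' := by exact_mod_cast hν2
  have h5 : (∑ a ∈ S, (ν a : ℤ)) = J := by exact_mod_cast hν1
  calc ∑ a ∈ S, (ν a : ℤ) * ((a : ℤ) - t) = ∑ a ∈ S, ((ν a : ℤ) * (a : ℤ) - (ν a : ℤ) * t) := by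
        refine Finset.sum_congr rfl fun a _ => ?_
        ring
    _ = r' - J * t := by rw [Finset.sum_sub_distrib, h4, ← Finset.sum_mul, h5]
    _ = r := by
        rw [hr']
        ring

end Pool.Agent.ZT
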