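import Pool.Agent.ZT.Hub

/-! # ZT : from colourings by residues to integer kernels -/

set_option autoImplicit false

open Finset

namespace Pool.Agent.ZT

open Classical in
/-- The integer kernel of a colouring: allowed are the pairs in `U × U` with colour in `F`, the integer is
`a (colour) - t`. -/
noncomputable def ic {V : Type} {m : ℕ} (c : V → V → ZMod m) (U : Finset V) (F : Finset (ZMod m))
    (a : ZMod m → ℕ) (t : ℤ) : V → V → ℤ × ℕ :=
  fun x y => if x ∈ U ∧ y ∈ U ∧ c x y ∈ F then ((a (c x y) : ℤ) - t, 0) else (0, 1)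

theorem transfer_ic2 {V : Type} {m : ℕ} (c : V → V → ZMod m) (U : Finset V) (F : Finset (ZMod m))
    (a : ZMod m → ℕ) (t : ℤ) (x y : V) :
    (ic c U F a t x y).2 = 0 ↔ x ∈ U ∧ y ∈ U ∧ c x y ∈ F := by
  unfold ic
  split_ifs with h
  · simp [h]
  · simp only [false_iff]
    exact h

theorem transfer_ic1 {V : Type} {m : ℕ} (c : V → V → ZMod m) (U : Finset V) (F : Finset (ZMod m))
    (a : ZMod m → ℕ) (t : ℤ) (x y : V) (h : (ic c U F a t x y).2 = 0) :
    (ic c U F a t x y).1 = (a (c x y) : ℤ) - t := by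
  rw [transfer_ic2] at h
  unfold ic
  rw [if_pos h]

/-- Trees with sum `(0,0)` are zero-sum trees.

PROOF.  The same `(p, x)`: if the sum of `ic` is `(0,0)`, all the `m` edges are allowed and
`∑ (a - t) = 0`; hence `PS c p 0 x = ∑ (x0 + a g) = m x0 + (m t) g = 0` in `ZMod m`. -/
theorem transfer {V : Type} [Fintype V] {m : ℕ} (c : V → V → ZMod m) (U : Finset V)
    (F : Finset (ZMod m)) (a : ZMod m → ℕ) (t : ℤ) (x0 g : ZMod m)
    (ha : ∀ x ∈ F, x = x0 + (a x : ZMod m) * g) :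
    NN (ic c U F a t) m (0, 0) ≤ NN c m 0 := by
  classical
  unfold NN
  refine cnt_mono fun q hq => ⟨hq.1, ?_⟩
  obtain ⟨p, x⟩ := q
  have h0 := hq.2
  simp only at h0 ⊢
  unfold PS at h0 ⊢
  have h2 : ∑ w ∈ univ.erase (0 : Fin (m + 1)), (ic c U F a t (x w) (x (p w))).2 = 0 := by
    have := congrArg Prod.snd h0
    rwa [Prod.snd_sum] at this
  have h1 : ∑ w ∈ univ.erase (0 : Fin (m + 1)), (ic c U F a t (x w) (x (p w))).1 = 0 := by
    have := congrArg Prod.fst h0
    rwa [Prod.fst_sum] at this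
  have hall : ∀ w ∈ univ.erase (0 : Fin (m + 1)), (ic c U F a t (x w) (x (p w))).2 = 0 :=
    Finset.sum_eq_zero_iff.mp h2
  rw [sum_congr rfl fun w hw => transfer_ic1 c U F a t _ _ (hall w hw), sum_sub_distrib, sum_const,
    card_erase_of_mem (mem_univ _), card_univ, Fintype.card_fin, Nat.add_sub_cancel,
    nsmul_eq_mul, sub_eq_zero] at h1
  have h3 : ∑ w ∈ univ.erase (0 : Fin (m + 1)), c (x w) (x (p w)) =
      ∑ w ∈ univ.erase (0 : Fin (m + 1)), (x0 + (a (c (x w) (x (p w))) : ZMod m) * g) :=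
    sum_congr rfl fun w hw => ha _ ((transfer_ic2 c U F a t _ _).mp (hall w hw)).2.2
  rw [h3, sum_add_distrib, sum_const, card_erase_of_mem (mem_univ _), card_univ, Fintype.card_fin,
    Nat.add_sub_cancel, nsmul_eq_mul, ZMod.natCast_self, zero_mul, zero_add, ← sum_mul]
  have h4 := congrArg (fun z : ℤ => (z : ZMod m)) h1
  push_cast at h4
  rw [ZMod.natCast_self, zero_mul] at h4
  rw [h4, zero_mul]

/-- The good pair gives the standing assumptions. -/
theorem ic_IK {V : Type} [Fintype V] {m : ℕ} (c : V → V → ZMod m) (hc : ∀ x y, c x y = c y x)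
    (U : Finset V) (hU : U.Nonempty) (F : Finset (ZMod m)) (a : ZMod m → ℕ) (t : ℤ) (D : ℕ)
    (hD : ∀ x ∈ F, a x ≤ D) (ht0 : 0 ≤ t) (htD : t ≤ D)
    (hdeg : ∀ x ∈ U, 99 / 100 * (Fintype.card V : ℝ) ≤ cnt (fun y : V => y ∈ U ∧ c x y ∈ F)) :
    IK (ic c U F a t) U D where
  symm := by
    classical
    intro x y
    unfold ic
    rw [hc x y]
    by_cases h : x ∈ U ∧ y ∈ U ∧ c y x ∈ F
    · rw [if_pos h, if_pos ⟨h.2.1, h.1, h.2.2⟩]
    · rw [if_neg h, if_neg fun h' => h ⟨h'.2.1, h'.1, h'.2.2⟩]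
  mem := by
    intro x y h
    rw [transfer_ic2] at h
    exact ⟨h.1, h.2.1⟩
  bdd := by
    intro x y h
    rw [transfer_ic1 c U F a t x y h]
    rw [transfer_ic2] at h
    have h1 := hD _ h.2.2
    rw [abs_le]
    constructor
    · have : (0 : ℤ) ≤ (a (c x y) : ℤ) := Int.natCast_nonneg _
      linarith
    · have : (a (c x y) : ℤ) ≤ D := by exact_mod_cast h1
      linarith
  deg := by
    intro x hx
    have h1 : cnt (fun y : V => (ic c U F a t x y).2 = 0) = cnt (fun y : V => y ∈ U ∧ c x y ∈ F) := by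
      refine cnt_congr fun y => ?_
      rw [transfer_ic2]
      simp [hx]
    rw [h1]
    exact hdeg x hx
  ne := hU

/-- Exponential moments of the integer kernel as a sum over the colours (`a` injective on `F` is not
needed): `sm (allowed) e^{θ ·} = ∑_{x ∈ F} #{(u,v) ∈ U × U | c u v = x} e^{θ (a_x - t)}`. -/
theorem ic_moment {V : Type} [Fintype V] {m : ℕ} (c : V → V → ZMod m) (U : Finset V)
    (F : Finset (ZMod m)) (a : ZMod m → ℕ) (t : ℤ) (θ : ℝ) :
    sm (fun q : V × V => (ic c U F a t q.1 q.2).2 = 0) (fun q => Real.exp (θ * (ic c U F a t q.1 q.2).1))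
      = ∑ x ∈ F, (cnt (fun q : V × V => q.1 ∈ U ∧ q.2 ∈ U ∧ c q.1 q.2 = x) : ℝ) *
          Real.exp (θ * ((a x : ℤ) - t : ℤ)) := by
  classical
  rw [sm_eq, ← sum_fiberwise_of_maps_to (g := fun q : V × V => c q.1 q.2) (t := F)]
  · refine sum_congr rfl fun x hx => ?_
    have h1 : ∀ q ∈ ((univ.filter fun q : V × V => (ic c U F a t q.1 q.2).2 = 0).filter
        fun q => c q.1 q.2 = x), Real.exp (θ * (ic c U F a t q.1 q.2).1) =
        Real.exp (θ * ((a x : ℤ) - t : ℤ)) := by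
      intro q hq
      rw [mem_filter, mem_filter] at hq
      rw [transfer_ic1 c U F a t _ _ hq.1.2, hq.2]
    rw [sum_congr rfl h1, sum_const, nsmul_eq_mul, cnt_eq_card]
    congr 3
    ext q
    rw [mem_filter, mem_filter, transfer_ic2, mem_filter]
    constructor
    · rintro ⟨⟨h2, h3, h4, h5⟩, h6⟩
      exact ⟨h2, h3, h4, h6⟩
    · rintro ⟨h2, h3, h4, h5⟩
      exact ⟨⟨h2, h3, h4, by rw [h5]; exact hx⟩, h5⟩
  · intro q hq
    rw [mem_filter, transfer_ic2] at hq
    exact hq.2.2.2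

end Pool.Agent.ZT
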