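import Pool.Agent.ZT.Far1
import Pool.Agent.ZT.Transfer
import Pool.Agent.ZT.Core4
import Pool.Agent.ZT.Core5
import Pool.Agent.ZT.Semi

/-! # ZT : case (b) -/

set_option autoImplicit false

open Finset

namespace Pool.Agent.ZT

/-- Case (b).

PROOF.  `far_level`.  First alternative: `mono` (`m • x = 0` in `ZMod m`) with `l = 1/2 + δ/10`.  Second
alternative: the kernel `ic c U F a t` satisfies `IK` (`ic_IK`; `t ≤ D` since `t < a x ≤ D`);
`I = {a_x - t | x ∈ F}` has at most `K` elements, each of density `≥ κ`; the moments by `ic_moment`; the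
pattern hypothesis with `C0` from `pattern D` for `S = F.image a` (`gcd = 1`, `0 ∈ S`); `int_case` with
`h = 1/2 + δ/10`; `transfer`; `final_num` with `γ = δ/20`, `h = 1/2 + δ/20`. -/
theorem far_b (δ : ℝ) (hδ : 0 < δ) (hδ1 : δ ≤ 1) (κ : ℝ) (hκ : 0 < κ) (D K : ℕ) :
    ∃ m0 : ℕ, ∀ m ≥ m0, ∀ (V : Type) [Fintype V] (c : V → V → ZMod m),
    (∀ x y, c x y = c y x) → 0 < Fintype.card V →
    (∀ a b : ZMod m, δ * (Fintype.card V : ℝ) ^ 2 ≤
      cnt (fun q : V × V => c q.1 q.2 ≠ a ∧ c q.1 q.2 ≠ b)) →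
    ∀ (U : Finset V) (F : Finset (ZMod m)), (1 - δ / 100) * Fintype.card V ≤ U.card →
    (∀ x ∈ U, (1 - δ / 100) * Fintype.card V ≤ cnt (fun y : V => y ∈ U ∧ c x y ∈ F)) →
    (∀ a ∈ F, κ * (Fintype.card V : ℝ) ^ 2 ≤
      cnt (fun q : V × V => q.1 ∈ U ∧ q.2 ∈ U ∧ c q.1 q.2 = a)) →
    F.card ≤ K →
    ∀ (a : ZMod m → ℕ) (x0 g : ZMod m), (∀ x ∈ F, a x ≤ D ∧ x = x0 + (a x : ZMod m) * g) →
    (∃ x ∈ F, a x = 0) → F.gcd a = 1 →
    (1 / 2 + δ / 20) ^ m * ((m + 1 : ℕ) : ℝ) ^ (m - 1) * (Fintype.card V : ℝ) ^ (m + 1) ≤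
      NN c m 0 := by
  obtain ⟨C0, hC0⟩ := pattern D
  obtain ⟨C, hC, m1, hm1⟩ := int_case D K C0 κ (1 / 2 + δ / 10) hκ (by positivity) (by linarith)
  obtain ⟨m2, hm2⟩ := final_num C (1 / 2 + δ / 20) (δ / 20) hC (by positivity) (by positivity)
  refine ⟨max m1 m2, fun m hm V _ c hc hV h3 U F hU hdeg hF hK a x0 g ha h0 hgcd => ?_⟩
  have hm1' : m1 ≤ m := (le_max_left _ _).trans hm
  have hm2' : m2 ≤ m := (le_max_right _ _).trans hm
  have hn0 : 0 < (Fintype.card V : ℝ) := by exact_mod_cast hV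
  rcases far_level hV c δ hδ hδ1 h3 U hU F hdeg a x0 g (fun x hx => (ha x hx).2) with
    ⟨x, hx, hx'⟩ | ⟨t, ht0, ⟨x, hx, htx⟩, hmom⟩
  · -- one heavy colour
    classical
    have h1 := mono c hc x (1 / 2 + δ / 10) (by positivity) m hx'
    have h2 : m • x = 0 := by rw [nsmul_eq_mul, ZMod.natCast_self, zero_mul]
    rw [h2] at h1
    refine le_trans ?_ h1
    have h4 : (1 / 2 + δ / 20) ^ m ≤ (1 / 2 + δ / 10) ^ m := by
      gcongr
      linarith
    calc (1 / 2 + δ / 20) ^ m * ((m + 1 : ℕ) : ℝ) ^ (m - 1) * (Fintype.card V : ℝ) ^ (m + 1)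
        ≤ (1 / 2 + δ / 10) ^ m * ((m + 1 : ℕ) : ℝ) ^ (m - 1) * (Fintype.card V : ℝ) ^ (m + 1) := by
          gcongr
      _ = _ := by ring
  · -- the integer case
    classical
    have hUne : U.Nonempty := by
      rw [nonempty_iff_ne_empty]
      rintro rfl
      rw [card_empty, Nat.cast_zero] at hU
      have : 0 < (1 - δ / 100) * (Fintype.card V : ℝ) := mul_pos (by linarith) hn0
      linarith
    have hinj : ∀ y ∈ F, ∀ z ∈ F, a y = a z → y = z := by
      intro y hy z hz h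
      rw [(ha y hy).2, (ha z hz).2, h]
    have hIK : IK (ic c U F a (t : ℤ)) U D :=
      ic_IK c hc U hUne F a t D (fun y hy => (ha y hy).1) (Int.natCast_nonneg _)
        (by exact_mod_cast htx.le.trans (ha x hx).1) (fun y hy => by
          refine le_trans ?_ (hdeg y hy)
          exact mul_le_mul_of_nonneg_right (by linarith) hn0.le)
    set I : Finset ℤ := F.image (fun y => (a y : ℤ) - (t : ℤ)) with hI
    have hIcard : I.card ≤ K := card_image_le.trans hK
    have hIden : ∀ i ∈ I, κ * (Fintype.card V : ℝ) ^ 2 ≤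
        cnt (fun q : V × V => ic c U F a (t : ℤ) q.1 q.2 = (i, 0)) := by
      intro i hi
      obtain ⟨y, hy, rfl⟩ := mem_image.1 hi
      refine (hF y hy).trans (Nat.cast_le.2 (cnt_mono fun q hq => ?_))
      obtain ⟨h1, h2, h4⟩ := hq
      unfold ic
      rw [if_pos ⟨h1, h2, by rw [h4]; exact hy⟩, h4]
    have hmoment : ∀ θ : ℝ, (1 / 2 + δ / 10) * (Fintype.card V : ℝ) ^ 2 ≤
        sm (fun q : V × V => (ic c U F a (t : ℤ) q.1 q.2).2 = 0)
          (fun q => Real.exp (θ * (ic c U F a (t : ℤ) q.1 q.2).1)) := by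
      intro θ
      rw [ic_moment]
      exact hmom θ
    have hpat : ∀ (J : ℕ) (r : ℤ), |r| + C0 ≤ J →
        ∃ ν : ℤ → ℕ, ∑ i ∈ I, ν i = J ∧ ∑ i ∈ I, (ν i : ℤ) * i = r := by
      intro J r hJ
      obtain ⟨ν, hν1, hν2⟩ := hC0 (F.image a) (fun b hb => by
          obtain ⟨y, hy, rfl⟩ := mem_image.1 hb
          exact (ha y hy).1) (by
          obtain ⟨y, hy, hy0⟩ := h0
          exact mem_image.2 ⟨y, hy, hy0⟩) (by
          rw [Finset.gcd_image, Function.id_comp]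
          exact hgcd) t ht0
        ⟨a x, mem_image_of_mem _ hx, htx⟩ J r hJ
      have e : I = (F.image a).image (fun b : ℕ => (b : ℤ) - (t : ℤ)) := by
        rw [hI, image_image]
        rfl
      have hinj2 : Set.InjOn (fun b : ℕ => (b : ℤ) - (t : ℤ)) (F.image a : Finset ℕ) := by
        intro b _ b' _ h
        have h' : (b : ℤ) - (t : ℤ) = (b' : ℤ) - (t : ℤ) := h
        omega
      refine ⟨fun i => ν (i + t).toNat, ?_, ?_⟩
      · rw [e, sum_image hinj2, ← hν1]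
        refine sum_congr rfl fun b _ => ?_
        simp
      · rw [e, sum_image hinj2, ← hν2]
        refine sum_congr rfl fun b _ => ?_
        simp
    have h1 := hm1 m hm1' V (ic c U F a (t : ℤ)) U I hIK hIcard hIden hmoment hpat
    have h2 := transfer c U F a (t : ℤ) x0 g (fun y hy => (ha y hy).2)
    have h4 : (NN (ic c U F a (t : ℤ)) m (0, 0) : ℝ) ≤ NN c m 0 := by exact_mod_cast h2
    refine le_trans ?_ (h1.trans h4)
    have h5 := hm2 m hm2'
    have h6 : (1 / 2 + δ / 20 + δ / 20 : ℝ) = 1 / 2 + δ / 10 := by ring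
    rw [h6] at h5
    gcongr

end Pool.Agent.ZT
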