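import Pool.Agent.ZT.Far2
import Pool.Agent.ZT.Cases2
import Pool.Agent.ZT.Cases3
import Pool.Agent.ZT.Dich3
import Pool.Agent.ZT.GoodPair

/-! # ZT : THE FAR REGIME FOR PRIMES -/

set_option autoImplicit false

open Finset

namespace Pool.Agent.ZT

/-- at most `1/κ1` colours have density `> κ1` -/
theorem far3_card {V C : Type} [Fintype V] [Fintype C] (c : V → V → C) (κ1 : ℝ)
    (F0 : Finset C) (hn : 0 < Fintype.card V)
    (h : ∀ a ∈ F0, κ1 * (Fintype.card V : ℝ) ^ 2 ≤ cnt (fun q : V × V => c q.1 q.2 = a)) :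
    κ1 * F0.card ≤ 1 := by
  classical
  have h1 : (∑ a ∈ F0, cnt (fun q : V × V => c q.1 q.2 = a)) ≤ Fintype.card (V × V) := by
    simp only [cnt_eq_card]
    have e1 := card_eq_sum_card_fiberwise (f := fun q : V × V => c q.1 q.2) (t := F0)
      (s := univ.filter fun q : V × V => c q.1 q.2 ∈ F0) (fun q hq => by simpa using hq)
    have e2 : ∑ a ∈ F0, (univ.filter fun q : V × V => c q.1 q.2 = a).card =
        ∑ a ∈ F0, ((univ.filter fun q : V × V => c q.1 q.2 ∈ F0).filter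
          fun q : V × V => c q.1 q.2 = a).card := by
      refine sum_congr rfl fun a ha => ?_
      congr 1
      ext q
      simp only [mem_filter, mem_univ, true_and]
      constructor
      · intro h3
        exact ⟨by rw [h3]; exact ha, h3⟩
      · rintro ⟨-, h3⟩
        exact h3
    rw [e2, ← e1, ← card_univ]
    exact card_le_card (filter_subset _ _)
  have h2 : (F0.card : ℝ) * (κ1 * (Fintype.card V : ℝ) ^ 2) ≤
      ((∑ a ∈ F0, cnt (fun q : V × V => c q.1 q.2 = a) : ℕ) : ℝ) := by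
    rw [← nsmul_eq_mul, ← sum_const]
    push_cast
    exact sum_le_sum h
  have h3 : ((Fintype.card (V × V) : ℕ) : ℝ) = (Fintype.card V : ℝ) ^ 2 := by
    rw [Fintype.card_prod]
    push_cast
    ring
  have h4 : (F0.card : ℝ) * (κ1 * (Fintype.card V : ℝ) ^ 2) ≤ (Fintype.card V : ℝ) ^ 2 := by
    refine h2.trans ?_
    rw [← h3]
    exact_mod_cast h1
  have h5 : (0 : ℝ) < (Fintype.card V : ℝ) ^ 2 := by positivity
  by_contra hcon
  push Not at hcon
  nlinarith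

/-- a single colour with all the degrees has large mass -/
theorem far3_one {V C : Type} [Fintype V] [DecidableEq V] (c : V → V → C) (ρ : ℝ) (hρ : ρ ≤ 1)
    (U : Finset V) (hU : (1 - ρ) * Fintype.card V ≤ U.card) (a : C)
    (hdeg : ∀ x ∈ U, (1 - ρ) * Fintype.card V ≤ cnt (fun y : V => y ∈ U ∧ c x y = a)) :
    (1 - ρ) ^ 2 * (Fintype.card V : ℝ) ^ 2 ≤ cnt (fun q : V × V => c q.1 q.2 = a) := by
  classical
  have h1 : ∑ x ∈ U, cnt (fun y : V => y ∈ U ∧ c x y = a) ≤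
      cnt (fun q : V × V => c q.1 q.2 = a) := by
    simp only [cnt_eq_card]
    rw [← card_sigma]
    refine card_le_card_of_injOn (fun q => (q.1, q.2)) ?_ ?_
    · rintro ⟨x, y⟩ hq
      simp only [coe_sigma, Set.mem_sigma_iff, mem_coe, mem_univ, true_and,
        coe_filter, Set.mem_ofPred_eq] at hq ⊢
      exact hq.2.2
    · rintro ⟨x, y⟩ - ⟨x', y'⟩ - h
      simp only [Prod.mk.injEq] at h
      obtain ⟨rfl, rfl⟩ := h
      rfl
  have h2 : (U.card : ℝ) * ((1 - ρ) * Fintype.card V) ≤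
      ((∑ x ∈ U, cnt (fun y : V => y ∈ U ∧ c x y = a) : ℕ) : ℝ) := by
    rw [← nsmul_eq_mul, ← sum_const]
    push_cast
    exact sum_le_sum hdeg
  have h3 : ((∑ x ∈ U, cnt (fun y : V => y ∈ U ∧ c x y = a) : ℕ) : ℝ) ≤
      cnt (fun q : V × V => c q.1 q.2 = a) := by exact_mod_cast h1
  have h4 : 0 ≤ (1 - ρ) * (Fintype.card V : ℝ) := mul_nonneg (by linarith) (by positivity)
  have h5 := mul_le_mul_of_nonneg_right hU h4
  calc (1 - ρ) ^ 2 * (Fintype.card V : ℝ) ^ 2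
      = (1 - ρ) * Fintype.card V * ((1 - ρ) * Fintype.card V) := by ring
    _ ≤ _ := h5.trans (h2.trans h3)

theorem far3_main (δ : ℝ) (hδ : 0 < δ) (hδ1 : δ ≤ 1) : ∃ p0 n0 : ℕ, ∀ p ≥ p0, p.Prime →
    ∀ (V : Type) [Fintype V] (c : V → V → ZMod p), (∀ x y, c x y = c y x) → n0 ≤ Fintype.card V →
    (∀ a b : ZMod p, δ * (Fintype.card V : ℝ) ^ 2 ≤
      cnt (fun q : V × V => c q.1 q.2 ≠ a ∧ c q.1 q.2 ≠ b)) →
    (1 / 2 + δ / 20) ^ p * ((p + 1 : ℕ) : ℝ) ^ (p - 1) * (Fintype.card V : ℝ) ^ (p + 1) ≤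
      NN c p 0 := by
  classical
  set ρ3 : ℝ := δ / 100 with hρ3
  set ρ1 : ℝ := ρ3 ^ 2 / 4 with hρ1
  have h3pos : 0 < ρ3 := by positivity
  have h1pos : 0 < ρ1 := by positivity
  obtain ⟨κ1, hκ1, hκ1', p1, hlight⟩ := far_light ρ1 h1pos
  obtain ⟨η, hη, p2, hfa⟩ := far_a (ρ1 * κ1) (by positivity)
  obtain ⟨D, p3, hdich⟩ := dich η hη
  obtain ⟨m0, hfb⟩ := far_b δ hδ hδ1 (ρ1 * κ1) (by positivity) D ⌈1 / κ1⌉₊
  refine ⟨max (max p1 p2) (max p3 m0), ⌈2 / ρ3⌉₊ + 1, ?_⟩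
  intro p hp hpp V _ c hc hn hfar
  have hp1 : p1 ≤ p := (le_max_left _ _).trans ((le_max_left _ _).trans hp)
  have hp2 : p2 ≤ p := (le_max_right _ _).trans ((le_max_left _ _).trans hp)
  have hp3 : p3 ≤ p := (le_max_left _ _).trans ((le_max_right _ _).trans hp)
  have hpm : m0 ≤ p := (le_max_right _ _).trans ((le_max_right _ _).trans hp)
  have : Fact p.Prime := ⟨hpp⟩
  have hVpos : 0 < Fintype.card V := by omega
  have hVr : (0 : ℝ) < (Fintype.card V : ℝ) := by exact_mod_cast hVpos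
  have hcmp : (1 / 2 + δ / 20) ^ p * ((p + 1 : ℕ) : ℝ) ^ (p - 1) * (Fintype.card V : ℝ) ^ (p + 1) ≤
      (9 / 10 : ℝ) ^ p * ((p + 1 : ℕ) : ℝ) ^ (p - 1) * (Fintype.card V : ℝ) ^ (p + 1) := by
    have : (1 / 2 + δ / 20) ^ p ≤ (9 / 10 : ℝ) ^ p :=
      pow_le_pow_left₀ (by positivity) (by linarith) p
    gcongr
  by_cases hL : ρ1 * (Fintype.card V : ℝ) ^ 2 ≤ cnt (fun q : V × V =>
      (cnt (fun q' : V × V => c q'.1 q'.2 = c q.1 q.2) : ℝ) ≤ κ1 * (Fintype.card V : ℝ) ^ 2)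
  · exact hcmp.trans (hlight p hp1 hpp V c hL)
  push Not at hL
  set F0 : Finset (ZMod p) := univ.filter fun a =>
    κ1 * (Fintype.card V : ℝ) ^ 2 < cnt (fun q : V × V => c q.1 q.2 = a) with hF0
  have hmF0 : ∀ a, a ∈ F0 ↔ κ1 * (Fintype.card V : ℝ) ^ 2 < cnt (fun q : V × V => c q.1 q.2 = a) := by
    intro a
    rw [hF0, mem_filter]
    exact ⟨fun h => h.2, fun h => ⟨mem_univ _, h⟩⟩
  have hF0c : κ1 * F0.card ≤ 1 :=
    far3_card c κ1 F0 hVpos fun a ha => ((hmF0 a).1 ha).le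
  have hout : (cnt (fun q : V × V => c q.1 q.2 ∉ F0) : ℝ) ≤ ρ1 * (Fintype.card V : ℝ) ^ 2 := by
    refine le_trans (le_of_eq ?_) hL.le
    congr 1
    refine cnt_congr fun q => ?_
    rw [hmF0, not_lt]
  have hn2 : 2 / ρ3 ≤ Fintype.card V := by
    have h4 : (⌈2 / ρ3⌉₊ : ℝ) ≤ Fintype.card V := by
      exact_mod_cast (by omega : ⌈2 / ρ3⌉₊ ≤ Fintype.card V)
    exact (Nat.le_ceil _).trans h4
  obtain ⟨F, hFF0, U, hU, hdeg, hmass⟩ := good_pair c hc F0 ρ1 ρ3 (ρ1 * κ1) h1pos.le h3pos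
    (by rw [hρ3]; linarith) (by rw [hρ1]; linarith) (by positivity)
    (by
      calc ρ1 * κ1 * F0.card = ρ1 * (κ1 * F0.card) := by ring
        _ ≤ ρ1 * 1 := by gcongr
        _ = ρ1 := mul_one _) hn2 hout
  have hF2 : 2 ≤ F.card := by
    by_contra hcon
    have h5 : F.card ≤ 1 := by omega
    obtain ⟨a, ha⟩ : ∃ a : ZMod p, ∀ x ∈ F, x = a := by
      rcases F.eq_empty_or_nonempty with h6 | ⟨a, h6⟩
      · exact ⟨0, fun x hx => by simp [h6] at hx⟩
      · exact ⟨a, fun x hx => card_le_one.1 h5 x hx a h6⟩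
    have h7 := far3_one c ρ3 (by rw [hρ3]; linarith) U hU a (fun x hx => by
      refine (hdeg x hx).trans ?_
      have hmono : cnt (fun y : V => y ∈ U ∧ c x y ∈ F) ≤ cnt (fun y : V => y ∈ U ∧ c x y = a) :=
        cnt_mono fun y hy => ⟨hy.1, ha _ hy.2⟩
      exact_mod_cast hmono)
    have h8 := hfar a a
    have h9 : (cnt (fun q : V × V => c q.1 q.2 = a) : ℝ) +
        cnt (fun q : V × V => c q.1 q.2 ≠ a ∧ c q.1 q.2 ≠ a) = (Fintype.card V : ℝ) ^ 2 := by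
      have h10 := cnt_add_not (fun q : V × V => c q.1 q.2 = a)
      have h11 : cnt (fun q : V × V => c q.1 q.2 ≠ a ∧ c q.1 q.2 ≠ a) =
          cnt (fun q : V × V => ¬ c q.1 q.2 = a) := cnt_congr fun q => and_self_iff
      rw [h11]
      rw [Fintype.card_prod] at h10
      have h12 : ((cnt (fun q : V × V => c q.1 q.2 = a) +
          cnt (fun q : V × V => ¬ c q.1 q.2 = a) : ℕ) : ℝ) =
          ((Fintype.card V * Fintype.card V : ℕ) : ℝ) := by rw [h10]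
      push_cast at h12
      rw [h12]
      ring
    have h13 : (0 : ℝ) < (Fintype.card V : ℝ) ^ 2 := by positivity
    have h14 : (δ + (1 - ρ3) ^ 2 - 1) * (Fintype.card V : ℝ) ^ 2 ≤ 0 := by linarith
    have h15 : 0 < δ + (1 - ρ3) ^ 2 - 1 := by
      rw [hρ3]
      nlinarith
    exact absurd (mul_pos h15 h13) (not_lt.2 h14)
  rcases hdich p hpp hp3 F hF2 ⌈η * p⌉₊ (Nat.le_ceil _) with hA | ⟨x0, g, hg, a, ha1, ha2, ha3⟩
  · refine hcmp.trans (hfa p hp2 _ rfl V c F (fun b hb => ?_) hA)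
    refine (hmass b hb).trans ?_
    have hmono : cnt (fun q : V × V => q.1 ∈ U ∧ q.2 ∈ U ∧ c q.1 q.2 = b) ≤
        cnt (fun q : V × V => c q.1 q.2 = b) := cnt_mono fun q hq => hq.2.2
    exact_mod_cast hmono
  · refine hfb p hpm V c hc hVpos hfar U F hU hdeg hmass ?_ a x0 g ha1 ha2 ha3
    have h16 : (F.card : ℝ) ≤ F0.card := by exact_mod_cast card_le_card hFF0
    have h17 : (F.card : ℝ) ≤ 1 / κ1 := by
      rw [le_div_iff₀ hκ1]
      nlinarith
    exact_mod_cast h17.trans (Nat.le_ceil _)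

/-- THE FAR REGIME FOR PRIMES.

PROOF.  We may assume `δ ≤ 1` (for `δ > 1` the hypothesis forces `n = 0`).  `ρ3 = δ/100`, `ρ1 = ρ3^2/4`.
`far_light` with `ρ = ρ1` gives `κ1`.  If the pairs whose colour has density `≤ κ1` have mass `≥ ρ1`, done.
Otherwise `F0 = {colours of density > κ1}` has at most `1/κ1` elements (disjoint classes) and
`cnt (c ∉ F0) ≤ ρ1 n^2`.  `good_pair` with `κ = ρ1 κ1` gives `F, U`.  `F` has at least two elements,
otherwise a single colour has mass `≥ (1-ρ3)^2 > 1 - δ`.  Let `η` be as in `far_a` for `κ`, `J = ⌈η p⌉₊`,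
`D` from `dich η`.  First alternative of `dich`: `far_a`; second: `far_b`. -/
theorem far (δ : ℝ) (hδ : 0 < δ) : ∃ γ > (0 : ℝ), ∃ p0 n0 : ℕ, ∀ p ≥ p0, p.Prime →
    ∀ (V : Type) [Fintype V] (c : V → V → ZMod p), (∀ x y, c x y = c y x) → n0 ≤ Fintype.card V →
    (∀ a b : ZMod p, δ * (Fintype.card V : ℝ) ^ 2 ≤
      cnt (fun q : V × V => c q.1 q.2 ≠ a ∧ c q.1 q.2 ≠ b)) →
    (1 / 2 + γ) ^ p * ((p + 1 : ℕ) : ℝ) ^ (p - 1) * (Fintype.card V : ℝ) ^ (p + 1) ≤ NN c p 0 := by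
  obtain ⟨p0, n0, h⟩ := far3_main (min δ 1) (lt_min hδ one_pos) (min_le_right _ _)
  refine ⟨min δ 1 / 20, div_pos (lt_min hδ one_pos) (by norm_num), p0, n0, ?_⟩
  intro p hp hpp V _ c hc hn hfar
  refine h p hp hpp V c hc hn fun a b => ?_
  refine le_trans ?_ (hfar a b)
  exact mul_le_mul_of_nonneg_right (min_le_left _ _) (by positivity)

end Pool.Agent.ZT
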