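import Pool.Agent.ZT.Hub

/-! # ZT : gadgets (leaves of a given colour near the hub) -/

set_option autoImplicit false

open Finset

namespace Pool.Agent.ZT

/-- Stars: `ν` leaves of integer `i` at a vertex `z` with many `i`-partners
(`blocks_glue` with `e = 0`, `s = 0`, `e0 = 0`, `rr_zero`). -/
theorem star {V : Type} [Fintype V] (c : V → V → ℤ × ℕ) (z : V) (ν m : ℕ) (i : ℤ) (β : ℝ)
    (hβ0 : 0 ≤ β) (hβ : β * (Fintype.card V : ℝ) ≤ cnt (fun w : V => c w z = (i, 0))) (hm : ν ≤ m) :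
    (β / m) ^ ν ≤ rr c ν z (ν * i, 0) := by
  classical
  have h0 : ∀ w : V, rr c 0 w ((0 : ℤ), (0 : ℕ)) = 1 := fun w => rr_zero c w
  have h1 := blocks_glue c z 0 0 ν m 0 0 i β hβ0 (by
    refine hβ.trans (le_of_eq ?_)
    rw [sm_eq, cnt_eq_card]
    simp only [h0]
    rw [sum_const, nsmul_eq_mul, mul_one]) (by omega)
  rw [h0, one_mul] at h1
  have e1 : 0 + ν * (0 + 1) = ν := by omega
  have e2 : (0 : ℤ) + ν * (0 + i) = ν * i := by ring
  rw [e1, e2] at h1
  exact h1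

/-- Vertices with many `i`-partners: if the pairs with `c x y = (i,0)` have density `≥ κ`, at least
`(κ/2) n` vertices `z` have at least `(κ/2) n` partners `w` with `c w z = (i,0)`. -/
theorem rich {V : Type} [Fintype V] (c : V → V → ℤ × ℕ) (hc : ∀ x y, c x y = c y x) (i : ℤ) (κ : ℝ)
    (hκ : κ * (Fintype.card V : ℝ) ^ 2 ≤ cnt (fun q : V × V => c q.1 q.2 = (i, 0))) :
    κ / 2 * (Fintype.card V : ℝ) ≤
      cnt (fun z : V => κ / 2 * (Fintype.card V : ℝ) ≤ cnt (fun w : V => c w z = (i, 0))) := by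
  classical
  set n : ℝ := (Fintype.card V : ℝ) with hn
  have hn0 : 0 ≤ n := Nat.cast_nonneg _
  rcases le_or_gt κ 0 with hk | hk
  · have h1 : κ / 2 * n ≤ 0 := mul_nonpos_of_nonpos_of_nonneg (by linarith) hn0
    exact h1.trans (Nat.cast_nonneg _)
  have hsum : (cnt (fun q : V × V => c q.1 q.2 = (i, 0)) : ℝ) =
      ∑ z : V, (cnt (fun w : V => c w z = (i, 0)) : ℝ) := by
    rw [cnt_eq_sum, Fintype.sum_prod_type_right]
    refine sum_congr rfl fun z _ => ?_
    rw [cnt_eq_sum]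
  have hle : ∀ z : V, (cnt (fun w : V => c w z = (i, 0)) : ℝ) ≤ κ / 2 * n +
      n * (if κ / 2 * n ≤ cnt (fun w : V => c w z = (i, 0)) then (1 : ℝ) else 0) := by
    intro z
    split_ifs with h
    · have h2 : (cnt (fun w : V => c w z = (i, 0)) : ℝ) ≤ n := by
        rw [hn]
        exact_mod_cast cnt_le_card _
      have h3 : 0 ≤ κ / 2 * n := by positivity
      linarith
    · linarith [not_le.1 h]
  have h4 : κ * n ^ 2 ≤ n * (κ / 2 * n) + n * cnt (fun z : V =>
      κ / 2 * n ≤ cnt (fun w : V => c w z = (i, 0))) := by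
    calc κ * n ^ 2 ≤ ∑ z : V, (cnt (fun w : V => c w z = (i, 0)) : ℝ) := by
          rw [← hsum]
          exact hκ
      _ ≤ ∑ z : V, (κ / 2 * n +
          n * (if κ / 2 * n ≤ cnt (fun w : V => c w z = (i, 0)) then (1 : ℝ) else 0)) :=
          sum_le_sum fun z _ => hle z
      _ = _ := by
          rw [sum_add_distrib, sum_const, card_univ, nsmul_eq_mul, ← mul_sum, cnt_eq_sum]
  rcases hn0.eq_or_lt with h5 | h5
  · rw [← h5, mul_zero]
    exact Nat.cast_nonneg _
  · have h6 : n * (κ / 2 * n) ≤ n * cnt (fun z : V =>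
      κ / 2 * n ≤ cnt (fun w : V => c w z = (i, 0))) := by nlinarith
    exact le_of_mul_le_mul_left h6 h5

/-- pigeonhole for pairs of integers -/
theorem gadget_pigeon {S : Type} [Fintype S] (P : S → Prop) (f g : S → ℤ) (D : ℕ)
    (hf : ∀ s, P s → |f s| ≤ (D : ℤ)) (hg : ∀ s, P s → |g s| ≤ (D : ℤ)) :
    ∃ j1 j2 : ℤ, |j1| ≤ (D : ℤ) ∧ |j2| ≤ (D : ℤ) ∧
      (cnt P : ℝ) ≤ (2 * D + 1) ^ 2 * cnt (fun s => P s ∧ f s = j1 ∧ g s = j2) := by
  classical
  set T : Finset (ℤ × ℤ) := Icc (-(D : ℤ)) D ×ˢ Icc (-(D : ℤ)) D with hT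
  have hcard : (T.card : ℝ) = (2 * D + 1) ^ 2 := by
    rw [hT, card_product, Int.card_Icc]
    have : ((D : ℤ) + 1 - -(D : ℤ)).toNat = 2 * D + 1 := by omega
    rw [this]
    push_cast
    ring
  have hTne : T.Nonempty := ⟨(0, 0), by simp [hT]⟩
  have hsum : (cnt P : ℝ) = ∑ t ∈ T, (cnt (fun s => P s ∧ f s = t.1 ∧ g s = t.2) : ℝ) := by
    rw [cnt_eq_card, card_eq_sum_card_fiberwise (f := fun s => (f s, g s)) (t := T)]
    · push_cast
      refine sum_congr rfl fun t _ => ?_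
      rw [cnt_eq_card]
      congr 2
      ext s
      simp only [mem_filter, mem_univ, true_and, Prod.ext_iff]
    · intro s hs
      simp only [coe_filter, mem_univ, true_and, Set.mem_ofPred_eq] at hs
      have h1 := abs_le.1 (hf s hs)
      have h2 := abs_le.1 (hg s hs)
      simp only [hT, coe_product, Set.mem_prod, mem_coe, mem_Icc]
      exact ⟨h1, h2⟩
  obtain ⟨t, ht, hmax⟩ := exists_max_image T (fun t => (cnt (fun s => P s ∧ f s = t.1 ∧ g s = t.2) : ℝ))
    hTne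
  simp only [hT, mem_product, mem_Icc] at ht
  refine ⟨t.1, t.2, abs_le.2 ht.1, abs_le.2 ht.2, ?_⟩
  rw [hsum, ← hcard, ← nsmul_eq_mul]
  exact sum_le_card_nsmul T _ _ hmax

/-- two vertices of `U` have many common allowed partners -/
theorem gadget_common {V : Type} [Fintype V] {c : V → V → ℤ × ℕ} {U : Finset V} {D : ℕ}
    (H : IK c U D) {y z : V} (hy : y ∈ U) (hz : z ∈ U) :
    (Fintype.card V : ℝ) / 2 ≤ cnt (fun u : V => (c u y).2 = 0 ∧ (c z u).2 = 0) := by
  classical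
  have h1 := H.deg y hy
  have h2 := H.deg z hz
  have h3 : (cnt (fun u : V => (c y u).2 = 0) : ℝ) + cnt (fun u : V => (c z u).2 = 0) ≤
      cnt (fun u : V => (c u y).2 = 0 ∧ (c z u).2 = 0) + Fintype.card V := by
    rw [cnt_eq_sum, cnt_eq_sum, cnt_eq_sum, ← sum_add_distrib]
    have h4 : (Fintype.card V : ℝ) = ∑ _u : V, (1 : ℝ) := by simp
    rw [h4, ← sum_add_distrib]
    refine sum_le_sum fun u _ => ?_
    rw [H.symm u y]
    by_cases h5 : (c y u).2 = 0 <;> by_cases h6 : (c z u).2 = 0 <;> simp [h5, h6]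
  have h7 : (0 : ℝ) ≤ Fintype.card V := Nat.cast_nonneg _
  linarith

/-- The gadget: hub `y` – connector `u` – rich vertex `z` – `ν` leaves of integer `i`.

PROOF.  If `κ ≤ 0`... (not needed: `0 < κ`).  Let `Z` be the set of rich vertices (`rich`), so
`Z ⊆ U` (a rich vertex has a partner) and `|Z| ≥ (κ/2) n`.  For `z ∈ Z`, `y ∈ U` at least `n/2` vertices `u`
have both `(u,y)` and `(z,u)` allowed.  By pigeonhole there are integers `j1, j2`, `|j1|, |j2| ≤ D`, such
that at least `κ n^2 / (4 (2D+1)^2)` pairs `(u, z)` have `z ∈ Z`, `c u y = (j1,0)`, `c z u = (j2,0)`; put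
`j = j1 + j2` (this choice does not depend on `e0, ν, g, m`).  `star` at `z`, then `glue` (the star is
hung on the one-vertex tree at `u`: `rr c (ν+1) u (j2 + ν i, 0) ≥ (1/(m n)) ∑_{z} (κ/(2m))^ν`), then
`glue` at the hub `y` over the `u` with `c u y = (j1, 0)`. -/
theorem gadget {V : Type} [Fintype V] {c : V → V → ℤ × ℕ} {U : Finset V} {D : ℕ} (H : IK c U D)
    (κ : ℝ) (hκ0 : 0 < κ) (i : ℤ)
    (hκ : κ * (Fintype.card V : ℝ) ^ 2 ≤ cnt (fun q : V × V => c q.1 q.2 = (i, 0)))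
    (y : V) (hy : y ∈ U) :
    ∃ j : ℤ, |j| ≤ 2 * (D : ℤ) ∧ ∀ (e0 ν m : ℕ) (g : ℤ), e0 + 2 + ν ≤ m →
      rr c e0 y (g, 0) * (κ / (4 * (2 * D + 1) ^ 2 * (m : ℝ) ^ 2)) * (κ / (2 * m)) ^ ν ≤
        rr c (e0 + 2 + ν) y (g + j + ν * i, 0) := by
  classical
  set n : ℝ := (Fintype.card V : ℝ) with hn
  have hn0 : 0 < n := by
    rw [hn]
    have : 0 < Fintype.card V := Fintype.card_pos_iff.2 ⟨y⟩
    exact_mod_cast this
  set R : V → Prop := fun z : V => κ / 2 * n ≤ cnt (fun w : V => c w z = (i, 0)) with hR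
  have hrich : κ / 2 * n ≤ cnt R := rich c H.symm i κ hκ
  have hRU : ∀ z, R z → z ∈ U := by
    intro z hz
    have h1 : 0 < (cnt (fun w : V => c w z = (i, 0)) : ℝ) := lt_of_lt_of_le (by positivity) hz
    have h2 : 0 < cnt (fun w : V => c w z = (i, 0)) := by exact_mod_cast h1
    rw [cnt_eq_card, card_pos] at h2
    obtain ⟨w, hw⟩ := h2
    simp only [mem_filter, mem_univ, true_and] at hw
    exact (H.mem w z (by rw [hw])).2
  -- pairs `(u, z)`
  set P : V × V → Prop := fun q => R q.2 ∧ (c q.1 y).2 = 0 ∧ (c q.2 q.1).2 = 0 with hP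
  have hPcnt : κ * n ^ 2 / 4 ≤ cnt P := by
    have h1 : (cnt P : ℝ) = ∑ z : V, if R z then
        (cnt (fun u : V => (c u y).2 = 0 ∧ (c z u).2 = 0) : ℝ) else 0 := by
      rw [cnt_eq_sum, Fintype.sum_prod_type_right]
      refine sum_congr rfl fun z _ => ?_
      split_ifs with h2
      · rw [cnt_eq_sum]
        refine sum_congr rfl fun u _ => ?_
        simp only [hP, h2, true_and]
      · refine sum_eq_zero fun u _ => ?_
        simp only [hP, h2, false_and, if_false]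
    have h3 : n / 2 * cnt R ≤ cnt P := by
      rw [h1, cnt_eq_sum, mul_sum]
      refine sum_le_sum fun z _ => ?_
      split_ifs with h2
      · rw [mul_one]
        exact gadget_common H hy (hRU z h2)
      · rw [mul_zero]
    have h4 : n / 2 * (κ / 2 * n) ≤ n / 2 * cnt R := by gcongr
    nlinarith
  obtain ⟨j1, j2, hj1, hj2, hpig⟩ := gadget_pigeon P (fun q => (c q.1 y).1) (fun q => (c q.2 q.1).1) D
    (fun q hq => H.bdd _ _ hq.2.1) (fun q hq => H.bdd _ _ hq.2.2)
  refine ⟨j1 + j2, ?_, ?_⟩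
  · have := abs_add_le j1 j2
    omega
  intro e0 ν m g hm
  have hm0 : (0 : ℝ) < m := by
    have : 0 < m := by omega
    exact_mod_cast this
  set B : ℝ := (κ / (2 * m)) ^ ν with hB
  have hB0 : 0 ≤ B := by positivity
  have hstar : ∀ z, R z → B ≤ rr c ν z (ν * i, 0) := by
    intro z hz
    have h1 := star c z ν m i (κ / 2) (by positivity) hz (by omega)
    rw [hB]
    have h2 : κ / (2 * (m : ℝ)) = κ / 2 / m := by rw [div_div]
    rw [h2]
    exact h1
  set Yz : V → Finset V := fun u => univ.filter (fun z => R z ∧ c z u = (j2, 0)) with hYz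
  have hconn : ∀ u : V, (Yz u).card * B / (m * n) ≤ rr c (0 + ν + 1) u (j2 + ν * i, 0) := by
    intro u
    have h1 := glue c 0 ν u 0 ((j2 + ν * i : ℤ), (0 : ℕ)) (Yz u) (fun _ => ((ν * i : ℤ), (0 : ℕ))) (by
      intro z hz
      simp only [hYz, mem_filter, mem_univ, true_and] at hz
      rw [hz.2, zero_add, Prod.mk_add_mk]
      congr 1
      ring)
    rw [rr_zero, one_mul] at h1
    have h2 : (Yz u).card * B ≤ ∑ z ∈ Yz u, rr c ν z (ν * i, 0) := by
      rw [← nsmul_eq_mul]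
      refine card_nsmul_le_sum _ _ _ fun z hz => ?_
      simp only [hYz, mem_filter, mem_univ, true_and] at hz
      exact hstar z hz.1
    rw [div_le_iff₀ (by positivity)]
    refine (h2.trans h1).trans ?_
    rw [mul_comm (rr c (0 + ν + 1) u _)]
    have h3 : ((0 : ℕ) : ℝ) + ν + 1 ≤ m := by
      have : 0 + ν + 1 ≤ m := by omega
      exact_mod_cast this
    have h4 := rr_nonneg c (0 + ν + 1) u ((j2 + ν * i : ℤ), (0 : ℕ))
    gcongr
  have hglue := glue c e0 (0 + ν + 1) y ((g : ℤ), (0 : ℕ)) ((g + (j1 + j2) + ν * i : ℤ), (0 : ℕ))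
    (univ.filter (fun u => c u y = (j1, 0))) (fun _ => ((j2 + ν * i : ℤ), (0 : ℕ))) (by
      intro u hu
      simp only [mem_filter, mem_univ, true_and] at hu
      rw [hu, Prod.mk_add_mk, Prod.mk_add_mk]
      congr 1
      ring)
  have hpairs : (cnt (fun s : V × V => P s ∧ (c s.1 y).1 = j1 ∧ (c s.2 s.1).1 = j2) : ℝ) =
      ∑ u ∈ univ.filter (fun u => c u y = (j1, 0)), ((Yz u).card : ℝ) := by
    rw [cnt_eq_sum, Fintype.sum_prod_type, sum_filter]
    refine sum_congr rfl fun u _ => ?_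
    split_ifs with h1
    · rw [hYz]
      simp only
      rw [card_filter]
      push_cast
      refine sum_congr rfl fun z _ => ?_
      have h2 : (P (u, z) ∧ (c u y).1 = j1 ∧ (c z u).1 = j2) ↔ (R z ∧ c z u = (j2, 0)) := by
        simp only [hP, h1, true_and, Prod.ext_iff]
        tauto
      simp only [h2]
    · refine sum_eq_zero fun z _ => ?_
      rw [if_neg]
      rintro ⟨h2, h3, _⟩
      exact h1 (Prod.ext h3 h2.2.1)
  have hsumlow : κ * n / (4 * (2 * D + 1) ^ 2 * m) * B ≤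
      ∑ u ∈ univ.filter (fun u => c u y = (j1, 0)), rr c (0 + ν + 1) u (j2 + ν * i, 0) := by
    calc κ * n / (4 * (2 * D + 1) ^ 2 * m) * B
        ≤ (∑ u ∈ univ.filter (fun u => c u y = (j1, 0)), ((Yz u).card : ℝ)) * B / (m * n) := by
          rw [← hpairs, div_mul_eq_mul_div, div_le_div_iff₀ (by positivity) (by positivity)]
          have h5 : κ * n ^ 2 / 4 ≤ (2 * D + 1) ^ 2 *
            cnt (fun s : V × V => P s ∧ (c s.1 y).1 = j1 ∧ (c s.2 s.1).1 = j2) := hPcnt.trans hpig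
          have h6 : 0 ≤ B * m := by positivity
          have h7 := mul_le_mul_of_nonneg_right h5 h6
          nlinarith
      _ = ∑ u ∈ univ.filter (fun u => c u y = (j1, 0)), (Yz u).card * B / (m * n) := by
          rw [sum_mul, sum_div]
      _ ≤ _ := sum_le_sum fun u _ => hconn u
  have hr0 := rr_nonneg c e0 y ((g : ℤ), (0 : ℕ))
  have e1 : e0 + (0 + ν + 1) + 1 = e0 + 2 + ν := by omega
  rw [e1] at hglue
  have hr1 := rr_nonneg c (e0 + 2 + ν) y ((g + (j1 + j2) + ν * i : ℤ), (0 : ℕ))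
  have h8 : ((e0 : ℝ) + ((0 + ν + 1 : ℕ) : ℝ) + 1) ≤ m := by
    have : e0 + (0 + ν + 1) + 1 ≤ m := by omega
    exact_mod_cast this
  have h9 : rr c e0 y (g, 0) * (κ * n / (4 * (2 * D + 1) ^ 2 * m) * B) ≤
      m * n * rr c (e0 + 2 + ν) y (g + (j1 + j2) + ν * i, 0) := by
    refine (mul_le_mul_of_nonneg_left hsumlow hr0).trans (hglue.trans ?_)
    gcongr
  have h10 : rr c e0 y (g, 0) * (κ / (4 * (2 * D + 1) ^ 2 * (m : ℝ) ^ 2)) * B =
      rr c e0 y (g, 0) * (κ * n / (4 * (2 * D + 1) ^ 2 * m) * B) / (m * n) := by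
    field_simp
  rw [h10, div_le_iff₀ (by positivity)]
  linarith

/-- Gadgets for all colours in a finite set `I`: there is an integer `j` with `|j| ≤ 2 D |I|` such that
for all leaf numbers `ν`, `∑ ν = J`, the hub can be extended by `2 |I| + J` edges with sum
`j + ∑ ν_i i`.

PROOF.  Induction on `I` (`Finset.induction_on`), adding up the `j` from `gadget`. -/
theorem gadgets {V : Type} [Fintype V] {c : V → V → ℤ × ℕ} {U : Finset V} {D : ℕ} (H : IK c U D)
    (κ : ℝ) (hκ0 : 0 < κ) (I : Finset ℤ)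
    (hκ : ∀ i ∈ I, κ * (Fintype.card V : ℝ) ^ 2 ≤ cnt (fun q : V × V => c q.1 q.2 = (i, 0)))
    (y : V) (hy : y ∈ U) :
    ∃ j : ℤ, |j| ≤ 2 * (D : ℤ) * I.card ∧ ∀ (ν : ℤ → ℕ) (e0 m : ℕ) (g : ℤ),
      e0 + 2 * I.card + ∑ i ∈ I, ν i ≤ m →
      rr c e0 y (g, 0) * (κ / (4 * (2 * D + 1) ^ 2 * (m : ℝ) ^ 2)) ^ I.card *
        (κ / (2 * m)) ^ (∑ i ∈ I, ν i) ≤
        rr c (e0 + 2 * I.card + ∑ i ∈ I, ν i) y (g + j + ∑ i ∈ I, (ν i : ℤ) * i, 0) := by
  classical
  induction I using Finset.induction_on with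
  | empty =>
    refine ⟨0, by simp, fun ν e0 m g _ => ?_⟩
    simp
  | insert a I ha ih =>
    obtain ⟨jI, hjI, hI⟩ := ih fun i hi => hκ i (mem_insert_of_mem hi)
    obtain ⟨ja, hja, hA⟩ := gadget H κ hκ0 a (hκ a (mem_insert_self a I)) y hy
    refine ⟨jI + ja, ?_, fun ν e0 m g hm => ?_⟩
    · rw [card_insert_of_notMem ha]
      have h1 := abs_add_le jI ja
      push_cast
      linarith
    · rw [card_insert_of_notMem ha, sum_insert ha] at hm
      rw [card_insert_of_notMem ha, sum_insert ha, sum_insert ha]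
      have h1 := hI ν e0 m g (by omega)
      have h2 := hA (e0 + 2 * I.card + ∑ i ∈ I, ν i) (ν a) m (g + jI + ∑ i ∈ I, (ν i : ℤ) * i) (by omega)
      set A : ℝ := κ / (4 * (2 * D + 1) ^ 2 * (m : ℝ) ^ 2) with hAd
      set B : ℝ := κ / (2 * m) with hBd
      have hA0 : 0 ≤ A := by positivity
      have hB0 : 0 ≤ B := by positivity
      have h3 : rr c e0 y (g, 0) * A ^ (I.card + 1) * B ^ (ν a + ∑ i ∈ I, ν i) =
          rr c e0 y (g, 0) * A ^ I.card * B ^ (∑ i ∈ I, ν i) * A * B ^ ν a := by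
        rw [pow_succ, pow_add]
        ring
      rw [h3]
      have h4 : rr c e0 y (g, 0) * A ^ I.card * B ^ (∑ i ∈ I, ν i) * A * B ^ ν a ≤
          rr c (e0 + 2 * I.card + ∑ i ∈ I, ν i) y (g + jI + ∑ i ∈ I, (ν i : ℤ) * i, 0) * A *
            B ^ ν a := by
        gcongr
      refine h4.trans (h2.trans (le_of_eq ?_))
      congr 1
      · omega
      · congr 1
        ring

end Pool.Agent.ZT
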