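import Pool.Agent.ZT.Defs

/-! # ZT : gluing two rooted trees at the root -/

set_option autoImplicit false

open Finset

namespace Pool.Agent.ZT

/-! ### auxiliary facts -/

/-- the glued parent function -/
def glue_P {a b : ℕ} (p1 : Fin (a + 1) → Fin (a + 1)) (p2 : Fin (b + 1) → Fin (b + 1)) :
    Fin (a + 1) ⊕ Fin (b + 1) → Fin (a + 1) ⊕ Fin (b + 1)
  | Sum.inl i => Sum.inl (p1 i)
  | Sum.inr j => if j = 0 then Sum.inl 0 else Sum.inr (p2 j)

theorem glue_P_inl {a b : ℕ} (p1 : Fin (a + 1) → Fin (a + 1)) (p2 : Fin (b + 1) → Fin (b + 1))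
    (i : Fin (a + 1)) : glue_P p1 p2 (Sum.inl i) = Sum.inl (p1 i) := rfl

theorem glue_P_zero {a b : ℕ} (p1 : Fin (a + 1) → Fin (a + 1)) (p2 : Fin (b + 1) → Fin (b + 1)) :
    glue_P p1 p2 (Sum.inr 0) = Sum.inl 0 := by simp [glue_P]

theorem glue_P_inr {a b : ℕ} (p1 : Fin (a + 1) → Fin (a + 1)) (p2 : Fin (b + 1) → Fin (b + 1))
    {j : Fin (b + 1)} (hj : j ≠ 0) : glue_P p1 p2 (Sum.inr j) = Sum.inr (p2 j) := if_neg hj

theorem glue_iter_inl {a b : ℕ} (p1 : Fin (a + 1) → Fin (a + 1)) (p2 : Fin (b + 1) → Fin (b + 1))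
    (k : ℕ) (i : Fin (a + 1)) : (glue_P p1 p2)^[k] (Sum.inl i) = Sum.inl (p1^[k] i) := by
  induction k generalizing i with
  | zero => rfl
  | succ k ih => rw [Function.iterate_succ_apply, Function.iterate_succ_apply, glue_P_inl, ih]

theorem glue_reach_v {a b : ℕ} (p1 : Fin (a + 1) → Fin (a + 1)) (p2 : Fin (b + 1) → Fin (b + 1))
    (k : ℕ) (j : Fin (b + 1)) (h : p2^[k] j = 0) : ∃ m : ℕ, (glue_P p1 p2)^[m] (Sum.inr j) = Sum.inr 0 := by
  induction k generalizing j with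
  | zero =>
    refine ⟨0, ?_⟩
    have : j = 0 := h
    rw [this]
    rfl
  | succ k ih =>
    by_cases hj : j = 0
    · exact ⟨0, by rw [hj]; rfl⟩
    · rw [Function.iterate_succ_apply] at h
      obtain ⟨m, hm⟩ := ih (p2 j) h
      refine ⟨m + 1, ?_⟩
      rw [Function.iterate_succ_apply, glue_P_inr p1 p2 hj, hm]

theorem glue_mem_PT {a b : ℕ} {p1 : Fin (a + 1) → Fin (a + 1)} {p2 : Fin (b + 1) → Fin (b + 1)}
    (h1 : p1 ∈ PT (Fin (a + 1)) 0) (h2 : p2 ∈ PT (Fin (b + 1)) 0) :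
    glue_P p1 p2 ∈ PT (Fin (a + 1) ⊕ Fin (b + 1)) (Sum.inl 0) := by
  rw [mem_PT] at h1 h2 ⊢
  refine ⟨by rw [glue_P_inl, h1.1], ?_⟩
  rintro (i | j)
  · obtain ⟨k, hk⟩ := h1.2 i
    exact ⟨k, by rw [glue_iter_inl, hk]⟩
  · obtain ⟨k, hk⟩ := h2.2 j
    obtain ⟨m, hm⟩ := glue_reach_v p1 p2 k j hk
    refine ⟨m + 1, ?_⟩
    rw [Function.iterate_succ_apply', hm, glue_P_zero]

theorem glue_PS {a b : ℕ} {V G : Type} [AddCommMonoid G] (c : V → V → G)
    (p1 : Fin (a + 1) → Fin (a + 1)) (p2 : Fin (b + 1) → Fin (b + 1)) (x1 : Fin (a + 1) → V)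
    (x2 : Fin (b + 1) → V) :
    PS c (glue_P p1 p2) (Sum.inl 0) (Sum.elim x1 x2) =
      PS c p1 0 x1 + (PS c p2 0 x2 + c (x2 0) (x1 0)) := by
  unfold PS
  have h1 : ∀ (F : Fin (a + 1) ⊕ Fin (b + 1) → G), ∑ w ∈ univ.erase (Sum.inl 0), F w =
      ∑ i ∈ univ.erase 0, F (Sum.inl i) + (∑ j ∈ univ.erase 0, F (Sum.inr j) + F (Sum.inr 0)) := by
    intro F
    have e1 : ∑ w ∈ univ.erase (Sum.inl 0), F w =
        ∑ w : Fin (a + 1) ⊕ Fin (b + 1), if w ≠ Sum.inl 0 then F w else 0 := by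
      rw [← Finset.filter_ne', Finset.sum_filter]
    rw [e1, Fintype.sum_sum_type]
    congr 1
    · rw [← Finset.filter_ne', Finset.sum_filter]
      refine Finset.sum_congr rfl fun i _ => ?_
      by_cases hi : i = 0
      · rw [if_neg (by simp [hi]), if_neg (by simp [hi])]
      · rw [if_pos (by simp [hi]), if_pos hi]
    · rw [Finset.sum_erase_add _ _ (mem_univ _)]
      refine Finset.sum_congr rfl fun j _ => ?_
      rw [if_pos (by simp)]
  rw [h1]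
  congr 1
  congr 1
  · refine Finset.sum_congr rfl fun j hj => ?_
    rw [glue_P_inr p1 p2 (Finset.ne_of_mem_erase hj)]
    rfl

/-- transport along a bijection -/
theorem glue_tr_iter {A B : Type} (σ : A ≃ B) (p : A → A) (k : ℕ) (a : A) :
    (σ ∘ p ∘ σ.symm)^[k] (σ a) = σ (p^[k] a) := by
  induction k generalizing a with
  | zero => rfl
  | succ k ih =>
    rw [Function.iterate_succ_apply, Function.iterate_succ_apply]
    have : (σ ∘ p ∘ σ.symm) (σ a) = σ (p a) := by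
      simp [Function.comp]
    rw [this, ih]

theorem glue_tr_PT {A B : Type} [Fintype A] [DecidableEq A] [Fintype B] [DecidableEq B] (σ : A ≃ B)
    {v : A} {p : A → A} (h : p ∈ PT A v) : σ ∘ p ∘ σ.symm ∈ PT B (σ v) := by
  rw [mem_PT] at h ⊢
  refine ⟨by simp [Function.comp, h.1], ?_⟩
  intro w
  obtain ⟨k, hk⟩ := h.2 (σ.symm w)
  refine ⟨k, ?_⟩
  have h1 := glue_tr_iter σ p k (σ.symm w)
  rw [Equiv.apply_symm_apply, hk] at h1
  exact h1

theorem glue_tr_PS {A B V G : Type} [Fintype A] [DecidableEq A] [Fintype B] [DecidableEq B]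
    [AddCommMonoid G] (c : V → V → G) (σ : A ≃ B) (p : A → A) (v : A) (x : A → V) :
    PS c (σ ∘ p ∘ σ.symm) (σ v) (x ∘ σ.symm) = PS c p v x := by
  unfold PS
  refine Finset.sum_equiv σ.symm ?_ ?_
  · intro w
    rw [mem_erase, mem_erase]
    constructor
    · rintro ⟨h1, _⟩
      refine ⟨fun h => h1 ?_, mem_univ _⟩
      rw [← h, Equiv.apply_symm_apply]
    · rintro ⟨h1, _⟩
      refine ⟨fun h => h1 ?_, mem_univ _⟩
      rw [h, Equiv.symm_apply_apply]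
  · intro w _
    simp [Function.comp]

theorem glue_equiv_pt {A B : Type} [Fintype A] [Fintype B] (h : Fintype.card A = Fintype.card B)
    (a : A) (b : B) : ∃ e : A ≃ B, e a = b := by
  classical
  let e0 := Fintype.equivOfCardEq h
  refine ⟨e0.trans (Equiv.swap (e0 a) b), ?_⟩
  rw [Equiv.trans_apply, Equiv.swap_apply_left]

theorem glue_sigma {a b : ℕ} {W : Finset (Fin (a + b + 1 + 1))} {v : Fin (a + b + 1 + 1)}
    (hW : W.card = b + 1) (h0 : 0 ∉ W) (hv : v ∈ W) :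
    ∃ σ : Fin (a + 1) ⊕ Fin (b + 1) ≃ Fin (a + b + 1 + 1), σ (Sum.inl 0) = 0 ∧ σ (Sum.inr 0) = v ∧
      (∀ i, σ (Sum.inl i) ∉ W) ∧ ∀ j, σ (Sum.inr j) ∈ W := by
  classical
  have hc1 : Fintype.card (Fin (b + 1)) = Fintype.card {x // x ∈ W} := by
    rw [Fintype.card_fin, Fintype.card_coe, hW]
  have hc2 : Fintype.card (Fin (a + 1)) = Fintype.card {x // x ∉ W} := by
    rw [Fintype.card_fin, Fintype.card_subtype_compl, Fintype.card_fin, Fintype.card_coe, hW]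
    omega
  obtain ⟨e1, he1⟩ := glue_equiv_pt hc1 0 ⟨v, hv⟩
  obtain ⟨e2, he2⟩ := glue_equiv_pt hc2 0 ⟨0, h0⟩
  refine ⟨(Equiv.sumComm _ _).trans ((Equiv.sumCongr e1 e2).trans (Equiv.sumCompl (fun x => x ∈ W))),
    ?_, ?_, ?_, ?_⟩
  · show ((e2 0 : {x // x ∉ W}) : Fin (a + b + 1 + 1)) = 0
    rw [he2]
  · show ((e1 0 : {x // x ∈ W}) : Fin (a + b + 1 + 1)) = v
    rw [he1]
  · intro i
    show ((e2 i : {x // x ∉ W}) : Fin (a + b + 1 + 1)) ∉ W
    exact (e2 i).2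
  · intro j
    show ((e1 j : {x // x ∈ W}) : Fin (a + b + 1 + 1)) ∈ W
    exact (e1 j).2

/-- the number of pairs (set of labels, element) -/
theorem glue_cnt_W (a b : ℕ) :
    cnt (fun q : Finset (Fin (a + b + 1 + 1)) × Fin (a + b + 1 + 1) =>
      (q.1.card = b + 1 ∧ 0 ∉ q.1) ∧ q.2 ∈ q.1) = (a + b + 1).choose (b + 1) * (b + 1) := by
  classical
  rw [cnt_eq_card]
  have h1 : (univ.filter (fun q : Finset (Fin (a + b + 1 + 1)) × Fin (a + b + 1 + 1) =>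
      (q.1.card = b + 1 ∧ 0 ∉ q.1) ∧ q.2 ∈ q.1)).card =
      ∑ W ∈ powersetCard (b + 1) (univ.erase (0 : Fin (a + b + 1 + 1))), W.card := by
    rw [card_eq_sum_card_fiberwise (f := fun q => q.1)
      (t := powersetCard (b + 1) (univ.erase (0 : Fin (a + b + 1 + 1))))]
    · refine sum_congr rfl fun W hW => ?_
      rw [mem_powersetCard] at hW
      have h0 : 0 ∉ W := fun h => (mem_erase.1 (hW.1 h)).1 rfl
      refine card_bij (fun q _ => q.2) ?_ ?_ ?_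
      · intro q hq
        simp only [mem_filter, mem_univ, true_and] at hq
        rw [← hq.2]
        exact hq.1.2
      · intro q hq q' hq' h
        simp only [mem_filter, mem_univ, true_and] at hq hq'
        exact Prod.ext (hq.2.trans hq'.2.symm) h
      · intro v hv
        exact ⟨(W, v), by simp only [mem_filter, mem_univ, true_and]; exact ⟨⟨⟨hW.2, h0⟩, hv⟩, trivial⟩, rfl⟩
    · intro q hq
      rw [mem_coe, mem_filter] at hq
      rw [mem_coe, mem_powersetCard]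
      refine ⟨fun w hw => mem_erase.2 ⟨fun h => hq.2.1.2 (h ▸ hw), mem_univ _⟩, hq.2.1.1⟩
  rw [h1]
  have h2 : ∑ W ∈ powersetCard (b + 1) (univ.erase (0 : Fin (a + b + 1 + 1))), W.card =
      ∑ _W ∈ powersetCard (b + 1) (univ.erase (0 : Fin (a + b + 1 + 1))), (b + 1) :=
    sum_congr rfl fun W hW => (mem_powersetCard.1 hW).2
  rw [h2, sum_const, card_powersetCard, card_erase_of_mem (mem_univ _), card_univ, Fintype.card_fin,
    smul_eq_mul, Nat.add_sub_cancel]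

theorem glue_cnt_ne (m : ℕ) : cnt (fun v : Fin (m + 1) => v ≠ 0) = m := by
  classical
  rw [cnt_eq_card, filter_ne', card_erase_of_mem (mem_univ _), card_univ, Fintype.card_fin,
    Nat.add_sub_cancel]

theorem glue_cnt_Y {V G : Type} [Fintype V] [AddCommMonoid G] (c : V → V → G) (e2 : ℕ)
    (Y : Finset V) (g2 : V → G) : ∑ z ∈ Y, RR c (Fin (e2 + 1)) 0 z (g2 z) =
      cnt (fun q : (Fin (e2 + 1) → Fin (e2 + 1)) × (Fin (e2 + 1) → V) =>
        q.1 ∈ PT (Fin (e2 + 1)) 0 ∧ q.2 0 ∈ Y ∧ PS c q.1 0 q.2 = g2 (q.2 0)) := by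
  classical
  rw [cnt_eq_card, card_eq_sum_card_fiberwise
    (f := fun q : (Fin (e2 + 1) → Fin (e2 + 1)) × (Fin (e2 + 1) → V) => q.2 0) (t := Y)]
  · refine sum_congr rfl fun z hz => ?_
    rw [RR_congr, cnt_eq_card]
    congr 1
    ext q
    simp only [mem_filter, mem_univ, true_and]
    constructor
    · rintro ⟨h1, h2, h3⟩
      rw [h2]
      exact ⟨⟨h1, hz, h3⟩, rfl⟩
    · rintro ⟨⟨h1, _, h3⟩, h4⟩
      rw [h4] at h3
      exact ⟨h1, h4, h3⟩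
  · intro q hq
    rw [mem_coe, mem_filter] at hq
    exact mem_coe.2 hq.2.2.1

/-- Counting form of the gluing inequality (`V` and the colours arbitrary).

PROOF.  Let `C = Fin (e1 + e2 + 2)`, root `0`.  For `W ⊆ C \ {0}` with `|W| = e2 + 1`, `v2 ∈ W`, a tree
`p1` on `C \ W` with root `0` placed by `x1` with `x1 0 = y` and colour sum `g1`, a tree `p2` on `W` with
root `v2` placed by `x2` with `z = x2 v2 ∈ Y` and colour sum `g2 z`, define `p = p1` on `C \ W`, `p = p2` on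
`W \ {v2}`, `p v2 = 0` and `x = x1 ∪ x2`: a tree on `C` with root `0` placed at `y`, with colour sum
`g1 + (g2 z + c z y) = g`.  Given `(p, x)` and `v2` (a child of the root) the other data are
determined: `W` is the set of `w` with `v2 ∈ {w, p w, p (p w), …}` (before reaching `0`), etc.  So every
`(p, x)` arises at most `e1 + e2 + 1` times (the number of possible `v2 ≠ 0`).  The number of data is
`C(e1+e2+1, e2+1) · (e2+1) · RR_{e1}(y, g1) · ∑_{z ∈ Y} RR_{e2}(z, g2 z)` because `RR` is invariant under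
bijections of the label type (root to root). -/
theorem glue_nat {V G : Type} [Fintype V] [AddCommMonoid G] (c : V → V → G) (e1 e2 : ℕ) (y : V)
    (g1 g : G) (Y : Finset V) (g2 : V → G) (h : ∀ z ∈ Y, g1 + (g2 z + c z y) = g) :
    (e1 + e2 + 1).choose (e2 + 1) * (e2 + 1) *
      (RR c (Fin (e1 + 1)) 0 y g1 * ∑ z ∈ Y, RR c (Fin (e2 + 1)) 0 z (g2 z))
    ≤ (e1 + e2 + 1) * RR c (Fin (e1 + e2 + 1 + 1)) 0 y g := by
  classical
  have hne : Nonempty (Fin (e1 + 1) ⊕ Fin (e2 + 1) ≃ Fin (e1 + e2 + 1 + 1)) :=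
    ⟨Fintype.equivOfCardEq (by simp only [Fintype.card_sum, Fintype.card_fin]; omega)⟩
  have hex : ∀ q : Finset (Fin (e1 + e2 + 1 + 1)) × Fin (e1 + e2 + 1 + 1),
      ((q.1.card = e2 + 1 ∧ 0 ∉ q.1) ∧ q.2 ∈ q.1) →
      ∃ σ : Fin (e1 + 1) ⊕ Fin (e2 + 1) ≃ Fin (e1 + e2 + 1 + 1), σ (Sum.inl 0) = 0 ∧
        σ (Sum.inr 0) = q.2 ∧ (∀ i, σ (Sum.inl i) ∉ q.1) ∧ ∀ j, σ (Sum.inr j) ∈ q.1 :=
    fun q hq => glue_sigma hq.1.1 hq.1.2 hq.2
  choose! σ hσ using hex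
  have key := cnt_inj
    (P := fun s : (Finset (Fin (e1 + e2 + 1 + 1)) × Fin (e1 + e2 + 1 + 1)) ×
        (((Fin (e1 + 1) → Fin (e1 + 1)) × (Fin (e1 + 1) → V)) ×
          ((Fin (e2 + 1) → Fin (e2 + 1)) × (Fin (e2 + 1) → V))) =>
      ((s.1.1.card = e2 + 1 ∧ 0 ∉ s.1.1) ∧ s.1.2 ∈ s.1.1) ∧
        ((s.2.1.1 ∈ PT (Fin (e1 + 1)) 0 ∧ s.2.1.2 0 = y ∧ PS c s.2.1.1 0 s.2.1.2 = g1) ∧
          (s.2.2.1 ∈ PT (Fin (e2 + 1)) 0 ∧ s.2.2.2 0 ∈ Y ∧ PS c s.2.2.1 0 s.2.2.2 = g2 (s.2.2.2 0))))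
    (Q := fun t : Fin (e1 + e2 + 1 + 1) ×
        ((Fin (e1 + e2 + 1 + 1) → Fin (e1 + e2 + 1 + 1)) × (Fin (e1 + e2 + 1 + 1) → V)) =>
      t.1 ≠ 0 ∧ (t.2.1 ∈ PT (Fin (e1 + e2 + 1 + 1)) 0 ∧ t.2.2 0 = y ∧ PS c t.2.1 0 t.2.2 = g))
    (fun s => (s.1.2, (σ s.1 ∘ glue_P s.2.1.1 s.2.2.1 ∘ (σ s.1).symm,
      Sum.elim s.2.1.2 s.2.2.2 ∘ (σ s.1).symm)))
    (by
      rintro ⟨⟨W, v⟩, ⟨⟨p1, x1⟩, ⟨p2, x2⟩⟩⟩ ⟨hW, ⟨h1, h2, h3⟩, ⟨h4, h5, h6⟩⟩
      obtain ⟨s1, s2, s3, s4⟩ := hσ (W, v) hW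
      simp only at h1 h2 h3 h4 h5 h6 hW s2 ⊢
      refine ⟨fun hv0 => hW.1.2 (hv0 ▸ hW.2), ?_, ?_, ?_⟩
      · have := glue_tr_PT (σ (W, v)) (glue_mem_PT h1 h4)
        rwa [s1] at this
      · have : (σ (W, v)).symm 0 = Sum.inl 0 := by
          rw [Equiv.symm_apply_eq, s1]
        show Sum.elim x1 x2 ((σ (W, v)).symm 0) = y
        rw [this]
        exact h2
      · have := glue_tr_PS c (σ (W, v)) (glue_P p1 p2) (Sum.inl 0) (Sum.elim x1 x2)
        rw [s1, glue_PS, h3, h6, h2] at this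
        rw [this]
        exact h (x2 0) h5)
    (by
      rintro ⟨⟨W, v⟩, ⟨⟨p1, x1⟩, ⟨p2, x2⟩⟩⟩ ⟨⟨W', v'⟩, ⟨⟨p1', x1'⟩, ⟨p2', x2'⟩⟩⟩
        ⟨hW, ⟨h1, h2, h3⟩, ⟨h4, h5, h6⟩⟩ ⟨hW', ⟨h1', h2', h3'⟩, ⟨h4', h5', h6'⟩⟩ heq
      obtain ⟨s1, s2, s3, s4⟩ := hσ (W, v) hW
      obtain ⟨s1', s2', s3', s4'⟩ := hσ (W', v') hW'
      simp only at h1 h2 h3 h4 h5 h6 hW s2 s3 s4 h1' h2' h3' h4' h5' h6' hW' s2' s3' s4'
      rw [Prod.mk.injEq, Prod.mk.injEq] at heq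
      obtain ⟨hv, hp, hx⟩ := heq
      simp only at hv hp hx
      have hchar : ∀ (W : Finset (Fin (e1 + e2 + 1 + 1)))
          (τ : Fin (e1 + 1) ⊕ Fin (e2 + 1) ≃ Fin (e1 + e2 + 1 + 1))
          (p1 : Fin (e1 + 1) → Fin (e1 + 1)) (p2 : Fin (e2 + 1) → Fin (e2 + 1)),
          p2 ∈ PT (Fin (e2 + 1)) 0 → (∀ i, τ (Sum.inl i) ∉ W) → (∀ j, τ (Sum.inr j) ∈ W) →
          ∀ w, w ∈ W ↔ ∃ k : ℕ, (τ ∘ glue_P p1 p2 ∘ τ.symm)^[k] w = τ (Sum.inr 0) := by
        intro W τ p1 p2 hp2 t3 t4 w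
        obtain ⟨b, rfl⟩ := τ.surjective w
        constructor
        · intro hw
          rcases b with i | j
          · exact absurd hw (t3 i)
          · obtain ⟨k, hk⟩ := (mem_PT.1 hp2).2 j
            obtain ⟨m, hm⟩ := glue_reach_v p1 p2 k j hk
            exact ⟨m, by rw [glue_tr_iter, hm]⟩
        · rintro ⟨k, hk⟩
          rcases b with i | j
          · exfalso
            rw [glue_tr_iter, glue_iter_inl] at hk
            exact absurd (τ.injective hk) (by simp)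
          · exact t4 j
      have hWW : W = W' := by
        ext w
        rw [hchar W (σ (W, v)) p1 p2 h4 s3 s4 w, hchar W' (σ (W', v')) p1' p2' h4' s3' s4' w, hp,
          s2, s2', hv]
      subst hWW
      subst hv
      have hP : glue_P p1 p2 = glue_P p1' p2' := by
        funext b
        have h7 := congrFun hp (σ (W, v) b)
        simp only [Function.comp, Equiv.symm_apply_apply] at h7
        exact (σ (W, v)).injective h7
      have hX : Sum.elim x1 x2 = Sum.elim x1' x2' := by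
        funext b
        have h7 := congrFun hx (σ (W, v) b)
        simp only [Function.comp, Equiv.symm_apply_apply] at h7
        exact h7
      have e1' : p1 = p1' := by
        funext i
        have h7 := congrFun hP (Sum.inl i)
        rw [glue_P_inl, glue_P_inl] at h7
        exact Sum.inl_injective h7
      have e2' : p2 = p2' := by
        funext j
        by_cases hj : j = 0
        · rw [hj, (mem_PT.1 h4).1, (mem_PT.1 h4').1]
        · have h7 := congrFun hP (Sum.inr j)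
          rw [glue_P_inr _ _ hj, glue_P_inr _ _ hj] at h7
          exact Sum.inr_injective h7
      have e3' : x1 = x1' := funext fun i => congrFun hX (Sum.inl i)
      have e4' : x2 = x2' := funext fun j => congrFun hX (Sum.inr j)
      rw [e1', e2', e3', e4'])
  rw [cnt_prod (P := fun q : Finset (Fin (e1 + e2 + 1 + 1)) × Fin (e1 + e2 + 1 + 1) =>
      (q.1.card = e2 + 1 ∧ 0 ∉ q.1) ∧ q.2 ∈ q.1)
    (Q := fun r : ((Fin (e1 + 1) → Fin (e1 + 1)) × (Fin (e1 + 1) → V)) ×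
          ((Fin (e2 + 1) → Fin (e2 + 1)) × (Fin (e2 + 1) → V)) =>
        ((r.1.1 ∈ PT (Fin (e1 + 1)) 0 ∧ r.1.2 0 = y ∧ PS c r.1.1 0 r.1.2 = g1) ∧
          (r.2.1 ∈ PT (Fin (e2 + 1)) 0 ∧ r.2.2 0 ∈ Y ∧ PS c r.2.1 0 r.2.2 = g2 (r.2.2 0)))),
    cnt_prod (P := fun q : (Fin (e1 + 1) → Fin (e1 + 1)) × (Fin (e1 + 1) → V) =>
        q.1 ∈ PT (Fin (e1 + 1)) 0 ∧ q.2 0 = y ∧ PS c q.1 0 q.2 = g1)
      (Q := fun q : (Fin (e2 + 1) → Fin (e2 + 1)) × (Fin (e2 + 1) → V) =>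
        q.1 ∈ PT (Fin (e2 + 1)) 0 ∧ q.2 0 ∈ Y ∧ PS c q.1 0 q.2 = g2 (q.2 0)),
    cnt_prod (P := fun v : Fin (e1 + e2 + 1 + 1) => v ≠ 0)
      (Q := fun q : (Fin (e1 + e2 + 1 + 1) → Fin (e1 + e2 + 1 + 1)) × (Fin (e1 + e2 + 1 + 1) → V) =>
        q.1 ∈ PT (Fin (e1 + e2 + 1 + 1)) 0 ∧ q.2 0 = y ∧ PS c q.1 0 q.2 = g),
    glue_cnt_W, glue_cnt_ne, ← RR_congr, ← RR_congr, ← glue_cnt_Y] at key
  exact key

/-- Normalised form (divide `glue_nat` by factorials and powers of `n`: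
`C(e1+e2+1, e2+1) (e2+1) e1! e2! = (e1+e2+1)!`). -/
theorem glue {V G : Type} [Fintype V] [AddCommMonoid G] (c : V → V → G) (e1 e2 : ℕ) (y : V)
    (g1 g : G) (Y : Finset V) (g2 : V → G) (h : ∀ z ∈ Y, g1 + (g2 z + c z y) = g) :
    rr c e1 y g1 * ∑ z ∈ Y, rr c e2 z (g2 z)
    ≤ ((e1 : ℝ) + e2 + 1) * (Fintype.card V : ℝ) * rr c (e1 + e2 + 1) y g := by
  have hn : (0 : ℝ) < Fintype.card V := by
    have : 0 < Fintype.card V := Fintype.card_pos_iff.2 ⟨y⟩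
    exact_mod_cast this
  have h1 := glue_nat c e1 e2 y g1 g Y g2 h
  set R1 := RR c (Fin (e1 + 1)) 0 y g1 with hR1
  set R2 := ∑ z ∈ Y, RR c (Fin (e2 + 1)) 0 z (g2 z) with hR2
  set R := RR c (Fin (e1 + e2 + 1 + 1)) 0 y g with hR
  have h2 : ∑ z ∈ Y, rr c e2 z (g2 z) =
      (R2 : ℝ) / ((e2.factorial : ℝ) * (Fintype.card V : ℝ) ^ e2) := by
    unfold rr
    rw [← sum_div, hR2]
    push_cast
    rfl
  have h3 : rr c e1 y g1 = (R1 : ℝ) / ((e1.factorial : ℝ) * (Fintype.card V : ℝ) ^ e1) := rfl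
  have h4 : rr c (e1 + e2 + 1) y g =
      (R : ℝ) / (((e1 + e2 + 1).factorial : ℝ) * (Fintype.card V : ℝ) ^ (e1 + e2 + 1)) := rfl
  rw [h2, h3, h4]
  have hfac : ((e1 + e2 + 1).factorial : ℝ) =
      ((e1 + e2 + 1).choose (e2 + 1) : ℝ) * ((e2 : ℝ) + 1) * (e2.factorial : ℝ) * (e1.factorial : ℝ) := by
    have h5 := Nat.choose_mul_factorial_mul_factorial (n := e1 + e2 + 1) (k := e2 + 1) (by omega)
    have h6 : e1 + e2 + 1 - (e2 + 1) = e1 := by omega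
    rw [h6, Nat.factorial_succ] at h5
    have h7 : (((e1 + e2 + 1).choose (e2 + 1) * ((e2 + 1) * e2.factorial) * e1.factorial : ℕ) : ℝ) =
        ((e1 + e2 + 1).factorial : ℝ) := by exact_mod_cast congrArg (fun n : ℕ => (n : ℝ)) h5
    rw [← h7]
    push_cast
    ring
  have h1' : ((e1 + e2 + 1).choose (e2 + 1) : ℝ) * ((e2 : ℝ) + 1) * ((R1 : ℝ) * (R2 : ℝ)) ≤
      ((e1 : ℝ) + e2 + 1) * (R : ℝ) := by exact_mod_cast h1
  have hC : (0 : ℝ) < ((e1 + e2 + 1).choose (e2 + 1) : ℝ) := by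
    exact_mod_cast Nat.choose_pos (by omega)
  have he2 : (0 : ℝ) < (e2 : ℝ) + 1 := by positivity
  have hf1 : (0 : ℝ) < (e1.factorial : ℝ) := by exact_mod_cast Nat.factorial_pos _
  have hf2 : (0 : ℝ) < (e2.factorial : ℝ) := by exact_mod_cast Nat.factorial_pos _
  set n : ℝ := (Fintype.card V : ℝ) with hndef
  rw [hfac, div_mul_div_comm, mul_div_assoc']
  rw [div_le_div_iff₀ (by positivity) (by positivity)]
  have h8 : (R1 : ℝ) * R2 * (((e1 + e2 + 1).choose (e2 + 1) : ℝ) * ((e2 : ℝ) + 1) *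
      (e2.factorial : ℝ) * (e1.factorial : ℝ) * n ^ (e1 + e2 + 1)) =
      (((e1 + e2 + 1).choose (e2 + 1) : ℝ) * ((e2 : ℝ) + 1) * ((R1 : ℝ) * (R2 : ℝ))) *
        ((e2.factorial : ℝ) * (e1.factorial : ℝ) * n ^ (e1 + e2 + 1)) := by ring
  have h9 : ((e1 : ℝ) + e2 + 1) * n * (R : ℝ) *
      ((e1.factorial : ℝ) * n ^ e1 * ((e2.factorial : ℝ) * n ^ e2)) =
      (((e1 : ℝ) + e2 + 1) * (R : ℝ)) *
        ((e2.factorial : ℝ) * (e1.factorial : ℝ) * n ^ (e1 + e2 + 1)) := by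
    rw [pow_succ, pow_add]
    ring
  rw [h8, h9]
  exact mul_le_mul_of_nonneg_right h1' (by positivity)

/-- The one-vertex tree. -/
theorem rr_zero {V G : Type} [Fintype V] [AddCommMonoid G] (c : V → V → G) (y : V) :
    rr c 0 y 0 = 1 := by
  classical
  have h1 : RR c (Fin (0 + 1)) 0 y 0 = 1 := by
    rw [RR_congr, cnt_eq_card, card_eq_one]
    refine ⟨(id, fun _ => y), ?_⟩
    ext ⟨p, x⟩
    rw [mem_filter, mem_singleton, Prod.mk.injEq]
    constructor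
    · rintro ⟨_, _, h2, _⟩
      refine ⟨?_, ?_⟩
      · funext i
        exact Subsingleton.elim (α := Fin 1) _ _
      · funext i
        have : i = 0 := Subsingleton.elim (α := Fin 1) _ _
        rw [this]
        exact h2
    · rintro ⟨rfl, rfl⟩
      refine ⟨mem_univ _, mem_PT.2 ⟨rfl, fun w => ⟨0, Subsingleton.elim (α := Fin 1) _ _⟩⟩, rfl, ?_⟩
      unfold PS
      apply Finset.sum_eq_zero
      intro w hw
      exact absurd (Subsingleton.elim (α := Fin 1) w 0) (Finset.ne_of_mem_erase hw)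
  unfold rr
  rw [h1]
  simp

end Pool.Agent.ZT
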