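import Pool.Agent.ZT.Glue

/-! # ZT : hubs -/

set_option autoImplicit false

open Finset

namespace Pool.Agent.ZT

/-- Standing assumptions on an integer kernel `c` (allowed pairs: `(c x y).2 = 0`): symmetric, allowed pairs
lie in `U × U` and have integers of absolute value `≤ D`, every `x ∈ U` has at least `(99/100) n` allowed
partners, `U` is not empty. -/
structure IK {V : Type} [Fintype V] (c : V → V → ℤ × ℕ) (U : Finset V) (D : ℕ) : Prop where
  symm : ∀ x y, c x y = c y x
  mem : ∀ x y, (c x y).2 = 0 → x ∈ U ∧ y ∈ U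
  bdd : ∀ x y, (c x y).2 = 0 → |(c x y).1| ≤ (D : ℤ)
  deg : ∀ x ∈ U, 99 / 100 * (Fintype.card V : ℝ) ≤ cnt (fun y : V => (c x y).2 = 0)
  ne : U.Nonempty

theorem hub_aux_zero {V : Type} [Fintype V] {c : V → V → ℤ × ℕ} {U : Finset V} {D : ℕ} (H : IK c U D)
    (e : ℕ) (he : 1 ≤ e) (s : ℤ) (z : V) (hz : z ∉ U) : rr c e z (s, 0) = 0 := by
  classical
  unfold rr
  have h0 : RR c (Fin (e + 1)) 0 z (s, 0) = 0 := by
    unfold RR
    rw [cnt_eq_card, Finset.card_eq_zero]
    rw [Finset.filter_eq_empty_iff]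
    rintro ⟨p, x⟩ _ ⟨hp, hx, hs⟩
    rw [mem_PT] at hp
    -- a child of the root
    have h1 : (⟨1, by omega⟩ : Fin (e + 1)) ≠ 0 := by
      intro h
      have := congrArg Fin.val h
      simp at this
    obtain ⟨w, hw, hpw⟩ : ∃ w : Fin (e + 1), w ≠ 0 ∧ p w = 0 := by
      have hex := hp.2 ⟨1, by omega⟩
      have hk := Nat.find_spec hex
      set k := Nat.find hex with hkdef
      have hk0 : k ≠ 0 := by
        intro hk0
        rw [hk0] at hk
        exact h1 hk
      obtain ⟨j, hj⟩ := Nat.exists_eq_succ_of_ne_zero hk0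
      refine ⟨p^[j] ⟨1, by omega⟩, ?_, ?_⟩
      · exact Nat.find_min hex (show j < Nat.find hex by omega)
      · rw [hj, Function.iterate_succ_apply'] at hk
        exact hk
    have h2 : (PS c p 0 x).2 = 0 := by
      have : PS c p 0 x = (s, 0) := hs
      rw [this]
    unfold PS at h2
    rw [Prod.snd_sum] at h2
    rw [Finset.sum_eq_zero_iff] at h2
    have h3 := h2 w (Finset.mem_erase.2 ⟨hw, Finset.mem_univ _⟩)
    rw [hpw] at h3
    have h4 := (H.mem _ _ h3).2
    have h5 : x 0 = z := hx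
    rw [h5] at h4
    exact hz h4
  rw [h0]
  simp

theorem hub_aux_bad {V : Type} [Fintype V] {c : V → V → ℤ × ℕ} {U : Finset V} {D : ℕ} (H : IK c U D)
    (z : V) (hz : z ∈ U) : (cnt (fun y : V => ¬ (c z y).2 = 0) : ℝ) ≤ 1 / 100 * Fintype.card V := by
  have h1 := cnt_add_not (fun y : V => (c z y).2 = 0)
  have h2 := H.deg z hz
  have h3 : (cnt (fun y : V => (c z y).2 = 0) : ℝ) + (cnt (fun y : V => ¬ (c z y).2 = 0) : ℝ) =
      Fintype.card V := by exact_mod_cast h1
  linarith

theorem hub_sm_nonneg {S : Type} [Fintype S] (P : S → Prop) (f : S → ℝ) (hf : ∀ s, 0 ≤ f s) :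
    0 ≤ sm P f := by
  classical
  rw [sm_eq]
  exact Finset.sum_nonneg fun s _ => hf s

theorem hub_sm_add {S : Type} [Fintype S] (P : S → Prop) (f : S → ℝ) :
    sm P f + sm (fun s => ¬ P s) f = ∑ s, f s := by
  classical
  rw [sm_eq, sm_eq]
  exact Finset.sum_filter_add_sum_filter_not _ _ _

/-- Most vertices are good hubs for blocks with `e ≥ 1` edges and integer sum `s`.

PROOF.  `rr c e z (s,0) = 0` for `z ∉ U` (the root has an edge, which must be allowed).  Exchange the sums: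
`∑_{y ∈ U} ∑_{z : (c z y).2 ≠ 0} rr c e z (s,0) = ∑_{z ∈ U} rr c e z (s,0) #{y ∈ U | (c z y).2 ≠ 0}` and
`#{y ∈ U | (c z y).2 ≠ 0} ≤ n/100`.  A bad `y` (as in the statement) contributes at least half of
`∑_z rr c e z (s,0)` (Markov's inequality; if this sum is `0` there is no bad `y`). -/
theorem hub_good {V : Type} [Fintype V] {c : V → V → ℤ × ℕ} {U : Finset V} {D : ℕ} (H : IK c U D)
    (e : ℕ) (he : 1 ≤ e) (s : ℤ) :
    (cnt (fun y : V => y ∈ U ∧ sm (fun z => (c z y).2 = 0) (fun z => rr c e z (s, 0))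
      < 1 / 2 * ∑ z, rr c e z (s, 0)) : ℝ) ≤ 1 / 50 * (Fintype.card V : ℝ) := by
  classical
  set T : ℝ := ∑ z, rr c e z (s, 0) with hT
  have hT0 : 0 ≤ T := Finset.sum_nonneg fun z _ => rr_nonneg c e z (s, 0)
  set B : Finset V := univ.filter (fun y : V => y ∈ U ∧
    sm (fun z => (c z y).2 = 0) (fun z => rr c e z (s, 0)) < 1 / 2 * T) with hB
  rw [cnt_eq_card]
  change ((B.card : ℕ) : ℝ) ≤ _
  rcases hT0.eq_or_lt with h0 | hpos
  · -- no bad vertices
    have : B = ∅ := by
      rw [hB, Finset.filter_eq_empty_iff]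
      rintro y _ ⟨_, hy⟩
      rw [← h0, mul_zero] at hy
      exact absurd (hub_sm_nonneg _ _ fun z => rr_nonneg c e z (s, 0)) (not_le.2 hy)
    rw [this]
    simp
  · -- double counting
    have h1 : (B.card : ℝ) * (1 / 2 * T) ≤
        ∑ y ∈ B, sm (fun z => ¬ (c z y).2 = 0) (fun z => rr c e z (s, 0)) := by
      rw [← nsmul_eq_mul, ← Finset.sum_const]
      refine Finset.sum_le_sum fun y hy => ?_
      have hy' := (Finset.mem_filter.1 hy).2.2
      have := hub_sm_add (fun z => (c z y).2 = 0) (fun z => rr c e z (s, 0))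
      linarith
    have h2 : ∑ y ∈ B, sm (fun z => ¬ (c z y).2 = 0) (fun z => rr c e z (s, 0)) ≤
        ∑ y, sm (fun z => ¬ (c z y).2 = 0) (fun z => rr c e z (s, 0)) :=
      Finset.sum_le_sum_of_subset_of_nonneg (Finset.subset_univ _)
        fun y _ _ => hub_sm_nonneg _ _ fun z => rr_nonneg c e z (s, 0)
    have h3 : ∑ y, sm (fun z => ¬ (c z y).2 = 0) (fun z => rr c e z (s, 0)) =
        ∑ z, rr c e z (s, 0) * cnt (fun y : V => ¬ (c z y).2 = 0) := by
      simp only [sm_eq, Finset.sum_filter, cnt_eq_sum]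
      rw [Finset.sum_comm]
      refine Finset.sum_congr rfl fun z _ => ?_
      rw [Finset.mul_sum]
      refine Finset.sum_congr rfl fun y _ => ?_
      split_ifs <;> simp
    have h4 : ∑ z, rr c e z (s, 0) * cnt (fun y : V => ¬ (c z y).2 = 0) ≤
        ∑ z, rr c e z (s, 0) * (1 / 100 * Fintype.card V) := by
      refine Finset.sum_le_sum fun z _ => ?_
      by_cases hz : z ∈ U
      · exact mul_le_mul_of_nonneg_left (hub_aux_bad H z hz) (rr_nonneg c e z (s, 0))
      · rw [hub_aux_zero H e he s z hz]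
        simp
    rw [← Finset.sum_mul] at h4
    have h5 : (B.card : ℝ) * (1 / 2 * T) ≤ T * (1 / 100 * Fintype.card V) := by
      calc _ ≤ _ := h1
        _ ≤ _ := h2
        _ = _ := h3
        _ ≤ _ := h4
    have h6 : T * ((B.card : ℝ) * (1 / 2)) ≤ T * (1 / 100 * Fintype.card V) := by
      calc T * ((B.card : ℝ) * (1 / 2)) = (B.card : ℝ) * (1 / 2 * T) := by ring
        _ ≤ _ := h5
    have h7 := le_of_mul_le_mul_left h6 hpos
    linarith

/-- For two block values there is a common good hub (at least `n/2` of them). -/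
theorem hub_two {V : Type} [Fintype V] {c : V → V → ℤ × ℕ} {U : Finset V} {D : ℕ} (H : IK c U D)
    (e : ℕ) (he : 1 ≤ e) (s1 s2 : ℤ) :
    1 / 2 * (Fintype.card V : ℝ) ≤ (cnt (fun y : V => y ∈ U ∧
      1 / 2 * ∑ z, rr c e z (s1, 0) ≤ sm (fun z => (c z y).2 = 0) (fun z => rr c e z (s1, 0)) ∧
      1 / 2 * ∑ z, rr c e z (s2, 0) ≤ sm (fun z => (c z y).2 = 0) (fun z => rr c e z (s2, 0))) : ℝ) := by
  classical
  obtain ⟨x, hx⟩ := H.ne
  have h1 := H.deg x hx
  have h2 : cnt (fun y : V => (c x y).2 = 0) ≤ cnt (fun y : V => y ∈ U) :=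
    cnt_mono fun y hy => (H.mem x y hy).2
  have h3 := hub_good H e he s1
  have h4 := hub_good H e he s2
  have h5 : cnt (fun y : V => y ∈ U) ≤ cnt (fun y : V => y ∈ U ∧
      1 / 2 * ∑ z, rr c e z (s1, 0) ≤ sm (fun z => (c z y).2 = 0) (fun z => rr c e z (s1, 0)) ∧
      1 / 2 * ∑ z, rr c e z (s2, 0) ≤ sm (fun z => (c z y).2 = 0) (fun z => rr c e z (s2, 0))) +
      cnt (fun y : V => y ∈ U ∧ sm (fun z => (c z y).2 = 0) (fun z => rr c e z (s1, 0))
        < 1 / 2 * ∑ z, rr c e z (s1, 0)) +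
      cnt (fun y : V => y ∈ U ∧ sm (fun z => (c z y).2 = 0) (fun z => rr c e z (s2, 0))
        < 1 / 2 * ∑ z, rr c e z (s2, 0)) := by
    simp only [cnt_eq_card]
    refine le_trans (Finset.card_le_card ?_) (le_trans (Finset.card_union_le _ _)
      (Nat.add_le_add_right (Finset.card_union_le _ _) _))
    intro y hy
    rw [Finset.mem_filter] at hy
    simp only [Finset.mem_union, Finset.mem_filter, Finset.mem_univ, true_and]
    rcases lt_or_ge (sm (fun z => (c z y).2 = 0) (fun z => rr c e z (s1, 0)))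
      (1 / 2 * ∑ z, rr c e z (s1, 0)) with h | h
    · exact Or.inl (Or.inr ⟨hy.2, h⟩)
    · rcases lt_or_ge (sm (fun z => (c z y).2 = 0) (fun z => rr c e z (s2, 0)))
        (1 / 2 * ∑ z, rr c e z (s2, 0)) with h' | h'
      · exact Or.inr ⟨hy.2, h'⟩
      · exact Or.inl (Or.inl ⟨hy.2, h, h'⟩)
  have h6 := Nat.cast_le (α := ℝ).2 h5
  have h7 := Nat.cast_le (α := ℝ).2 h2
  push_cast at h6
  have h8 : (0 : ℝ) ≤ Fintype.card V := Nat.cast_nonneg _
  linarith

/-- Pigeonhole for the integer of the edge which joins the hub to a block (`2 D + 1` possible values). -/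
theorem pigeon_block {V : Type} [Fintype V] {c : V → V → ℤ × ℕ} {U : Finset V} {D : ℕ} (H : IK c U D)
    (y : V) (f : V → ℝ) (hf : ∀ z, 0 ≤ f z) :
    ∃ i : ℤ, |i| ≤ (D : ℤ) ∧
      sm (fun z => (c z y).2 = 0) f ≤ (2 * D + 1) * sm (fun z => c z y = (i, 0)) f := by
  classical
  have hsum : sm (fun z => (c z y).2 = 0) f =
      ∑ i ∈ Finset.Icc (-(D : ℤ)) D, sm (fun z => c z y = (i, 0)) f := by
    simp only [sm_eq]
    have hmaps : ∀ z ∈ univ.filter (fun z => (c z y).2 = 0),
        (c z y).1 ∈ Finset.Icc (-(D : ℤ)) D := by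
      intro z hz
      have := H.bdd z y (Finset.mem_filter.1 hz).2
      rw [abs_le] at this
      exact Finset.mem_Icc.2 this
    rw [← Finset.sum_fiberwise_of_maps_to hmaps]
    refine Finset.sum_congr rfl fun i _ => Finset.sum_congr ?_ fun _ _ => rfl
    ext z
    simp only [Finset.mem_filter, Finset.mem_univ, true_and, Prod.ext_iff]
    tauto
  have hcard : (Finset.Icc (-(D : ℤ)) D).card = 2 * D + 1 := by
    rw [Int.card_Icc]
    omega
  have hne : (Finset.Icc (-(D : ℤ)) D).Nonempty := ⟨0, Finset.mem_Icc.2 ⟨by omega, by omega⟩⟩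
  obtain ⟨i, hi, hmax⟩ := Finset.exists_max_image (Finset.Icc (-(D : ℤ)) D)
    (fun i => sm (fun z => c z y = (i, 0)) f) hne
  refine ⟨i, ?_, ?_⟩
  · rw [Finset.mem_Icc] at hi
    rw [abs_le]
    exact hi
  · rw [hsum]
    calc ∑ j ∈ Finset.Icc (-(D : ℤ)) D, sm (fun z => c z y = (j, 0)) f
        ≤ ∑ _j ∈ Finset.Icc (-(D : ℤ)) D, sm (fun z => c z y = (i, 0)) f :=
          Finset.sum_le_sum hmax
      _ = (2 * D + 1) * sm (fun z => c z y = (i, 0)) f := by
          rw [Finset.sum_const, hcard, nsmul_eq_mul]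
          push_cast
          ring

/-- Gluing `M` blocks (each with `e` edges, sum `s`, joined to the hub `y` by an edge with integer `i`).

PROOF.  Induction on `M` with `glue` (`Y = {z | c z y = (i,0)}`, `g2 z = (s,0)`); each step costs the factor
`e0 + (number of edges so far) + e + 1 ≤ m`. -/
theorem blocks_glue {V : Type} [Fintype V] (c : V → V → ℤ × ℕ) (y : V) (e e0 M m : ℕ) (g s i : ℤ)
    (β : ℝ) (hβ0 : 0 ≤ β)
    (hβ : β * (Fintype.card V : ℝ) ≤ sm (fun z => c z y = (i, 0)) (fun z => rr c e z (s, 0)))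
    (hm : e0 + M * (e + 1) ≤ m) :
    rr c e0 y (g, 0) * (β / m) ^ M ≤ rr c (e0 + M * (e + 1)) y (g + M * (s + i), 0) := by
  classical
  induction M with
  | zero => simp
  | succ M ih =>
    have hm' : e0 + M * (e + 1) ≤ m := by nlinarith
    have ih' := ih hm'
    have hn : (0 : ℝ) < Fintype.card V := by
      have : 0 < Fintype.card V := Fintype.card_pos_iff.2 ⟨y⟩
      exact_mod_cast this
    have hg := glue c (e0 + M * (e + 1)) e y (g + M * (s + i), 0) (g + (M + 1) * (s + i), 0)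
      (univ.filter fun z => c z y = (i, 0)) (fun _ => (s, 0)) (by
        intro z hz
        rw [(Finset.mem_filter.1 hz).2]
        refine Prod.ext ?_ ?_
        · simp only [Prod.fst_add]
          ring
        · simp)
    have hm1 : e0 + M * (e + 1) + e + 1 ≤ m := by nlinarith
    have hmpos : (0 : ℝ) < m := by
      have : 0 < m := by omega
      exact_mod_cast this
    rw [sm_eq] at hβ
    set A := rr c (e0 + M * (e + 1)) y (g + M * (s + i), 0) with hA
    have hA0 : 0 ≤ A := rr_nonneg _ _ _ _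
    have hidx : e0 + M * (e + 1) + e + 1 = e0 + (M + 1) * (e + 1) := by ring
    have hB0 : 0 ≤ rr c (e0 + M * (e + 1) + e + 1) y (g + (M + 1) * (s + i), 0) :=
      rr_nonneg _ _ _ _
    have h1 : A * (β * Fintype.card V) ≤
        m * Fintype.card V * rr c (e0 + M * (e + 1) + e + 1) y (g + (M + 1) * (s + i), 0) := by
      calc A * (β * Fintype.card V) ≤ A * ∑ z ∈ univ.filter (fun z => c z y = (i, 0)),
            rr c e z (s, 0) := mul_le_mul_of_nonneg_left hβ hA0
        _ ≤ _ := hg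
        _ ≤ _ := by
            have h2 : (((e0 + M * (e + 1) : ℕ) : ℝ) + e + 1) ≤ m := by exact_mod_cast hm1
            gcongr
    have h3 : A * β ≤ m * rr c (e0 + M * (e + 1) + e + 1) y (g + (M + 1) * (s + i), 0) := by
      have h4 : Fintype.card V * (A * β) ≤
          Fintype.card V * (m * rr c (e0 + M * (e + 1) + e + 1) y
            (g + (M + 1) * (s + i), 0)) := by
        calc (Fintype.card V : ℝ) * (A * β) = A * (β * Fintype.card V) := by ring
          _ ≤ _ := h1
          _ = _ := by ring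
      exact le_of_mul_le_mul_left h4 hn
    have h5 : A * (β / m) ≤ rr c (e0 + M * (e + 1) + e + 1) y (g + (M + 1) * (s + i), 0) := by
      rw [← mul_div_assoc, div_le_iff₀ hmpos]
      linarith
    calc rr c e0 y (g, 0) * (β / m) ^ (M + 1)
        = (rr c e0 y (g, 0) * (β / m) ^ M) * (β / m) := by ring
      _ ≤ A * (β / m) := mul_le_mul_of_nonneg_right ih' (by positivity)
      _ ≤ _ := h5
      _ = rr c (e0 + (M + 1) * (e + 1)) y (g + ((M + 1 : ℕ) : ℤ) * (s + i), 0) := by
          rw [hidx]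
          push_cast
          rfl

end Pool.Agent.ZT
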