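import Pool.Agent.ZT.Defs

/-! # ZT : the best integer level -/

set_option autoImplicit false

open Finset

namespace Pool.Agent.ZT

theorem level_aux {ι : Type} [Fintype ι] (l : ι → ℝ) (hl : ∀ i, 0 ≤ l i) (a : ι → ℤ) (t : ℤ) (X : ℝ)
    (h1 : ∑ i, l i * ((a i : ℝ) - t) ≤ 0) (h2 : -(∑ i, l i) ≤ ∑ i, l i * ((a i : ℝ) - t))
    (h3 : X ≤ ∑ i, l i * ((if t ≤ a i then (1 : ℝ) else 0) + (if t < a i then (1 : ℝ) / 4 else 0)))
    (θ : ℝ) : min (3 / 4 * ∑ i, l i) X ≤ ∑ i, l i * Real.exp (θ * ((a i : ℝ) - t)) := by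
  have hL : 0 ≤ ∑ i, l i := Finset.sum_nonneg fun i _ => hl i
  by_cases hθ : θ ≤ 1 / 4
  · refine (min_le_left _ _).trans ?_
    have h4 : ∑ i, l i + θ * ∑ i, l i * ((a i : ℝ) - t) ≤
        ∑ i, l i * Real.exp (θ * ((a i : ℝ) - t)) := by
      rw [mul_sum, ← sum_add_distrib]
      refine sum_le_sum fun i _ => ?_
      have h5 := Real.add_one_le_exp (θ * ((a i : ℝ) - t))
      have h6 := mul_le_mul_of_nonneg_left h5 (hl i)
      linarith
    refine le_trans ?_ h4
    by_cases h0 : θ ≤ 0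
    · have := mul_nonneg_of_nonpos_of_nonpos h0 h1
      linarith
    · push Not at h0
      have h7 : θ * (-(∑ i, l i)) ≤ θ * ∑ i, l i * ((a i : ℝ) - t) :=
        mul_le_mul_of_nonneg_left h2 h0.le
      have h8 : θ * (∑ i, l i) ≤ 1 / 4 * (∑ i, l i) := mul_le_mul_of_nonneg_right hθ hL
      linarith
  · push Not at hθ
    refine (min_le_right _ _).trans (h3.trans (sum_le_sum fun i _ => ?_))
    refine mul_le_mul_of_nonneg_left ?_ (hl i)
    rcases lt_trichotomy (a i) t with h | h | h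
    · rw [if_neg (by omega), if_neg (by omega), add_zero]
      exact (Real.exp_pos _).le
    · rw [if_pos h.ge, if_neg (by omega), add_zero, h, sub_self, mul_zero, Real.exp_zero]
    · rw [if_pos h.le, if_pos h]
      have h5 := Real.add_one_le_exp (θ * ((a i : ℝ) - t))
      have h6 : (1 : ℝ) ≤ (a i : ℝ) - t := by
        have : (t : ℝ) + 1 ≤ a i := by exact_mod_cast h
        linarith
      have h7 : θ * 1 ≤ θ * ((a i : ℝ) - t) := mul_le_mul_of_nonneg_left h6 (by linarith)
      linarith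

/-- The level inequality: an integer valued `a` (with weights `l`, total `L`) such that no two adjacent
integers `k, k+1` carry more than `(1 - δ) L` has an integer level `t` at which all exponential moments are
at least `min (3/4) (1/2 + δ/8) L`.

PROOF.  Divide by `L`.  Let `m = E a`, `t₋ = ⌊m⌋`, `t₊ = t₋ + 1`.  For `B = a - t₊`: `-1 ≤ E B ≤ 0`, so
`E e^{θB} ≥ 1 + θ E B ≥ 1` for `θ ≤ 0` and `≥ 1 - θ ≥ 3/4` for `0 ≤ θ ≤ 1/4`; for `θ ≥ 1/4`
`E e^{θB} ≥ P(B ≥ 0) + (e^{1/4} - 1) P(B ≥ 1) ≥ P(a ≥ t₊) + P(a > t₊)/4`.  For `B = a - t₋`: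
`0 ≤ E B ≤ 1`, so `E e^{θB} ≥ 1` for `θ ≥ 0`, `≥ 3/4` for `-1/4 ≤ θ ≤ 0` and
`≥ P(a ≤ t₋) + P(a < t₋)/4` for `θ ≤ -1/4`.  Since
`P(a ≥ t₊) + P(a ≤ t₋) = 1` and `P(a > t₊) + P(a < t₋) ≥ δ` (hypothesis with `k = t₋`), one of the two
lower bounds is `≥ 1/2 + δ/8`. -/
theorem level {ι : Type} [Fintype ι] (l : ι → ℝ) (hl : ∀ i, 0 ≤ l i) (a : ι → ℤ) (L δ : ℝ)
    (hL : ∑ i, l i = L) (hLpos : 0 < L) (hδ : 0 ≤ δ)
    (h3 : ∀ k : ℤ, δ * L ≤ sm (fun i => a i ≠ k ∧ a i ≠ k + 1) l) :
    ∃ t : ℤ, ∀ θ : ℝ, min (3 / 4) (1 / 2 + δ / 8) * L ≤ ∑ i, l i * Real.exp (θ * ((a i : ℝ) - t)) := by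
  classical
  obtain ⟨m, hm⟩ : ∃ m : ℝ, ∑ i, l i * (a i : ℝ) = m * L :=
    ⟨(∑ i, l i * (a i : ℝ)) / L, by field_simp⟩
  have hsum : ∀ t : ℤ, ∑ i, l i * ((a i : ℝ) - t) = (m - t) * L := by
    intro t
    have : ∑ i, l i * ((a i : ℝ) - t) = ∑ i, l i * (a i : ℝ) - t * ∑ i, l i := by
      rw [mul_sum, ← sum_sub_distrib]
      exact sum_congr rfl fun i _ => by ring
    rw [this, hm, hL]
    ring
  have hf1 := Int.floor_le m
  have hf2 := Int.lt_floor_add_one m
  set k : ℤ := ⌊m⌋ with hk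
  have hmin : ∀ x : ℝ, min (3 / 4) x * L = min (3 / 4 * L) (x * L) := fun x =>
    min_mul_of_nonneg _ _ hLpos.le
  set A : ℝ := ∑ i, l i * ((if k + 1 ≤ a i then (1 : ℝ) else 0) +
    (if k + 1 < a i then (1 : ℝ) / 4 else 0)) with hA
  set B : ℝ := ∑ i, l i * ((if a i ≤ k then (1 : ℝ) else 0) +
    (if a i < k then (1 : ℝ) / 4 else 0)) with hB
  have hAB : L + δ / 4 * L ≤ A + B := by
    have h5 := h3 k
    rw [sm_eq, sum_filter] at h5
    have h6 : A + B = L + 1 / 4 * ∑ i, (if a i ≠ k ∧ a i ≠ k + 1 then l i else 0) := by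
      rw [hA, hB, ← sum_add_distrib, mul_sum, ← hL, ← sum_add_distrib]
      refine sum_congr rfl fun i _ => ?_
      rcases lt_trichotomy (a i) k with h | h | h
      · rw [if_neg (by omega), if_neg (by omega), if_pos h.le, if_pos h,
          if_pos ⟨by omega, by omega⟩]
        ring
      · rw [if_neg (by omega), if_neg (by omega), if_pos h.le, if_neg (by omega),
          if_neg (by omega)]
        ring
      · rcases eq_or_lt_of_le (show k + 1 ≤ a i by omega) with h' | h'
        · rw [if_pos (by omega), if_neg (by omega), if_neg (by omega), if_neg (by omega),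
            if_neg (by omega)]
          ring
        · rw [if_pos (by omega), if_pos h', if_neg (by omega), if_neg (by omega),
            if_pos ⟨by omega, by omega⟩]
          ring
    linarith
  by_cases hc : (1 / 2 + δ / 8) * L ≤ A
  · refine ⟨k + 1, fun θ => ?_⟩
    rw [hmin]
    have h7 := level_aux l hl a (k + 1) ((1 / 2 + δ / 8) * L) (by
      rw [hsum]
      refine mul_nonpos_of_nonpos_of_nonneg ?_ hLpos.le
      push_cast
      linarith) (by
      rw [hsum, hL]
      push_cast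
      nlinarith) hc θ
    rw [hL] at h7
    exact h7
  · push Not at hc
    refine ⟨k, fun θ => ?_⟩
    rw [hmin]
    have h7 := level_aux l hl (fun i => -a i) (-k) ((1 / 2 + δ / 8) * L) (by
      have h8 : ∑ i, l i * (((-a i : ℤ) : ℝ) - ((-k : ℤ) : ℝ)) = -∑ i, l i * ((a i : ℝ) - k) := by
        rw [← sum_neg_distrib]
        exact sum_congr rfl fun i _ => by push_cast; ring
      rw [h8, hsum]
      have : 0 ≤ (m - k) * L := mul_nonneg (by linarith) hLpos.le
      linarith) (by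
      have h8 : ∑ i, l i * (((-a i : ℤ) : ℝ) - ((-k : ℤ) : ℝ)) = -∑ i, l i * ((a i : ℝ) - k) := by
        rw [← sum_neg_distrib]
        exact sum_congr rfl fun i _ => by push_cast; ring
      rw [h8, hsum, hL]
      nlinarith) (by
      have h9 : B = ∑ i, l i * ((if -k ≤ -a i then (1 : ℝ) else 0) +
          (if -k < -a i then (1 : ℝ) / 4 else 0)) := by
        rw [hB]
        refine sum_congr rfl fun i _ => ?_
        simp only [neg_le_neg_iff, neg_lt_neg_iff]
      rw [← h9]
      linarith) (-θ)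
    rw [hL] at h7
    refine h7.trans (le_of_eq (sum_congr rfl fun i _ => ?_))
    congr 2
    push_cast
    ring

theorem interior_aux {ι : Type} [Fintype ι] (l : ι → ℝ) (hl : ∀ i, 0 ≤ l i) (a : ι → ℤ)
    (ha : Function.Injective a) (t : ℤ) (h : ℝ) (hpos : 0 < h)
    (hh : ∀ θ : ℝ, h ≤ ∑ i, l i * Real.exp (θ * ((a i : ℝ) - t))) (hm : ∀ i, l i < h) :
    ∃ i, 0 < l i ∧ t < a i := by
  classical
  by_contra hcon
  push Not at hcon
  set M : ℝ := ∑ i, (if a i = t then l i else 0) with hM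
  have hMh : M < h := by
    by_cases h0 : ∃ i0, a i0 = t
    · obtain ⟨i0, hi0⟩ := h0
      have : M = l i0 := by
        rw [hM, sum_eq_single i0]
        · rw [if_pos hi0]
        · intro j _ hj
          rw [if_neg]
          intro h1
          exact hj (ha (h1.trans hi0.symm))
        · intro h1
          exact absurd (mem_univ _) h1
      rw [this]
      exact hm i0
    · push Not at h0
      have : M = 0 := by
        rw [hM]
        exact sum_eq_zero fun i _ => if_neg (h0 i)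
      rw [this]
      exact hpos
  set L : ℝ := ∑ i, l i with hLd
  have hL : 0 ≤ L := sum_nonneg fun i _ => hl i
  have hd : 0 < h - M := by linarith
  set θ : ℝ := L / (h - M) with hθ
  have hθ0 : 0 ≤ θ := div_nonneg hL hd.le
  have h1 : ∑ i, l i * Real.exp (θ * ((a i : ℝ) - t)) ≤ M + L * Real.exp (-θ) := by
    rw [hM, hLd, sum_mul, ← sum_add_distrib]
    refine sum_le_sum fun i _ => ?_
    rcases lt_trichotomy (a i) t with h2 | h2 | h2
    · rw [if_neg h2.ne, zero_add]
      refine mul_le_mul_of_nonneg_left (Real.exp_le_exp.2 ?_) (hl i)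
      have h3 : (a i : ℝ) + 1 ≤ t := by exact_mod_cast h2
      nlinarith
    · rw [if_pos h2, h2, sub_self, mul_zero, Real.exp_zero, mul_one]
      have := mul_nonneg (hl i) (Real.exp_pos (-θ)).le
      linarith
    · have h3 : l i = 0 := by
        by_contra h4
        have := hcon i (lt_of_le_of_ne (hl i) (Ne.symm h4))
        omega
      simp [h3]
  have h2 := (hh θ).trans h1
  have h3 : Real.exp (-θ) * (1 + θ) ≤ 1 := by
    have h4 := Real.add_one_le_exp θ
    have h5 : Real.exp (-θ) * Real.exp θ = 1 := by rw [← Real.exp_add]; simp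
    have h6 := mul_le_mul_of_nonneg_left h4 (Real.exp_pos (-θ)).le
    linarith
  have h4 : θ * (h - M) = L := by rw [hθ]; field_simp
  have h5 : 0 < Real.exp (-θ) := Real.exp_pos _
  -- `h - M ≤ L e^{-θ} = θ (h - M) e^{-θ}`
  have h6 : h - M ≤ (h - M) * (θ * Real.exp (-θ)) := by
    have : L * Real.exp (-θ) = (h - M) * (θ * Real.exp (-θ)) := by
      rw [← h4]
      ring
    linarith
  have h7 : θ * Real.exp (-θ) < 1 := by nlinarith
  nlinarith

/-- The level is strictly inside the range of `a` unless one point has large mass.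

PROOF.  If no `i` with `l i > 0` has `a i > t`, the sum tends, for `θ → ∞`, to the sum of the `l i` with
`a i = t`, which has at most one term, hence is `< h` (it is `0 < h` if there is no such `i`): a contradiction
(explicitly: `e^{θ (a i - t)} ≤ e^{-θ}` for the other `i`, take `θ` large).  Same for `θ → -∞`. -/
theorem interior {ι : Type} [Fintype ι] (l : ι → ℝ) (hl : ∀ i, 0 ≤ l i) (a : ι → ℤ)
    (ha : Function.Injective a) (t : ℤ) (h : ℝ) (hpos : 0 < h)
    (hh : ∀ θ : ℝ, h ≤ ∑ i, l i * Real.exp (θ * ((a i : ℝ) - t))) (hm : ∀ i, l i < h) :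
    (∃ i, 0 < l i ∧ t < a i) ∧ (∃ i, 0 < l i ∧ a i < t) := by
  refine ⟨interior_aux l hl a ha t h hpos hh hm, ?_⟩
  obtain ⟨i, h1, h2⟩ := interior_aux l hl (fun i => -a i) (fun i j hij => ha (neg_injective hij)) (-t) h
    hpos (fun θ => by
      refine (hh (-θ)).trans (le_of_eq (sum_congr rfl fun i _ => ?_))
      congr 2
      push_cast
      ring) hm
  exact ⟨i, h1, neg_lt_neg_iff.1 h2⟩

end Pool.Agent.ZT
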