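import Pool.Agent.ZT.NDefs

/-! # [ZN-01] marginals of the Markov measure -/

set_option autoImplicit false

open Finset

namespace Pool.Agent.ZT

theorem n01_avg {A V : Type} [Fintype A] [DecidableEq A] [Fintype V] (F : (A → V) → ℝ) (w : A) :
    ∑ x : A → V, ∑ z, F (Function.update x w z) = (Fintype.card V : ℝ) * ∑ x, F x := by
  have hinv : Function.Involutive
      (fun q : (A → V) × V => ((Function.update q.1 w q.2, q.1 w) : (A → V) × V)) := by
    rintro ⟨x, z⟩
    simp
  have h := Equiv.sum_comp hinv.toPerm (fun q : (A → V) × V => F q.1)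
  rw [Fintype.sum_prod_type, Fintype.sum_prod_type] at h
  have h2 : ∑ x : A → V, ∑ _z : V, F x = (Fintype.card V : ℝ) * ∑ x, F x := by
    rw [mul_sum]
    refine sum_congr rfl fun x _ => ?_
    rw [sum_const, nsmul_eq_mul, card_univ]
  rw [← h2, ← h]
  rfl

/-- the partial Markov measure: the labels outside `S` are uniform -/
noncomputable def n01_R {A V : Type} [Fintype A] [DecidableEq A] [Fintype V] (K : V → V → ℝ)
    (p : A → A) (v : A) (S : Finset A) (x : A → V) : ℝ :=
  dgr K (x v) / ((Fintype.card V : ℝ) * lam K) *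
    ∏ w ∈ univ.erase v, (if w ∈ S then K (x (p w)) (x w) / ((Fintype.card V : ℝ) * dgr K (x (p w)))
      else (Fintype.card V : ℝ)⁻¹)

theorem n01_R_univ {A V : Type} [Fintype A] [DecidableEq A] [Fintype V] (K : V → V → ℝ)
    (p : A → A) (v : A) (x : A → V) : n01_R K p v univ x = mkp K p v x := by
  unfold n01_R mkp
  congr 1
  exact prod_congr rfl fun w _ => if_pos (mem_univ w)

theorem n01_base {A V : Type} [Fintype A] [DecidableEq A] [Fintype V] (K : V → V → ℝ)
    (hN : (Fintype.card V : ℝ) ≠ 0) (p : A → A) (v : A) (ψ : V → ℝ) :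
    ∑ x : A → V, n01_R K p v {v} x * ψ (x v) =
      ∑ z, dgr K z / ((Fintype.card V : ℝ) * lam K) * ψ z := by
  calc ∑ x : A → V, n01_R K p v {v} x * ψ (x v)
      = ∑ x : A → V, ∏ a, (if a = v then dgr K (x a) / ((Fintype.card V : ℝ) * lam K) * ψ (x a)
          else (Fintype.card V : ℝ)⁻¹) := by
        refine sum_congr rfl fun x _ => ?_
        rw [← mul_prod_erase univ _ (mem_univ v), if_pos rfl]
        unfold n01_R
        have h1 : ∏ w ∈ univ.erase v, (if w ∈ ({v} : Finset A) then
            K (x (p w)) (x w) / ((Fintype.card V : ℝ) * dgr K (x (p w)))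
              else (Fintype.card V : ℝ)⁻¹) =
            ∏ a ∈ univ.erase v, (if a = v then
              dgr K (x a) / ((Fintype.card V : ℝ) * lam K) * ψ (x a)
                else (Fintype.card V : ℝ)⁻¹) := by
          refine prod_congr rfl fun w hw => ?_
          have hwv : w ≠ v := ne_of_mem_erase hw
          rw [if_neg (by rwa [mem_singleton]), if_neg hwv]
        rw [h1]
        ring
    _ = ∏ a : A, ∑ z : V, (if a = v then dgr K z / ((Fintype.card V : ℝ) * lam K) * ψ z
          else (Fintype.card V : ℝ)⁻¹) := by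
        have h := Finset.prod_univ_sum (fun _ : A => (univ : Finset V))
          (fun a z => if a = v then dgr K z / ((Fintype.card V : ℝ) * lam K) * ψ z
            else (Fintype.card V : ℝ)⁻¹)
        rw [h, Fintype.piFinset_univ]
    _ = _ := by
        rw [← mul_prod_erase univ _ (mem_univ v)]
        have h1 : ∏ a ∈ univ.erase v, ∑ z : V,
            (if a = v then dgr K z / ((Fintype.card V : ℝ) * lam K) * ψ z
              else (Fintype.card V : ℝ)⁻¹) = 1 := by
          refine prod_eq_one fun a ha => ?_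
          have hav : a ≠ v := ne_of_mem_erase ha
          simp only [if_neg hav]
          rw [sum_const, card_univ, nsmul_eq_mul, mul_inv_cancel₀ hN]
        rw [h1, mul_one]
        refine sum_congr rfl fun z _ => ?_
        rw [if_pos rfl]

theorem n01_R_insert {A V : Type} [Fintype A] [DecidableEq A] [Fintype V] (K : V → V → ℝ)
    (p : A → A) (v : A) (S : Finset A) (w : A) (hw : w ∉ S) (hwv : w ≠ v) (x : A → V) :
    n01_R K p v (insert w S) x =
      n01_R K p v S x * (K (x (p w)) (x w) / dgr K (x (p w))) := by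
  unfold n01_R
  have hwm : w ∈ univ.erase v := mem_erase.2 ⟨hwv, mem_univ w⟩
  rw [← mul_prod_erase (univ.erase v) _ hwm, ← mul_prod_erase (univ.erase v) _ hwm,
    if_pos (mem_insert_self w S), if_neg hw]
  have h1 : ∏ u ∈ (univ.erase v).erase w, (if u ∈ insert w S then
      K (x (p u)) (x u) / ((Fintype.card V : ℝ) * dgr K (x (p u))) else (Fintype.card V : ℝ)⁻¹) =
      ∏ u ∈ (univ.erase v).erase w, (if u ∈ S then
        K (x (p u)) (x u) / ((Fintype.card V : ℝ) * dgr K (x (p u)))
          else (Fintype.card V : ℝ)⁻¹) := by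
    refine prod_congr rfl fun u hu => ?_
    have huw : u ≠ w := ne_of_mem_erase hu
    by_cases hS : u ∈ S
    · rw [if_pos (mem_insert_of_mem hS), if_pos hS]
    · rw [if_neg (fun h => (mem_insert.1 h).elim huw hS), if_neg hS]
  rw [h1]
  ring

theorem n01_R_update {A V : Type} [Fintype A] [DecidableEq A] [Fintype V] (K : V → V → ℝ)
    (p : A → A) (v : A) (S : Finset A) (hv : v ∈ S) (hc : ∀ u ∈ S, p u ∈ S) (w : A) (hw : w ∉ S)
    (x : A → V) (z : V) :
    n01_R K p v S (Function.update x w z) = n01_R K p v S x := by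
  have hne : ∀ u ∈ S, Function.update x w z u = x u := by
    intro u hu
    exact Function.update_of_ne (fun h : u = w => hw (h ▸ hu)) _ _
  unfold n01_R
  rw [hne v hv]
  congr 1
  refine prod_congr rfl fun u _ => ?_
  by_cases hS : u ∈ S
  · rw [if_pos hS, if_pos hS, hne u hS, hne (p u) (hc u hS)]
  · rw [if_neg hS, if_neg hS]

theorem n01_dgr_ne {V : Type} [Fintype V] {K : V → V → ℝ}
    (hK : ∀ x y, 0 ≤ K x y) {y z : V} (h : K y z ≠ 0) : dgr K y ≠ 0 := by
  have hN : (0 : ℝ) < Fintype.card V := by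
    have : 0 < Fintype.card V := Fintype.card_pos_iff.2 ⟨y⟩
    exact_mod_cast this
  have h1 : 0 < K y z := lt_of_le_of_ne (hK y z) (Ne.symm h)
  have h2 : K y z ≤ ∑ z, K y z := single_le_sum (fun i _ => hK y i) (mem_univ z)
  unfold dgr
  exact (div_pos (lt_of_lt_of_le h1 h2) hN).ne'

theorem n01_R_dgr {A V : Type} [Fintype A] [DecidableEq A] [Fintype V] (K : V → V → ℝ)
    (hK : ∀ x y, 0 ≤ K x y) (hs : ∀ x y, K x y = K y x)
    (p : A → A) (v : A) (S : Finset A) (x : A → V) (u : A) (hu : u ∈ S)
    (h0 : dgr K (x u) = 0) : n01_R K p v S x = 0 := by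
  unfold n01_R
  by_cases huv : u = v
  · rw [← huv, h0, zero_div, zero_mul]
  · have h1 : K (x (p u)) (x u) = 0 := by
      by_contra hne
      rw [hs] at hne
      exact n01_dgr_ne hK hne h0
    rw [prod_eq_zero (mem_erase.2 ⟨huv, mem_univ u⟩) (by rw [if_pos hu, h1, zero_div]), mul_zero]

theorem n01_step {A V : Type} [Fintype A] [DecidableEq A] [Fintype V] (K : V → V → ℝ)
    (hK : ∀ x y, 0 ≤ K x y) (hs : ∀ x y, K x y = K y x) (hN : (Fintype.card V : ℝ) ≠ 0)
    (p : A → A) (v : A) (S : Finset A) (hv : v ∈ S) (hc : ∀ u ∈ S, p u ∈ S) (w : A) (hw : w ∉ S)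
    (hpw : p w ∈ S)
    (ih : ∀ b ∈ S, ∀ ψ : V → ℝ, ∑ x : A → V, n01_R K p v S x * ψ (x b) =
      ∑ z, dgr K z / ((Fintype.card V : ℝ) * lam K) * ψ z) :
    ∀ b ∈ insert w S, ∀ ψ : V → ℝ, ∑ x : A → V, n01_R K p v (insert w S) x * ψ (x b) =
      ∑ z, dgr K z / ((Fintype.card V : ℝ) * lam K) * ψ z := by
  have hwv : w ≠ v := fun h => hw (h ▸ hv)
  have hpne : p w ≠ w := fun h => hw (h ▸ hpw)
  intro b hb ψ
  have key : (Fintype.card V : ℝ) * ∑ x : A → V, n01_R K p v (insert w S) x * ψ (x b) =
      ∑ x : A → V, n01_R K p v S x * ∑ z : V, (K (x (p w)) z / dgr K (x (p w))) *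
        ψ (Function.update x w z b) := by
    rw [← n01_avg (fun x => n01_R K p v (insert w S) x * ψ (x b)) w]
    refine sum_congr rfl fun x _ => ?_
    rw [mul_sum]
    refine sum_congr rfl fun z _ => ?_
    rw [n01_R_insert K p v S w hw hwv, n01_R_update K p v S hv hc w hw,
      Function.update_of_ne hpne, Function.update_self]
    ring
  have hsum : ∀ y : V, ∑ z, K y z = (Fintype.card V : ℝ) * dgr K y := by
    intro y
    unfold dgr
    field_simp
  have goal' : (Fintype.card V : ℝ) * ∑ x : A → V, n01_R K p v (insert w S) x * ψ (x b) =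
      (Fintype.card V : ℝ) * ∑ z, dgr K z / ((Fintype.card V : ℝ) * lam K) * ψ z := by
    rw [key]
    by_cases hbw : b = w
    · subst hbw
      simp only [Function.update_self]
      rw [ih (p b) hpw (fun y => ∑ z : V, K y z / dgr K y * ψ z), mul_sum]
      simp only [mul_sum]
      rw [sum_comm]
      refine sum_congr rfl fun z _ => ?_
      have h3 : ∀ y : V, dgr K y / ((Fintype.card V : ℝ) * lam K) * (K y z / dgr K y * ψ z) =
          K z y * (((Fintype.card V : ℝ) * lam K)⁻¹ * ψ z) := by
        intro y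
        by_cases hd : dgr K y = 0
        · have h1 : K y z = 0 := by
            by_contra hne
            exact n01_dgr_ne hK hne hd
          rw [hs z y, h1, hd]
          ring
        · rw [hs z y]
          field_simp
      rw [sum_congr rfl fun y _ => h3 y, ← sum_mul, hsum]
      ring
    · have hbS : b ∈ S := (mem_insert.1 hb).resolve_left hbw
      rw [← ih b hbS ψ, mul_sum]
      refine sum_congr rfl fun x _ => ?_
      simp only [Function.update_of_ne hbw]
      rw [← sum_mul, ← sum_div, hsum]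
      by_cases hd : dgr K (x (p w)) = 0
      · rw [n01_R_dgr K hK hs p v S x (p w) hpw hd]
        ring
      · field_simp
  exact mul_left_cancel₀ hN goal'

/-- PROOF. For a set `S ∋ v` closed under `p` let `Q_S(x) = dgr K (x v) / (n λ) * ∏_{w ∈ S, w ≠ v} (K (x (p w)) (x w) / (n dgr K (x (p w))))`
and `R_S(x) = Q_S(x) * (1/n)^(|A| - |S|)`. Claim: `∑_x R_S(x) ψ (x b) = ∑_z π(z) ψ z` for every `b ∈ S` and every `ψ`, `π(z) = dgr K z / (n λ)`.
`S = {v}`: the coordinates `≠ v` are free (`n^(|A|-1)` choices). Step `S → insert w S`, `w ∉ S`, `p w ∈ S`: `Q_S` does not depend on the coordinate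
`w`; sum over this coordinate first (for instance through `∑_x F x = n⁻¹ ∑_x ∑_z F (Function.update x w z)`).
For `b ∈ S`: `∑_z K (x (p w)) z / (n dgr K (x (p w))) = 1` if `dgr K (x (p w)) ≠ 0`, and otherwise `Q_S(x) = 0` (for `u ∈ S`, `u ≠ v`, `Q_S(x) ≠ 0` implies `K (x (p u)) (x u) ≠ 0`, so
`dgr K (x u) ≠ 0` by symmetry). For `b = w`: the sum over the coordinate gives `ψ'(x (p w))`, `ψ'(y) = ∑_z K y z / (n dgr K y) ψ z`, and `∑_y π(y) ψ'(y) = ∑_z π(z) ψ z` by symmetry
(`dgr K y = 0` implies `K y z = 0`). As every `w` is sent to `v` by an iterate of `p`, one reaches `S = univ` (if `S ≠ univ`, `S` closed, take `u ∉ S` and the first iterate of `p` in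
`S`). -/
theorem mk_marg {A V : Type} [Fintype A] [DecidableEq A] [Fintype V] (K : V → V → ℝ)
    (hK : ∀ x y, 0 ≤ K x y) (hs : ∀ x y, K x y = K y x) (hl : 0 < lam K) (v : A) (p : A → A)
    (hp : p ∈ PT A v) (b : A) (ψ : V → ℝ) :
    ∑ x : A → V, mkp K p v x * ψ (x b) = ∑ z, dgr K z / ((Fintype.card V : ℝ) * lam K) * ψ z := by
  have hN : (Fintype.card V : ℝ) ≠ 0 := by
    intro h0
    unfold lam at hl
    rw [h0, div_zero] at hl
    exact lt_irrefl _ hl
  obtain ⟨hpv, hit⟩ : p v = v ∧ ∀ w, ∃ k : ℕ, p^[k] w = v := by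
    classical
    unfold PT at hp
    simp only [mem_filter, mem_univ, true_and] at hp
    exact hp
  have claim : ∀ k : ℕ, k ≤ Fintype.card A → 1 ≤ k → ∃ S : Finset A, S.card = k ∧ v ∈ S ∧
      (∀ u ∈ S, p u ∈ S) ∧ ∀ b ∈ S, ∀ ψ : V → ℝ, ∑ x : A → V, n01_R K p v S x * ψ (x b) =
      ∑ z, dgr K z / ((Fintype.card V : ℝ) * lam K) * ψ z := by
    intro k hk h1
    induction k, h1 using Nat.le_induction with
    | base =>
      refine ⟨{v}, card_singleton v, mem_singleton_self v, ?_, ?_⟩
      · intro u hu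
        rw [mem_singleton] at hu ⊢
        rw [hu, hpv]
      · intro b hb ψ
        rw [mem_singleton] at hb
        rw [hb]
        exact n01_base K hN p v ψ
    | succ k h1 ih =>
      obtain ⟨S, hcard, hv, hc, hS⟩ := ih (by omega)
      have hex : ∃ u, u ∉ S := by
        by_contra hcon
        push Not at hcon
        have : S = univ := eq_univ_of_forall hcon
        rw [this, card_univ] at hcard
        omega
      obtain ⟨u, hu⟩ := hex
      have hex2 : ∃ j : ℕ, p^[j] u ∈ S := by
        obtain ⟨j, hj⟩ := hit u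
        exact ⟨j, hj ▸ hv⟩
      classical
      have hf := Nat.find_spec hex2
      have hpos : Nat.find hex2 ≠ 0 := by
        intro h0
        rw [h0] at hf
        exact hu hf
      obtain ⟨j, hj⟩ := Nat.exists_eq_succ_of_ne_zero hpos
      have hjn : p^[j] u ∉ S := Nat.find_min hex2 (by omega)
      rw [hj, Function.iterate_succ_apply'] at hf
      refine ⟨insert (p^[j] u) S, ?_, mem_insert_of_mem hv, ?_,
        n01_step K hK hs hN p v S hv hc (p^[j] u) hjn hf hS⟩
      · rw [card_insert_of_notMem hjn, hcard]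
      · intro t ht
        rcases mem_insert.1 ht with h | h
        · rw [h]
          exact mem_insert_of_mem hf
        · exact mem_insert_of_mem (hc t h)
  obtain ⟨S, hcard, hv, hc, hS⟩ := claim (Fintype.card A) le_rfl
    (Fintype.card_pos_iff.2 ⟨v⟩)
  have hSu : S = univ := by
    rw [← card_eq_iff_eq_univ]
    exact hcard
  rw [hSu] at hS
  rw [← hS b (mem_univ b) ψ]
  refine sum_congr rfl fun x _ => ?_
  rw [n01_R_univ]

end Pool.Agent.ZT
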