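import Pool.Agent.ZT.N01

/-! # [ZN-02] density of the Markov measure, expectation of the exponent, the divergence -/

set_option autoImplicit false

open Finset

namespace Pool.Agent.ZT

variable {A V : Type} [Fintype A] [DecidableEq A] [Fintype V]

omit [DecidableEq A] [Fintype A] in
theorem n02_card_pos (K : V → V → ℝ) (hl : 0 < lam K) : (0 : ℝ) < Fintype.card V := by
  rcases Nat.eq_zero_or_pos (Fintype.card V) with h | h
  · exfalso
    unfold lam at hl
    rw [h] at hl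
    simp at hl
  · exact_mod_cast h

theorem mkp_nonneg (K : V → V → ℝ) (hK : ∀ x y, 0 ≤ K x y) (v : A) (p : A → A) (x : A → V) :
    0 ≤ mkp K p v x := by
  unfold mkp
  refine mul_nonneg (div_nonneg (dgr_nonneg hK _) (mul_nonneg (Nat.cast_nonneg _) (lam_nonneg hK)))
    (prod_nonneg fun w _ => ?_)
  exact div_nonneg (hK _ _) (mul_nonneg (Nat.cast_nonneg _) (dgr_nonneg hK _))

/-- PROOF. If `mkp K p v x = 0` the left side is `0`. Otherwise `dgr K (x v) > 0` and `dgr K (x (p w)) > 0` for all `w ≠ v` (they are factors), so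
`exp (Hf) = ∏_{w ≠ v} (dgr K (x (p w)) / λ) * (λ / dgr K (x v))` and both sides are equal (powers of `n`: `N - 1 - (N - 1)`, of `λ`: `(N - 1) - 1 - (N - 1) + 1`). -/
theorem mkp_le_prod (K : V → V → ℝ) (hK : ∀ x y, 0 ≤ K x y) (hs : ∀ x y, K x y = K y x) (hl : 0 < lam K)
    (v : A) (p : A → A) (x : A → V) :
    (Fintype.card V : ℝ) ^ (Fintype.card A) * lam K ^ (Fintype.card A - 1) * mkp K p v x *
      Real.exp (Hf K p v x) ≤ ∏ w ∈ univ.erase v, K (x w) (x (p w)) := by
  have hn : (0 : ℝ) < Fintype.card V := n02_card_pos K hl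
  by_cases h0 : mkp K p v x = 0
  · rw [h0, mul_zero, zero_mul]
    exact prod_nonneg fun w _ => hK _ _
  obtain ⟨M, hM⟩ : ∃ M, Fintype.card A = M + 1 :=
    ⟨Fintype.card A - 1, (Nat.succ_pred_eq_of_pos (Fintype.card_pos_iff.2 ⟨v⟩)).symm⟩
  have hcard : (univ.erase v : Finset A).card = M := by
    rw [card_erase_of_mem (mem_univ v), card_univ, hM]
    rfl
  obtain ⟨P1, hP1⟩ : ∃ P1 : ℝ, P1 = ∏ w ∈ univ.erase v, K (x (p w)) (x w) := ⟨_, rfl⟩
  obtain ⟨D, hD⟩ : ∃ D : ℝ, D = ∏ w ∈ univ.erase v, dgr K (x (p w)) := ⟨_, rfl⟩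
  have e1 : mkp K p v x = dgr K (x v) / ((Fintype.card V : ℝ) * lam K) *
      (P1 / ((Fintype.card V : ℝ) ^ M * D)) := by
    unfold mkp
    rw [prod_div_distrib, prod_mul_distrib, prod_const, hcard, ← hP1, ← hD]
  have hv : dgr K (x v) ≠ 0 := by
    intro h
    apply h0
    rw [e1, h]
    simp
  have hD0 : D ≠ 0 := by
    intro h
    apply h0
    rw [e1, h]
    simp
  have hpos : ∀ w ∈ univ.erase v, 0 < dgr K (x (p w)) := by
    intro w hw
    refine lt_of_le_of_ne (dgr_nonneg hK _) fun h => hD0 ?_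
    rw [hD]
    exact prod_eq_zero hw h.symm
  have hvpos : 0 < dgr K (x v) := lt_of_le_of_ne (dgr_nonneg hK _) hv.symm
  have e2 : Real.exp (Hf K p v x) = D / lam K ^ M / (dgr K (x v) / lam K) := by
    unfold Hf
    rw [Real.exp_sub, Real.exp_sum]
    have e3 : ∏ w ∈ univ.erase v, Real.exp (hlog K (x (p w))) = D / lam K ^ M := by
      rw [hD, ← hcard, ← prod_const, ← prod_div_distrib]
      refine prod_congr rfl fun w hw => ?_
      unfold hlog
      rw [Real.exp_log (div_pos (hpos w hw) hl)]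
    rw [e3]
    unfold hlog
    rw [Real.exp_log (div_pos hvpos hl)]
  have e4 : ∏ w ∈ univ.erase v, K (x w) (x (p w)) = P1 := by
    rw [hP1]
    exact prod_congr rfl fun w _ => hs _ _
  rw [e4, e1, e2, hM, Nat.add_sub_cancel]
  apply le_of_eq
  have hl0 := hl.ne'
  have hn0 := hn.ne'
  field_simp
  ring

/-- PROOF. `mk_marg` with `ψ = hlog K` and `b = p w` (`w ≠ v`), `b = v`. -/
theorem mkp_Hf (K : V → V → ℝ) (hK : ∀ x y, 0 ≤ K x y) (hs : ∀ x y, K x y = K y x) (hl : 0 < lam K)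
    (v : A) (p : A → A) (hp : p ∈ PT A v) :
    ∑ x : A → V, mkp K p v x * Hf K p v x = ((Fintype.card A : ℝ) - 2) * Dv K := by
  have h1 : ∀ x : A → V, mkp K p v x * Hf K p v x =
      (∑ w ∈ univ.erase v, mkp K p v x * hlog K (x (p w))) - mkp K p v x * hlog K (x v) := by
    intro x
    unfold Hf
    rw [mul_sub, mul_sum]
  have h2 : ∀ b : A, ∑ x : A → V, mkp K p v x * hlog K (x b) = Dv K := fun b =>
    mk_marg K hK hs hl v p hp b (hlog K)
  simp only [h1]
  rw [sum_sub_distrib, sum_comm, h2 v, sum_congr rfl fun w _ => h2 (p w), sum_const, nsmul_eq_mul,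
    card_erase_of_mem (mem_univ v), card_univ,
    Nat.cast_sub (Nat.succ_le_of_lt (Fintype.card_pos_iff.2 ⟨v⟩))]
  push_cast
  ring

/-- PROOF. `mk_marg` with `ψ = 1`; `∑ dgr = n λ`. -/
theorem mkp_sum (K : V → V → ℝ) (hK : ∀ x y, 0 ≤ K x y) (hs : ∀ x y, K x y = K y x) (hl : 0 < lam K)
    (v : A) (p : A → A) (hp : p ∈ PT A v) : ∑ x : A → V, mkp K p v x = 1 := by
  have hn : (0 : ℝ) < Fintype.card V := n02_card_pos K hl
  have h1 := mk_marg K hK hs hl v p hp v (fun _ => 1)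
  simp only [mul_one] at h1
  rw [h1, ← sum_div]
  have h2 : ∑ x, dgr K x = Fintype.card V * lam K := by
    unfold lam
    field_simp
  rw [h2]
  exact div_self (mul_ne_zero hn.ne' hl.ne')

/-- PROOF. With `ρ x = dgr K x / λ`, `∑ ρ = n`: `Dv K = n⁻¹ ∑ ρ log ρ`, and `t log t - t + 1 ≥ (√t - 1)^2` for `t ≥ 0`
(`t log t = 2 t log √t ≥ 2 t (1 - 1/√t)` for `t > 0`). -/
theorem Dv_ge (K : V → V → ℝ) (hK : ∀ x y, 0 ≤ K x y) (hl : 0 < lam K) :
    (∑ x, (√(dgr K x / lam K) - 1) ^ 2) / (Fintype.card V : ℝ) ≤ Dv K := by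
  have hn : (0 : ℝ) < Fintype.card V := n02_card_pos K hl
  have hpt : ∀ t : ℝ, 0 ≤ t → (√t - 1) ^ 2 ≤ t * Real.log t - t + 1 := by
    intro t ht
    rcases ht.lt_or_eq with ht | ht
    · have hs : 0 < √t := Real.sqrt_pos.2 ht
      have h1 := Real.one_sub_inv_le_log_of_pos hs
      have h2 : √t ^ 2 = t := Real.sq_sqrt ht.le
      have h3 : Real.log t = 2 * Real.log (√t) := by
        rw [Real.log_sqrt ht.le]
        ring
      have h4 : 2 * √t ^ 2 * (1 - (√t)⁻¹) ≤ 2 * √t ^ 2 * Real.log (√t) :=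
        mul_le_mul_of_nonneg_left h1 (by positivity)
      have h5 : 2 * √t ^ 2 * (1 - (√t)⁻¹) = 2 * √t ^ 2 - 2 * √t := by
        field_simp
      rw [h5] at h4
      rw [h3]
      nlinarith
    · rw [← ht]
      simp
  have h2 : ∑ x, dgr K x / lam K = Fintype.card V := by
    rw [← sum_div]
    have h3 : ∑ x, dgr K x = Fintype.card V * lam K := by
      unfold lam
      field_simp
    rw [h3, mul_div_assoc, div_self hl.ne', mul_one]
  have h3 : Dv K = (∑ x, dgr K x / lam K * Real.log (dgr K x / lam K)) / Fintype.card V := by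
    unfold Dv hlog
    rw [sum_div]
    refine sum_congr rfl fun x _ => ?_
    rw [mul_comm (Fintype.card V : ℝ) (lam K), ← div_div]
    ring
  rw [h3]
  refine div_le_div_of_nonneg_right ?_ hn.le
  calc ∑ x, (√(dgr K x / lam K) - 1) ^ 2
      ≤ ∑ x, (dgr K x / lam K * Real.log (dgr K x / lam K) - dgr K x / lam K + 1) :=
        sum_le_sum fun x _ => hpt _ (div_nonneg (dgr_nonneg hK x) hl.le)
    _ = ∑ x, dgr K x / lam K * Real.log (dgr K x / lam K) := by
        rw [sum_add_distrib, sum_sub_distrib, h2, sum_const, card_univ, nsmul_eq_mul, mul_one]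
        ring

end Pool.Agent.ZT
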