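import Pool.Agent.ZT.NDefs

/-! # [ZN-03] the Jensen tool -/

set_option autoImplicit false

open Finset

namespace Pool.Agent.ZT

/-- Jensen for `exp`. -/
theorem jensen_exp {Om : Type} [Fintype Om] (P H : Om → ℝ) (hP : ∀ w, 0 ≤ P w) (h1 : ∑ w, P w = 1) :
    Real.exp (∑ w, P w * H w) ≤ ∑ w, P w * Real.exp (H w) := by
  have h := convexOn_exp.map_sum_le (t := (univ : Finset Om)) (w := P) (p := H)
    (fun i _ => hP i) h1 (fun i _ => Set.mem_univ _)
  simpa [smul_eq_mul] using h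

/-- the mean of the negative part is at most `log (1 + τ)` -/
theorem n03_negpart {Om : Type} [Fintype Om] (P H : Om → ℝ) (hP : ∀ w, 0 ≤ P w) (h1 : ∑ w, P w = 1)
    (hH : 0 ≤ ∑ w, P w * H w) :
    ∑ w, P w * max (-(H w)) 0 ≤ Real.log (1 + ∑ w, P w * Real.exp (H w)) := by
  have hdiff : ∑ w, P w * max (-(H w)) 0 ≤ ∑ w, P w * max (H w) 0 := by
    have he : ∑ w, P w * max (H w) 0 - ∑ w, P w * max (-(H w)) 0 = ∑ w, P w * H w := by
      rw [← sum_sub_distrib]
      refine sum_congr rfl fun w _ => ?_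
      rcases le_total 0 (H w) with h | h
      · rw [max_eq_left h, max_eq_right (by linarith)]; ring
      · rw [max_eq_right h, max_eq_left (by linarith)]; ring
    linarith
  have hexp : ∑ w, P w * Real.exp (max (H w) 0) ≤ 1 + ∑ w, P w * Real.exp (H w) := by
    have : ∑ w, P w * Real.exp (max (H w) 0) ≤ ∑ w, (P w + P w * Real.exp (H w)) := by
      refine sum_le_sum fun w _ => ?_
      have h2 : Real.exp (max (H w) 0) ≤ 1 + Real.exp (H w) := by
        rcases le_total 0 (H w) with h | h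
        · rw [max_eq_left h]; linarith
        · rw [max_eq_right h, Real.exp_zero]; linarith [Real.exp_pos (H w)]
      calc P w * Real.exp (max (H w) 0) ≤ P w * (1 + Real.exp (H w)) :=
            mul_le_mul_of_nonneg_left h2 (hP w)
        _ = _ := by ring
    rw [sum_add_distrib, h1] at this
    exact this
  have hj := jensen_exp P (fun w => max (H w) 0) hP h1
  have htau : 0 ≤ ∑ w, P w * Real.exp (H w) :=
    sum_nonneg fun w _ => mul_nonneg (hP w) (Real.exp_pos _).le
  have hlog : ∑ w, P w * max (H w) 0 ≤ Real.log (1 + ∑ w, P w * Real.exp (H w)) := by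
    rw [Real.le_log_iff_exp_le (by linarith)]
    exact hj.trans hexp
  linarith

/-- PROOF. Let `a' = ∑ P F ≥ a`. (1) `∑ P F H ≥ -M ∑ P H⁻` (`F ≤ M` where `P ≠ 0`), `∑ P H⁻ ≤ ∑ P H⁺` (as `∑ P H ≥ 0`),
`∑ P H⁺ ≤ log ∑ P exp (H⁺) ≤ log (1 + ∑ P exp H)` (`jensen_exp`; `exp H⁺ ≤ 1 + exp H`).
(2) With `Q = P F / a'` (a probability) and `j = i + 1`: `∑ P F^j exp H = a' ∑_{F > 0} Q exp (i log F + H) ≥ a' exp (∑ Q (i log F + H))` (`jensen_exp` for `Q`, terms with `F = 0` have `Q = 0`), and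
`∑ Q log F = (∑ P F log F) / a' ≥ log a'` (Jensen for `t log t`: `t log t ≥ t log a' + t - a'`, i.e. `log (t/a') ≥ 1 - a'/t`).
So `∑ P F^j exp H ≥ a'^j (1 + τ)^(-M/a') ≥ a^j (1 + τ)^(-M/a)`, `τ = ∑ P exp H ≥ 0`. -/
theorem jensen_tool {Om : Type} [Fintype Om] (P H F : Om → ℝ) (hP : ∀ w, 0 ≤ P w) (h1 : ∑ w, P w = 1)
    (hH : 0 ≤ ∑ w, P w * H w) (M a : ℝ) (hM : 0 ≤ M) (ha : 0 < a) (hF : ∀ w, 0 ≤ F w)
    (hFM : ∀ w, P w ≠ 0 → F w ≤ M) (hFa : a ≤ ∑ w, P w * F w) (j : ℕ) (hj : 1 ≤ j) :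
    a ^ j * (1 + ∑ w, P w * Real.exp (H w)) ^ (-(M / a)) ≤ ∑ w, P w * (F w ^ j * Real.exp (H w)) := by
  obtain ⟨i, rfl⟩ : ∃ i, j = i + 1 := ⟨j - 1, by omega⟩
  set b : ℝ := ∑ w, P w * F w with hb
  set τ : ℝ := ∑ w, P w * Real.exp (H w) with hτ
  have hb0 : 0 < b := lt_of_lt_of_le ha hFa
  have hτ0 : 0 ≤ τ := sum_nonneg fun w _ => mul_nonneg (hP w) (Real.exp_pos _).le
  have hlog0 : 0 ≤ Real.log (1 + τ) := Real.log_nonneg (by linarith)
  have hneg := n03_negpart P H hP h1 hH
  rw [← hτ] at hneg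
  -- (1)
  have hPFH : -(M * Real.log (1 + τ)) ≤ ∑ w, P w * F w * H w := by
    have h2 : ∑ w, (-(M * (P w * max (-(H w)) 0))) ≤ ∑ w, P w * F w * H w := by
      refine sum_le_sum fun w _ => ?_
      by_cases hw : P w = 0
      · rw [hw]; simp
      · have hFw := hFM w hw
        have h3 : -max (-(H w)) 0 ≤ H w := by
          have := le_max_left (-(H w)) 0
          linarith
        have h4 : 0 ≤ max (-(H w)) 0 := le_max_right _ _
        have h5 : P w * F w * (-max (-(H w)) 0) ≤ P w * F w * H w :=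
          mul_le_mul_of_nonneg_left h3 (mul_nonneg (hP w) (hF w))
        have h6 : P w * F w * max (-(H w)) 0 ≤ M * (P w * max (-(H w)) 0) := by
          have : F w * (P w * max (-(H w)) 0) ≤ M * (P w * max (-(H w)) 0) :=
            mul_le_mul_of_nonneg_right hFw (mul_nonneg (hP w) h4)
          linarith
        linarith
    rw [sum_neg_distrib, ← mul_sum] at h2
    have h7 : M * ∑ w, P w * max (-(H w)) 0 ≤ M * Real.log (1 + τ) :=
      mul_le_mul_of_nonneg_left hneg hM
    linarith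
  -- (2) Jensen for `t log t`
  have hPFF : b * Real.log b ≤ ∑ w, P w * F w * Real.log (F w) := by
    have h2 : ∑ w, (P w * F w * Real.log b + P w * F w - P w * b) ≤
        ∑ w, P w * F w * Real.log (F w) := by
      refine sum_le_sum fun w _ => ?_
      rcases (hF w).eq_or_lt with h | h
      · rw [← h]
        have := mul_nonneg (hP w) hb0.le
        simp only [mul_zero, zero_mul]
        linarith
      · have h3 : Real.log (b / F w) ≤ b / F w - 1 := Real.log_le_sub_one_of_pos (div_pos hb0 h)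
        rw [Real.log_div hb0.ne' h.ne'] at h3
        have h4 : F w * (Real.log b - Real.log (F w)) ≤ F w * (b / F w - 1) :=
          mul_le_mul_of_nonneg_left h3 h.le
        have h5 : F w * (b / F w - 1) = b - F w := by field_simp
        rw [h5] at h4
        have h6 := mul_le_mul_of_nonneg_left h4 (hP w)
        nlinarith [h6]
    rw [sum_sub_distrib, sum_add_distrib, ← sum_mul, ← sum_mul, ← hb, h1] at h2
    linarith
  -- Jensen for `Q`
  have hQ0 : ∀ w, 0 ≤ P w * F w / b := fun w => div_nonneg (mul_nonneg (hP w) (hF w)) hb0.le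
  have hQ1 : ∑ w, P w * F w / b = 1 := by
    rw [← sum_div, ← hb, div_self hb0.ne']
  have hjen := jensen_exp (fun w => P w * F w / b) (fun w => (i : ℝ) * Real.log (F w) + H w) hQ0 hQ1
  have hR : ∑ w, P w * F w / b * Real.exp ((i : ℝ) * Real.log (F w) + H w) =
      (∑ w, P w * (F w ^ (i + 1) * Real.exp (H w))) / b := by
    rw [sum_div]
    refine sum_congr rfl fun w _ => ?_
    rcases (hF w).eq_or_lt with h | h
    · rw [← h]; simp
    · rw [Real.exp_add, ← Real.log_pow, Real.exp_log (pow_pos h i)]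
      rw [pow_succ]
      ring
  have hexpo : (i : ℝ) * Real.log b - M / a * Real.log (1 + τ) ≤
      ∑ w, P w * F w / b * ((i : ℝ) * Real.log (F w) + H w) := by
    have e1 : ∑ w, P w * F w / b * ((i : ℝ) * Real.log (F w) + H w) =
        ((i : ℝ) * ∑ w, P w * F w * Real.log (F w) + ∑ w, P w * F w * H w) / b := by
      rw [mul_sum, ← sum_add_distrib, sum_div]
      refine sum_congr rfl fun w _ => ?_
      ring
    rw [e1, le_div_iff₀ hb0]
    have h3 : (i : ℝ) * (b * Real.log b) ≤ (i : ℝ) * ∑ w, P w * F w * Real.log (F w) :=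
      mul_le_mul_of_nonneg_left hPFF (Nat.cast_nonneg i)
    have h4 : M * Real.log (1 + τ) ≤ M / a * Real.log (1 + τ) * b := by
      have : M * Real.log (1 + τ) * a ≤ M * Real.log (1 + τ) * b :=
        mul_le_mul_of_nonneg_left hFa (mul_nonneg hM hlog0)
      have e : M / a * Real.log (1 + τ) * b = (M * Real.log (1 + τ) * b) / a := by ring
      rw [e, le_div_iff₀ ha]
      exact this
    nlinarith [h3, h4, hPFH]
  have hfin : b ^ i * (1 + τ) ^ (-(M / a)) ≤ (∑ w, P w * (F w ^ (i + 1) * Real.exp (H w))) / b := by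
    have e2 : b ^ i * (1 + τ) ^ (-(M / a)) =
        Real.exp ((i : ℝ) * Real.log b - M / a * Real.log (1 + τ)) := by
      rw [sub_eq_add_neg, Real.exp_add, ← Real.log_pow, Real.exp_log (pow_pos hb0 i),
        Real.rpow_def_of_pos (by linarith)]
      congr 2
      ring
    rw [e2, ← hR]
    exact (Real.exp_le_exp.2 hexpo).trans hjen
  rw [le_div_iff₀ hb0] at hfin
  have hpw : 0 ≤ (1 + τ) ^ (-(M / a)) := Real.rpow_nonneg (by linarith) _
  calc a ^ (i + 1) * (1 + τ) ^ (-(M / a)) ≤ b ^ (i + 1) * (1 + τ) ^ (-(M / a)) :=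
        mul_le_mul_of_nonneg_right (pow_le_pow_left₀ ha.le hFa _) hpw
    _ = b ^ i * (1 + τ) ^ (-(M / a)) * b := by rw [pow_succ]; ring
    _ ≤ _ := hfin

end Pool.Agent.ZT
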