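import Pool.Agent.ZT.N02
import Pool.Agent.ZT.N03

/-! # [ZN-04] Sidorenko with divergence; all trees together with a vertex weight -/

set_option autoImplicit false

open Finset

namespace Pool.Agent.ZT

variable {V : Type} [Fintype V]

theorem n04_npos (K : V → V → ℝ) (hl : 0 < lam K) : (0 : ℝ) < (Fintype.card V : ℝ) := by
  by_contra h
  have h0 : (Fintype.card V : ℝ) = 0 := le_antisymm (not_lt.1 h) (Nat.cast_nonneg _)
  unfold lam at hl
  rw [h0, div_zero] at hl
  exact lt_irrefl _ hl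

theorem n04_dgr_ne {B : Type} [Fintype B] [DecidableEq B] (b0 : B)
    (K : V → V → ℝ) (hK : ∀ x y, 0 ≤ K x y) (hs : ∀ x y, K x y = K y x) (hl : 0 < lam K)
    (p : B → B) (x : B → V) (h : mkp K p b0 x ≠ 0) (b : B) : dgr K (x b) ≠ 0 := by
  have hn := n04_npos K hl
  unfold mkp at h
  by_cases hb : b = b0
  · subst hb
    intro h0
    apply h
    rw [h0, zero_div, zero_mul]
  · have h1 : K (x (p b)) (x b) ≠ 0 := by
      intro h0
      apply h
      rw [prod_eq_zero (mem_erase.2 ⟨hb, mem_univ b⟩), mul_zero]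
      rw [h0, zero_div]
    have h2 : 0 < K (x b) (x (p b)) := by
      rw [hs]
      exact lt_of_le_of_ne (hK _ _) (Ne.symm h1)
    have h3 : 0 < dgr K (x b) := by
      unfold dgr
      apply div_pos _ hn
      exact lt_of_lt_of_le h2 (single_le_sum (f := fun y => K (x b) y) (fun y _ => hK _ _)
        (mem_univ (x (p b))))
    exact h3.ne'

/-- PROOF. `mkp_le_prod`, `jensen_exp`, `mkp_Hf`. -/
theorem sid_strong {A : Type} [Fintype A] [DecidableEq A] (K : V → V → ℝ) (hK : ∀ x y, 0 ≤ K x y)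
    (hs : ∀ x y, K x y = K y x) (hl : 0 < lam K) (v : A) (p : A → A) (hp : p ∈ PT A v) :
    (Fintype.card V : ℝ) ^ (Fintype.card A) * lam K ^ (Fintype.card A - 1) *
      Real.exp (((Fintype.card A : ℝ) - 2) * Dv K) ≤
    ∑ x : A → V, ∏ w ∈ univ.erase v, K (x w) (x (p w)) := by
  have hlK := hl.le
  set u : ℝ := (Fintype.card V : ℝ) ^ (Fintype.card A) * lam K ^ (Fintype.card A - 1) with hu
  have hu0 : 0 ≤ u := by positivity
  have h1 := jensen_exp (fun x : A → V => mkp K p v x) (fun x => Hf K p v x)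
    (fun x => mkp_nonneg K hK v p x) (mkp_sum K hK hs hl v p hp)
  rw [mkp_Hf K hK hs hl v p hp] at h1
  calc u * Real.exp (((Fintype.card A : ℝ) - 2) * Dv K)
      ≤ u * ∑ x : A → V, mkp K p v x * Real.exp (Hf K p v x) := mul_le_mul_of_nonneg_left h1 hu0
    _ = ∑ x : A → V, u * mkp K p v x * Real.exp (Hf K p v x) := by
        rw [mul_sum]
        exact sum_congr rfl fun x _ => by ring
    _ ≤ _ := sum_le_sum fun x _ => mkp_le_prod K hK hs hl v p x

/-- PROOF. `jensen_tool` on `Om = (B → B) × (B → V)` with the probability `P (p, x) = mkp K p b0 x / |PT|` for `p ∈ PT B b0` (and `0` otherwise), `H = Hf K p b0 x`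
(`∑ P H = (|B| - 2) Dv K ≥ 0`), `F (p, x) = (∑_b f (x b)) / |B|` (`≤ M` on the support: if `mkp ≠ 0` all `dgr K (x b) ≠ 0`), `a = M / 3`
(`∑ P F = ∑_z π(z) f z ≥ M / 3` by `mk_marg`). With `N = |B|`, `u = n^N λ^(N-1)`, `T = ∑_p ∑_x ∏ K`: `∑ P exp H ≤ T / (|PT| u)` (`mkp_le_prod`) and
`∑ P F^j exp H ≤ (∑_p ∑_x (∏ K) F^j) / (|PT| u)`. `M / a = 3`. `|PT| > 0` by `card_PT`. -/
theorem core_weight {B : Type} [Fintype B] [DecidableEq B] (b0 : B) (hB : 2 ≤ Fintype.card B)
    (K : V → V → ℝ) (hK : ∀ x y, 0 ≤ K x y) (hs : ∀ x y, K x y = K y x) (hl : 0 < lam K)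
    (f : V → ℝ) (M : ℝ) (hM : 0 < M) (hf : ∀ x, 0 ≤ f x) (hfM : ∀ x, dgr K x ≠ 0 → f x ≤ M)
    (hfa : M / 3 ≤ ∑ z, dgr K z / ((Fintype.card V : ℝ) * lam K) * f z) (j : ℕ) (hj : 1 ≤ j) (T : ℝ)
    (hT : ∑ p ∈ PT B b0, ∑ x : B → V, ∏ w ∈ univ.erase b0, K (x w) (x (p w)) ≤
      T * (((PT B b0).card : ℝ) * ((Fintype.card V : ℝ) ^ (Fintype.card B) * lam K ^ (Fintype.card B - 1)))) :
    ((PT B b0).card : ℝ) * ((Fintype.card V : ℝ) ^ (Fintype.card B) * lam K ^ (Fintype.card B - 1)) *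
      (M / 3) ^ j / (1 + T) ^ 3 ≤
    ∑ p ∈ PT B b0, ∑ x : B → V, (∏ w ∈ univ.erase b0, K (x w) (x (p w))) *
      ((∑ b, f (x b)) / (Fintype.card B : ℝ)) ^ j := by
  classical
  have hn := n04_npos K hl
  set c : ℝ := ((PT B b0).card : ℝ) with hc
  have hc0 : 0 < c := by
    rw [hc, card_PT]
    have : 0 < Fintype.card B := by omega
    positivity
  set u : ℝ := (Fintype.card V : ℝ) ^ (Fintype.card B) * lam K ^ (Fintype.card B - 1) with hu
  have hu0 : 0 < u := by positivity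
  have hN0 : (0 : ℝ) < (Fintype.card B : ℝ) := by
    have : 0 < Fintype.card B := by omega
    exact_mod_cast this
  have hN2 : (2 : ℝ) ≤ (Fintype.card B : ℝ) := by exact_mod_cast hB
  set P : (B → B) × (B → V) → ℝ := fun w => if w.1 ∈ PT B b0 then mkp K w.1 b0 w.2 / c else 0
    with hPdef
  set H : (B → B) × (B → V) → ℝ := fun w => Hf K w.1 b0 w.2 with hHdef
  set F : (B → B) × (B → V) → ℝ := fun w => (∑ b, f (w.2 b)) / (Fintype.card B : ℝ) with hFdef
  have hsum : ∀ G : (B → B) × (B → V) → ℝ, ∑ w, P w * G w =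
      (∑ p ∈ PT B b0, ∑ x : B → V, mkp K p b0 x * G (p, x)) / c := by
    intro G
    rw [Fintype.sum_prod_type, sum_div]
    rw [← sum_subset (subset_univ (PT B b0))]
    · refine sum_congr rfl fun p hp => ?_
      rw [sum_div]
      refine sum_congr rfl fun x _ => ?_
      simp only [hPdef, if_pos hp]
      ring
    · intro p _ hp
      refine sum_eq_zero fun x _ => ?_
      simp only [hPdef, if_neg hp, zero_mul]
  have hconst : ∀ t : ℝ, (∑ _p ∈ PT B b0, t) / c = t := by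
    intro t
    rw [sum_const, nsmul_eq_mul, ← hc]
    field_simp
  have hP0 : ∀ w, 0 ≤ P w := by
    intro w
    simp only [hPdef]
    split_ifs
    · exact div_nonneg (mkp_nonneg K hK b0 _ _) hc0.le
    · exact le_refl _
  have hP1 : ∑ w, P w = 1 := by
    have h1 := hsum fun _ => 1
    simp only [mul_one] at h1
    rw [h1, ← hconst 1]
    congr 1
    exact sum_congr rfl fun p hp => mkp_sum K hK hs hl b0 p hp
  have hDv : 0 ≤ Dv K := by
    refine le_trans ?_ (Dv_ge K hK hl)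
    exact div_nonneg (sum_nonneg fun x _ => sq_nonneg _) hn.le
  have hH0 : 0 ≤ ∑ w, P w * H w := by
    rw [hsum H]
    have h1 : ∑ p ∈ PT B b0, ∑ x : B → V, mkp K p b0 x * H (p, x) =
        ∑ _p ∈ PT B b0, ((Fintype.card B : ℝ) - 2) * Dv K :=
      sum_congr rfl fun p hp => mkp_Hf K hK hs hl b0 p hp
    rw [h1, hconst]
    exact mul_nonneg (by linarith) hDv
  have hF0 : ∀ w, 0 ≤ F w := fun w => div_nonneg (sum_nonneg fun b _ => hf _) hN0.le
  have hFM : ∀ w, P w ≠ 0 → F w ≤ M := by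
    intro w hw
    have h1 : mkp K w.1 b0 w.2 ≠ 0 := by
      intro h0
      apply hw
      simp only [hPdef, h0, zero_div, ite_self]
    have h2 : ∀ b, f (w.2 b) ≤ M := fun b => hfM _ (n04_dgr_ne b0 K hK hs hl w.1 w.2 h1 b)
    simp only [hFdef]
    rw [div_le_iff₀ hN0]
    calc ∑ b, f (w.2 b) ≤ ∑ _b : B, M := sum_le_sum fun b _ => h2 b
      _ = M * (Fintype.card B : ℝ) := by
        rw [sum_const, nsmul_eq_mul, card_univ]
        ring
  have hFa : M / 3 ≤ ∑ w, P w * F w := by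
    rw [hsum F]
    have h1 : ∑ p ∈ PT B b0, ∑ x : B → V, mkp K p b0 x * F (p, x) =
        ∑ _p ∈ PT B b0, ∑ z, dgr K z / ((Fintype.card V : ℝ) * lam K) * f z := by
      refine sum_congr rfl fun p hp => ?_
      have h2 : ∀ b : B, ∑ x : B → V, mkp K p b0 x * f (x b) =
          ∑ z, dgr K z / ((Fintype.card V : ℝ) * lam K) * f z :=
        fun b => mk_marg K hK hs hl b0 p hp b f
      have h3 : ∑ x : B → V, mkp K p b0 x * F (p, x) =
          (∑ b : B, ∑ x : B → V, mkp K p b0 x * f (x b)) / (Fintype.card B : ℝ) := by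
        rw [sum_comm, sum_div]
        refine sum_congr rfl fun x _ => ?_
        simp only [hFdef]
        rw [← mul_sum]
        ring
      rw [h3, sum_congr rfl fun b _ => h2 b, sum_const, nsmul_eq_mul, card_univ]
      field_simp
    rw [h1, hconst]
    exact hfa
  have hJ := jensen_tool P H F hP0 hP1 hH0 M (M / 3) hM.le (by positivity) hF0 hFM hFa j hj
  set τ : ℝ := ∑ w, P w * Real.exp (H w) with hτ
  have hτ0 : 0 ≤ τ := sum_nonneg fun w _ => mul_nonneg (hP0 w) (Real.exp_pos _).le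
  have hle : ∀ (p : B → B) (x : B → V), mkp K p b0 x * Real.exp (Hf K p b0 x) ≤
      (∏ w ∈ univ.erase b0, K (x w) (x (p w))) / u := by
    intro p x
    rw [le_div_iff₀ hu0]
    have h1 := mkp_le_prod K hK hs hl b0 p x
    calc mkp K p b0 x * Real.exp (Hf K p b0 x) * u = u * mkp K p b0 x * Real.exp (Hf K p b0 x) := by
          ring
      _ ≤ _ := h1
  have hτT : τ ≤ T := by
    rw [hτ, hsum fun w => Real.exp (H w), div_le_iff₀ hc0]
    calc ∑ p ∈ PT B b0, ∑ x : B → V, mkp K p b0 x * Real.exp (H (p, x))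
        ≤ ∑ p ∈ PT B b0, ∑ x : B → V, (∏ w ∈ univ.erase b0, K (x w) (x (p w))) / u :=
          sum_le_sum fun p _ => sum_le_sum fun x _ => hle p x
      _ = (∑ p ∈ PT B b0, ∑ x : B → V, ∏ w ∈ univ.erase b0, K (x w) (x (p w))) / u := by
          rw [sum_div]
          exact sum_congr rfl fun p _ => by rw [sum_div]
      _ ≤ T * c := by
          rw [div_le_iff₀ hu0]
          calc _ ≤ _ := hT
            _ = T * c * u := by ring
  have hR : ∑ w, P w * (F w ^ j * Real.exp (H w)) ≤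
      (∑ p ∈ PT B b0, ∑ x : B → V, (∏ w ∈ univ.erase b0, K (x w) (x (p w))) *
      ((∑ b, f (x b)) / (Fintype.card B : ℝ)) ^ j) / (c * u) := by
    rw [hsum fun w => F w ^ j * Real.exp (H w), div_le_iff₀ hc0]
    have e : (∑ p ∈ PT B b0, ∑ x : B → V, (∏ w ∈ univ.erase b0, K (x w) (x (p w))) *
      ((∑ b, f (x b)) / (Fintype.card B : ℝ)) ^ j) / (c * u) * c =
      ∑ p ∈ PT B b0, ∑ x : B → V, (∏ w ∈ univ.erase b0, K (x w) (x (p w))) / u *
      ((∑ b, f (x b)) / (Fintype.card B : ℝ)) ^ j := by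
      have e1 : ∀ t : ℝ, t / (c * u) * c = t / u := by
        intro t
        field_simp
      rw [e1, sum_div]
      refine sum_congr rfl fun p _ => ?_
      rw [sum_div]
      refine sum_congr rfl fun x _ => ?_
      ring
    rw [e]
    refine sum_le_sum fun p _ => sum_le_sum fun x _ => ?_
    have h1 : 0 ≤ F (p, x) ^ j := pow_nonneg (hF0 _) _
    calc mkp K p b0 x * (F (p, x) ^ j * Real.exp (H (p, x)))
        = (mkp K p b0 x * Real.exp (Hf K p b0 x)) * F (p, x) ^ j := by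
          simp only [hHdef]
          ring
      _ ≤ (∏ w ∈ univ.erase b0, K (x w) (x (p w))) / u * F (p, x) ^ j :=
          mul_le_mul_of_nonneg_right (hle p x) h1
  have hexp : (1 + τ) ^ (-(M / (M / 3))) = 1 / (1 + τ) ^ 3 := by
    have e1 : M / (M / 3) = 3 := by field_simp
    rw [e1, Real.rpow_neg (by linarith), one_div]
    congr 1
    exact_mod_cast Real.rpow_natCast (1 + τ) 3
  rw [hexp] at hJ
  have h5 := hJ.trans hR
  rw [le_div_iff₀ (by positivity)] at h5
  refine le_trans ?_ h5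
  have h6 : 0 ≤ (M / 3) ^ j := by positivity
  have h7 : c * u * (M / 3) ^ j / (1 + T) ^ 3 ≤ c * u * (M / 3) ^ j / (1 + τ) ^ 3 := by
    apply div_le_div_of_nonneg_left (by positivity) (by positivity)
    gcongr
  refine h7.trans (le_of_eq ?_)
  ring

end Pool.Agent.ZT
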