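import Pool.Agent.ZT.NDefs

/-! # [ZN-05] numerics of the monochromatic trees (real numbers only) -/

set_option autoImplicit false

open Finset

namespace Pool.Agent.ZT

theorem n05_pq (α t : ℝ) (h0 : 0 ≤ α) (h1 : α ≤ 1) (ht : 0 ≤ t) (m : ℕ) :
    α ^ m * (2 + m * ((m : ℝ) - 1) * t ^ 2) ≤ (α + t) ^ m + (α - t) ^ m ∧
      α ^ m * (2 * m * t) ≤ (α + t) ^ m - (α - t) ^ m := by
  induction m with
  | zero => norm_num
  | succ m ih =>
    obtain ⟨ih1, ih2⟩ := ih
    have hp : 0 ≤ α ^ m := pow_nonneg h0 m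
    have hm : (0:ℝ) ≤ m := Nat.cast_nonneg m
    have hle : α * α ^ m ≤ α ^ m := mul_le_of_le_one_left hp h1
    have e1 : (α + t) ^ (m + 1) + (α - t) ^ (m + 1) =
        α * ((α + t) ^ m + (α - t) ^ m) + t * ((α + t) ^ m - (α - t) ^ m) := by ring
    have e2 : (α + t) ^ (m + 1) - (α - t) ^ (m + 1) =
        α * ((α + t) ^ m - (α - t) ^ m) + t * ((α + t) ^ m + (α - t) ^ m) := by ring
    have k1 := mul_le_mul_of_nonneg_left ih1 h0
    have k2 := mul_le_mul_of_nonneg_left ih2 ht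
    have k3 := mul_le_mul_of_nonneg_left ih2 h0
    have k4 := mul_le_mul_of_nonneg_left ih1 ht
    constructor
    · rw [e1]
      refine le_trans ?_ (add_le_add k1 k2)
      have k5 : 0 ≤ 2 * (m : ℝ) * t ^ 2 := by positivity
      have k6 := mul_le_mul_of_nonneg_right hle k5
      push_cast
      rw [pow_succ]
      linarith
    · rw [e2]
      refine le_trans ?_ (add_le_add k3 k4)
      have k5 : 0 ≤ 2 * t := by positivity
      have k6 := mul_le_mul_of_nonneg_right hle k5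
      have k7 : 0 ≤ t * (α ^ m * ((m:ℝ) * ((m : ℝ) - 1) * t ^ 2)) := by
        rcases Nat.eq_zero_or_pos m with h | h
        · rw [h]; norm_num
        · have : (1:ℝ) ≤ m := by exact_mod_cast h
          have : 0 ≤ (m:ℝ) - 1 := by linarith
          positivity
      push_cast
      rw [pow_succ]
      linarith

/-- PROOF. Let `ι = min 1 (δ m) / 4`, `θ = a - b`, `2a = (1-δ) + θ`, `2b = (1-δ) - θ`.
(1) `(2 max)^m ≤ 2 (1 + ι) ≤ 3 ≤ (1 + 2/m)^m`.
(2) `θ^2 ≤ 10 δ`: the even part of the binomial formula.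
(3) AM-GM. -/
theorem mono_num (m : ℕ) (hm : 4 ≤ m) (δ a b D0 D1 : ℝ) (hδ : 0 ≤ δ) (hδ1 : δ ≤ 1 / 100) (ha : 0 ≤ a)
    (hb : 0 ≤ b) (hab : a + b = 1 - δ) (h0 : 0 ≤ D0) (h1 : 0 ≤ D1)
    (h : a ^ m * Real.exp (((m : ℝ) - 1) * D0) + b ^ m * Real.exp (((m : ℝ) - 1) * D1) ≤
      2 * (1 / 2 : ℝ) ^ m * (1 + min 1 (δ * m) / 4)) :
    |a - b| ≤ δ + 2 / m ∧ (a - b) ^ 2 ≤ 10 * δ ∧ D0 + D1 ≤ 50 * δ := by
  have hm4 : (4:ℝ) ≤ m := by exact_mod_cast hm
  have hm0 : (0:ℝ) < m := by linarith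
  have hm1 : (0:ℝ) ≤ (m:ℝ) - 1 := by linarith
  set ι : ℝ := min 1 (δ * m) / 4 with hι
  have hδm : 0 ≤ δ * m := by positivity
  have hι0 : 0 ≤ ι := by
    rw [hι]
    have : 0 ≤ min 1 (δ * m) := le_min zero_le_one hδm
    linarith
  have hι1 : ι ≤ 1 / 4 := by
    rw [hι]
    have := min_le_left 1 (δ * m)
    linarith
  have hι2 : ι ≤ δ * m / 4 := by
    rw [hι]
    have := min_le_right 1 (δ * m)
    linarith
  set E0 : ℝ := Real.exp (((m : ℝ) - 1) * D0) with hE0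
  set E1 : ℝ := Real.exp (((m : ℝ) - 1) * D1) with hE1
  have hE0' : 1 ≤ E0 := Real.one_le_exp (by positivity)
  have hE1' : 1 ≤ E1 := Real.one_le_exp (by positivity)
  -- scaled inequality
  have hx : (2 * a) ^ m * E0 + (2 * b) ^ m * E1 ≤ 2 * (1 + ι) := by
    have h2 : (0:ℝ) < 2 ^ m := by positivity
    have := mul_le_mul_of_nonneg_left h h2.le
    calc (2 * a) ^ m * E0 + (2 * b) ^ m * E1 = 2 ^ m * (a ^ m * E0 + b ^ m * E1) := by
          rw [mul_pow, mul_pow]; ring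
      _ ≤ 2 ^ m * (2 * (1 / 2 : ℝ) ^ m * (1 + ι)) := this
      _ = (2 ^ m * (1 / 2 : ℝ) ^ m) * (2 * (1 + ι)) := by ring
      _ = 2 * (1 + ι) := by
          rw [← mul_pow]; norm_num
  have hpa : 0 ≤ (2 * a) ^ m := by positivity
  have hpb : 0 ≤ (2 * b) ^ m := by positivity
  have ha1 : (2 * a) ^ m ≤ (2 * a) ^ m * E0 := le_mul_of_one_le_right hpa hE0'
  have hb1 : (2 * b) ^ m ≤ (2 * b) ^ m * E1 := le_mul_of_one_le_right hpb hE1'
  have hsum : (2 * a) ^ m + (2 * b) ^ m ≤ 2 * (1 + ι) := by linarith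
  -- (1)
  have hbern : (3:ℝ) ≤ (1 + 2 / m) ^ m := by
    have h2 : (-2:ℝ) ≤ 2 / m := by
      have : (0:ℝ) ≤ 2 / m := by positivity
      linarith
    have := one_add_mul_le_pow h2 m
    have e : (m:ℝ) * (2 / m) = 2 := by field_simp
    rw [e] at this
    linarith
  have hroot : ∀ y : ℝ, 0 ≤ y → y ^ m ≤ 2 * (1 + ι) → y ≤ 1 + 2 / m := by
    intro y hy hym
    by_contra hcon
    push Not at hcon
    have h3 : (1 + 2 / (m:ℝ)) ^ m < y ^ m :=
      pow_lt_pow_left₀ hcon (by positivity) (by omega)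
    linarith
  have r1 : 2 * a ≤ 1 + 2 / m := hroot _ (by positivity) (by linarith)
  have r2 : 2 * b ≤ 1 + 2 / m := hroot _ (by positivity) (by linarith)
  have hth : |a - b| ≤ δ + 2 / m := by
    rw [abs_le]
    constructor <;> linarith
  refine ⟨hth, ?_⟩
  -- (2)
  set t : ℝ := |a - b| with ht
  have ht0 : 0 ≤ t := abs_nonneg _
  have hsq : (a - b) ^ 2 = t ^ 2 := (sq_abs _).symm
  have hP : (1 - δ + t) ^ m + (1 - δ - t) ^ m ≤ 2 * (1 + ι) := by
    rcases le_total b a with hle | hle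
    · have e1 : t = a - b := abs_of_nonneg (by linarith)
      have e2 : 1 - δ + t = 2 * a := by rw [e1]; linarith
      have e3 : 1 - δ - t = 2 * b := by rw [e1]; linarith
      rw [e2, e3]; exact hsum
    · have e1 : t = b - a := by rw [ht, abs_sub_comm]; exact abs_of_nonneg (by linarith)
      have e2 : 1 - δ + t = 2 * b := by rw [e1]; linarith
      have e3 : 1 - δ - t = 2 * a := by rw [e1]; linarith
      rw [e2, e3]; linarith
  have hsq10 : t ^ 2 ≤ 10 * δ := by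
    rcases le_or_gt (δ * m) (1 / 2) with hc | hc
    · have hpq := (n05_pq (1 - δ) t (by linarith) (by linarith) ht0 m).1
      have hal : 1 - δ * m ≤ (1 - δ) ^ m := by
        have h2 : (-2:ℝ) ≤ -δ := by linarith
        have := one_add_mul_le_pow h2 m
        have e : 1 + -δ = 1 - δ := by ring
        rw [e] at this
        linarith
      have hq : 0 ≤ (m:ℝ) * ((m:ℝ) - 1) * t ^ 2 := by positivity
      have h5 : (1 - δ * m) * 2 + (1 / 2) * ((m:ℝ) * ((m:ℝ) - 1) * t ^ 2) ≤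
          (1 - δ) ^ m * (2 + m * ((m : ℝ) - 1) * t ^ 2) := by
        have h6 : (1 / 2 : ℝ) ≤ (1 - δ) ^ m := by linarith
        have h7 := mul_le_mul_of_nonneg_right h6 hq
        rw [mul_add]
        linarith
      have h8 : (1 / 2) * ((m:ℝ) * ((m:ℝ) - 1) * t ^ 2) ≤ 2.5 * (δ * m) := by
        have : (1 - δ * m) * 2 + (1 / 2) * ((m:ℝ) * ((m:ℝ) - 1) * t ^ 2) ≤ 2 * (1 + ι) :=
          h5.trans (hpq.trans hP)
        linarith
      have h9 : (m:ℝ) * ((1 / 2) * (((m:ℝ) - 1) * t ^ 2)) ≤ m * (2.5 * δ) := by linarith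
      have h10 := le_of_mul_le_mul_left h9 hm0
      have h11 : 3 * t ^ 2 ≤ ((m:ℝ) - 1) * t ^ 2 :=
        mul_le_mul_of_nonneg_right (by linarith) (sq_nonneg t)
      linarith
    · have h2 : 2 / (m:ℝ) ≤ 4 * δ := by
        rw [div_le_iff₀ hm0]
        linarith
      have h3 : t ≤ 5 * δ := by linarith
      have h4 : t ^ 2 ≤ (5 * δ) ^ 2 := pow_le_pow_left₀ ht0 h3 2
      have h5 : δ * δ ≤ 1 / 100 * δ := mul_le_mul_of_nonneg_right hδ1 hδ
      have h6 : (5 * δ) ^ 2 = 25 * (δ * δ) := by ring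
      linarith
  rw [hsq]
  refine ⟨hsq10, ?_⟩
  -- (3)
  have h4ab : 1 - 12 * δ ≤ 4 * (a * b) := by
    have : 4 * (a * b) = (a + b) ^ 2 - (a - b) ^ 2 := by ring
    rw [this, hab, hsq]
    have h5 : (1 - δ) ^ 2 = 1 - 2 * δ + δ * δ := by ring
    have h6 := mul_nonneg hδ hδ
    rw [h5]
    linarith
  have hu : 0 < 1 - 12 * δ := by linarith
  have hab0 : 0 < 4 * (a * b) := lt_of_lt_of_le hu h4ab
  have ha0 : 0 < a := by
    rcases ha.lt_or_eq with h | h
    · exact h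
    · exfalso
      rw [← h] at hab0
      simp at hab0
  have hb0 : 0 < b := by
    rcases hb.lt_or_eq with h | h
    · exact h
    · exfalso
      rw [← h] at hab0
      simp at hab0
  have hxy : ((2 * a) ^ m * E0) * ((2 * b) ^ m * E1) ≤ (1 + ι) ^ 2 := by
    have hx0 : 0 ≤ (2 * a) ^ m * E0 := by positivity
    have hy0 : 0 ≤ (2 * b) ^ m * E1 := by positivity
    generalize (2 * a) ^ m * E0 = x at hx hx0 ⊢
    generalize (2 * b) ^ m * E1 = y at hx hy0 ⊢
    have h7 : (x + y) ^ 2 ≤ (2 * (1 + ι)) ^ 2 := pow_le_pow_left₀ (add_nonneg hx0 hy0) hx 2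
    have h8 := sq_nonneg (x - y)
    have h9 : (x + y) ^ 2 = (x - y) ^ 2 + 4 * (x * y) := by ring
    have h10 : (2 * (1 + ι)) ^ 2 = 4 * (1 + ι) ^ 2 := by ring
    rw [h9, h10] at h7
    linarith
  have hxy2 : ((2 * a) ^ m * E0) * ((2 * b) ^ m * E1) =
      (4 * (a * b)) ^ m * Real.exp (((m : ℝ) - 1) * (D0 + D1)) := by
    rw [mul_add, Real.exp_add, ← hE0, ← hE1]
    have : (4 * (a * b)) ^ m = (2 * a) ^ m * (2 * b) ^ m := by
      rw [← mul_pow]; congr 1; ring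
    rw [this]
    ring
  rw [hxy2] at hxy
  have hlog := Real.log_le_log (by positivity) hxy
  rw [Real.log_mul (by positivity) (by positivity), Real.log_exp, Real.log_pow, Real.log_pow] at hlog
  have hl1 : Real.log (1 + ι) ≤ ι := by
    have := Real.log_le_sub_one_of_pos (show (0:ℝ) < 1 + ι by linarith)
    linarith
  have hl2 : -(24 * δ) ≤ Real.log (4 * (a * b)) := by
    have h3 := Real.one_sub_inv_le_log_of_pos hu
    have h4 : Real.log (1 - 12 * δ) ≤ Real.log (4 * (a * b)) := Real.log_le_log hu h4ab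
    have h5 : -(24 * δ) ≤ 1 - (1 - 12 * δ)⁻¹ := by
      have h6 : (1 - 12 * δ)⁻¹ ≤ 1 + 24 * δ := by
        rw [inv_le_iff_one_le_mul₀ hu]
        have h7 : δ * δ ≤ 1 / 100 * δ := mul_le_mul_of_nonneg_right hδ1 hδ
        have h8 : (1 + 24 * δ) * (1 - 12 * δ) = 1 + 12 * δ - 288 * (δ * δ) := by ring
        rw [h8]
        linarith
      linarith
    linarith
  have hl3 : (m:ℝ) * -(24 * δ) ≤ m * Real.log (4 * (a * b)) :=
    mul_le_mul_of_nonneg_left hl2 hm0.le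
  push_cast at hlog
  have hfin : ((m:ℝ) - 1) * (D0 + D1) ≤ 24.5 * (δ * m) := by
    have : 2 * Real.log (1 + ι) ≤ δ * m / 2 := by linarith
    linarith
  have h12 : ((m:ℝ) - 1) * (D0 + D1) ≤ ((m:ℝ) - 1) * (50 * δ) := by
    refine hfin.trans ?_
    have h13 : 0 ≤ δ * (25.5 * m - 50) := mul_nonneg hδ (by linarith)
    linarith
  have hm1' : (0:ℝ) < (m:ℝ) - 1 := by linarith
  exact le_of_mul_le_mul_left h12 hm1'

end Pool.Agent.ZT
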