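import Pool.Agent.ZT.N02

/-! # [ZN-06] almost all vertices are good -/

set_option autoImplicit false

open Finset

namespace Pool.Agent.ZT

variable {V : Type} [Fintype V] [Nonempty V]

/-- PROOF. Let `λ = lam K`, `ρ x = dgr K x / λ ≤ 1 / λ ≤ 5/2`. `(dgr K x - λ)^2 = λ^2 (√ρ - 1)^2 (√ρ + 1)^2 ≤ (3/5)^2 (13/5)^2 (√ρ - 1)^2 ≤ (5/2) (√ρ - 1)^2` and `Dv_ge`;
`(dgr K x - 1/2)^2 ≤ 2 (dgr K x - λ)^2 + 2 (λ - 1/2)^2`. -/
theorem var_le (K : V → V → ℝ) (hK : ∀ x y, 0 ≤ K x y) (hK1 : ∀ x y, K x y ≤ 1)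
    (h1 : 2 / 5 ≤ lam K) (h2 : lam K ≤ 3 / 5) :
    (∑ x, (dgr K x - 1 / 2) ^ 2) / (Fintype.card V : ℝ) ≤ 5 * Dv K + 2 * (lam K - 1 / 2) ^ 2 := by
  have hn : (0 : ℝ) < Fintype.card V := by exact_mod_cast Fintype.card_pos
  have hl : 0 < lam K := by linarith
  have hD := Dv_ge K hK hl
  have hx : ∀ x, (dgr K x - 1 / 2) ^ 2 ≤
      5 * (√(dgr K x / lam K) - 1) ^ 2 + 2 * (lam K - 1 / 2) ^ 2 := by
    intro x
    have hd0 := dgr_nonneg hK x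
    have hd1 := dgr_le_one hK1 x
    obtain ⟨s, hs⟩ : ∃ s, s = √(dgr K x / lam K) := ⟨_, rfl⟩
    rw [← hs]
    have hs0 : 0 ≤ s := by rw [hs]; exact Real.sqrt_nonneg _
    have hs2 : s ^ 2 = dgr K x / lam K := by rw [hs]; exact Real.sq_sqrt (div_nonneg hd0 hl.le)
    have hd : dgr K x = lam K * s ^ 2 := by rw [hs2]; field_simp
    have hs3 : s ^ 2 ≤ 5 / 2 := by
      rw [hs2, div_le_iff₀ hl]
      linarith
    have hs4 : s ≤ 8 / 5 := by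
      by_contra hcon
      push Not at hcon
      nlinarith
    have h3 : lam K * (s + 1) ≤ 39 / 25 := by
      have : lam K * (s + 1) ≤ 3 / 5 * (13 / 5) :=
        mul_le_mul h2 (by linarith) (by linarith) (by norm_num)
      linarith
    have h4 : (lam K * (s + 1)) ^ 2 ≤ 5 / 2 := by
      have h5 : 0 ≤ lam K * (s + 1) := by positivity
      nlinarith
    have h5 : (dgr K x - lam K) ^ 2 ≤ 5 / 2 * (s - 1) ^ 2 := by
      have h6 : (dgr K x - lam K) ^ 2 = (lam K * (s + 1)) ^ 2 * (s - 1) ^ 2 := by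
        rw [hd]; ring
      rw [h6]
      exact mul_le_mul_of_nonneg_right h4 (sq_nonneg _)
    nlinarith [sq_nonneg ((dgr K x - lam K) - (lam K - 1 / 2))]
  have hsum : ∑ x, (dgr K x - 1 / 2) ^ 2 ≤
      5 * ∑ x, (√(dgr K x / lam K) - 1) ^ 2 + (Fintype.card V : ℝ) * (2 * (lam K - 1 / 2) ^ 2) := by
    calc ∑ x, (dgr K x - 1 / 2) ^ 2 ≤
        ∑ x, (5 * (√(dgr K x / lam K) - 1) ^ 2 + 2 * (lam K - 1 / 2) ^ 2) :=
          sum_le_sum fun x _ => hx x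
      _ = _ := by
          rw [sum_add_distrib, ← mul_sum]
          simp
  rw [div_le_iff₀ hn]
  rw [div_le_iff₀ hn] at hD
  nlinarith

/-- PROOF. Chebyshev: `η^2 * #(not good) ≤ ∑_x ((dgr (Wk c 0) x - 1/2)^2 + (dgr (Wk c 1) x - 1/2)^2)`; `var_le` for both kernels; `lam (Wk c 0) - 1/2 = (θ - δ)/2`, `lam (Wk c 1) - 1/2 = (-θ - δ)/2`
with `θ = lam (Wk c 0) - lam (Wk c 1)`, `θ^2 ≤ 10 δ`: `(λ - 1/2)^2 ≤ (θ^2 + δ^2)/2 ≤ 6 δ`; in total `≤ 5 * 50 δ + 24 δ ≤ 300 δ`. (`2/5 ≤ λ ≤ 3/5`: `|λ - 1/2| ≤ (|θ| + δ)/2 ≤ δ + 1/m`.) -/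
theorem good_card {m : ℕ} (hm : 20 ≤ m) (c : V → V → ZMod m) (δ : ℝ) (hδ : 0 ≤ δ) (hδ1 : δ ≤ 1 / 100)
    (hab : lam (Wk c 0) + lam (Wk c 1) = 1 - δ)
    (hθ1 : |lam (Wk c 0) - lam (Wk c 1)| ≤ δ + 2 / m)
    (hθ : (lam (Wk c 0) - lam (Wk c 1)) ^ 2 ≤ 10 * δ) (hD : Dv (Wk c 0) + Dv (Wk c 1) ≤ 50 * δ)
    (η : ℝ) (hη : 0 < η) :
    (cnt (fun x : V => ¬ Good c η x) : ℝ) ≤ 300 * δ / η ^ 2 * (Fintype.card V : ℝ) := by
  classical
  have hn : (0 : ℝ) < Fintype.card V := by exact_mod_cast Fintype.card_pos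
  have hm' : (20 : ℝ) ≤ m := by exact_mod_cast hm
  have hmi : 2 / (m : ℝ) ≤ 1 / 10 := by
    rw [div_le_div_iff₀ (by linarith) (by norm_num)]
    linarith
  obtain ⟨θ, hθd⟩ : ∃ θ, θ = lam (Wk c 0) - lam (Wk c 1) := ⟨_, rfl⟩
  rw [← hθd] at hθ1 hθ
  have hθ2 := abs_le.1 hθ1
  have v0 := var_le (Wk c 0) (Wk_nonneg c 0) (Wk_le_one c 0) (by linarith [hθ2.1, hθ2.2])
    (by linarith [hθ2.1, hθ2.2])
  have v1 := var_le (Wk c 1) (Wk_nonneg c 1) (Wk_le_one c 1) (by linarith [hθ2.1, hθ2.2])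
    (by linarith [hθ2.1, hθ2.2])
  have e0 : lam (Wk c 0) - 1 / 2 = (θ - δ) / 2 := by linarith
  have e1 : lam (Wk c 1) - 1 / 2 = (-θ - δ) / 2 := by linarith
  rw [e0] at v0
  rw [e1] at v1
  have hδ2 : δ ^ 2 ≤ δ := by nlinarith
  have htot : (∑ x, (dgr (Wk c 0) x - 1 / 2) ^ 2) / (Fintype.card V : ℝ) +
      (∑ x, (dgr (Wk c 1) x - 1 / 2) ^ 2) / (Fintype.card V : ℝ) ≤ 300 * δ := by
    nlinarith
  have hcheb : (cnt (fun x : V => ¬ Good c η x) : ℝ) * η ^ 2 ≤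
      ∑ x, ((dgr (Wk c 0) x - 1 / 2) ^ 2 + (dgr (Wk c 1) x - 1 / 2) ^ 2) := by
    rw [cnt_eq_sum, sum_mul]
    refine sum_le_sum fun x _ => ?_
    by_cases hx : ¬ Good c η x
    · rw [if_pos hx, one_mul]
      unfold Good at hx
      rw [not_and_or, not_le, not_le] at hx
      rcases hx with hx | hx
      · have h1 : η ^ 2 ≤ (dgr (Wk c 0) x - 1 / 2) ^ 2 := by
          rw [← sq_abs (dgr (Wk c 0) x - 1 / 2)]
          exact pow_le_pow_left₀ hη.le hx.le 2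
        nlinarith [sq_nonneg (dgr (Wk c 1) x - 1 / 2)]
      · have h1 : η ^ 2 ≤ (dgr (Wk c 1) x - 1 / 2) ^ 2 := by
          rw [← sq_abs (dgr (Wk c 1) x - 1 / 2)]
          exact pow_le_pow_left₀ hη.le hx.le 2
        nlinarith [sq_nonneg (dgr (Wk c 0) x - 1 / 2)]
    · rw [if_neg hx, zero_mul]
      positivity
  rw [sum_add_distrib] at hcheb
  rw [← add_div, div_le_iff₀ hn] at htot
  have hη2 : 0 < η ^ 2 := by positivity
  rw [div_mul_eq_mul_div, le_div_iff₀ hη2]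
  exact le_trans hcheb htot

end Pool.Agent.ZT
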