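import Pool.Agent.ZT.NDefs

/-! # [ZN-07] grafting gadgets on a core tree -/

set_option autoImplicit false

open Finset

namespace Pool.Agent.ZT

/-- The equivalence between the labels of the core and the gadgets and the labels `A`. -/
theorem n07_equiv {A : Type} [Fintype A] [DecidableEq A] (v : A) {B : Type} [Fintype B]
    [DecidableEq B] (b0 : B) {J : Type} [Fintype J] [DecidableEq J] (e : J ⊕ J ↪ {a : A // a ≠ v})
    (hcard : Fintype.card B + 2 * Fintype.card J = Fintype.card A) :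
    ∃ φ : B ⊕ (J ⊕ J) ≃ A, φ (Sum.inl b0) = v ∧ ∀ i, φ (Sum.inr i) = (e i).1 := by
  let f : B ⊕ (J ⊕ J) → A := Sum.elim (fun _ => v) (fun i => (e i).1)
  let s : Set (B ⊕ (J ⊕ J)) := {u | u = Sum.inl b0 ∨ ∃ i, u = Sum.inr i}
  have hc : Fintype.card (B ⊕ (J ⊕ J)) = (univ : Finset A).card := by
    rw [Fintype.card_sum, Fintype.card_sum, card_univ, ← hcard]
    ring
  have hm : Set.MapsTo f s ((univ : Finset A) : Set A) := fun _ _ => by simp
  have hi : Set.InjOn f s := by
    intro a ha b hb hab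
    rcases ha with rfl | ⟨i, rfl⟩ <;> rcases hb with rfl | ⟨i', rfl⟩
    · rfl
    · exact absurd hab.symm (e i').2
    · exact absurd hab (e i).2
    · have : e i = e i' := Subtype.ext hab
      rw [e.injective this]
  obtain ⟨g, hg⟩ := hm.exists_equiv_extend_of_card_eq hc hi
  refine ⟨g.trans (Equiv.subtypeUnivEquiv (fun a => mem_univ a)), ?_, ?_⟩
  · have := hg (Sum.inl b0) (Or.inl rfl)
    simpa [f] using this
  · intro i
    have := hg (Sum.inr i) (Or.inr ⟨i, rfl⟩)
    simpa [f] using this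

/-- The predicate counted by `S0`. -/
def n07_pred {m : ℕ} {V : Type} (c : V → V → ZMod m) (Gd : V → Prop)
    {B : Type} [Fintype B] [DecidableEq B] (b0 : B) {J : Type} (col : J → ZMod m)
    (s : (B → B) × (B → V) × (J → B × (V × V))) : Prop :=
  s.1 ∈ PT B b0 ∧ (∀ w ∈ univ.erase b0, c (s.2.1 w) (s.2.1 (s.1 w)) = 0 ∧ Gd (s.2.1 w) ∧
    Gd (s.2.1 (s.1 w))) ∧ ∀ i, Gd (s.2.2 i).2.1 ∧ c (s.2.2 i).2.1 (s.2.1 (s.2.2 i).1) = 0 ∧
    c (s.2.2 i).2.2 (s.2.2 i).2.1 = col i

theorem n07_gadgets {m : ℕ} {V : Type} [Fintype V] (c : V → V → ZMod m) (Gd : V → Prop)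
    {B : Type} [Fintype B] {J : Type} [Fintype J] [DecidableEq J] (col : J → ZMod m)
    (x : B → V) [∀ f : J → B × (V × V), Decidable (∀ i, Gd (f i).2.1 ∧
      c (f i).2.1 (x (f i).1) = 0 ∧ c (f i).2.2 (f i).2.1 = col i)] :
    ∏ i : J, ∑ b : B, (Fg c Gd (col i) (x b) : ℝ) =
      ∑ f : J → B × (V × V), if (∀ i, Gd (f i).2.1 ∧ c (f i).2.1 (x (f i).1) = 0 ∧
        c (f i).2.2 (f i).2.1 = col i) then (1:ℝ) else 0 := by
  classical
  have h1 : ∀ i : J, ∑ b : B, (Fg c Gd (col i) (x b) : ℝ) = ∑ u : B × (V × V),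
      if (Gd u.2.1 ∧ c u.2.1 (x u.1) = 0 ∧ c u.2.2 u.2.1 = col i) then (1:ℝ) else 0 := by
    intro i
    rw [Fintype.sum_prod_type]
    refine sum_congr rfl (fun b _ => ?_)
    unfold Fg
    rw [cnt_eq_sum]
  simp_rw [h1]
  rw [prod_univ_sum, Fintype.piFinset_univ]
  refine sum_congr rfl (fun f _ => ?_)
  rw [prod_ite_zero]
  simp only [mem_univ, true_implies, prod_const_one]

theorem n07_count {m : ℕ} {V : Type} [Fintype V] (c : V → V → ZMod m) (Gd : V → Prop)
    {B : Type} [Fintype B] [DecidableEq B] (b0 : B)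
    {J : Type} [Fintype J] [DecidableEq J] (col : J → ZMod m) :
    S0 c Gd B b0 col = cnt (n07_pred c Gd b0 col) := by
  classical
  rw [cnt_eq_sum]
  unfold S0
  rw [Fintype.sum_prod_type]
  rw [← sum_filter_add_sum_filter_not univ (fun p => p ∈ PT B b0)
    (fun p => ∑ y : (B → V) × (J → B × (V × V)),
      if n07_pred c Gd b0 col (p, y) then (1:ℝ) else 0)]
  have h2 : ∑ p with p ∉ PT B b0, (∑ y : (B → V) × (J → B × (V × V)),
      if n07_pred c Gd b0 col (p, y) then (1:ℝ) else 0) = 0 := by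
    refine sum_eq_zero (fun p hp => ?_)
    refine sum_eq_zero (fun y _ => ?_)
    rw [if_neg]
    intro h
    exact (mem_filter.1 hp).2 h.1
  have h5 : (univ.filter fun p => p ∈ PT B b0) = PT B b0 := by
    ext p
    simp
  rw [h2, add_zero, h5]
  refine sum_congr rfl (fun p hp => ?_)
  rw [Fintype.sum_prod_type]
  refine sum_congr rfl (fun x _ => ?_)
  rw [n07_gadgets, mul_sum]
  refine sum_congr rfl (fun f _ => ?_)
  by_cases h3 : ∀ w ∈ univ.erase b0, c (x w) (x (p w)) = 0 ∧ Gd (x w) ∧ Gd (x (p w))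
  · have h7 : ∀ w ∈ univ.erase b0, WG c 0 Gd (x w) (x (p w)) = 1 := fun w hw => by
      unfold WG
      rw [if_pos (h3 w hw)]
    rw [prod_eq_one h7, one_mul]
    by_cases h4 : ∀ i, Gd (f i).2.1 ∧ c (f i).2.1 (x (f i).1) = 0 ∧ c (f i).2.2 (f i).2.1 = col i
    · rw [if_pos h4, if_pos ⟨hp, h3, h4⟩]
    · rw [if_neg h4, if_neg fun h => h4 h.2.2]
  · have h3' := h3
    rw [not_forall] at h3'
    obtain ⟨w, h6⟩ := h3'
    rw [Classical.not_imp] at h6
    have h7 : WG c 0 Gd (x w) (x (p w)) = 0 := by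
      unfold WG
      rw [if_neg h6.2]
    rw [prod_eq_zero h6.1 h7, zero_mul, if_neg fun h => h3 h.2.1]

/-- The parent function on the disjoint union. -/
def n07_par {B J V : Type} (p : B → B) (f : J → B × (V × V)) : B ⊕ (J ⊕ J) → B ⊕ (J ⊕ J) :=
  Sum.elim (fun b => Sum.inl (p b)) (Sum.elim (fun i => Sum.inl (f i).1) (fun i => Sum.inr (Sum.inl i)))

/-- The placement on the disjoint union. -/
def n07_pl {B J V : Type} (x : B → V) (f : J → B × (V × V)) : B ⊕ (J ⊕ J) → V :=
  Sum.elim x (Sum.elim (fun i => (f i).2.1) (fun i => (f i).2.2))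

theorem n07_iter {B J V : Type} (p : B → B) (f : J → B × (V × V)) (k : ℕ) (b : B) :
    (n07_par p f)^[k] (Sum.inl b) = Sum.inl (p^[k] b) := by
  induction k generalizing b with
  | zero => rfl
  | succ k ih =>
    rw [Function.iterate_succ_apply, Function.iterate_succ_apply, ← ih]
    rfl

theorem n07_conj {A X : Type} (φ : X ≃ A) (P : X → X) (k : ℕ) (u : X) :
    (fun a => φ (P (φ.symm a)))^[k] (φ u) = φ (P^[k] u) := by
  induction k generalizing u with
  | zero => rfl
  | succ k ih =>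
    rw [Function.iterate_succ_apply, Function.iterate_succ_apply, ← ih]
    simp

/-- PROOF. By cardinality there is an equivalence `φ : B ⊕ (J ⊕ J) ≃ A` with `φ (inl b0) = v` and `φ (inr i) = (e i).1` for all `i : J ⊕ J` (the complement of the range of `e` in `{a // a ≠ v}` has
`card B - 1` elements). The left side is the number of `(p, x, q, z)`, `p ∈ PT B b0`, `x : B → V`, `q : J → B`, `z : J → V × V` with `∏ WG = 1` (all edges of `p` have colour `0`) and for all `i`:
`Gd (z i).1`, `c (z i).1 (x (q i)) = 0`, `c (z i).2 (z i).1 = col i` (`Finset.prod_univ_sum`, `Fintype.piFinset`; `Fg` is a count). To it associate, transported by `φ`, the parent function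
`inl b ↦ inl (p b)`, `inr (inl i) ↦ inl (q i)`, `inr (inr i) ↦ inr (inl i)` and the placement `inl b ↦ x b`, `inr (inl i) ↦ (z i).1`, `inr (inr i) ↦ (z i).2`. It satisfies `Gad`, and the map is
injective. -/
theorem graft {m : ℕ} {V : Type} [Fintype V] (c : V → V → ZMod m) (Gd : V → Prop)
    {A : Type} [Fintype A] [DecidableEq A] (v : A) {B : Type} [Fintype B] [DecidableEq B] (b0 : B)
    {J : Type} [Fintype J] [DecidableEq J] (col : J → ZMod m) (e : J ⊕ J ↪ {a : A // a ≠ v})
    (hcard : Fintype.card B + 2 * Fintype.card J = Fintype.card A) :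
    S0 c Gd B b0 col ≤ cnt (Gad c v col e) := by
  classical
  obtain ⟨φ, hφ0, hφ⟩ := n07_equiv v b0 e hcard
  rw [n07_count]
  refine Nat.cast_le.2 ?_
  refine cnt_inj (fun s : (B → B) × (B → V) × (J → B × (V × V)) =>
    ((fun a => φ (n07_par s.1 s.2.2 (φ.symm a))), fun a => n07_pl s.2.1 s.2.2 (φ.symm a))) ?_ ?_
  · rintro ⟨p, x, f⟩ ⟨hp, hA, hC⟩
    simp only at hp hA hC
    rw [mem_PT] at hp
    obtain ⟨hp0, hpk⟩ := hp
    refine ⟨?_, ?_, ?_, ?_⟩
    · rw [mem_PT]
      refine ⟨?_, ?_⟩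
      · rw [← hφ0]
        simp only [Equiv.symm_apply_apply, n07_par, Sum.elim_inl, hp0]
      · intro w
        obtain ⟨u, rfl⟩ := φ.surjective w
        have key : ∃ k, (n07_par p f)^[k] u = Sum.inl b0 := by
          rcases u with b | i | i
          · obtain ⟨k, hk⟩ := hpk b
            exact ⟨k, by rw [n07_iter, hk]⟩
          · obtain ⟨k, hk⟩ := hpk (f i).1
            refine ⟨k + 1, ?_⟩
            rw [Function.iterate_succ_apply]
            show (n07_par p f)^[k] (Sum.inl (f i).1) = _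
            rw [n07_iter, hk]
          · obtain ⟨k, hk⟩ := hpk (f i).1
            refine ⟨k + 1 + 1, ?_⟩
            rw [Function.iterate_succ_apply, Function.iterate_succ_apply]
            show (n07_par p f)^[k] (Sum.inl (f i).1) = _
            rw [n07_iter, hk]
        obtain ⟨k, hk⟩ := key
        refine ⟨k, ?_⟩
        rw [n07_conj, hk, hφ0]
    · intro i
      rw [← hφ, ← hφ]
      simp only [Equiv.symm_apply_apply, n07_par, Sum.elim_inr]
    · intro i
      rw [← hφ, ← hφ]
      simp only [Equiv.symm_apply_apply, n07_pl, Sum.elim_inr, Sum.elim_inl]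
      exact (hC i).2.2
    · intro w hw hwi
      obtain ⟨u, rfl⟩ := φ.surjective w
      simp only [Equiv.symm_apply_apply]
      rcases u with b | i | i
      · have hb : b ≠ b0 := by
          rintro rfl
          exact hw hφ0
        exact (hA b (mem_erase.2 ⟨hb, mem_univ _⟩)).1
      · exact (hC i).2.1
      · exact absurd (hφ (Sum.inr i)) (hwi i)
  · rintro ⟨p, x, f⟩ ⟨p', x', f'⟩ _ _ h
    simp only [Prod.mk.injEq] at h
    obtain ⟨h1, h2⟩ := h
    have k1 : ∀ u, n07_par p f u = n07_par p' f' u := by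
      intro u
      have := congrFun h1 (φ u)
      simpa using this
    have k2 : ∀ u, n07_pl x f u = n07_pl x' f' u := by
      intro u
      have := congrFun h2 (φ u)
      simpa using this
    have e1 : p = p' := by
      funext b
      have := k1 (Sum.inl b)
      exact Sum.inl_injective this
    have e2 : x = x' := by
      funext b
      exact k2 (Sum.inl b)
    have e3 : f = f' := by
      funext i
      have a1 : (f i).1 = (f' i).1 := Sum.inl_injective (k1 (Sum.inr (Sum.inl i)))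
      have a2 : (f i).2.1 = (f' i).2.1 := k2 (Sum.inr (Sum.inl i))
      have a3 : (f i).2.2 = (f' i).2.2 := k2 (Sum.inr (Sum.inr i))
      exact Prod.ext a1 (Prod.ext a2 a3)
    rw [e1, e2, e3]

end Pool.Agent.ZT
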