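import Pool.Agent.ZT.N07

/-! # [ZN-08] multiplicities: every placed tree has few families of gadgets -/

set_option autoImplicit false

open Finset

namespace Pool.Agent.ZT

/-- the colours of `j` third gadgets (`-s`) and `k` flips (`1`) -/
def col3 (m s j k : ℕ) : Fin j ⊕ Fin k → ZMod m := Sum.elim (fun _ => -(s : ZMod m)) (fun _ => 1)

/-- Double counting. -/
theorem n08_double {E Q : Type} [Fintype E] [Fintype Q] (R : E → Q → Prop) (X : Q → Prop) (N : ℕ)
    (hX : ∀ e q, R e q → X q) (hN : ∀ q, cnt (fun e => R e q) ≤ N) :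
    ∑ e, (cnt (R e) : ℝ) ≤ (N : ℝ) * (cnt X : ℝ) := by
  classical
  have h1 : ∀ e, (cnt (R e) : ℝ) = ∑ q, if R e q then (1:ℝ) else 0 := fun e => cnt_eq_sum _
  simp_rw [h1]
  rw [sum_comm, cnt_eq_sum, mul_sum]
  refine sum_le_sum (fun q _ => ?_)
  rw [← cnt_eq_sum]
  by_cases hq : X q
  · rw [if_pos hq, mul_one]
    exact_mod_cast hN q
  · rw [if_neg hq, mul_zero]
    have h0 : cnt (fun e => R e q) = 0 := by
      rw [cnt_eq_card, card_eq_zero, filter_eq_empty_iff]
      intro e _ he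
      exact hq (hX e q he)
    rw [h0]
    norm_num

/-- The number of injections into a finite set. -/
theorem n08_inj {A : Type} [Fintype A] [DecidableEq A] (j : ℕ) (W : Finset A) (hW : W.card ≤ j) :
    cnt (fun g : Fin j → A => Function.Injective g ∧ ∀ i, g i ∈ W) ≤ j.factorial := by
  classical
  rw [cnt_eq_card, ← Fintype.card_subtype]
  have h1 : Fintype.card {g : Fin j → A // Function.Injective g ∧ ∀ i, g i ∈ W} ≤
      Fintype.card (Fin j ↪ {a // a ∈ W}) := by
    refine Fintype.card_le_of_injective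
      (fun g => ⟨fun i => ⟨g.1 i, g.2.2 i⟩, fun a b hab => g.2.1 (congrArg Subtype.val hab)⟩) ?_
    intro g g' h
    apply Subtype.ext
    funext i
    have := congrFun (congrArg (fun f : Fin j ↪ {a // a ∈ W} => (f : Fin j → {a // a ∈ W})) h) i
    exact congrArg Subtype.val this
  refine h1.trans ?_
  rw [Fintype.card_embedding_eq, Fintype.card_coe, Fintype.card_fin, ← Nat.descFactorial_self]
  exact Nat.descFactorial_le j hW

/-- The number of vertices of the colour `a` is at most the number of leaves of the colour `a`. -/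
theorem n08_cardW {m : ℕ} {V : Type} (c : V → V → ZMod m)
    {A : Type} [Fintype A] [DecidableEq A] (v : A) {J K : Type} [Fintype K]
    (col : J → ZMod m) (e : J ⊕ J ↪ {a : A // a ≠ v}) (q : (A → A) × (A → V))
    (h : Gad c v col e q) (a : ZMod m) (ha : a ≠ 0) (ι : K → J)
    (hι : ∀ i, col i = a → ∃ k, i = ι k) (W : Finset A)
    (hW : ∀ w, w ∈ W → w ≠ v ∧ c (q.2 w) (q.2 (q.1 w)) = a) :
    W.card ≤ Fintype.card K := by
  classical
  obtain ⟨_, h2, h3, h4⟩ := h
  have hsub : W ⊆ univ.image (fun k : K => (e (Sum.inr (ι k))).1) := by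
    intro w hw
    obtain ⟨hwv, hwa⟩ := hW w hw
    by_cases hex : ∃ i, w = (e (Sum.inr i)).1
    · obtain ⟨i, rfl⟩ := hex
      have h5 : col i = a := by
        rw [← h3 i, ← h2 i]
        exact hwa
      obtain ⟨k, rfl⟩ := hι i h5
      exact mem_image.2 ⟨k, mem_univ _, rfl⟩
    · exfalso
      rw [not_exists] at hex
      rw [h4 w hwv hex] at hwa
      exact ha hwa.symm
  exact (card_le_card hsub).trans (card_image_le.trans (le_of_eq card_univ))

theorem n08_ext {m : ℕ} {V : Type} (c : V → V → ZMod m)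
    {A : Type} [Fintype A] [DecidableEq A] (v : A) {J : Type}
    (col : J → ZMod m) (e e' : J ⊕ J ↪ {a : A // a ≠ v}) (q : (A → A) × (A → V))
    (h : Gad c v col e q) (h' : Gad c v col e' q)
    (heq : ∀ i, (e (Sum.inr i)).1 = (e' (Sum.inr i)).1) : e = e' := by
  obtain ⟨_, h2, _, _⟩ := h
  obtain ⟨_, h2', _, _⟩ := h'
  apply Function.Embedding.ext
  rintro (i | i)
  · apply Subtype.ext
    rw [← h2 i, ← h2' i, heq i]
  · exact Subtype.ext (heq i)

/-- The colour sum of a placed tree with gadgets. -/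
theorem n08_PS {m : ℕ} {V : Type} (c : V → V → ZMod m)
    {A : Type} [Fintype A] [DecidableEq A] (v : A) {J : Type} [Fintype J]
    (col : J → ZMod m) (e : J ⊕ J ↪ {a : A // a ≠ v}) (q : (A → A) × (A → V))
    (h : Gad c v col e q) : PS c q.1 v q.2 = ∑ i, col i := by
  classical
  obtain ⟨_, h2, h3, h4⟩ := h
  have hinj : Function.Injective (fun i : J => (e (Sum.inr i)).1) := by
    intro a b hab
    exact Sum.inr_injective (e.injective (Subtype.ext hab))
  unfold PS
  have hsub : univ.image (fun i : J => (e (Sum.inr i)).1) ⊆ univ.erase v := by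
    intro w hw
    obtain ⟨i, _, rfl⟩ := mem_image.1 hw
    exact mem_erase.2 ⟨(e (Sum.inr i)).2, mem_univ _⟩
  rw [← sum_subset hsub]
  · rw [sum_image (fun a _ b _ hab => hinj hab)]
    refine sum_congr rfl (fun i _ => ?_)
    rw [← h3 i, ← h2 i]
  · intro w hw hw'
    refine h4 w (mem_erase.1 hw).1 (fun i hi => hw' ?_)
    exact mem_image.2 ⟨i, mem_univ _, hi.symm⟩

theorem n08_card_emb (m : ℕ) (J : Type) [Fintype J] [DecidableEq J] :
    Fintype.card (J ⊕ J ↪ {a : Fin (m + 1) // a ≠ 0}) = m.descFactorial (2 * Fintype.card J) := by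
  classical
  rw [Fintype.card_embedding_eq, Fintype.card_sum]
  have h1 : Fintype.card {a : Fin (m + 1) // a ≠ 0} = m := by
    rw [Fintype.card_subtype_compl (fun a : Fin (m + 1) => a = 0)]
    simp
  rw [h1, two_mul]

/-- PROOF. `J = Fin j ⊕ Fin k`, `k = j * s`. Sum `graft` over all `e : J ⊕ J ↪ {a : Fin (m+1) // a ≠ 0}`; their number is `m.descFactorial (2 * (j + k))` (`Fintype.card_embedding_eq`). If `Gad c 0 (col3 ..) e (p, x)` then
`p ∈ PT`, `PS c p 0 x = j * (-s) + k * 1 = 0`, not all colours are `0` (a third leaf has colour `-s ≠ 0`, `1 ≤ s < m`) and not all are `1` (`-s ≠ 1` as `s ≠ m - 1`).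
Fibres: for fixed `(p, x)` the number of `e` with `Gad` is `≤ j! k!`: `{w ≠ 0 | c (x w) (x (p w)) = -s}` is exactly the set of the `j` leaves `e (inr (inl i))` (all other colours are `0` or `1`), so `i ↦ e (inr (inl i))` is a bijection
of `Fin j` onto a set `W` of `j` elements determined by `(p, x)`: at most `j!` possibilities (`Fin j ↪ W`, `Fintype.card_embedding_eq`, `Nat.descFactorial_self`); in the same way `k!` for the colour `1`; and `e (inl i) = p (e (inr i))`.
Use `Finset.card_le_mul_card_image_of_maps_to` or sum over fibres. -/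
theorem fib_le {V : Type} [Fintype V] (m s j : ℕ) (hs1 : 1 ≤ s) (hs2 : s + 2 ≤ m) (hj : 1 ≤ j)
    (c : V → V → ZMod m) (Gd : V → Prop) {B : Type} [Fintype B] [DecidableEq B] (b0 : B)
    (hB : Fintype.card B + 2 * (j + j * s) = m + 1) :
    (m.descFactorial (2 * (j + j * s)) : ℝ) * S0 c Gd B b0 (col3 m s j (j * s)) ≤
      (j.factorial : ℝ) * ((j * s).factorial : ℝ) * (Xm c : ℝ) := by
  classical
  have hm2 : 1 < m := by omega
  have : Fact (1 < m) := ⟨hm2⟩
  have hs0 : (s : ZMod m) ≠ 0 := by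
    intro h
    rw [ZMod.natCast_eq_zero_iff] at h
    exact absurd (Nat.le_of_dvd (by omega) h) (by omega)
  have hns0 : (-(s : ZMod m)) ≠ 0 := neg_ne_zero.2 hs0
  have hns1 : (-(s : ZMod m)) ≠ 1 := by
    intro h
    have h1 : ((s + 1 : ℕ) : ZMod m) = 0 := by
      push_cast
      rw [← h]
      ring
    rw [ZMod.natCast_eq_zero_iff] at h1
    exact absurd (Nat.le_of_dvd (by omega) h1) (by omega)
  have h10 : (1 : ZMod m) ≠ 0 := one_ne_zero
  set col : Fin j ⊕ Fin (j * s) → ZMod m := col3 m s j (j * s) with hcol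
  have hcJ : Fintype.card (Fin j ⊕ Fin (j * s)) = j + j * s := by simp
  have hcard : Fintype.card B + 2 * Fintype.card (Fin j ⊕ Fin (j * s)) =
      Fintype.card (Fin (m + 1)) := by
    rw [hcJ, Fintype.card_fin]
    exact hB
  have hX : ∀ (e : (Fin j ⊕ Fin (j * s)) ⊕ (Fin j ⊕ Fin (j * s)) ↪ {a : Fin (m + 1) // a ≠ 0})
      (q : (Fin (m + 1) → Fin (m + 1)) × (Fin (m + 1) → V)), Gad c 0 col e q →
      (q.1 ∈ PT (Fin (m + 1)) 0 ∧ PS c q.1 0 q.2 = 0 ∧ ¬ Mono c 0 0 q ∧ ¬ Mono c 0 1 q) := by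
    intro e q h
    have hcl : c (q.2 (e (Sum.inr (Sum.inl ⟨0, hj⟩))).1)
        (q.2 (q.1 (e (Sum.inr (Sum.inl ⟨0, hj⟩))).1)) = -(s : ZMod m) := by
      rw [h.2.1, h.2.2.1]
      rfl
    refine ⟨h.1, ?_, ?_, ?_⟩
    · rw [n08_PS c 0 col e q h, Fintype.sum_sum_type]
      simp only [hcol, col3, Sum.elim_inl, Sum.elim_inr, sum_const, card_univ, Fintype.card_fin,
        nsmul_eq_mul]
      push_cast
      ring
    · intro hM
      have := hM (e (Sum.inr (Sum.inl ⟨0, hj⟩))).1 (e (Sum.inr (Sum.inl ⟨0, hj⟩))).2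
      rw [hcl] at this
      exact hns0 this
    · intro hM
      have := hM (e (Sum.inr (Sum.inl ⟨0, hj⟩))).1 (e (Sum.inr (Sum.inl ⟨0, hj⟩))).2
      rw [hcl] at this
      exact hns1 this
  have hN : ∀ q : (Fin (m + 1) → Fin (m + 1)) × (Fin (m + 1) → V),
      cnt (fun e : (Fin j ⊕ Fin (j * s)) ⊕ (Fin j ⊕ Fin (j * s)) ↪ {a : Fin (m + 1) // a ≠ 0} =>
        Gad c 0 col e q) ≤ j.factorial * (j * s).factorial := by
    intro q
    by_cases hex : ∃ e, Gad c 0 col e q
    · obtain ⟨e0, he0⟩ := hex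
      set W1 : Finset (Fin (m + 1)) :=
        univ.filter (fun w => w ≠ 0 ∧ c (q.2 w) (q.2 (q.1 w)) = -(s : ZMod m)) with hW1
      set W2 : Finset (Fin (m + 1)) :=
        univ.filter (fun w => w ≠ 0 ∧ c (q.2 w) (q.2 (q.1 w)) = 1) with hW2
      have c1 : W1.card ≤ j := by
        have := n08_cardW c 0 col e0 q he0 (-(s : ZMod m)) hns0 (Sum.inl : Fin j → _)
          (by
            rintro (i | i) hi
            · exact ⟨i, rfl⟩
            · exact absurd hi.symm hns1) W1 (fun w hw => (mem_filter.1 hw).2)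
        rwa [Fintype.card_fin] at this
      have c2 : W2.card ≤ j * s := by
        have := n08_cardW c 0 col e0 q he0 1 h10 (Sum.inr : Fin (j * s) → _)
          (by
            rintro (i | i) hi
            · exact absurd hi hns1
            · exact ⟨i, rfl⟩) W2 (fun w hw => (mem_filter.1 hw).2)
        rwa [Fintype.card_fin] at this
      refine le_trans ?_ (Nat.mul_le_mul (n08_inj j W1 c1) (n08_inj (j * s) W2 c2))
      rw [← cnt_prod]
      refine cnt_inj (fun e => ((fun i => (e (Sum.inr (Sum.inl i))).1),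
        fun i => (e (Sum.inr (Sum.inr i))).1)) ?_ ?_
      · intro e he
        refine ⟨⟨?_, ?_⟩, ⟨?_, ?_⟩⟩
        · intro a b hab
          exact Sum.inl_injective (Sum.inr_injective (e.injective (Subtype.ext hab)))
        · intro i
          rw [hW1, mem_filter]
          refine ⟨mem_univ _, (e (Sum.inr (Sum.inl i))).2, ?_⟩
          show c (q.2 (e (Sum.inr (Sum.inl i))).1) (q.2 (q.1 (e (Sum.inr (Sum.inl i))).1)) = _
          rw [he.2.1, he.2.2.1]
          rfl
        · intro a b hab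
          exact Sum.inr_injective (Sum.inr_injective (e.injective (Subtype.ext hab)))
        · intro i
          rw [hW2, mem_filter]
          refine ⟨mem_univ _, (e (Sum.inr (Sum.inr i))).2, ?_⟩
          show c (q.2 (e (Sum.inr (Sum.inr i))).1) (q.2 (q.1 (e (Sum.inr (Sum.inr i))).1)) = _
          rw [he.2.1, he.2.2.1]
          rfl
      · intro e e' he he' hee
        simp only [Prod.mk.injEq] at hee
        refine n08_ext c 0 col e e' q he he' ?_
        rintro (i | i)
        · exact congrFun hee.1 i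
        · exact congrFun hee.2 i
    · have h0 : cnt (fun e : (Fin j ⊕ Fin (j * s)) ⊕ (Fin j ⊕ Fin (j * s)) ↪
          {a : Fin (m + 1) // a ≠ 0} => Gad c 0 col e q) = 0 := by
        rw [cnt_eq_card, card_eq_zero, filter_eq_empty_iff]
        intro e _ he
        exact hex ⟨e, he⟩
      rw [h0]
      exact Nat.zero_le _
  have hD := n08_double (fun e q => Gad c 0 col e q) _ (j.factorial * (j * s).factorial) hX hN
  have hS : ∑ _e : (Fin j ⊕ Fin (j * s)) ⊕ (Fin j ⊕ Fin (j * s)) ↪ {a : Fin (m + 1) // a ≠ 0},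
      S0 c Gd B b0 col ≤ ∑ e : (Fin j ⊕ Fin (j * s)) ⊕ (Fin j ⊕ Fin (j * s)) ↪
        {a : Fin (m + 1) // a ≠ 0}, (cnt (Gad c 0 col e) : ℝ) :=
    sum_le_sum (fun e _ => graft c Gd 0 b0 col e hcard)
  rw [sum_const, card_univ, n08_card_emb, hcJ, nsmul_eq_mul] at hS
  refine hS.trans (hD.trans (le_of_eq ?_))
  push_cast
  rfl

/-- PROOF. The same with all colours `0`: `Gad` implies that all edges have colour `0`, and `e` is determined by the map `i ↦ e (inr i)` (`(m+1)^|J|` possibilities), as `e (inl i) = p (e (inr i))`. -/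
theorem fib0_le {V : Type} [Fintype V] (m : ℕ) (c : V → V → ZMod m) (Gd : V → Prop)
    {B : Type} [Fintype B] [DecidableEq B] (b0 : B) {J : Type} [Fintype J] [DecidableEq J]
    (hB : Fintype.card B + 2 * Fintype.card J = m + 1) :
    (m.descFactorial (2 * Fintype.card J) : ℝ) * S0 c Gd B b0 (fun _ : J => (0 : ZMod m)) ≤
      ((m + 1 : ℕ) : ℝ) ^ (Fintype.card J) * (Tm c 0 : ℝ) := by
  classical
  have hcard : Fintype.card B + 2 * Fintype.card J = Fintype.card (Fin (m + 1)) := by
    rw [Fintype.card_fin]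
    exact hB
  have hX : ∀ (e : J ⊕ J ↪ {a : Fin (m + 1) // a ≠ 0})
      (q : (Fin (m + 1) → Fin (m + 1)) × (Fin (m + 1) → V)),
      Gad c 0 (fun _ : J => (0 : ZMod m)) e q →
      (q.1 ∈ PT (Fin (m + 1)) 0 ∧ Mono c 0 0 q) := by
    rintro e q ⟨h1, h2, h3, h4⟩
    refine ⟨h1, fun w hw => ?_⟩
    by_cases hex : ∃ i, w = (e (Sum.inr i)).1
    · obtain ⟨i, rfl⟩ := hex
      rw [h2, h3]
    · rw [not_exists] at hex
      exact h4 w hw hex
  have hN : ∀ q : (Fin (m + 1) → Fin (m + 1)) × (Fin (m + 1) → V),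
      cnt (fun e : J ⊕ J ↪ {a : Fin (m + 1) // a ≠ 0} =>
        Gad c 0 (fun _ : J => (0 : ZMod m)) e q) ≤ (m + 1) ^ (Fintype.card J) := by
    intro q
    have h1 : cnt (fun _ : J → Fin (m + 1) => True) ≤ (m + 1) ^ (Fintype.card J) := by
      refine (cnt_le_card _).trans (le_of_eq ?_)
      rw [Fintype.card_fun, Fintype.card_fin]
    refine le_trans ?_ h1
    refine cnt_inj (fun e i => (e (Sum.inr i)).1) (fun _ _ => trivial) ?_
    intro e e' he he' hee
    exact n08_ext c 0 _ e e' q he he' (fun i => congrFun hee i)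
  have hD := n08_double (fun e q => Gad c 0 (fun _ : J => (0 : ZMod m)) e q) _
    ((m + 1) ^ (Fintype.card J)) hX hN
  have hS : ∑ _e : J ⊕ J ↪ {a : Fin (m + 1) // a ≠ 0},
      S0 c Gd B b0 (fun _ : J => (0 : ZMod m)) ≤ ∑ e : J ⊕ J ↪
        {a : Fin (m + 1) // a ≠ 0}, (cnt (Gad c 0 (fun _ : J => (0 : ZMod m)) e) : ℝ) :=
    sum_le_sum (fun e _ => graft c Gd 0 b0 _ e hcard)
  rw [sum_const, card_univ, n08_card_emb, nsmul_eq_mul] at hS
  refine hS.trans (hD.trans (le_of_eq ?_))
  push_cast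
  rfl

end Pool.Agent.ZT
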