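import Pool.Agent.ZT.N04
import Pool.Agent.ZT.N08

/-! # [ZN-09] lower bounds for `S0` -/

set_option autoImplicit false

open Finset

namespace Pool.Agent.ZT

variable {V : Type} [Fintype V] {m : ℕ}

/-- the degree conditions on the good vertices -/
structure Deg (c : V → V → ZMod m) (Gd : V → Prop) : Prop where
  symm : ∀ x y, c x y = c y x
  d0 : ∀ x, Gd x → 9 / 20 ≤ dgr (WG c 0 Gd) x
  d0' : ∀ x, Gd x → dgr (WG c 0 Gd) x ≤ 11 / 20
  e0 : ∀ x, Gd x → 9 / 20 ≤ dgr (Wk c 0) x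
  e1 : ∀ x, Gd x → 9 / 20 ≤ dgr (Wk c 1) x

theorem n09_card_pos (z : V) : (0 : ℝ) < (Fintype.card V : ℝ) := by
  have : 0 < Fintype.card V := Fintype.card_pos_iff.2 ⟨z⟩
  exact_mod_cast this

theorem n09_mul_dgr (K : V → V → ℝ) (x : V) : (Fintype.card V : ℝ) * dgr K x = ∑ y, K x y := by
  unfold dgr
  rw [mul_div_cancel₀ _ (n09_card_pos x).ne']

theorem n09_Fg (c : V → V → ZMod m) (Gd : V → Prop) (h : Deg c Gd) (a : ZMod m) (z : V) :
    open Classical in
    (Fg c Gd a z : ℝ) = ∑ y, if Gd y ∧ c y z = 0 then (Fintype.card V : ℝ) * dgr (Wk c a) y else 0 := by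
  classical
  unfold Fg
  rw [cnt_eq_sum, Fintype.sum_prod_type]
  refine sum_congr rfl fun y _ => ?_
  rw [n09_mul_dgr]
  by_cases hy : Gd y ∧ c y z = 0
  · rw [if_pos hy]
    refine sum_congr rfl fun l _ => ?_
    unfold Wk
    rw [h.symm y l]
    by_cases hl : c l y = a
    · rw [if_pos hl, if_pos ⟨hy.1, hy.2, hl⟩]
    · rw [if_neg hl, if_neg fun h' => hl h'.2.2]
  · rw [if_neg hy]
    refine sum_eq_zero fun l _ => ?_
    rw [if_neg fun h' => hy ⟨h'.1, h'.2.1⟩]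

/-- the number of good neighbours of a good vertex -/
theorem n09_nbr (c : V → V → ZMod m) (Gd : V → Prop) (h : Deg c Gd) (z : V) (hz : Gd z) :
    open Classical in
    (∑ y, if Gd y ∧ c y z = 0 then (1 : ℝ) else 0) = (Fintype.card V : ℝ) * dgr (WG c 0 Gd) z := by
  classical
  rw [n09_mul_dgr]
  refine sum_congr rfl fun y _ => ?_
  unfold WG
  rw [h.symm z y]
  by_cases hy : Gd y ∧ c y z = 0
  · rw [if_pos hy, if_pos ⟨hy.2, hz, hy.1⟩]
  · rw [if_neg hy, if_neg fun h' => hy ⟨h'.2.2, h'.1⟩]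

theorem n09_dgr_zero (c : V → V → ZMod m) (Gd : V → Prop) (z : V) (hz : ¬ Gd z) :
    dgr (WG c 0 Gd) z = 0 := by
  classical
  unfold dgr
  rw [sum_eq_zero, zero_div]
  intro y _
  unfold WG
  rw [if_neg fun h' => hz h'.2.1]

theorem n09_dgr_nonneg (c : V → V → ZMod m) (a : ZMod m) (y : V) : 0 ≤ dgr (Wk c a) y :=
  dgr_nonneg (fun x y => Wk_nonneg c a x y) y

theorem n09_deg (c : V → V → ZMod m) (Gd : V → Prop) (h : Deg c Gd) (a : ZMod m) (ha : a = 0 ∨ a = 1)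
    (y : V) (hy : Gd y) : 9 / 20 ≤ dgr (Wk c a) y := by
  rcases ha with rfl | rfl
  · exact h.e0 y hy
  · exact h.e1 y hy

/-- PROOF. `Fg c Gd a z = ∑_{y : Gd y, c y z = 0} n * dgr (Wk c a) y ≥ (9/20) n * (n * dgr (WG c 0 Gd) z) ≥ n^2 / 5`. -/
theorem Fg_ge (c : V → V → ZMod m) (Gd : V → Prop) (h : Deg c Gd) (a : ZMod m) (ha : a = 0 ∨ a = 1)
    (z : V) (hz : Gd z) : (Fintype.card V : ℝ) ^ 2 / 5 ≤ (Fg c Gd a z : ℝ) := by
  classical
  have hn := n09_card_pos z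
  set n : ℝ := (Fintype.card V : ℝ) with hnd
  rw [n09_Fg c Gd h a z]
  have h1 : ∀ y ∈ (univ : Finset V), (n * (9 / 20)) * (if Gd y ∧ c y z = 0 then (1 : ℝ) else 0) ≤
      if Gd y ∧ c y z = 0 then n * dgr (Wk c a) y else 0 := by
    intro y _
    by_cases hy : Gd y ∧ c y z = 0
    · rw [if_pos hy, if_pos hy, mul_one]
      exact mul_le_mul_of_nonneg_left (n09_deg c Gd h a ha y hy.1) hn.le
    · rw [if_neg hy, if_neg hy, mul_zero]
  have h2 := sum_le_sum h1
  rw [← mul_sum, n09_nbr c Gd h z hz] at h2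
  have h3 := h.d0 z hz
  have h4 : n * (9 / 20) * (n * (9 / 20)) ≤ n * (9 / 20) * (n * dgr (WG c 0 Gd) z) :=
    mul_le_mul_of_nonneg_left (mul_le_mul_of_nonneg_left h3 hn.le) (by positivity)
  nlinarith [sq_nonneg n]

/-- PROOF. `Fg c Gd a z ≤ ∑_{y : Gd y} n * dgr (Wk c a) y = n^2 * Gam`. -/
theorem Fg_le (c : V → V → ZMod m) (Gd : V → Prop) (h : Deg c Gd) (a : ZMod m) (z : V) :
    (Fg c Gd a z : ℝ) ≤ (Fintype.card V : ℝ) ^ 2 * Gam c a Gd := by
  classical
  have hn := n09_card_pos z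
  rw [n09_Fg c Gd h a z]
  have h1 : (Fintype.card V : ℝ) ^ 2 * Gam c a Gd =
      ∑ y, if Gd y then (Fintype.card V : ℝ) * dgr (Wk c a) y else 0 := by
    unfold Gam
    rw [pow_two, mul_assoc, mul_div_cancel₀ _ hn.ne', mul_sum]
    refine sum_congr rfl fun y _ => ?_
    by_cases hy : Gd y
    · rw [if_pos hy, if_pos hy]
    · rw [if_neg hy, if_neg hy, mul_zero]
  rw [h1]
  refine sum_le_sum fun y _ => ?_
  have h2 := mul_nonneg hn.le (n09_dgr_nonneg c a y)
  by_cases hy : Gd y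
  · rw [if_pos hy]
    split_ifs
    · exact le_refl _
    · exact h2
  · rw [if_neg hy, if_neg fun h' => hy h'.1]

theorem n09_lam_le (c : V → V → ZMod m) (Gd : V → Prop) (h : Deg c Gd) :
    lam (WG c 0 Gd) ≤ 11 / 20 := by
  unfold lam
  rcases isEmpty_or_nonempty V with hV | ⟨⟨v⟩⟩
  · simp only [univ_eq_empty, sum_empty, zero_div]
    norm_num
  · rw [div_le_iff₀ (n09_card_pos v)]
    calc ∑ x, dgr (WG c 0 Gd) x ≤ ∑ _x : V, (11 / 20 : ℝ) := by
          refine sum_le_sum fun x _ => ?_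
          by_cases hx : Gd x
          · exact h.d0' x hx
          · rw [n09_dgr_zero c Gd x hx]
            norm_num
      _ = 11 / 20 * (Fintype.card V : ℝ) := by
          rw [sum_const, card_univ, nsmul_eq_mul, mul_comm]

theorem n09_nonempty {K : V → V → ℝ} (hl : 0 < lam K) : Nonempty V := by
  by_contra hV
  rw [not_nonempty_iff] at hV
  unfold lam at hl
  simp only [univ_eq_empty, sum_empty, zero_div] at hl
  exact lt_irrefl _ hl

/-- PROOF. `λ' = lam (WG c 0 Gd) ≤ 11/20`. The terms with `¬ Gd z` vanish; `∑_z dgr z / (n λ') Fg z / n^2 ≥ (9/20) / (n λ') ∑_{z : Gd z} Fg z / n^2`, and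
`∑_{z : Gd z} Fg c Gd a z = ∑_{y : Gd y} (n dgr (WG c 0 Gd) y) (n dgr (Wk c a) y) ≥ (9/20) n^3 Gam` (exchange the sums, symmetry). `(9/20)^2 / (11/20) ≥ 1/3`. -/
theorem Fg_mean (c : V → V → ZMod m) (Gd : V → Prop) (h : Deg c Gd) (a : ZMod m)
    (hl : 0 < lam (WG c 0 Gd)) :
    Gam c a Gd / 3 ≤ ∑ z, dgr (WG c 0 Gd) z / ((Fintype.card V : ℝ) * lam (WG c 0 Gd)) *
      ((Fg c Gd a z : ℝ) / (Fintype.card V : ℝ) ^ 2) := by
  classical
  obtain ⟨v⟩ := n09_nonempty hl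
  have hn := n09_card_pos v
  set n : ℝ := (Fintype.card V : ℝ) with hnd
  set L : ℝ := lam (WG c 0 Gd) with hLd
  have hL : L ≤ 11 / 20 := n09_lam_le c Gd h
  have hG : n * Gam c a Gd = ∑ y, if Gd y then dgr (Wk c a) y else 0 := by
    unfold Gam
    rw [mul_div_cancel₀ _ hn.ne']
  have hG0 : 0 ≤ Gam c a Gd := by
    unfold Gam
    refine div_nonneg (sum_nonneg fun y _ => ?_) hn.le
    split_ifs
    · exact n09_dgr_nonneg c a y
    · exact le_refl _
  -- the sum over the good vertices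
  have h1 : 9 / 20 * n ^ 3 * Gam c a Gd ≤ ∑ z, if Gd z then (Fg c Gd a z : ℝ) else 0 := by
    have e1 : (∑ z, if Gd z then (Fg c Gd a z : ℝ) else 0) =
        ∑ y, if Gd y then (n * dgr (WG c 0 Gd) y) * (n * dgr (Wk c a) y) else 0 := by
      have e2 : (∑ z, if Gd z then (Fg c Gd a z : ℝ) else 0) =
          ∑ z, ∑ y, if Gd z ∧ Gd y ∧ c y z = 0 then n * dgr (Wk c a) y else 0 := by
        refine sum_congr rfl fun z _ => ?_
        by_cases hz : Gd z
        · rw [if_pos hz, n09_Fg c Gd h a z]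
          refine sum_congr rfl fun y _ => ?_
          by_cases hy : Gd y ∧ c y z = 0
          · rw [if_pos hy, if_pos ⟨hz, hy⟩]
          · rw [if_neg hy, if_neg fun h' => hy h'.2]
        · rw [if_neg hz]
          refine (sum_eq_zero fun y _ => ?_).symm
          rw [if_neg fun h' => hz h'.1]
      rw [e2, sum_comm]
      refine sum_congr rfl fun y _ => ?_
      by_cases hy : Gd y
      · rw [if_pos hy, n09_mul_dgr (WG c 0 Gd), sum_mul]
        refine sum_congr rfl fun z _ => ?_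
        unfold WG
        by_cases hz : c y z = 0 ∧ Gd y ∧ Gd z
        · rw [if_pos hz, if_pos ⟨hz.2.2, hz.2.1, hz.1⟩, one_mul]
        · rw [if_neg hz, if_neg fun h' => hz ⟨h'.2.2, h'.2.1, h'.1⟩, zero_mul]
      · rw [if_neg hy]
        refine sum_eq_zero fun z _ => ?_
        rw [if_neg fun h' => hy h'.2.1]
    rw [e1]
    have e3 : 9 / 20 * n ^ 3 * Gam c a Gd =
        ∑ y, if Gd y then (9 / 20 * n ^ 2) * dgr (Wk c a) y else 0 := by
      calc 9 / 20 * n ^ 3 * Gam c a Gd = 9 / 20 * n ^ 2 * (n * Gam c a Gd) := by ring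
        _ = _ := by
          rw [hG, mul_sum]
          refine sum_congr rfl fun y _ => ?_
          by_cases hy : Gd y
          · rw [if_pos hy, if_pos hy]
          · rw [if_neg hy, if_neg hy, mul_zero]
    rw [e3]
    refine sum_le_sum fun y _ => ?_
    by_cases hy : Gd y
    · rw [if_pos hy, if_pos hy]
      have h2 := h.d0 y hy
      have h3 := n09_dgr_nonneg c a y
      have h4 : 9 / 20 * (n ^ 2 * dgr (Wk c a) y) ≤ dgr (WG c 0 Gd) y * (n ^ 2 * dgr (Wk c a) y) :=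
        mul_le_mul_of_nonneg_right h2 (by positivity)
      linarith
    · rw [if_neg hy, if_neg hy]
  have h2 : 9 / 20 * (∑ z, if Gd z then (Fg c Gd a z : ℝ) else 0) ≤
      ∑ z, dgr (WG c 0 Gd) z * (Fg c Gd a z : ℝ) := by
    rw [mul_sum]
    refine sum_le_sum fun z _ => ?_
    by_cases hz : Gd z
    · rw [if_pos hz]
      exact mul_le_mul_of_nonneg_right (h.d0 z hz) (Nat.cast_nonneg _)
    · rw [if_neg hz, n09_dgr_zero c Gd z hz, zero_mul, mul_zero]
  have h3 : ∑ z, dgr (WG c 0 Gd) z / (n * L) * ((Fg c Gd a z : ℝ) / n ^ 2) =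
      (∑ z, dgr (WG c 0 Gd) z * (Fg c Gd a z : ℝ)) / (n ^ 3 * L) := by
    rw [sum_div]
    refine sum_congr rfl fun z _ => ?_
    field_simp
  rw [h3, le_div_iff₀ (by positivity)]
  have h4 : L * (n ^ 3 * Gam c a Gd) ≤ 11 / 20 * (n ^ 3 * Gam c a Gd) :=
    mul_le_mul_of_nonneg_right hL (by positivity)
  have h5 : 0 ≤ n ^ 3 * Gam c a Gd := by positivity
  nlinarith

/-- a placement of a core tree with nonzero weight has only good vertices -/
theorem n09_good (c : V → V → ZMod m) (Gd : V → Prop) {B : Type} [Fintype B] [DecidableEq B]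
    (b0 : B) (hB : 2 ≤ Fintype.card B) {p : B → B} (hp : p ∈ PT B b0) (x : B → V)
    (hx : ∏ w ∈ univ.erase b0, WG c 0 Gd (x w) (x (p w)) ≠ 0) (b : B) : Gd (x b) := by
  classical
  have h1 : ∀ w, w ≠ b0 → Gd (x w) ∧ Gd (x (p w)) := by
    intro w hw
    have h2 := prod_ne_zero_iff.1 hx w (mem_erase.2 ⟨hw, mem_univ w⟩)
    unfold WG at h2
    by_contra h3
    exact h2 (if_neg fun h' => h3 h'.2)
  by_cases hb : b = b0
  · subst hb
    obtain ⟨w, hw⟩ : ∃ w : B, w ≠ b := by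
      have : Nontrivial B := Fintype.one_lt_card_iff_nontrivial.1 (by omega)
      exact exists_ne b
    have hex := (mem_PT.1 hp).2 w
    have hk := Nat.find_spec hex
    have hmin := fun i => Nat.find_min (m := i) hex
    set k := Nat.find hex with hkd
    have hk0 : k ≠ 0 := by
      intro h0
      rw [h0] at hk
      exact hw hk
    obtain ⟨l, hl⟩ := Nat.exists_eq_succ_of_ne_zero hk0
    have h4 := hmin l (by omega)
    have h5 := (h1 _ h4).2
    rw [hl, Function.iterate_succ_apply'] at hk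
    rw [hk] at h5
    exact h5
  · exact (h1 b hb).1

theorem n09_prod_nonneg (c : V → V → ZMod m) (Gd : V → Prop) {B : Type} [Fintype B]
    [DecidableEq B] (b0 : B) (p : B → B) (x : B → V) :
    0 ≤ ∏ w ∈ univ.erase b0, WG c 0 Gd (x w) (x (p w)) :=
  prod_nonneg fun w _ => WG_nonneg c 0 Gd _ _

theorem n09_sum_ge (c : V → V → ZMod m) (Gd : V → Prop) (h : Deg c Gd) (a : ZMod m)
    (ha : a = 0 ∨ a = 1) {B : Type} [Fintype B] (x : B → V) (hx : ∀ b, Gd (x b)) :
    (Fintype.card B : ℝ) * (Fintype.card V : ℝ) ^ 2 / 5 ≤ ∑ b, (Fg c Gd a (x b) : ℝ) := by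
  calc (Fintype.card B : ℝ) * (Fintype.card V : ℝ) ^ 2 / 5
      = ∑ _b : B, (Fintype.card V : ℝ) ^ 2 / 5 := by
        rw [sum_const, card_univ, nsmul_eq_mul]
        ring
    _ ≤ _ := sum_le_sum fun b _ => Fg_ge c Gd h a ha (x b) (hx b)

/-- PROOF. As `|B| ≥ 2` the product `∏ WG` is `0` unless all `x b` are good; then `∑_b Fg c Gd 0 (x b) ≥ |B| n^2 / 5`. -/
theorem S0_zero_ge (c : V → V → ZMod m) (Gd : V → Prop) (h : Deg c Gd) {B : Type} [Fintype B]
    [DecidableEq B] (b0 : B) (hB : 2 ≤ Fintype.card B) {J : Type} [Fintype J] [DecidableEq J] :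
    ((Fintype.card B : ℝ) * (Fintype.card V : ℝ) ^ 2 / 5) ^ (Fintype.card J) *
      ∑ p ∈ PT B b0, ∑ x : B → V, ∏ w ∈ univ.erase b0, WG c 0 Gd (x w) (x (p w)) ≤
    S0 c Gd B b0 (fun _ : J => (0 : ZMod m)) := by
  classical
  unfold S0
  rw [mul_sum]
  refine sum_le_sum fun p hp => ?_
  rw [mul_sum]
  refine sum_le_sum fun x _ => ?_
  rw [mul_comm]
  by_cases hx : ∏ w ∈ univ.erase b0, WG c 0 Gd (x w) (x (p w)) = 0
  · rw [hx, zero_mul, zero_mul]
  · refine mul_le_mul_of_nonneg_left ?_ (n09_prod_nonneg c Gd b0 p x)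
    rw [prod_const, card_univ]
    exact pow_le_pow_left₀ (by positivity)
      (n09_sum_ge c Gd h 0 (Or.inl rfl) x (n09_good c Gd b0 hB hp x hx)) _

/-- PROOF. As in `S0_zero_ge` for the `k` flips; the third gadgets give `(∑_b Fg c Gd (-s) (x b))^j = (|B| n^2)^j F^j`, `F = (∑_b f (x b)) / |B|`, `f z = Fg c Gd (-s) z / n^2`, and
`core_weight` with `K = WG c 0 Gd`, `M = Gam c (-s) Gd` (`Fg_le`, `Fg_mean`). -/
theorem S0_third_ge (c : V → V → ZMod m) (Gd : V → Prop) (h : Deg c Gd) {B : Type} [Fintype B]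
    [DecidableEq B] (b0 : B) (hB : 2 ≤ Fintype.card B) (s j k : ℕ) (hj : 1 ≤ j)
    (hl : 0 < lam (WG c 0 Gd)) (hG : 0 < Gam c (-(s : ZMod m)) Gd) (T : ℝ)
    (hT : ∑ p ∈ PT B b0, ∑ x : B → V, ∏ w ∈ univ.erase b0, WG c 0 Gd (x w) (x (p w)) ≤
      T * (((PT B b0).card : ℝ) * ((Fintype.card V : ℝ) ^ (Fintype.card B) *
        lam (WG c 0 Gd) ^ (Fintype.card B - 1)))) :
    ((Fintype.card B : ℝ) * (Fintype.card V : ℝ) ^ 2) ^ (j + k) / 5 ^ k *
      (((PT B b0).card : ℝ) * ((Fintype.card V : ℝ) ^ (Fintype.card B) *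
        lam (WG c 0 Gd) ^ (Fintype.card B - 1)) * (Gam c (-(s : ZMod m)) Gd / 3) ^ j / (1 + T) ^ 3) ≤
    S0 c Gd B b0 (col3 m s j k) := by
  classical
  obtain ⟨v⟩ := n09_nonempty hl
  have hn := n09_card_pos v
  have hN : (0 : ℝ) < (Fintype.card B : ℝ) := by
    have : 0 < Fintype.card B := by omega
    exact_mod_cast this
  set n : ℝ := (Fintype.card V : ℝ) with hnd
  set N : ℝ := (Fintype.card B : ℝ) with hNd
  have hcw := core_weight b0 hB (WG c 0 Gd) (fun x y => WG_nonneg c 0 Gd x y)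
    (fun x y => WG_symm c h.symm 0 Gd x y) hl
    (fun z => (Fg c Gd (-(s : ZMod m)) z : ℝ) / n ^ 2) (Gam c (-(s : ZMod m)) Gd) hG
    (fun x => div_nonneg (Nat.cast_nonneg _) (by positivity))
    (fun x _ => by
      rw [div_le_iff₀ (by positivity), mul_comm]
      exact Fg_le c Gd h _ x)
    (Fg_mean c Gd h _ hl) j hj T hT
  have h1 : (N * n ^ 2) ^ (j + k) / 5 ^ k * (∑ p ∈ PT B b0, ∑ x : B → V,
      (∏ w ∈ univ.erase b0, WG c 0 Gd (x w) (x (p w))) *
      ((∑ b, (Fg c Gd (-(s : ZMod m)) (x b) : ℝ) / n ^ 2) / N) ^ j) ≤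
      S0 c Gd B b0 (col3 m s j k) := by
    unfold S0
    rw [mul_sum]
    refine sum_le_sum fun p hp => ?_
    rw [mul_sum]
    refine sum_le_sum fun x _ => ?_
    by_cases hx : ∏ w ∈ univ.erase b0, WG c 0 Gd (x w) (x (p w)) = 0
    · rw [hx, zero_mul, zero_mul, mul_zero]
    · rw [mul_left_comm]
      refine mul_le_mul_of_nonneg_left ?_ (n09_prod_nonneg c Gd b0 p x)
      rw [Fintype.prod_sum_type]
      have h2 : ∏ i : Fin j, ∑ b, (Fg c Gd (col3 m s j k (Sum.inl i)) (x b) : ℝ) =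
          (∑ b, (Fg c Gd (-(s : ZMod m)) (x b) : ℝ)) ^ j := by
        simp only [col3, Sum.elim_inl]
        rw [prod_const, card_univ, Fintype.card_fin]
      have h3 : ∏ i : Fin k, ∑ b, (Fg c Gd (col3 m s j k (Sum.inr i)) (x b) : ℝ) =
          (∑ b, (Fg c Gd 1 (x b) : ℝ)) ^ k := by
        simp only [col3, Sum.elim_inr]
        rw [prod_const, card_univ, Fintype.card_fin]
      rw [h2, h3]
      have h4 : (N * n ^ 2 / 5) ^ k ≤ (∑ b, (Fg c Gd 1 (x b) : ℝ)) ^ k :=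
        pow_le_pow_left₀ (by positivity)
          (n09_sum_ge c Gd h 1 (Or.inr rfl) x (n09_good c Gd b0 hB hp x hx)) _
      have h5 : (N * n ^ 2) ^ (j + k) / 5 ^ k *
          ((∑ b, (Fg c Gd (-(s : ZMod m)) (x b) : ℝ) / n ^ 2) / N) ^ j =
          (∑ b, (Fg c Gd (-(s : ZMod m)) (x b) : ℝ)) ^ j * (N * n ^ 2 / 5) ^ k := by
        rw [← sum_div, div_div, div_pow, div_pow, pow_add]
        have h6 : n ^ 2 * N = N * n ^ 2 := mul_comm _ _
        rw [h6]
        have h7 : (N * n ^ 2) ^ j ≠ 0 := by positivity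
        have h8 : (5 : ℝ) ^ k ≠ 0 := by positivity
        field_simp
      rw [h5]
      exact mul_le_mul_of_nonneg_left h4 (by positivity)
  refine le_trans ?_ h1
  exact mul_le_mul_of_nonneg_left hcw (by positivity)

end Pool.Agent.ZT
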