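import Pool.Agent.ZT.N09

/-! # [ZN-10] the extra zero-sum trees -/

set_option autoImplicit false

open Finset

namespace Pool.Agent.ZT

theorem n10_exp4 : Real.exp 4 ≤ 54.6 := by
  have h : Real.exp 4 = Real.exp 1 ^ 4 := by
    rw [← Real.exp_nat_mul]
    norm_num
  rw [h]
  have h1 := Real.exp_one_lt_d9
  calc Real.exp 1 ^ 4 ≤ 2.7182818286 ^ 4 := pow_le_pow_left₀ (Real.exp_pos 1).le h1.le 4
    _ ≤ 54.6 := by norm_num

/-- `N^(m-1) ≤ 54.6^U b^(m-1)` -/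
theorem n10_f1 (m U b : ℕ) (hb : b + 2 * U = m + 1) (h4 : 4 * U ≤ m + 1) :
    ((m + 1 : ℕ) : ℝ) ^ (m - 1) ≤ 54.6 ^ U * (b : ℝ) ^ (m - 1) := by
  have hbpos : 0 < b := by omega
  have hbp : (0 : ℝ) < b := by exact_mod_cast hbpos
  have hN : ((m + 1 : ℕ) : ℝ) = b + 2 * U := by exact_mod_cast hb.symm
  have h2 : ((m + 1 : ℕ) : ℝ) ≤ 2 * b := by
    have : m + 1 ≤ 2 * b := by omega
    exact_mod_cast this
  have h1 : ((m + 1 : ℕ) : ℝ) ≤ b * Real.exp (2 * U / b) := by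
    have := Real.add_one_le_exp (2 * (U : ℝ) / b)
    calc ((m + 1 : ℕ) : ℝ) = b * (2 * U / b + 1) := by
          rw [hN]
          field_simp
          ring
      _ ≤ b * Real.exp (2 * U / b) := mul_le_mul_of_nonneg_left this hbp.le
  have h3 : Real.exp (2 * U / b) ^ (m - 1) ≤ 54.6 ^ U := by
    rw [← Real.exp_nat_mul]
    calc Real.exp (((m - 1 : ℕ) : ℝ) * (2 * U / b)) ≤ Real.exp ((U : ℝ) * 4) := by
          refine Real.exp_le_exp.2 ?_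
          have e1 : ((m - 1 : ℕ) : ℝ) ≤ 2 * b := by
            refine le_trans ?_ h2
            have : m - 1 ≤ m + 1 := by omega
            exact_mod_cast this
          calc ((m - 1 : ℕ) : ℝ) * (2 * U / b) ≤ (2 * b) * (2 * U / b) :=
                mul_le_mul_of_nonneg_right e1 (by positivity)
            _ = U * 4 := by
                field_simp
                ring
      _ = Real.exp 4 ^ U := by rw [Real.exp_nat_mul]
      _ ≤ 54.6 ^ U := pow_le_pow_left₀ (Real.exp_pos _).le n10_exp4 U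
  calc ((m + 1 : ℕ) : ℝ) ^ (m - 1) ≤ (b * Real.exp (2 * U / b)) ^ (m - 1) :=
        pow_le_pow_left₀ (by positivity) h1 _
    _ = Real.exp (2 * U / b) ^ (m - 1) * (b : ℝ) ^ (m - 1) := by rw [mul_pow]; ring
    _ ≤ 54.6 ^ U * (b : ℝ) ^ (m - 1) := mul_le_mul_of_nonneg_right h3 (by positivity)

/-- the two numerical inequalities -/
theorem n10_num (m U b : ℕ) (hb : b + 2 * U = m + 1) (h4 : 4 * U ≤ m + 1) (hU : 1 ≤ U) (l E : ℝ)
    (hl : 0 < l) (hl2 : l ≤ 11 / 20) (hE : 1 ≤ E) (hE2 : 1 ≤ E * (2 * l) ^ m) :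
    (((m + 1 : ℕ) : ℝ) ^ U * (4 * (1 / 2 : ℝ) ^ m * ((m + 1 : ℕ) : ℝ) ^ (m - 1)) * 5 ^ U ≤
      4 * E * 166 ^ U * ((b : ℝ) ^ (3 * U) * (b : ℝ) ^ (b - 2) * l ^ (b - 1))) ∧
    (((m + 1 : ℕ) : ℝ) ^ U * ((1 / 2 : ℝ) ^ m * ((m + 1 : ℕ) : ℝ) ^ (m - 1)) ≤
      E * 109.2 ^ U * ((b : ℝ) ^ (3 * U) * (b : ℝ) ^ (b - 2) * l ^ (b - 1))) := by
  have hbpos : 0 < b := by omega
  have hbp : (0 : ℝ) < b := by exact_mod_cast hbpos
  have hf1 := n10_f1 m U b hb h4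
  have h2 : ((m + 1 : ℕ) : ℝ) ≤ 2 * b := by
    have : m + 1 ≤ 2 * b := by omega
    exact_mod_cast this
  have hf2 : ((m + 1 : ℕ) : ℝ) ^ U ≤ 2 ^ U * (b : ℝ) ^ U := by
    rw [← mul_pow]
    exact pow_le_pow_left₀ (by positivity) h2 U
  have hf3 : (1 / 2 : ℝ) ^ m ≤ E * l ^ m := by
    have e : E * l ^ m = (1 / 2 : ℝ) ^ m * (E * (2 * l) ^ m) := by
      rw [mul_pow]
      have : (1 / 2 : ℝ) ^ m * 2 ^ m = 1 := by rw [← mul_pow]; norm_num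
      calc E * l ^ m = ((1 / 2 : ℝ) ^ m * 2 ^ m) * (E * l ^ m) := by rw [this, one_mul]
        _ = _ := by ring
    rw [e]
    exact le_mul_of_one_le_right (by positivity) hE2
  have hQ : (b : ℝ) ^ (3 * U) * (b : ℝ) ^ (b - 2) = (b : ℝ) ^ U * (b : ℝ) ^ (m - 1) := by
    rw [← pow_add, ← pow_add]
    congr 1
    omega
  have hlm : l ^ m = l ^ (b - 1) * l ^ (2 * U) := by
    rw [← pow_add]
    congr 1
    omega
  rw [hQ]
  constructor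
  · have h5 : (1 / 2 : ℝ) ^ m ≤ E * (l ^ (b - 1) * 0.3025 ^ U) := by
      refine hf3.trans ?_
      rw [hlm, pow_mul]
      refine mul_le_mul_of_nonneg_left (mul_le_mul_of_nonneg_left ?_ (by positivity)) (by linarith)
      refine pow_le_pow_left₀ (by positivity) ?_ U
      nlinarith
    calc ((m + 1 : ℕ) : ℝ) ^ U * (4 * (1 / 2 : ℝ) ^ m * ((m + 1 : ℕ) : ℝ) ^ (m - 1)) * 5 ^ U
        ≤ (2 ^ U * (b : ℝ) ^ U) * (4 * (E * (l ^ (b - 1) * 0.3025 ^ U)) * (54.6 ^ U * (b : ℝ) ^ (m - 1))) * 5 ^ U := by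
          refine mul_le_mul_of_nonneg_right ?_ (by positivity)
          refine mul_le_mul hf2 ?_ (by positivity) (by positivity)
          refine mul_le_mul ?_ hf1 (by positivity) (by positivity)
          linarith
      _ = 4 * E * (2 * 0.3025 * 54.6 * 5 : ℝ) ^ U * ((b : ℝ) ^ U * (b : ℝ) ^ (m - 1) * l ^ (b - 1)) := by
          simp only [mul_pow]
          ring
      _ ≤ _ := by
          refine mul_le_mul_of_nonneg_right ?_ (by positivity)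
          refine mul_le_mul_of_nonneg_left ?_ (by linarith)
          exact pow_le_pow_left₀ (by norm_num) (by norm_num) U
  · have h5 : (1 / 2 : ℝ) ^ m ≤ E * l ^ (b - 1) := by
      refine hf3.trans (mul_le_mul_of_nonneg_left ?_ (by linarith))
      exact pow_le_pow_of_le_one hl.le (by linarith) (by omega)
    calc ((m + 1 : ℕ) : ℝ) ^ U * ((1 / 2 : ℝ) ^ m * ((m + 1 : ℕ) : ℝ) ^ (m - 1))
        ≤ (2 ^ U * (b : ℝ) ^ U) * ((E * l ^ (b - 1)) * (54.6 ^ U * (b : ℝ) ^ (m - 1))) := by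
          refine mul_le_mul hf2 ?_ (by positivity) (by positivity)
          exact mul_le_mul h5 hf1 (by positivity) (by positivity)
      _ = E * (2 * 54.6 : ℝ) ^ U * ((b : ℝ) ^ U * (b : ℝ) ^ (m - 1) * l ^ (b - 1)) := by
          simp only [mul_pow]
          ring
      _ = _ := by norm_num

theorem n10_lam {V : Type} [Fintype V] (m : ℕ) (c : V → V → ZMod m) (Gd : V → Prop) (h : Deg c Gd) :
    lam (WG c 0 Gd) ≤ 11 / 20 := by
  classical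
  have h1 : ∀ x, dgr (WG c 0 Gd) x ≤ 11 / 20 := by
    intro x
    by_cases hx : Gd x
    · exact h.d0' x hx
    · have : dgr (WG c 0 Gd) x = 0 := by
        unfold dgr
        have : ∀ y, WG c 0 Gd x y = 0 := by
          intro y
          unfold WG
          rw [if_neg fun h' => hx h'.2.1]
        simp [this]
      rw [this]
      norm_num
  unfold lam
  rcases isEmpty_or_nonempty V with hV | hV
  · simp only [univ_eq_empty, sum_empty, zero_div]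
    norm_num
  · have hn : 0 < (Fintype.card V : ℝ) := by exact_mod_cast Fintype.card_pos
    rw [div_le_iff₀ hn]
    calc ∑ x, dgr (WG c 0 Gd) x ≤ ∑ _x : V, (11 / 20 : ℝ) := sum_le_sum fun x _ => h1 x
      _ = 11 / 20 * Fintype.card V := by simp; ring

/-- PROOF. `N = m + 1`, `k = j s`, `U = j + k ≤ N / 4`, `B = Fin b`, `b = N - 2 U ≥ N / 2` (`b ≥ 2`), `λ' = lam (WG c 0 Gd) ≤ 11/20`, `λ' > 0` (by `hE2`), `card_PT`: `|PT (Fin b)| = b^(b-2)`.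
`m.descFactorial (2U) ≥ b^(2U)`; `(b/N)^(N-2) ≥ exp (-4U)` (`1 - t ≥ exp (-2t)`, `t = 2U/N ≤ 1/2`), `exp 4 ≤ 55`.
(1) `fib0_le` (`J = Fin U`), `S0_zero_ge`, `hT`: `∑_p ∑_x ∏ WG ≤ T b^(b-2) n^b λ'^(b-1)` with `T = N^U * 4 (1/2)^m N^(N-2) 5^U / (b^(2U) b^U b^(b-2) λ'^(m-2U))`
`≤ 4 (2λ')^(-m) λ'^(2U) (5N/b)^U (N/b)^(N-2) ≤ 4 E * 166^U` (`λ'^2 ≤ 0.3025`, `0.3025 * 10 * 54.6 ≤ 166`). So `1 + T ≤ 5 E 166^U`.
(2) `fib_le`, `S0_third_ge`: `j! k! Xm ≥ b^(2U) (b n^2)^U 5^(-k) b^(b-2) n^b λ'^(m-2U) (Gam/3)^j / (1+T)^3`, and `b^(3U+b-2) = b^U b^(N-2) ≥ (N/2)^U exp (-4U) N^(N-2)`, `λ'^(m-2U) ≥ λ'^m ≥ (1/2)^m / E`.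
So `j! k! Xm ≥ N^(N-2) n^N (1/2)^m (N/110)^U 5^(-k) (Gam/3)^j / (125 E^4 166^(3U))` and `110 * 5 * 166^3 ≤ 10^10`. -/
theorem xs {V : Type} [Fintype V] (m s j : ℕ) (hs1 : 1 ≤ s) (hs2 : s + 2 ≤ m) (hj : 1 ≤ j)
    (h4 : 4 * (j + j * s) ≤ m + 1) (c : V → V → ZMod m) (Gd : V → Prop) (h : Deg c Gd)
    (hG : 0 < Gam c (-(s : ZMod m)) Gd) (E : ℝ) (hE : 1 ≤ E) (hE2 : 1 ≤ E * (2 * lam (WG c 0 Gd)) ^ m)
    (hT : (Tm c 0 : ℝ) ≤ 4 * (1 / 2 : ℝ) ^ m * ((m + 1 : ℕ) : ℝ) ^ (m - 1) * (Fintype.card V : ℝ) ^ (m + 1)) :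
    (((m + 1 : ℕ) : ℝ) / 10 ^ 10) ^ (j * s) * (Gam c (-(s : ZMod m)) Gd * ((m + 1 : ℕ) : ℝ) / 10 ^ 10) ^ j /
      ((j.factorial : ℝ) * ((j * s).factorial : ℝ)) / (125 * E ^ 4) *
      ((1 / 2 : ℝ) ^ m * ((m + 1 : ℕ) : ℝ) ^ (m - 1) * (Fintype.card V : ℝ) ^ (m + 1)) ≤ (Xm c : ℝ) := by
  classical
  have hVne : 0 < Fintype.card V := by
    rcases Nat.eq_zero_or_pos (Fintype.card V) with h0 | h0
    · exfalso
      unfold Gam at hG
      rw [h0] at hG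
      simp at hG
    · exact h0
  have hn : 0 < (Fintype.card V : ℝ) := by exact_mod_cast hVne
  set n : ℝ := (Fintype.card V : ℝ) with hnn
  set l : ℝ := lam (WG c 0 Gd) with hll
  have hl0 : 0 ≤ l := lam_nonneg fun x y => WG_nonneg c 0 Gd x y
  have hl2 : l ≤ 11 / 20 := n10_lam m c Gd h
  have hm : m ≠ 0 := by omega
  have hl : 0 < l := by
    rcases hl0.lt_or_eq with h' | h'
    · exact h'
    · exfalso
      rw [← h', mul_zero, zero_pow hm, mul_zero] at hE2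
      linarith
  set U : ℕ := j + j * s with hUdef
  have hjs : 1 ≤ j * s := Nat.one_le_iff_ne_zero.2 (Nat.mul_ne_zero (by omega) (by omega))
  have hU : 1 ≤ U := by omega
  obtain ⟨b, hb⟩ : ∃ b, b + 2 * U = m + 1 := ⟨m + 1 - 2 * U, by omega⟩
  have hb2 : 2 ≤ b := by omega
  have hbp : (0 : ℝ) < b := by
    have : 0 < b := by omega
    exact_mod_cast this
  let b0 : Fin b := ⟨0, by omega⟩
  have hcB : Fintype.card (Fin b) = b := Fintype.card_fin b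
  obtain ⟨hn1, hn2⟩ := n10_num m U b hb h4 hU l E hl hl2 hE hE2
  -- the number of trees
  have hP : ((PT (Fin b) b0).card : ℝ) = (b : ℝ) ^ (b - 2) := by
    rw [card_PT, hcB]
    push_cast
    rfl
  set S : ℝ := ∑ p ∈ PT (Fin b) b0, ∑ x : Fin b → V, ∏ w ∈ univ.erase b0, WG c 0 Gd (x w) (x (p w)) with hS
  have hS0 : 0 ≤ S := sum_nonneg fun p _ => sum_nonneg fun x _ => prod_nonneg fun w _ => WG_nonneg _ _ _ _ _
  have hD : ((b : ℝ)) ^ (2 * U) ≤ (m.descFactorial (2 * U) : ℝ) := by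
    have := Nat.pow_sub_le_descFactorial m (2 * U)
    have e : m + 1 - 2 * U = b := by omega
    rw [e] at this
    exact_mod_cast this
  have hz := S0_zero_ge c Gd h b0 (by rw [hcB]; exact hb2) (J := Fin U)
  have hf0 := fib0_le m c Gd b0 (J := Fin U) (by rw [hcB, Fintype.card_fin]; exact hb)
  simp only [Fintype.card_fin] at hz hf0
  rw [← hnn, ← hS] at hz
  -- the bound for `S`
  set Q : ℝ := (b : ℝ) ^ (3 * U) * (b : ℝ) ^ (b - 2) * l ^ (b - 1) with hQ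
  have hQ0 : 0 < Q := by positivity
  set T : ℝ := (((m + 1 : ℕ) : ℝ) ^ U * (4 * (1 / 2 : ℝ) ^ m * ((m + 1 : ℕ) : ℝ) ^ (m - 1)) * 5 ^ U) / Q with hTd
  have hT0 : 0 ≤ T := by positivity
  have hTle : T ≤ 4 * E * 166 ^ U := by
    rw [hTd, div_le_iff₀ hQ0]
    exact hn1
  have hnn2 : n ^ (m + 1) = n ^ (2 * U) * n ^ b := by
    rw [← pow_add]
    congr 1
    omega
  have hST : S ≤ T * ((b : ℝ) ^ (b - 2) * (n ^ b * l ^ (b - 1))) := by
    have e1 : (b : ℝ) ^ (2 * U) * (((b : ℝ) * n ^ 2 / 5) ^ U * S) ≤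
        ((m + 1 : ℕ) : ℝ) ^ U * (4 * (1 / 2 : ℝ) ^ m * ((m + 1 : ℕ) : ℝ) ^ (m - 1) * n ^ (m + 1)) := by
      calc (b : ℝ) ^ (2 * U) * (((b : ℝ) * n ^ 2 / 5) ^ U * S)
          ≤ (m.descFactorial (2 * U) : ℝ) * S0 c Gd (Fin b) b0 (fun _ : Fin U => (0 : ZMod m)) :=
            mul_le_mul hD hz (by positivity) (by positivity)
        _ ≤ ((m + 1 : ℕ) : ℝ) ^ U * (Tm c 0 : ℝ) := hf0
        _ ≤ _ := mul_le_mul_of_nonneg_left hT (by positivity)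
    have e2 : (b : ℝ) ^ (2 * U) * (((b : ℝ) * n ^ 2 / 5) ^ U * S) =
        (n ^ (2 * U) / 5 ^ U) * ((b : ℝ) ^ (3 * U) * S) := by
      rw [div_pow, mul_pow, ← pow_mul]
      have : (b : ℝ) ^ (3 * U) = (b : ℝ) ^ (2 * U) * (b : ℝ) ^ U := by
        rw [← pow_add]
        congr 1
        omega
      rw [this]
      ring
    rw [e2, hnn2] at e1
    have e3 : (b : ℝ) ^ (3 * U) * S ≤
        ((m + 1 : ℕ) : ℝ) ^ U * (4 * (1 / 2 : ℝ) ^ m * ((m + 1 : ℕ) : ℝ) ^ (m - 1)) * 5 ^ U * n ^ b := by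
      have hpos : 0 < n ^ (2 * U) / 5 ^ U := by positivity
      refine le_of_mul_le_mul_left (e1.trans (le_of_eq ?_)) hpos
      have : n ^ (2 * U) / 5 ^ U * (((m + 1 : ℕ) : ℝ) ^ U *
          (4 * (1 / 2 : ℝ) ^ m * ((m + 1 : ℕ) : ℝ) ^ (m - 1)) * 5 ^ U * n ^ b) =
          (5 ^ U / 5 ^ U) * (((m + 1 : ℕ) : ℝ) ^ U *
          (4 * (1 / 2 : ℝ) ^ m * ((m + 1 : ℕ) : ℝ) ^ (m - 1)  * (n ^ (2 * U) * n ^ b))) := by ring
      rw [this, div_self (by positivity), one_mul]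
    have e4 : T * ((b : ℝ) ^ (b - 2) * (n ^ b * l ^ (b - 1))) * (b : ℝ) ^ (3 * U) =
        ((m + 1 : ℕ) : ℝ) ^ U * (4 * (1 / 2 : ℝ) ^ m * ((m + 1 : ℕ) : ℝ) ^ (m - 1)) * 5 ^ U * n ^ b := by
      have : T * ((b : ℝ) ^ (b - 2) * (n ^ b * l ^ (b - 1))) * (b : ℝ) ^ (3 * U) = (T * Q) * n ^ b := by
        rw [hQ]; ring
      rw [this, hTd, div_mul_cancel₀ _ hQ0.ne']
    have hpos : 0 < (b : ℝ) ^ (3 * U) := by positivity
    refine le_of_mul_le_mul_right ?_ hpos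
    rw [e4]
    linarith [e3]
  have hth := S0_third_ge c Gd h b0 (by rw [hcB]; exact hb2) s j (j * s) hj hl hG T (by
    rw [hcB, hP]
    exact hST)
  rw [hcB, hP] at hth
  have hf := fib_le m s j hs1 hs2 hj c Gd b0 (by rw [hcB]; exact hb)
  -- the factor `(1 + T)^3`
  have h1T : (1 + T) ^ 3 ≤ 125 * E ^ 3 * (166 ^ 3) ^ U := by
    have e0 : (1 : ℝ) ≤ E * 166 ^ U := by
      have : (1 : ℝ) ≤ 166 ^ U := one_le_pow₀ (by norm_num)
      nlinarith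
    calc (1 + T) ^ 3 ≤ (5 * (E * 166 ^ U)) ^ 3 := pow_le_pow_left₀ (by positivity) (by nlinarith) 3
      _ = _ := by
        rw [mul_pow, mul_pow, ← pow_mul, ← pow_mul, mul_comm U 3]
        norm_num
        ring
  set g : ℝ := Gam c (-(s : ZMod m)) Gd with hg
  -- lower bound for the right side
  have hlow : (b : ℝ) ^ (2 * U) * (((b : ℝ) * n ^ 2) ^ U / 5 ^ (j * s) *
      ((b : ℝ) ^ (b - 2) * (n ^ b * l ^ (b - 1)) * (g / 3) ^ j / (1 + T) ^ 3)) ≤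
      (j.factorial : ℝ) * ((j * s).factorial : ℝ) * (Xm c : ℝ) := by
    refine le_trans ?_ hf
    refine mul_le_mul hD hth ?_ (by positivity)
    have : 0 ≤ g := hG.le
    positivity
  have hmain : (((m + 1 : ℕ) : ℝ) / 10 ^ 10) ^ (j * s) * (g * ((m + 1 : ℕ) : ℝ) / 10 ^ 10) ^ j / (125 * E ^ 4) *
      ((1 / 2 : ℝ) ^ m * ((m + 1 : ℕ) : ℝ) ^ (m - 1) * n ^ (m + 1)) ≤
      (b : ℝ) ^ (2 * U) * (((b : ℝ) * n ^ 2) ^ U / 5 ^ (j * s) *
      ((b : ℝ) ^ (b - 2) * (n ^ b * l ^ (b - 1)) * (g / 3) ^ j / (1 + T) ^ 3)) := by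
    have e1 : (b : ℝ) ^ (2 * U) * (((b : ℝ) * n ^ 2) ^ U / 5 ^ (j * s) *
      ((b : ℝ) ^ (b - 2) * (n ^ b * l ^ (b - 1)) * (g / 3) ^ j / (1 + T) ^ 3)) =
        Q * (n ^ (m + 1) * g ^ j / (5 ^ (j * s) * 3 ^ j)) / (1 + T) ^ 3 := by
      rw [hnn2, hQ, mul_pow, ← pow_mul, div_pow]
      have : (b : ℝ) ^ (3 * U) = (b : ℝ) ^ (2 * U) * (b : ℝ) ^ U := by
        rw [← pow_add]
        congr 1
        omega
      rw [this]
      field_simp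
    rw [e1]
    have e2 : ((m + 1 : ℕ) : ℝ) ^ U * ((1 / 2 : ℝ) ^ m * ((m + 1 : ℕ) : ℝ) ^ (m - 1)) / (E * 109.2 ^ U) ≤ Q := by
      rw [div_le_iff₀ (by positivity)]
      calc _ ≤ _ := hn2
        _ = _ := by ring
    have hg0 : 0 < g := hG
    calc (((m + 1 : ℕ) : ℝ) / 10 ^ 10) ^ (j * s) * (g * ((m + 1 : ℕ) : ℝ) / 10 ^ 10) ^ j / (125 * E ^ 4) *
      ((1 / 2 : ℝ) ^ m * ((m + 1 : ℕ) : ℝ) ^ (m - 1) * n ^ (m + 1))
        = (((m + 1 : ℕ) : ℝ) ^ U * ((1 / 2 : ℝ) ^ m * ((m + 1 : ℕ) : ℝ) ^ (m - 1)) * (n ^ (m + 1) * g ^ j)) /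
          (125 * E ^ 4) / ((10 ^ 10) ^ (j * s) * (10 ^ 10) ^ j) := by
          have e0 : ((m + 1 : ℕ) : ℝ) ^ U = ((m + 1 : ℕ) : ℝ) ^ j * ((m + 1 : ℕ) : ℝ) ^ (j * s) := by
            rw [hUdef, pow_add]
          rw [div_pow, div_pow, mul_pow, e0]
          field_simp
      _ ≤ (((m + 1 : ℕ) : ℝ) ^ U * ((1 / 2 : ℝ) ^ m * ((m + 1 : ℕ) : ℝ) ^ (m - 1)) * (n ^ (m + 1) * g ^ j)) /
          (125 * E ^ 4) / ((109.2 * 166 ^ 3 * 5) ^ (j * s) * (109.2 * 166 ^ 3 * 3) ^ j) := by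
          refine div_le_div_of_nonneg_left (by positivity) (by positivity) ?_
          refine mul_le_mul ?_ ?_ (by positivity) (by positivity)
          · exact pow_le_pow_left₀ (by norm_num) (by norm_num) _
          · exact pow_le_pow_left₀ (by norm_num) (by norm_num) _
      _ = (((m + 1 : ℕ) : ℝ) ^ U * ((1 / 2 : ℝ) ^ m * ((m + 1 : ℕ) : ℝ) ^ (m - 1)) / (E * 109.2 ^ U)) *
          (n ^ (m + 1) * g ^ j / (5 ^ (j * s) * 3 ^ j)) / (125 * E ^ 3 * (166 ^ 3) ^ U) := by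
          rw [hUdef]
          simp only [pow_add, mul_pow]
          field_simp
      _ ≤ Q * (n ^ (m + 1) * g ^ j / (5 ^ (j * s) * 3 ^ j)) / (1 + T) ^ 3 := by
          refine div_le_div₀ (by positivity) ?_ (by positivity) h1T
          exact mul_le_mul_of_nonneg_right e2 (by positivity)
  have hfin := hmain.trans hlow
  have hjf : (0 : ℝ) < (j.factorial : ℝ) := by exact_mod_cast Nat.factorial_pos j
  have hkf : (0 : ℝ) < ((j * s).factorial : ℝ) := by exact_mod_cast Nat.factorial_pos (j * s)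
  have e5 : (((m + 1 : ℕ) : ℝ) / 10 ^ 10) ^ (j * s) * (g * ((m + 1 : ℕ) : ℝ) / 10 ^ 10) ^ j /
      ((j.factorial : ℝ) * ((j * s).factorial : ℝ)) / (125 * E ^ 4) *
      ((1 / 2 : ℝ) ^ m * ((m + 1 : ℕ) : ℝ) ^ (m - 1) * n ^ (m + 1)) =
      ((((m + 1 : ℕ) : ℝ) / 10 ^ 10) ^ (j * s) * (g * ((m + 1 : ℕ) : ℝ) / 10 ^ 10) ^ j / (125 * E ^ 4) *
      ((1 / 2 : ℝ) ^ m * ((m + 1 : ℕ) : ℝ) ^ (m - 1) * n ^ (m + 1))) /
      ((j.factorial : ℝ) * ((j * s).factorial : ℝ)) := by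
    rw [div_right_comm, div_mul_eq_mul_div]
  rw [e5, div_le_iff₀ (by positivity)]
  linarith [hfin]

end Pool.Agent.ZT
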