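import Pool.Agent.ZT.NDefs

/-!
# ZN-N11b: `big_choose`
-/

set_option autoImplicit false

namespace Pool.Agent.ZT

theorem n11b_mono (n r s : ℕ) (h : r ≤ s) (hs : 2 * s ≤ n) : n.choose r ≤ n.choose s := by
  induction s, h using Nat.le_induction with
  | base => exact le_refl _
  | succ s hrs ih =>
    refine (ih (by omega)).trans (Nat.choose_le_succ_of_lt_half_left (by omega))

theorem n11b_four (n r : ℕ) (h : 5 * r ≤ n + 1) : 4 ^ r ≤ n.choose r := by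
  have h1 : (n + 1 - r) ^ r ≤ n.descFactorial r := Nat.pow_sub_le_descFactorial n r
  have h2 : n.descFactorial r = r.factorial * n.choose r := Nat.descFactorial_eq_factorial_mul_choose n r
  have h3 : (4 * r) ^ r ≤ (n + 1 - r) ^ r := Nat.pow_le_pow_left (by omega) r
  have h4 : r.factorial ≤ r ^ r := Nat.factorial_le_pow r
  have h5 : r.factorial * 4 ^ r ≤ r.factorial * n.choose r := by
    calc r.factorial * 4 ^ r ≤ r ^ r * 4 ^ r := Nat.mul_le_mul_right _ h4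
      _ = (4 * r) ^ r := by rw [mul_pow, mul_comm]
      _ ≤ (n + 1 - r) ^ r := h3
      _ ≤ n.descFactorial r := h1
      _ = r.factorial * n.choose r := h2
  exact Nat.le_of_mul_le_mul_left h5 (Nat.factorial_pos r)

/-- PROOF. `r = ⌈c1 m⌉₊ ≤ s ≤ (m-1)/2`, so `C(m-1,s) ≥ C(m-1,r) ≥ ((m-1)/r)^r ≥ 4^r ≥ 4^(c1 m)` (`c1 ≤ 1/16`, `m ≥ m0`; `Nat.choose_le_choose` is monotone up to the middle: `Nat.choose_le_succ_of_lt_half_left`).
`4^(c1) (1 - 6η) ≥ 1 + 2γ` for `η, γ` small, and `(1 + 2γ)^m (1/2)^(m-1) ≥ m^2 * (1+γ)^m (1/2)^m * 1000` for `m ≥ m0`. -/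
theorem big_choose (c1 : ℝ) (h0 : 0 < c1) (h1 : c1 ≤ 1 / 16) : ∃ η : ℝ, 0 < η ∧ η ≤ 1 / 100 ∧ ∃ m0 : ℕ, ∀ m ≥ m0,
    ∀ s : ℕ, c1 * m < s → 2 * s ≤ m - 1 →
    1000 * (m : ℝ) ^ 2 * (1 / 2 : ℝ) ^ m ≤ ((m - 1).choose s : ℝ) * (1 / 2 - 2 * η) ^ (m - 1) := by
  set x : ℝ := (2 : ℝ) ^ c1 with hx
  have hx1 : 1 < x := Real.one_lt_rpow (by norm_num) h0
  have hx0 : 0 < x := by linarith
  have hxi : x⁻¹ < 1 := inv_lt_one_of_one_lt₀ hx1
  have hxi0 : 0 < x⁻¹ := inv_pos.2 hx0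
  set η : ℝ := min (1 / 100) ((1 - x⁻¹) / 4) with hη
  have hη0 : 0 < η := lt_min (by norm_num) (by linarith)
  have hη1 : η ≤ 1 / 100 := min_le_left _ _
  have hη2 : x⁻¹ ≤ 1 - 4 * η := by
    have : η ≤ (1 - x⁻¹) / 4 := min_le_right _ _
    linarith
  -- eventually `500 m^2 ≤ x^m`
  have ht := tendsto_pow_const_div_const_pow_of_one_lt 2 hx1
  have ht2 : ∀ᶠ m : ℕ in Filter.atTop, (m : ℝ) ^ 2 / x ^ m < 1 / 500 :=
    ht.eventually (gt_mem_nhds (by norm_num))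
  obtain ⟨m1, hm1⟩ := Filter.eventually_atTop.1 ht2
  refine ⟨η, hη0, hη1, max m1 20, fun m hm s hs1 hs2 => ?_⟩
  have hm20 : 20 ≤ m := (le_max_right _ _).trans hm
  have hxm : 0 < x ^ m := pow_pos hx0 m
  have hbig : 500 * (m : ℝ) ^ 2 ≤ x ^ m := by
    have h2 := hm1 m ((le_max_left _ _).trans hm)
    rw [div_lt_iff₀ hxm] at h2
    linarith
  set r : ℕ := ⌈c1 * m⌉₊ with hr
  have hrs : r ≤ s := Nat.ceil_le.2 hs1.le
  have hr5 : 5 * r ≤ m - 1 + 1 := by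
    have h2 : (r : ℝ) < c1 * m + 1 := Nat.ceil_lt_add_one (by positivity)
    have h3 : c1 * (m : ℝ) ≤ 1 / 16 * m := mul_le_mul_of_nonneg_right h1 (Nat.cast_nonneg m)
    have h4 : (20 : ℝ) ≤ m := by exact_mod_cast hm20
    have h5 : ((5 * r : ℕ) : ℝ) ≤ ((m : ℕ) : ℝ) := by
      push_cast
      linarith
    have h6 : 5 * r ≤ m := by exact_mod_cast h5
    omega
  have hch : 4 ^ r ≤ (m - 1).choose s := (n11b_four _ _ hr5).trans (n11b_mono _ _ _ hrs hs2)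
  have hchR : (4 : ℝ) ^ r ≤ ((m - 1).choose s : ℝ) := by exact_mod_cast hch
  have h2r : x ^ m ≤ (2 : ℝ) ^ r := by
    rw [hx, ← Real.rpow_natCast ((2 : ℝ) ^ c1) m, ← Real.rpow_mul (by norm_num : (0 : ℝ) ≤ 2),
      ← Real.rpow_natCast (2 : ℝ) r]
    exact Real.rpow_le_rpow_of_exponent_le (by norm_num) (Nat.le_ceil _)
  have h4r : x ^ m * x ^ m ≤ (4 : ℝ) ^ r := by
    have : (4 : ℝ) ^ r = 2 ^ r * 2 ^ r := by
      rw [← mul_pow]
      norm_num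
    rw [this]
    exact mul_le_mul h2r h2r hxm.le (by positivity)
  have hq : (x⁻¹) ^ m ≤ (1 - 4 * η) ^ (m - 1) := by
    have h2 : (x⁻¹) ^ m ≤ (x⁻¹) ^ (m - 1) := pow_le_pow_of_le_one hxi0.le hxi.le (Nat.sub_le _ _)
    exact h2.trans (pow_le_pow_left₀ hxi0.le hη2 _)
  have hhalf : (1 / 2 - 2 * η) ^ (m - 1) = (1 / 2 : ℝ) ^ (m - 1) * (1 - 4 * η) ^ (m - 1) := by
    rw [← mul_pow]
    congr 1
    ring
  have hhalf2 : (1 / 2 : ℝ) ^ m = (1 / 2 : ℝ) ^ (m - 1) * (1 / 2) := by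
    rw [← pow_succ]
    congr 1
    omega
  have hprod : x ^ m ≤ ((m - 1).choose s : ℝ) * (1 - 4 * η) ^ (m - 1) := by
    calc x ^ m = x ^ m * x ^ m * (x⁻¹) ^ m := by
          rw [inv_pow, mul_assoc, mul_inv_cancel₀ hxm.ne', mul_one]
      _ ≤ (4 : ℝ) ^ r * (1 - 4 * η) ^ (m - 1) :=
          mul_le_mul h4r hq (by positivity) (by positivity)
      _ ≤ _ := mul_le_mul_of_nonneg_right hchR (pow_nonneg (hxi0.le.trans hη2) _)
  rw [hhalf, hhalf2]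
  have hp : (0 : ℝ) < (1 / 2 : ℝ) ^ (m - 1) := by positivity
  calc 1000 * (m : ℝ) ^ 2 * ((1 / 2 : ℝ) ^ (m - 1) * (1 / 2))
      = (1 / 2 : ℝ) ^ (m - 1) * (500 * (m : ℝ) ^ 2) := by ring
    _ ≤ (1 / 2 : ℝ) ^ (m - 1) * (((m - 1).choose s : ℝ) * (1 - 4 * η) ^ (m - 1)) :=
        mul_le_mul_of_nonneg_left (hbig.trans hprod) hp.le
    _ = _ := by ring

end Pool.Agent.ZT
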