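import Pool.Agent.ZT.NDefs

/-! # [ZN-11a] numerics: choice of the number of gadgets -/

set_option autoImplicit false

open Finset

namespace Pool.Agent.ZT

theorem n11a_fact (X : ℝ) (hX : 0 ≤ X) (t : ℕ) (ht : 1 ≤ t) :
    (X / (t : ℝ)) ^ t ≤ X ^ t / (t.factorial : ℝ) := by
  rw [div_pow]
  have h1 : (t.factorial : ℝ) ≤ (t : ℝ) ^ t := by exact_mod_cast Nat.factorial_le_pow t
  have h2 : (0 : ℝ) < (t.factorial : ℝ) := by exact_mod_cast Nat.factorial_pos t
  exact div_le_div_of_nonneg_left (pow_nonneg hX t) h2 h1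

theorem n11a_main (C : ℝ) (hC : 1 ≤ C) (κ : ℝ) (hκ : 0 < κ) (hκ1 : κ ≤ 1 / 8) :
    ∃ c1 : ℝ, 0 < c1 ∧ c1 ≤ 1 / 16 ∧ ∃ δ1 : ℝ, 0 < δ1 ∧ ∃ m0 : ℕ, ∀ m ≥ m0,
    ∀ (δ : ℝ), 0 < δ → δ ≤ δ1 → ∀ s : ℕ, 1 ≤ s → (s : ℝ) ≤ c1 * m → ∀ Γ : ℝ, δ / (32 * (s : ℝ) ^ 2) ≤ Γ →
    ∃ j : ℕ, 1 ≤ j ∧ 4 * (j + j * s) ≤ m + 1 ∧
      C * Real.exp (C * (δ * m)) * min 1 (δ * m) ≤
        ((κ * (m : ℝ)) ^ (j * s) / ((j * s).factorial : ℝ)) *
          ((κ * Γ * (m : ℝ)) ^ j / (j.factorial : ℝ)) := by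
  set A : ℝ := 32 * C * Real.exp 2 / κ with hA
  have hA0 : 0 < A := by positivity
  set L : ℝ := Real.log (64 / κ) with hL
  have hL0 : 0 ≤ L := Real.log_nonneg (by rw [le_div_iff₀ hκ]; linarith)
  have hA16 : 16 * κ ≤ A := by
    rw [hA, le_div_iff₀ hκ]
    have : (1 : ℝ) ≤ Real.exp 2 := Real.one_le_exp (by norm_num)
    nlinarith
  have hA1 : 1 ≤ 32 * C / κ := by
    rw [le_div_iff₀ hκ]
    linarith
  refine ⟨κ * Real.exp (-C) / A, by positivity, ?_, κ / 2 * Real.exp (-(2 * L + 2 + 2 * C)), by positivity, 4, ?_⟩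
  · rw [div_le_iff₀ hA0]
    have : Real.exp (-C) ≤ 1 := Real.exp_le_one_iff.2 (by linarith)
    nlinarith
  intro m hm δ hδ hδ1 s hs hsc Γ hΓ
  have hm0 : (4 : ℝ) ≤ m := by exact_mod_cast hm
  have hs0 : (1 : ℝ) ≤ s := by exact_mod_cast hs
  have hsp : (0 : ℝ) < s := by linarith
  have hΓ0 : 0 ≤ Γ := le_trans (by positivity) hΓ
  have hδ16 : δ ≤ 1 / 16 := by
    refine hδ1.trans ?_
    have : Real.exp (-(2 * L + 2 + 2 * C)) ≤ 1 := Real.exp_le_one_iff.2 (by linarith)
    nlinarith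
  rcases le_or_gt (δ * m) s with hcase | hcase
  · -- case `s ≥ δ m`, `j = 1`
    refine ⟨1, le_refl 1, ?_, ?_⟩
    · have h16 : (s : ℝ) ≤ 1 / 16 * m := by
        refine hsc.trans (mul_le_mul_of_nonneg_right ?_ (by linarith))
        rw [div_le_iff₀ hA0]
        have : Real.exp (-C) ≤ 1 := Real.exp_le_one_iff.2 (by linarith)
        nlinarith
      have : (4 : ℝ) * (1 + 1 * s) ≤ m + 1 := by linarith
      exact_mod_cast this
    · rw [one_mul, pow_one, Nat.factorial_one, Nat.cast_one, div_one]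
      have h1 : (κ * (m : ℝ) / s) ^ s ≤ (κ * (m : ℝ)) ^ s / (s.factorial : ℝ) :=
        n11a_fact _ (by positivity) s hs
      have h2 : A * Real.exp C ≤ κ * (m : ℝ) / s := by
        rw [le_div_iff₀ hsp]
        have e1 : A * (κ * Real.exp (-C) / A * m) = κ * Real.exp (-C) * m := by field_simp
        have e2 : Real.exp C * Real.exp (-C) = 1 := by rw [← Real.exp_add]; simp
        calc A * Real.exp C * s = Real.exp C * (A * s) := by ring
          _ ≤ Real.exp C * (A * (κ * Real.exp (-C) / A * m)) := by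
            refine mul_le_mul_of_nonneg_left (mul_le_mul_of_nonneg_left hsc hA0.le) (Real.exp_pos _).le
          _ = (Real.exp C * Real.exp (-C)) * (κ * m) := by rw [e1]; ring
          _ = κ * m := by rw [e2, one_mul]
      have h3 : (32 * C / κ) * (s : ℝ) ^ 2 * Real.exp (C * s) ≤ (κ * (m : ℝ) / s) ^ s := by
        calc (32 * C / κ) * (s : ℝ) ^ 2 * Real.exp (C * s)
            ≤ (32 * C / κ) ^ s * Real.exp 2 ^ s * Real.exp C ^ s := by
              have q1 : Real.exp (C * s) = Real.exp C ^ s := by rw [← Real.exp_nat_mul]; ring_nf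
              have q2 : (s : ℝ) ^ 2 ≤ Real.exp 2 ^ s := by
                have q3 : (s : ℝ) ≤ Real.exp s := by
                  have := Real.add_one_le_exp (s : ℝ)
                  linarith
                calc (s : ℝ) ^ 2 ≤ Real.exp s ^ 2 := pow_le_pow_left₀ hsp.le q3 2
                  _ = Real.exp 2 ^ s := by
                    rw [← Real.exp_nat_mul, ← Real.exp_nat_mul]
                    push_cast
                    ring_nf
              have q4 : 32 * C / κ ≤ (32 * C / κ) ^ s := le_self_pow₀ hA1 (by omega)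
              rw [q1]
              refine mul_le_mul_of_nonneg_right ?_ (by positivity)
              exact mul_le_mul q4 q2 (by positivity) (by positivity)
          _ = (A * Real.exp C) ^ s := by
              rw [← mul_pow, ← mul_pow, hA]
              congr 1
              ring
          _ ≤ (κ * (m : ℝ) / s) ^ s := pow_le_pow_left₀ (by positivity) h2 s
      have h4 : κ * (δ / (32 * (s : ℝ) ^ 2)) * m ≤ κ * Γ * m := by
        refine mul_le_mul_of_nonneg_right (mul_le_mul_of_nonneg_left hΓ hκ.le) (by linarith)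
      have h5 : Real.exp (C * (δ * m)) ≤ Real.exp (C * s) :=
        Real.exp_le_exp.2 (mul_le_mul_of_nonneg_left hcase (by linarith))
      calc C * Real.exp (C * (δ * m)) * min 1 (δ * m)
          ≤ C * Real.exp (C * s) * (δ * m) := by
            refine mul_le_mul ?_ (min_le_right _ _) (le_min (by norm_num) (by positivity)) (by positivity)
            exact mul_le_mul_of_nonneg_left h5 (by linarith)
        _ = (32 * C / κ) * (s : ℝ) ^ 2 * Real.exp (C * s) * (κ * (δ / (32 * (s : ℝ) ^ 2)) * m) := by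
            field_simp
        _ ≤ (κ * (m : ℝ)) ^ s / (s.factorial : ℝ) * (κ * Γ * m) := by
            refine mul_le_mul (h3.trans h1) h4 (by positivity) (by positivity)
  · -- case `s < δ m`
    set j : ℕ := ⌈δ * m / s⌉₊ with hj
    have hdm : 1 < δ * m := lt_of_le_of_lt hs0 hcase
    have hj1 : δ * m / s ≤ j := Nat.le_ceil _
    have hj2 : (j : ℝ) < δ * m / s + 1 := Nat.ceil_lt_add_one (by positivity)
    have hj3 : 1 < δ * m / s := by rw [lt_div_iff₀ hsp]; linarith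
    have hjp : 1 ≤ j := by
      have : (0 : ℝ) < j := by linarith
      exact_mod_cast this
    have hjr : (1 : ℝ) ≤ j := by exact_mod_cast hjp
    have hjs1 : δ * m ≤ (j : ℝ) * s := by
      rw [div_le_iff₀ hsp] at hj1
      exact hj1
    have hjs2 : (j : ℝ) * s ≤ 2 * (δ * m) := by
      have : (j : ℝ) ≤ 2 * (δ * m / s) := by linarith
      calc (j : ℝ) * s ≤ 2 * (δ * m / s) * s := mul_le_mul_of_nonneg_right this hsp.le
        _ = 2 * (δ * m) := by field_simp
    have hjle : (j : ℝ) ≤ j * s := by nlinarith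
    refine ⟨j, hjp, ?_, ?_⟩
    · have : (4 : ℝ) * (j + j * s) ≤ m + 1 := by nlinarith
      exact_mod_cast this
    · have hts : 1 ≤ j * s := Nat.one_le_iff_ne_zero.2 (Nat.mul_ne_zero (by omega) (by omega))
      have htp : (0 : ℝ) < (j : ℝ) * s := by positivity
      have h1 := n11a_fact (κ * (m : ℝ)) (by positivity) (j * s) hts
      have h2 := n11a_fact (κ * Γ * (m : ℝ)) (by positivity) j hjp
      have hlog : 2 * L + 2 + 2 * C ≤ Real.log (κ / (2 * δ)) := by
        rw [Real.le_log_iff_exp_le (by positivity), le_div_iff₀ (by positivity)]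
        have e : Real.exp (2 * L + 2 + 2 * C) * Real.exp (-(2 * L + 2 + 2 * C)) = 1 := by
          rw [← Real.exp_add]; simp
        calc Real.exp (2 * L + 2 + 2 * C) * (2 * δ)
            ≤ Real.exp (2 * L + 2 + 2 * C) * (2 * (κ / 2 * Real.exp (-(2 * L + 2 + 2 * C)))) := by
              refine mul_le_mul_of_nonneg_left (mul_le_mul_of_nonneg_left hδ1 (by norm_num)) (Real.exp_pos _).le
          _ = κ * (Real.exp (2 * L + 2 + 2 * C) * Real.exp (-(2 * L + 2 + 2 * C))) := by ring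
          _ = κ := by rw [e, mul_one]
      have h3 : Real.exp (δ * m * (2 * L + 2 + 2 * C)) ≤ (κ * (m : ℝ) / ((j * s : ℕ) : ℝ)) ^ (j * s) := by
        have q1 : κ / (2 * δ) ≤ κ * (m : ℝ) / ((j * s : ℕ) : ℝ) := by
          push_cast
          rw [div_le_div_iff₀ (by positivity) htp]
          calc κ * (j * s) ≤ κ * (2 * (δ * m)) := mul_le_mul_of_nonneg_left hjs2 hκ.le
            _ = κ * m * (2 * δ) := by ring
        have q0 : 0 < κ / (2 * δ) := by positivity
        calc Real.exp (δ * m * (2 * L + 2 + 2 * C)) ≤ Real.exp (((j * s : ℕ) : ℝ) * Real.log (κ / (2 * δ))) := by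
              refine Real.exp_le_exp.2 ?_
              push_cast
              exact mul_le_mul hjs1 hlog (by positivity) (by positivity)
          _ = (κ / (2 * δ)) ^ (j * s) := by
              rw [Real.exp_nat_mul, Real.exp_log q0]
          _ ≤ _ := pow_le_pow_left₀ q0.le q1 _
      have h4 : Real.exp (-(2 * (δ * m) * L + 2 * (δ * m))) ≤ (κ * Γ * (m : ℝ) / (j : ℝ)) ^ j := by
        have q1 : κ / (64 * s) ≤ κ * Γ * (m : ℝ) / (j : ℝ) := by
          rw [div_le_div_iff₀ (by positivity) (by linarith)]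
          have q2 : δ ≤ Γ * (32 * (s : ℝ) ^ 2) := by
            rw [div_le_iff₀ (by positivity)] at hΓ
            exact hΓ
          have q3 : (j : ℝ) * s ≤ 2 * (Γ * (32 * (s : ℝ) ^ 2) * m) := by
            refine hjs2.trans ?_
            refine mul_le_mul_of_nonneg_left (mul_le_mul_of_nonneg_right q2 (by linarith)) (by norm_num)
          have q4 : (j : ℝ) ≤ 64 * s * Γ * m := by
            have : (j : ℝ) * s ≤ (64 * s * Γ * m) * s := by
              calc (j : ℝ) * s ≤ 2 * (Γ * (32 * (s : ℝ) ^ 2) * m) := q3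
                _ = (64 * s * Γ * m) * s := by ring
            exact le_of_mul_le_mul_right this hsp
          calc κ * (j : ℝ) ≤ κ * (64 * s * Γ * m) := mul_le_mul_of_nonneg_left q4 hκ.le
            _ = κ * Γ * m * (64 * s) := by ring
        have q0 : 0 < κ / (64 * (s : ℝ)) := by positivity
        have q5 : Real.log (κ / (64 * s)) = -(L + Real.log s) := by
          rw [hL, ← Real.log_mul (by positivity) (by positivity), ← Real.log_inv]
          congr 1
          field_simp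
        have q6 : Real.log s ≤ s := by
          have := Real.log_le_sub_one_of_pos hsp
          linarith
        calc Real.exp (-(2 * (δ * m) * L + 2 * (δ * m)))
            ≤ Real.exp ((j : ℝ) * Real.log (κ / (64 * s))) := by
              refine Real.exp_le_exp.2 ?_
              rw [q5]
              have r1 : (j : ℝ) * L ≤ 2 * (δ * m) * L :=
                mul_le_mul_of_nonneg_right (hjle.trans hjs2) hL0
              have r2 : (j : ℝ) * Real.log s ≤ 2 * (δ * m) :=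
                (mul_le_mul_of_nonneg_left q6 (by linarith)).trans hjs2
              nlinarith
          _ = (κ / (64 * s)) ^ j := by rw [Real.exp_nat_mul, Real.exp_log q0]
          _ ≤ _ := pow_le_pow_left₀ q0.le q1 _
      have h5 : C ≤ Real.exp (C * (δ * m)) := by
        have r1 : C ≤ Real.exp C := by
          have := Real.add_one_le_exp C
          linarith
        refine r1.trans (Real.exp_le_exp.2 ?_)
        nlinarith
      calc C * Real.exp (C * (δ * m)) * min 1 (δ * m)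
          ≤ Real.exp (C * (δ * m)) * Real.exp (C * (δ * m)) * 1 := by
            refine mul_le_mul ?_ (min_le_left _ _) (le_min (by norm_num) (by positivity)) (by positivity)
            exact mul_le_mul_of_nonneg_right h5 (Real.exp_pos _).le
        _ = Real.exp (δ * m * (2 * L + 2 + 2 * C)) * Real.exp (-(2 * (δ * m) * L + 2 * (δ * m))) := by
            rw [mul_one, ← Real.exp_add, ← Real.exp_add]
            congr 1
            ring
        _ ≤ _ := mul_le_mul (h3.trans h1) (h4.trans h2) (Real.exp_pos _).le (by positivity)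

/-- PROOF. `κ = 10^(-10)`, `N = m + 1 ≥ m`, `j! ≤ j^j`, `(js)! ≤ (js)^(js)`: the right side is `≥ (κ m / (j s))^(js) (κ Γ m / j)^j`.
Let `A = 32 C exp 2 / κ`, `c1 = κ exp (-C) / A ≤ 1/16`, `δ1 = κ exp (-(2 log (64/κ) + 2 + 2 C)) / 2 ≤ 1/16`.
Case `s ≥ δ m`: `j = 1`: `(κ m/s)^s κ δ m / (32 s^2) ≥ C exp (C δ m) δ m`, as `(κ m exp (-C) / s)^s ≥ A^s ≥ (32 C/κ) exp (2 s) ≥ (32 C/κ) s^2` and `exp (C δ m) ≤ exp (C s)`. `4 (1 + s) ≤ m + 1` for `m ≥ m0`.
Case `s < δ m`: `j = ⌈δ m / s⌉₊`, `δ m ≤ j s ≤ 2 δ m`; `4 (j + j s) ≤ 8 j s ≤ 16 δ m ≤ m`; `(κ m/(js))^(js) ≥ (κ/(2δ))^(js) ≥ (κ/(2δ))^(δ m)` (real exponent), `(κ Γ m/j)^j ≥ (κ/(64 s))^j = exp (-j log (64 s/κ)) ≥ exp (-2 δ m (log (64/κ) + 1))`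
(`j ≤ 2 δ m/s`, `log s ≤ s`); the product is `≥ exp (δ m (log (κ/(2δ)) - 2 log (64/κ) - 2)) ≥ exp (2 C δ m) ≥ C exp (C δ m)` (`δ m ≥ 1`, `exp C ≥ C`). -/
theorem choose_j (C : ℝ) (hC : 1 ≤ C) : ∃ c1 : ℝ, 0 < c1 ∧ c1 ≤ 1 / 16 ∧ ∃ δ1 : ℝ, 0 < δ1 ∧ ∃ m0 : ℕ, ∀ m ≥ m0,
    ∀ (δ : ℝ), 0 < δ → δ ≤ δ1 → ∀ s : ℕ, 1 ≤ s → (s : ℝ) ≤ c1 * m → ∀ Γ : ℝ, δ / (32 * (s : ℝ) ^ 2) ≤ Γ →
    ∃ j : ℕ, 1 ≤ j ∧ 4 * (j + j * s) ≤ m + 1 ∧
      C * Real.exp (C * (δ * m)) * min 1 (δ * m) ≤
        (((m + 1 : ℕ) : ℝ) / 10 ^ 10) ^ (j * s) * (Γ * ((m + 1 : ℕ) : ℝ) / 10 ^ 10) ^ j /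
          ((j.factorial : ℝ) * ((j * s).factorial : ℝ)) := by
  obtain ⟨c1, h1, h2, δ1, h3, m0, h4⟩ := n11a_main C hC (1 / 10 ^ 10) (by norm_num) (by norm_num)
  refine ⟨c1, h1, h2, δ1, h3, m0, ?_⟩
  intro m hm δ hδ hδ1 s hs hsc Γ hΓ
  obtain ⟨j, hj1, hj2, hj3⟩ := h4 m hm δ hδ hδ1 s hs hsc Γ hΓ
  have hΓ0 : 0 ≤ Γ := le_trans (by positivity) hΓ
  refine ⟨j, hj1, hj2, hj3.trans ?_⟩
  have e : (((m + 1 : ℕ) : ℝ) / 10 ^ 10) ^ (j * s) * (Γ * ((m + 1 : ℕ) : ℝ) / 10 ^ 10) ^ j /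
          ((j.factorial : ℝ) * ((j * s).factorial : ℝ)) =
      ((((m + 1 : ℕ) : ℝ) / 10 ^ 10) ^ (j * s) / ((j * s).factorial : ℝ)) *
        ((Γ * ((m + 1 : ℕ) : ℝ) / 10 ^ 10) ^ j / (j.factorial : ℝ)) := by
    rw [div_mul_div_comm]
    ring_nf
  rw [e]
  have hmm : (m : ℝ) ≤ ((m + 1 : ℕ) : ℝ) := by push_cast; linarith
  refine mul_le_mul ?_ ?_ (by positivity) (by positivity)
  · refine div_le_div_of_nonneg_right (pow_le_pow_left₀ (by positivity) ?_ _) (by positivity)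
    calc 1 / 10 ^ 10 * (m : ℝ) = (m : ℝ) / 10 ^ 10 := by ring
      _ ≤ _ := div_le_div_of_nonneg_right hmm (by positivity)
  · refine div_le_div_of_nonneg_right (pow_le_pow_left₀ (by positivity) ?_ _) (by positivity)
    calc 1 / 10 ^ 10 * Γ * (m : ℝ) = Γ * (m : ℝ) / 10 ^ 10 := by ring
      _ ≤ _ := div_le_div_of_nonneg_right (mul_le_mul_of_nonneg_left hmm hΓ0) (by positivity)

end Pool.Agent.ZT
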