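import Pool.Agent.ZT.NDefs

/-! # [ZN-12] greedy lower bound -/

set_option autoImplicit false

open Finset

namespace Pool.Agent.ZT

theorem n12_upd {A V : Type} [Fintype A] [DecidableEq A] [Fintype V] (w : A) (G : (A → V) → ℝ) :
    ∑ x : A → V, ∑ z : V, G (Function.update x w z) = (Fintype.card V : ℝ) * ∑ x, G x := by
  have h : ∑ q : (A → V) × V, G (Function.update q.1 w q.2) = ∑ q : (A → V) × V, G q.1 := by
    refine Fintype.sum_bijective (fun q : (A → V) × V => (Function.update q.1 w q.2, q.1 w))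
      (Function.Involutive.bijective ?_) _ _ (fun q => rfl)
    intro q
    simp
  rw [← Fintype.sum_prod_type', h, Fintype.sum_prod_type, mul_sum]
  simp

theorem n12_base {A V : Type} [Fintype A] [DecidableEq A] [Fintype V] (v : A) (g : V → ℝ) :
    ∑ x : A → V, g (x v) = (∑ y, g y) * (Fintype.card V : ℝ) ^ (Fintype.card A - 1) := by
  classical
  have h := Finset.prod_univ_sum (fun _ : A => (univ : Finset V))
    (fun (a : A) (y : V) => if a = v then g y else 1)
  rw [Fintype.piFinset_univ] at h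
  have h1 : ∀ x : A → V, ∏ a : A, (if a = v then g (x a) else 1) = g (x v) := by
    intro x
    rw [Finset.prod_ite_eq' univ v (fun a => g (x a))]
    simp
  rw [← Finset.sum_congr rfl (fun x _ => h1 x), ← h, ← Finset.mul_prod_erase univ _ (mem_univ v)]
  have h2 : ∏ a ∈ univ.erase v, ∑ y : V, (if a = v then g y else 1) =
      ∏ a ∈ univ.erase v, (Fintype.card V : ℝ) := by
    refine prod_congr rfl fun a ha => ?_
    rw [mem_erase] at ha
    simp [ha.1]
  rw [h2, prod_const, card_erase_of_mem (mem_univ v), card_univ]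
  simp

theorem n12_next {A : Type} [Fintype A] [DecidableEq A] (v : A) (p : A → A) (hp : p ∈ PT A v)
    (S : Finset A) (hv : v ∈ S) (hS : S ≠ univ) : ∃ w, w ∉ S ∧ p w ∈ S := by
  obtain ⟨u, hu⟩ : ∃ u, u ∉ S := by
    by_contra hcon
    push Not at hcon
    exact hS (eq_univ_of_forall hcon)
  obtain ⟨k, hk⟩ := (mem_PT.1 hp).2 u
  have hex : ∃ k, p^[k] u ∈ S := ⟨k, by rw [hk]; exact hv⟩
  classical
  have h1 := Nat.find_spec hex
  have h0 : Nat.find hex ≠ 0 := by
    intro h
    rw [h] at h1
    exact hu h1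
  obtain ⟨j, hj⟩ := Nat.exists_eq_succ_of_ne_zero h0
  refine ⟨p^[j] u, ?_, ?_⟩
  · exact Nat.find_min hex (by omega)
  · rw [hj, Function.iterate_succ_apply'] at h1
    exact h1

open Classical in
/-- the partial product -/
noncomputable def n12F {A V : Type} [Fintype A] [DecidableEq A] [Fintype V] (v : A) (p : A → A)
    (K : A → V → V → ℝ) (Gd : V → Prop) (ψ : V → ℝ) (S : Finset A) (x : A → V) : ℝ :=
  (∏ a ∈ S, if Gd (x a) then (1 : ℝ) else 0) * (ψ (x v) * ∏ w ∈ S.erase v, K w (x w) (x (p w)))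

theorem n12_step {A V : Type} [Fintype A] [DecidableEq A] [Fintype V] (v : A) (p : A → A)
    (K : A → V → V → ℝ) (hK : ∀ w x y, 0 ≤ K w x y) (Gd : V → Prop) (κ : ℝ)
    (hdeg : ∀ w y, Gd y → κ * (Fintype.card V : ℝ) ≤ sm Gd (fun z => K w z y))
    (ψ : V → ℝ) (hψ : ∀ y, 0 ≤ ψ y) (hn : 0 < (Fintype.card V : ℝ)) (S : Finset A) (hv : v ∈ S)
    (hcl : ∀ a ∈ S, p a ∈ S) (w : A) (hw : w ∉ S) (hpw : p w ∈ S) :
    κ * ∑ x, n12F v p K Gd ψ S x ≤ ∑ x, n12F v p K Gd ψ (insert w S) x := by
  classical
  have hwv : w ≠ v := fun h => hw (h ▸ hv)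
  have hne : ∀ a ∈ S, a ≠ w := fun a ha h => hw (h ▸ ha)
  have h1 : ∀ x : A → V, ∀ z : V, n12F v p K Gd ψ (insert w S) (Function.update x w z) =
      n12F v p K Gd ψ S x * ((if Gd z then (1 : ℝ) else 0) * K w z (x (p w))) := by
    intro x z
    unfold n12F
    rw [prod_insert hw, erase_insert_of_ne hwv, prod_insert (fun h => hw (mem_of_mem_erase h))]
    rw [Function.update_self, Function.update_of_ne hwv.symm, Function.update_of_ne (hne _ hpw)]
    have e1 : ∏ a ∈ S, (if Gd (Function.update x w z a) then (1 : ℝ) else 0) =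
        ∏ a ∈ S, (if Gd (x a) then (1 : ℝ) else 0) := by
      refine prod_congr rfl fun a ha => ?_
      rw [Function.update_of_ne (hne _ ha)]
    have e2 : ∏ a ∈ S.erase v, K a (Function.update x w z a) (Function.update x w z (p a)) =
        ∏ a ∈ S.erase v, K a (x a) (x (p a)) := by
      refine prod_congr rfl fun a ha => ?_
      have ha' := mem_of_mem_erase ha
      rw [Function.update_of_ne (hne _ ha'), Function.update_of_ne (hne _ (hcl a ha'))]
    rw [e1, e2]
    ring
  have h2 := n12_upd w (n12F v p K Gd ψ (insert w S))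
  have h3 : ∑ x : A → V, n12F v p K Gd ψ S x * (κ * (Fintype.card V : ℝ)) ≤
      ∑ x : A → V, ∑ z : V, n12F v p K Gd ψ (insert w S) (Function.update x w z) := by
    refine sum_le_sum fun x _ => ?_
    simp only [h1]
    rw [← mul_sum]
    by_cases hg : Gd (x (p w))
    · have h0 : 0 ≤ n12F v p K Gd ψ S x := by
        unfold n12F
        refine mul_nonneg (prod_nonneg fun a _ => ?_) (mul_nonneg (hψ _) (prod_nonneg fun a _ => hK _ _ _))
        split_ifs <;> norm_num
      refine mul_le_mul_of_nonneg_left ?_ h0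
      refine (hdeg w _ hg).trans (le_of_eq ?_)
      rw [sm_eq, sum_filter]
      refine sum_congr rfl fun z _ => ?_
      split_ifs <;> simp
    · have h0 : n12F v p K Gd ψ S x = 0 := by
        unfold n12F
        rw [prod_eq_zero hpw (by rw [if_neg hg]), zero_mul]
      rw [h0]
      simp
  rw [h2, ← sum_mul] at h3
  nlinarith [h3, hn]

theorem n12_main {A V : Type} [Fintype A] [DecidableEq A] [Fintype V] (v : A) (p : A → A)
    (hp : p ∈ PT A v)
    (K : A → V → V → ℝ) (hK : ∀ w x y, 0 ≤ K w x y) (Gd : V → Prop) (κ : ℝ) (hκ : 0 ≤ κ)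
    (hdeg : ∀ w y, Gd y → κ * (Fintype.card V : ℝ) ≤ sm Gd (fun z => K w z y))
    (ψ : V → ℝ) (hψ : ∀ y, 0 ≤ ψ y) (hn : 0 < (Fintype.card V : ℝ)) :
    ∀ d : ℕ, ∀ S : Finset A, v ∈ S → (∀ a ∈ S, p a ∈ S) → Fintype.card A - S.card = d →
    κ ^ d * ∑ x, n12F v p K Gd ψ S x ≤ ∑ x, n12F v p K Gd ψ univ x := by
  intro d
  induction d with
  | zero =>
    intro S hv hcl hd
    have : S = univ := by
      rw [← card_eq_iff_eq_univ]
      have := card_le_univ S
      omega
    rw [this]
    simp
  | succ d ih =>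
    intro S hv hcl hd
    have hne : S ≠ univ := by
      rintro rfl
      rw [card_univ] at hd
      omega
    obtain ⟨w, hw, hpw⟩ := n12_next v p hp S hv hne
    have h1 := n12_step v p K hK Gd κ hdeg ψ hψ hn S hv hcl w hw hpw
    have h2 := ih (insert w S) (mem_insert_of_mem hv) (by
      intro a ha
      rw [mem_insert] at ha
      rcases ha with rfl | ha
      · exact mem_insert_of_mem hpw
      · exact mem_insert_of_mem (hcl a ha)) (by
      rw [card_insert_of_notMem hw]
      omega)
    calc κ ^ (d + 1) * ∑ x, n12F v p K Gd ψ S x = κ ^ d * (κ * ∑ x, n12F v p K Gd ψ S x) := by ring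
      _ ≤ κ ^ d * ∑ x, n12F v p K Gd ψ (insert w S) x :=
        mul_le_mul_of_nonneg_left h1 (pow_nonneg hκ d)
      _ ≤ _ := h2

open Classical in
/-- Greedy lower bound for a sum over the placements of a tree by good vertices, with edge kernels `K w` (for the edge
`{w, p w}`) and a weight at the root.

PROOF. Induct on the sets `S ∋ v` closed under `p` (see [ZN-01], or any induction on `p ∈ PT A v`): for the sum over the placements of `S` by good vertices,
adding a vertex `w` with `p w ∈ S` multiplies the sum by at least `κ n` (the edge `w` contributes `∑_{z good} K w z (x (p w)) ≥ κ n`, `x (p w)` good). Formally one can keep all coordinates: let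
`R_S = ∑_{x : A → V} (∏_{w ∈ S} [Gd (x w)]) ψ (x v) ∏_{w ∈ S, w ≠ v} K w (x w) (x (p w)) * n^(|S| - |A|)` (the coordinates outside `S` are free), so `R_{insert w S} ≥ κ n R_S`,
`R_{{v}} = ∑_{y good} ψ y`. -/
theorem greedy {A V : Type} [Fintype A] [DecidableEq A] [Fintype V] (v : A) (p : A → A) (hp : p ∈ PT A v)
    (K : A → V → V → ℝ) (hK : ∀ w x y, 0 ≤ K w x y) (Gd : V → Prop) (κ : ℝ) (hκ : 0 ≤ κ)
    (hdeg : ∀ w y, Gd y → κ * (Fintype.card V : ℝ) ≤ ∑ z, if Gd z then K w z y else 0)
    (ψ : V → ℝ) (hψ : ∀ y, 0 ≤ ψ y) :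
    (∑ y, if Gd y then ψ y else 0) * (κ * (Fintype.card V : ℝ)) ^ (Fintype.card A - 1) ≤
    ∑ x : A → V, if ∀ a, Gd (x a) then ψ (x v) * ∏ w ∈ univ.erase v, K w (x w) (x (p w)) else 0 := by
  rcases isEmpty_or_nonempty V with hV | hV
  · have : IsEmpty (A → V) := ⟨fun x => hV.false (x v)⟩
    simp
  · have hn : 0 < (Fintype.card V : ℝ) := by exact_mod_cast Fintype.card_pos
    have hdeg' : ∀ w y, Gd y → κ * (Fintype.card V : ℝ) ≤ sm Gd (fun z => K w z y) := by
      intro w y hy
      rw [sm_eq, sum_filter]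
      exact hdeg w y hy
    have h1 := n12_main v p hp K hK Gd κ hκ hdeg' ψ hψ hn (Fintype.card A - 1) {v}
      (mem_singleton_self v) (by
        intro a ha
        rw [mem_singleton] at ha ⊢
        rw [ha]
        exact (mem_PT.1 hp).1) (by rw [card_singleton])
    have h2 : ∀ x : A → V, n12F v p K Gd ψ {v} x = (if Gd (x v) then ψ (x v) else 0) := by
      intro x
      unfold n12F
      rw [prod_singleton]
      simp only [erase_singleton, prod_empty, mul_one]
      split_ifs <;> simp
    have h3 : ∀ x : A → V, n12F v p K Gd ψ univ x =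
        (if ∀ a, Gd (x a) then ψ (x v) * ∏ w ∈ univ.erase v, K w (x w) (x (p w)) else 0) := by
      intro x
      unfold n12F
      by_cases hx : ∀ a, Gd (x a)
      · rw [if_pos hx, prod_congr rfl (fun a _ => if_pos (hx a)), prod_const_one, one_mul]
      · rw [if_neg hx]
        push Not at hx
        obtain ⟨a, ha⟩ := hx
        rw [prod_eq_zero (mem_univ a) (if_neg ha), zero_mul]
    simp only [h2, h3] at h1
    rw [n12_base v (fun y => if Gd y then ψ y else 0)] at h1
    refine le_trans (le_of_eq ?_) h1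
    rw [mul_pow]
    ring

end Pool.Agent.ZT
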