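import Pool.Agent.ZT.N12

/-! # [ZN-13] many 0/1-patterns together with one third leaf at the root -/

set_option autoImplicit false

open Finset

namespace Pool.Agent.ZT

theorem n13_iter {M : ℕ} (p : Fin (M + 1) → Fin (M + 1)) (k : ℕ) (w : Fin (M + 1)) :
    (Fin.snoc (α := fun _ => Fin (M + 2)) (fun w => Fin.castSucc (p w)) 0)^[k] (Fin.castSucc w) =
      Fin.castSucc (p^[k] w) := by
  induction k generalizing w with
  | zero => rfl
  | succ k ih =>
    rw [Function.iterate_succ_apply, Function.iterate_succ_apply, Fin.snoc_castSucc, ih]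

theorem n13_PT {M : ℕ} (p : Fin (M + 1) → Fin (M + 1)) (hp : p ∈ PT (Fin (M + 1)) 0) :
    (Fin.snoc (α := fun _ => Fin (M + 2)) (fun w => Fin.castSucc (p w)) 0) ∈ PT (Fin (M + 2)) 0 := by
  rw [mem_PT] at hp ⊢
  have h0 : (0 : Fin (M + 2)) = Fin.castSucc (0 : Fin (M + 1)) := rfl
  constructor
  · rw [h0, Fin.snoc_castSucc, hp.1]
  · intro w
    refine Fin.lastCases ?_ (fun w => ?_) w
    · refine ⟨1, ?_⟩
      rw [Function.iterate_one, Fin.snoc_last]
    · obtain ⟨k, hk⟩ := hp.2 w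
      refine ⟨k, ?_⟩
      rw [n13_iter, hk]
      rfl

theorem n13_PS {V : Type} {m M : ℕ} (c : V → V → ZMod m) (p : Fin (M + 1) → Fin (M + 1))
    (x : Fin (M + 1) → V) (y : V) :
    PS c (Fin.snoc (α := fun _ => Fin (M + 2)) (fun w => Fin.castSucc (p w)) 0) 0
      (Fin.snoc (α := fun _ => V) x y) = PS c p 0 x + c y (x 0) := by
  unfold PS
  have h0 : (0 : Fin (M + 2)) = Fin.castSucc (0 : Fin (M + 1)) := rfl
  have h1 : (univ.erase (0 : Fin (M + 2))) =
      insert (Fin.last (M + 1)) ((univ.erase (0 : Fin (M + 1))).map Fin.castSuccEmb) := by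
    ext w
    simp only [mem_erase, mem_univ, and_true, mem_insert, mem_map, Fin.coe_castSuccEmb]
    refine Fin.lastCases ?_ (fun w => ?_) w
    · exact iff_of_true (Fin.castSucc_lt_last (0 : Fin (M + 1))).ne' (Or.inl rfl)
    · constructor
      · intro h
        exact Or.inr ⟨w, fun h' => h (by rw [h', h0]), rfl⟩
      · rintro (h | ⟨a, ha, h⟩)
        · exact absurd h (Fin.castSucc_lt_last w).ne
        · intro h'
          exact ha (Fin.castSucc_injective _ (h.trans h'))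
  rw [h1, sum_insert, sum_map]
  · rw [add_comm]
    congr 1
    · refine sum_congr rfl fun w _ => ?_
      rw [Fin.coe_castSuccEmb, Fin.snoc_castSucc, Fin.snoc_castSucc, Fin.snoc_castSucc]
    · rw [Fin.snoc_last, Fin.snoc_last, h0, Fin.snoc_castSucc]
  · rw [mem_map]
    rintro ⟨a, _, h⟩
    exact absurd h (Fin.castSucc_lt_last a).ne

/-- the data for the number `s` of edges of colour `1` -/
def n13P {V : Type} {m M : ℕ} (c : V → V → ZMod m) (Gd : V → Prop) (s : ℕ)
    (d : (Fin (M + 1) → Fin (M + 1)) × Finset (Fin (M + 1)) × (Fin (M + 1) → V) × V) : Prop :=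
  d.1 ∈ PT (Fin (M + 1)) 0 ∧ d.2.1 ∈ powersetCard s (univ.erase (0 : Fin (M + 1))) ∧
    (∀ a, Gd (d.2.2.1 a)) ∧ c (d.2.2.1 0) d.2.2.2 = -(s : ZMod m) ∧
    ∀ w, w ≠ 0 → c (d.2.2.1 w) (d.2.2.1 (d.1 w)) = if w ∈ d.2.1 then 1 else 0

/-- the tree -/
def n13f {V : Type} {M : ℕ}
    (d : (Fin (M + 1) → Fin (M + 1)) × Finset (Fin (M + 1)) × (Fin (M + 1) → V) × V) :
    (Fin (M + 2) → Fin (M + 2)) × (Fin (M + 2) → V) :=
  (Fin.snoc (α := fun _ => Fin (M + 2)) (fun w => Fin.castSucc (d.1 w)) 0,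
    Fin.snoc (α := fun _ => V) d.2.2.1 d.2.2.2)

theorem n13_last {V : Type} {m M : ℕ} (c : V → V → ZMod m) (hc : ∀ x y, c x y = c y x)
    (Gd : V → Prop) (s : ℕ)
    (d : (Fin (M + 1) → Fin (M + 1)) × Finset (Fin (M + 1)) × (Fin (M + 1) → V) × V)
    (hd : n13P c Gd s d) :
    c ((n13f d).2 (Fin.last (M + 1))) ((n13f d).2 ((n13f d).1 (Fin.last (M + 1)))) = -(s : ZMod m) := by
  have h0 : (0 : Fin (M + 2)) = Fin.castSucc (0 : Fin (M + 1)) := rfl
  simp only [n13f]
  rw [Fin.snoc_last, Fin.snoc_last, h0, Fin.snoc_castSucc, hc]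
  exact hd.2.2.2.1

theorem n13_cast_inj {m s t : ℕ} (hs : s + 2 ≤ m) (ht : t + 2 ≤ m)
    (h : -(s : ZMod m) = -(t : ZMod m)) : s = t := by
  have h1 := neg_injective h
  rw [ZMod.natCast_eq_natCast_iff'] at h1
  rwa [Nat.mod_eq_of_lt (by omega), Nat.mod_eq_of_lt (by omega)] at h1

theorem n13_ne_zero {m s : ℕ} (hs1 : 1 ≤ s) (hs : s + 2 ≤ m) : -(s : ZMod m) ≠ 0 := by
  intro h
  rw [neg_eq_zero, ZMod.natCast_eq_zero_iff] at h
  exact absurd (Nat.le_of_dvd (by omega) h) (by omega)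

theorem n13_ne_one {m s : ℕ} (hs : s + 2 ≤ m) : -(s : ZMod m) ≠ 1 := by
  intro h
  have h1 : ((s + 1 : ℕ) : ZMod m) = 0 := by
    push_cast
    rw [← h]
    ring
  rw [ZMod.natCast_eq_zero_iff] at h1
  exact absurd (Nat.le_of_dvd (by omega) h1) (by omega)

theorem n13_mem {V : Type} [Fintype V] {M : ℕ} (c : V → V → ZMod (M + 1))
    (hc : ∀ x y, c x y = c y x) (Gd : V → Prop) (s : ℕ) (hs1 : 1 ≤ s) (hs : s + 2 ≤ M + 1)
    (d : (Fin (M + 1) → Fin (M + 1)) × Finset (Fin (M + 1)) × (Fin (M + 1) → V) × V)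
    (hd : n13P c Gd s d) :
    (n13f d).1 ∈ PT (Fin (M + 1 + 1)) 0 ∧ PS c (n13f d).1 0 (n13f d).2 = 0 ∧
      ¬ Mono c 0 0 (n13f d) ∧ ¬ Mono c 0 1 (n13f d) := by
  have hlast := n13_last c hc Gd s d hd
  have hl0 : (Fin.last (M + 1)) ≠ 0 := by
    intro h
    have := congrArg Fin.val h
    simp at this
  refine ⟨n13_PT _ hd.1, ?_, ?_, ?_⟩
  · have h1 := n13_PS c d.1 d.2.2.1 d.2.2.2
    simp only [n13f]
    rw [h1]
    have h2 : PS c d.1 0 d.2.2.1 = (s : ZMod (M + 1)) := by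
      unfold PS
      rw [sum_congr rfl (fun w hw => hd.2.2.2.2 w (ne_of_mem_erase hw)), ← sum_filter, sum_const]
      have h3 := (mem_powersetCard.1 hd.2.1)
      have h4 : (univ.erase (0 : Fin (M + 1))).filter (fun w => w ∈ d.2.1) = d.2.1 := by
        ext w
        rw [mem_filter]
        exact ⟨fun h => h.2, fun h => ⟨h3.1 h, h⟩⟩
      rw [h4, h3.2]
      simp
    rw [h2, hc, hd.2.2.2.1]
    ring
  · intro h
    have := h _ hl0
    rw [hlast] at this
    exact n13_ne_zero hs1 hs this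
  · intro h
    have := h _ hl0
    rw [hlast] at this
    exact n13_ne_one hs this

theorem n13_inj {V : Type} {m M : ℕ} (hm : 2 ≤ m) (c : V → V → ZMod m) (Gd : V → Prop) (s : ℕ)
    (d d' : (Fin (M + 1) → Fin (M + 1)) × Finset (Fin (M + 1)) × (Fin (M + 1) → V) × V)
    (hd : n13P c Gd s d) (hd' : n13P c Gd s d') (h : n13f d = n13f d') : d = d' := by
  have h1 : d.1 = d'.1 := by
    funext w
    have := congrFun (congrArg Prod.fst h) (Fin.castSucc w)
    simp only [n13f, Fin.snoc_castSucc] at this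
    exact Fin.castSucc_injective _ this
  have h2 : d.2.2.1 = d'.2.2.1 := by
    funext w
    have := congrFun (congrArg Prod.snd h) (Fin.castSucc w)
    simpa only [n13f, Fin.snoc_castSucc] using this
  have h3 : d.2.2.2 = d'.2.2.2 := by
    have := congrFun (congrArg Prod.snd h) (Fin.last _)
    simpa only [n13f, Fin.snoc_last] using this
  have h4 : d.2.1 = d'.2.1 := by
    have : Fact (1 < m) := ⟨by omega⟩
    ext w
    by_cases hw : w = 0
    · have h5 := (mem_powersetCard.1 hd.2.1).1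
      have h6 := (mem_powersetCard.1 hd'.2.1).1
      constructor
      · intro h7
        exact absurd hw (ne_of_mem_erase (h5 h7))
      · intro h7
        exact absurd hw (ne_of_mem_erase (h6 h7))
    · have h5 := hd.2.2.2.2 w hw
      have h6 := hd'.2.2.2.2 w hw
      rw [← h1, ← h2, h5] at h6
      constructor
      · intro h7
        by_contra h8
        rw [if_pos h7, if_neg h8] at h6
        exact one_ne_zero h6
      · intro h7
        by_contra h8
        rw [if_neg h8, if_pos h7] at h6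
        exact zero_ne_one h6
  obtain ⟨a, b, e, f⟩ := d
  obtain ⟨a', b', e', f'⟩ := d'
  simp only at h1 h2 h3 h4
  rw [h1, h2, h3, h4]

theorem n13_sum {V : Type} [Fintype V] {M : ℕ} (hM : 2 ≤ M) (c : V → V → ZMod (M + 1))
    (hc : ∀ x y, c x y = c y x) (Gd : V → Prop) (S : Finset ℕ)
    (hS : ∀ s ∈ S, 1 ≤ s ∧ s + 2 ≤ M + 1) :
    ∑ s ∈ S, cnt (n13P (M := M) c Gd s) ≤ Xm c := by
  classical
  have h1 : ∀ s ∈ S, cnt (n13P (M := M) c Gd s) =
      ((univ.filter (n13P (M := M) c Gd s)).image n13f).card := by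
    intro s _
    rw [cnt_eq_card, card_image_of_injOn]
    intro d hd d' hd' h
    rw [mem_coe, mem_filter] at hd hd'
    exact n13_inj (by omega) c Gd s d d' hd.2 hd'.2 h
  rw [sum_congr rfl h1, ← card_biUnion]
  · unfold Xm
    rw [cnt_eq_card]
    refine card_le_card fun q hq => ?_
    rw [mem_biUnion] at hq
    obtain ⟨s, hs, hq⟩ := hq
    rw [mem_image] at hq
    obtain ⟨d, hd, rfl⟩ := hq
    rw [mem_filter] at hd ⊢
    exact ⟨mem_univ _, n13_mem c hc Gd s (hS s hs).1 (hS s hs).2 d hd.2⟩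
  · intro s hs t ht hst
    rw [Function.onFun, disjoint_left]
    intro q hq hq'
    rw [mem_image] at hq hq'
    obtain ⟨d, hd, rfl⟩ := hq
    obtain ⟨d', hd', h⟩ := hq'
    rw [mem_filter] at hd hd'
    have e1 := n13_last c hc Gd s d hd.2
    have e2 := n13_last c hc Gd t d' hd'.2
    rw [h, e1] at e2
    exact hst (n13_cast_inj (hS s hs).2 (hS t ht).2 e2)

theorem n13_low {V : Type} [Fintype V] {M : ℕ} (c : V → V → ZMod (M + 1))
    (hc : ∀ x y, c x y = c y x) (Gd : V → Prop) (κ : ℝ) (hκ : 0 ≤ κ)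
    (h0 : ∀ x, Gd x → κ ≤ dgr (WG c 0 Gd) x) (h1 : ∀ x, Gd x → κ ≤ dgr (WG c 1 Gd) x) (s : ℕ) :
    (M.choose s : ℝ) * Gam c (-(s : ZMod (M + 1))) Gd * κ ^ M * ((M : ℝ) + 1) ^ (M - 1) *
      (Fintype.card V : ℝ) ^ (M + 2) ≤ (cnt (n13P (M := M) c Gd s) : ℝ) := by
  classical
  rcases isEmpty_or_nonempty V with hV | hV
  · rw [Fintype.card_eq_zero, Nat.cast_zero, zero_pow (by omega), mul_zero]
    exact Nat.cast_nonneg _
  have hn : 0 < (Fintype.card V : ℝ) := by exact_mod_cast Fintype.card_pos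
  set n : ℝ := (Fintype.card V : ℝ) with hndef
  set ψ : V → ℝ := fun z => ∑ y, Wk c (-(s : ZMod (M + 1))) z y with hψ
  have hψ0 : ∀ y, 0 ≤ ψ y := fun y => sum_nonneg fun z _ => Wk_nonneg c _ _ _
  have hGam : (∑ y, if Gd y then ψ y else 0) = Gam c (-(s : ZMod (M + 1))) Gd * n ^ 2 := by
    unfold Gam
    rw [sum_div, sum_mul]
    refine sum_congr rfl fun y _ => ?_
    have : dgr (Wk c (-(s : ZMod (M + 1)))) y = ψ y / n := rfl
    split_ifs
    · rw [this, ← hndef]
      field_simp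
    · simp
  have hdeg : ∀ (I : Finset (Fin (M + 1))) (w : Fin (M + 1)) (y : V), Gd y → κ * n ≤
      ∑ z, if Gd z then Wk c (if w ∈ I then 1 else 0) z y else 0 := by
    intro I w y hy
    have key : ∀ a : ZMod (M + 1), κ ≤ dgr (WG c a Gd) y →
        κ * n ≤ ∑ z, if Gd z then Wk c a z y else 0 := by
      intro a ha
      unfold dgr at ha
      rw [le_div_iff₀ hn] at ha
      refine ha.trans (le_of_eq (sum_congr rfl fun z _ => ?_))
      unfold WG Wk
      rw [hc y z]
      by_cases hz : Gd z <;> by_cases ha : c z y = a <;> simp [hz, ha, hy]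
    by_cases hw : w ∈ I
    · rw [if_pos hw]
      exact key 1 (h1 y hy)
    · rw [if_neg hw]
      exact key 0 (h0 y hy)
  rw [cnt_eq_sum, Fintype.sum_prod_type]
  have hrow : ∀ p ∈ PT (Fin (M + 1)) 0, ∀ I ∈ powersetCard s (univ.erase (0 : Fin (M + 1))),
      Gam c (-(s : ZMod (M + 1))) Gd * κ ^ M * n ^ (M + 2) ≤
      ∑ q : (Fin (M + 1) → V) × V, if n13P (M := M) c Gd s (p, I, q) then (1 : ℝ) else 0 := by
    intro p hp I hI
    have h2 := greedy (0 : Fin (M + 1)) p hp (fun w => Wk c (if w ∈ I then 1 else 0))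
      (fun w x y => Wk_nonneg c _ x y) Gd κ hκ (hdeg I) ψ hψ0
    rw [hGam, Fintype.card_fin, Nat.add_sub_cancel, mul_pow] at h2
    calc Gam c (-(s : ZMod (M + 1))) Gd * κ ^ M * n ^ (M + 2)
        = Gam c (-(s : ZMod (M + 1))) Gd * n ^ 2 * (κ ^ M * n ^ M) := by ring
      _ ≤ _ := h2
      _ = _ := by
        rw [Fintype.sum_prod_type]
        refine sum_congr rfl fun x _ => ?_
        by_cases hx : ∀ a, Gd (x a)
        · rw [if_pos hx]
          by_cases hcol : ∀ w, w ≠ 0 → c (x w) (x (p w)) = if w ∈ I then 1 else 0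
          · rw [prod_eq_one, mul_one]
            · refine sum_congr rfl fun y _ => ?_
              have : n13P (M := M) c Gd s (p, I, x, y) ↔ c (x 0) y = -(s : ZMod (M + 1)) :=
                ⟨fun h => h.2.2.2.1, fun h => ⟨hp, hI, hx, h, hcol⟩⟩
              unfold Wk
              by_cases hy : c (x 0) y = -(s : ZMod (M + 1))
              · rw [if_pos hy, if_pos (this.2 hy)]
              · rw [if_neg hy, if_neg (fun h => hy (this.1 h))]
            · intro w hw
              unfold Wk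
              rw [if_pos (hcol w (ne_of_mem_erase hw))]
          · have h3 : ∀ y, ¬ n13P (M := M) c Gd s (p, I, x, y) := fun y h => hcol h.2.2.2.2
            rw [sum_eq_zero (fun y _ => if_neg (h3 y))]
            push Not at hcol
            obtain ⟨w, hw, hw'⟩ := hcol
            rw [prod_eq_zero (mem_erase.2 ⟨hw, mem_univ w⟩), mul_zero]
            unfold Wk
            rw [if_neg hw']
        · have h3 : ∀ y, ¬ n13P (M := M) c Gd s (p, I, x, y) := fun y h => hx h.2.2.1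
          rw [if_neg hx, sum_eq_zero (fun y _ => if_neg (h3 y))]
  have hnn : ∀ d, 0 ≤ (if n13P (M := M) c Gd s d then (1 : ℝ) else 0) := fun d => by
    split_ifs <;> norm_num
  calc (M.choose s : ℝ) * Gam c (-(s : ZMod (M + 1))) Gd * κ ^ M * ((M : ℝ) + 1) ^ (M - 1) * n ^ (M + 2)
      = ∑ p ∈ PT (Fin (M + 1)) 0, ∑ I ∈ powersetCard s (univ.erase (0 : Fin (M + 1))),
        (Gam c (-(s : ZMod (M + 1))) Gd * κ ^ M * n ^ (M + 2)) := by
        rw [sum_const, sum_const, card_powersetCard, card_erase_of_mem (mem_univ _), card_univ,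
          Fintype.card_fin, Nat.add_sub_cancel, card_PT_fin, nsmul_eq_mul, nsmul_eq_mul]
        push_cast
        ring
    _ ≤ ∑ p ∈ PT (Fin (M + 1)) 0, ∑ I ∈ powersetCard s (univ.erase (0 : Fin (M + 1))),
        ∑ q : (Fin (M + 1) → V) × V, (if n13P (M := M) c Gd s (p, I, q) then (1 : ℝ) else 0) :=
        sum_le_sum fun p hp => sum_le_sum fun I hI => hrow p hp I hI
    _ ≤ ∑ p ∈ PT (Fin (M + 1)) 0,
        ∑ q : Finset (Fin (M + 1)) × (Fin (M + 1) → V) × V,
          (if n13P (M := M) c Gd s (p, q) then (1 : ℝ) else 0) := by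
        refine sum_le_sum fun p hp => ?_
        rw [Fintype.sum_prod_type]
        exact sum_le_sum_of_subset_of_nonneg (subset_univ _)
          (fun I _ _ => sum_nonneg fun q _ => hnn _)
    _ ≤ _ := sum_le_sum_of_subset_of_nonneg (subset_univ _)
          (fun p _ _ => sum_nonneg fun q _ => hnn _)

/-- PROOF. `A = Fin (m+1)`, root `0`, `w0 = Fin.last m`, `B = Fin m` (root `0`; `m ≥ 3`). For `s ∈ S`, a set `I ⊆ univ.erase 0 ⊆ Fin m` with `s` elements (`C(m-1,s)` of them), `p' ∈ PT (Fin m) 0` (`m^(m-2)` of them, `card_PT`) and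
`x' : Fin m → V` with all `x' a` good, colour of the edge `w` equal to `1` for `w ∈ I` and `0` otherwise, and `y : V` with `c y (x' 0) = -s`, take the tree `p w0 = 0`, `p (castSucc w) = castSucc (p' w)` and the placement
`x w0 = y`, `x (castSucc w) = x' w`. Colour sum `-s + s = 0`; the colour `-s` is neither `0` nor `1` (`1 ≤ s ≤ m - 2`), so the tree is counted in `Xm`, and all data are determined by it (`p' `, `x'`, `y`; `s` from the colour of `w0`; `I` from the colours).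
The number of `(x', y)` for given `s, I, p'` is, by `greedy` with `K w = Wk c 1` for `w ∈ I` and `Wk c 0` otherwise, `ψ y = n * dgr (Wk c (-s)) y`, at least `(∑_{y good} n dgr (Wk c (-s)) y) (κ n)^(m-1) = Gam n^2 (κ n)^(m-1)`
(`∑_{z good} Wk c a z y = n * dgr (WG c a Gd) y` for good `y`, by symmetry). -/
theorem lcount {V : Type} [Fintype V] (m : ℕ) (hm : 3 ≤ m) (c : V → V → ZMod m)
    (hc : ∀ x y, c x y = c y x) (Gd : V → Prop) (κ : ℝ) (hκ : 0 ≤ κ)
    (h0 : ∀ x, Gd x → κ ≤ dgr (WG c 0 Gd) x) (h1 : ∀ x, Gd x → κ ≤ dgr (WG c 1 Gd) x)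
    (S : Finset ℕ) (hS : ∀ s ∈ S, 1 ≤ s ∧ s + 2 ≤ m) :
    ∑ s ∈ S, ((m - 1).choose s : ℝ) * Gam c (-(s : ZMod m)) Gd * κ ^ (m - 1) * (m : ℝ) ^ (m - 2) *
      (Fintype.card V : ℝ) ^ (m + 1) ≤ (Xm c : ℝ) := by
  obtain ⟨M, rfl⟩ : ∃ M, m = M + 1 := ⟨m - 1, by omega⟩
  have h2 := n13_sum (by omega) c hc Gd S hS
  have h3 : ((∑ s ∈ S, cnt (n13P (M := M) c Gd s) : ℕ) : ℝ) ≤ (Xm c : ℝ) := by exact_mod_cast h2
  refine le_trans ?_ h3
  push_cast
  refine sum_le_sum fun s _ => ?_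
  have h4 := n13_low c hc Gd κ hκ h0 h1 s
  exact h4

end Pool.Agent.ZT
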