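import Pool.Agent.ZT.NDefs

/-! # [ZN-14b] splitting of the zero-sum trees; degrees inside the good set -/

set_option autoImplicit false

open Finset

namespace Pool.Agent.ZT

variable {V : Type} [Fintype V] {m : ℕ}

omit [Fintype V] in
theorem n14b_PS_mono (c : V → V → ZMod m) (a : ZMod m)
    (q : (Fin (m + 1) → Fin (m + 1)) × (Fin (m + 1) → V)) (h : Mono c 0 a q) :
    PS c q.1 0 q.2 = 0 := by
  unfold PS
  rw [sum_congr rfl (g := fun _ => a) (fun w hw => h w (ne_of_mem_erase hw)), sum_const,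
    card_erase_of_mem (mem_univ _), card_univ, Fintype.card_fin, Nat.add_sub_cancel, nsmul_eq_mul,
    ZMod.natCast_self, zero_mul]

/-- PROOF. Disjoint sets of placed trees: `Mono` for `0` and for `1` have colour sum `m * a = 0`; there is a `w ≠ 0`. -/
theorem NN_split (hm : 2 ≤ m) (c : V → V → ZMod m) : Tm c 0 + Tm c 1 + Xm c ≤ NN c m 0 := by
  classical
  unfold Tm Xm NN
  rw [cnt_eq_card, cnt_eq_card, cnt_eq_card, cnt_eq_card]
  set A := univ.filter (fun q : (Fin (m + 1) → Fin (m + 1)) × (Fin (m + 1) → V) =>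
    q.1 ∈ PT (Fin (m + 1)) 0 ∧ Mono c 0 0 q) with hA
  set B := univ.filter (fun q : (Fin (m + 1) → Fin (m + 1)) × (Fin (m + 1) → V) =>
    q.1 ∈ PT (Fin (m + 1)) 0 ∧ Mono c 0 1 q) with hB
  set X := univ.filter (fun q : (Fin (m + 1) → Fin (m + 1)) × (Fin (m + 1) → V) =>
    q.1 ∈ PT (Fin (m + 1)) 0 ∧ PS c q.1 0 q.2 = 0 ∧ ¬ Mono c 0 0 q ∧ ¬ Mono c 0 1 q) with hX
  have hAB : Disjoint A B := by
    rw [Finset.disjoint_left]
    intro q hq hq'
    rw [hA, mem_filter] at hq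
    rw [hB, mem_filter] at hq'
    have : Fact (1 < m) := ⟨by omega⟩
    have hne : (⟨1, by omega⟩ : Fin (m + 1)) ≠ 0 := by
      intro h
      have h1 := congrArg Fin.val h
      rw [Fin.val_zero] at h1
      exact one_ne_zero h1
    have h1 := hq.2.2 _ hne
    have h2 := hq'.2.2 _ hne
    rw [h1] at h2
    exact zero_ne_one h2
  have hABX : Disjoint (A ∪ B) X := by
    rw [Finset.disjoint_left]
    intro q hq hq'
    rw [hX, mem_filter] at hq'
    rw [mem_union, hA, hB, mem_filter, mem_filter] at hq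
    rcases hq with h | h
    · exact hq'.2.2.2.1 h.2.2
    · exact hq'.2.2.2.2 h.2.2
  rw [← card_union_of_disjoint hAB, ← card_union_of_disjoint hABX]
  refine card_le_card ?_
  intro q hq
  rw [mem_filter]
  refine ⟨mem_univ _, ?_⟩
  rw [mem_union, mem_union, hA, hB, hX, mem_filter, mem_filter, mem_filter] at hq
  rcases hq with (h | h) | h
  · exact ⟨h.2.1, n14b_PS_mono c 0 q h.2.2⟩
  · exact ⟨h.2.1, n14b_PS_mono c 1 q h.2.2⟩
  · exact ⟨h.2.1, h.2.2.1⟩

omit [Fintype V] in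
open Classical in
theorem n14b_le (c : V → V → ZMod m) (a : ZMod m) (Gd : V → Prop) (x y : V) :
    Wk c a x y ≤ WG c a Gd x y + ((if ¬ Gd x then (1 : ℝ) else 0) + if ¬ Gd y then (1 : ℝ) else 0) := by
  unfold Wk WG
  by_cases h1 : c x y = a <;> by_cases h2 : Gd x <;> by_cases h3 : Gd y <;> simp [h1, h2, h3]

/-- a good vertex has large degrees inside the good set. PROOF. `n dgr (WG c a Gd) x ≥ n dgr (Wk c a) x - #(not good)`. -/
theorem dgr_WG_ge (c : V → V → ZMod m) (a : ZMod m) (Gd : V → Prop) (β : ℝ)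
    (hβ : (cnt (fun x : V => ¬ Gd x) : ℝ) ≤ β * (Fintype.card V : ℝ)) (x : V) (hx : Gd x) :
    dgr (Wk c a) x - β ≤ dgr (WG c a Gd) x := by
  classical
  have hn : (0 : ℝ) < Fintype.card V := by
    have : 0 < Fintype.card V := Fintype.card_pos_iff.2 ⟨x⟩
    exact_mod_cast this
  unfold dgr
  rw [sub_le_iff_le_add, div_add' _ _ _ hn.ne']
  apply div_le_div_of_nonneg_right _ hn.le
  calc ∑ y, Wk c a x y ≤ ∑ y, (WG c a Gd x y + ((if ¬ Gd x then (1 : ℝ) else 0) +
        if ¬ Gd y then (1 : ℝ) else 0)) := sum_le_sum fun y _ => n14b_le c a Gd x y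
    _ = ∑ y, WG c a Gd x y + (cnt (fun x : V => ¬ Gd x) : ℝ) := by
        rw [sum_add_distrib, sum_add_distrib, cnt_eq_sum]
        have h0 : ∑ _y : V, (if ¬ Gd x then (1 : ℝ) else 0) = 0 := by
          simp [hx]
        rw [h0, zero_add]
    _ ≤ ∑ y, WG c a Gd x y + β * (Fintype.card V : ℝ) := by gcongr

/-- PROOF. `n^2 (lam (Wk c a) - lam (WG c a Gd)) ≤ 2 n #(not good)`. -/
theorem lam_WG_ge [Nonempty V] (c : V → V → ZMod m) (a : ZMod m) (Gd : V → Prop) (β : ℝ)
    (hβ : (cnt (fun x : V => ¬ Gd x) : ℝ) ≤ β * (Fintype.card V : ℝ)) :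
    lam (Wk c a) - 2 * β ≤ lam (WG c a Gd) := by
  classical
  have hn : (0 : ℝ) < Fintype.card V := by
    have : 0 < Fintype.card V := Fintype.card_pos
    exact_mod_cast this
  have key : ∀ x : V, dgr (Wk c a) x ≤ dgr (WG c a Gd) x + ((if ¬ Gd x then (1 : ℝ) else 0) + β) := by
    intro x
    unfold dgr
    rw [div_add' _ _ _ hn.ne']
    apply div_le_div_of_nonneg_right _ hn.le
    calc ∑ y, Wk c a x y ≤ ∑ y, (WG c a Gd x y + ((if ¬ Gd x then (1 : ℝ) else 0) +
          if ¬ Gd y then (1 : ℝ) else 0)) := sum_le_sum fun y _ => n14b_le c a Gd x y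
      _ = ∑ y, WG c a Gd x y + ((if ¬ Gd x then (1 : ℝ) else 0) * (Fintype.card V : ℝ) +
          (cnt (fun x : V => ¬ Gd x) : ℝ)) := by
          rw [sum_add_distrib, sum_add_distrib, cnt_eq_sum, sum_const, card_univ, nsmul_eq_mul]
          ring
      _ ≤ ∑ y, WG c a Gd x y + ((if ¬ Gd x then (1 : ℝ) else 0) * (Fintype.card V : ℝ) +
          β * (Fintype.card V : ℝ)) := by gcongr
      _ = _ := by ring
  unfold lam
  rw [sub_le_iff_le_add, div_add' _ _ _ hn.ne']
  apply div_le_div_of_nonneg_right _ hn.le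
  calc ∑ x, dgr (Wk c a) x ≤ ∑ x, (dgr (WG c a Gd) x + ((if ¬ Gd x then (1 : ℝ) else 0) + β)) :=
        sum_le_sum fun x _ => key x
    _ = ∑ x, dgr (WG c a Gd) x + ((cnt (fun x : V => ¬ Gd x) : ℝ) + (Fintype.card V : ℝ) * β) := by
        rw [sum_add_distrib, sum_add_distrib, cnt_eq_sum, sum_const, card_univ, nsmul_eq_mul]
    _ ≤ ∑ x, dgr (WG c a Gd) x + (β * (Fintype.card V : ℝ) + (Fintype.card V : ℝ) * β) := by gcongr
    _ = _ := by ring

end Pool.Agent.ZT
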