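import Pool.Agent.ZT.NDefs

/-! # [ZN-14] the third colours; the symmetry `c ↦ 1 - c` -/

set_option autoImplicit false

open Finset

namespace Pool.Agent.ZT

variable {V : Type} [Fintype V] {m : ℕ}

open Classical in
/-- indicator of a proposition -/
noncomputable def n14a_i (P : Prop) : ℝ := if P then 1 else 0

theorem n14a_pos {P : Prop} (h : P) : n14a_i P = 1 := if_pos h

theorem n14a_neg {P : Prop} (h : ¬ P) : n14a_i P = 0 := if_neg h

theorem n14a_nonneg (P : Prop) : 0 ≤ n14a_i P := by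
  by_cases h : P
  · rw [n14a_pos h]
    exact zero_le_one
  · rw [n14a_neg h]

theorem n14a_congr {P Q : Prop} (h : P ↔ Q) : n14a_i P = n14a_i Q := by
  rw [propext h]

theorem n14a_cast_inj {s t : ℕ} (hs : s + 2 ≤ m) (ht : t + 2 ≤ m)
    (h : -(s : ZMod m) = -(t : ZMod m)) : s = t := by
  have h1 : (s : ZMod m) = (t : ZMod m) := neg_injective h
  have h2 : ((s : ZMod m)).val = ((t : ZMod m)).val := by rw [h1]
  rwa [ZMod.val_natCast_of_lt (by omega), ZMod.val_natCast_of_lt (by omega)] at h2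

theorem n14a_ne_zero {s : ℕ} (hs1 : 1 ≤ s) (hs : s + 2 ≤ m) : (0 : ZMod m) ≠ -(s : ZMod m) := by
  intro h
  have h1 : (s : ZMod m) = 0 := by
    have h2 : -(s : ZMod m) = 0 := h.symm
    exact neg_eq_zero.1 h2
  rw [ZMod.natCast_eq_zero_iff] at h1
  have := Nat.le_of_dvd (by omega) h1
  omega

theorem n14a_ne_one {s : ℕ} (hs : s + 2 ≤ m) : (1 : ZMod m) ≠ -(s : ZMod m) := by
  intro h
  have h1 : ((s + 1 : ℕ) : ZMod m) = 0 := by
    push_cast
    linear_combination h
  rw [ZMod.natCast_eq_zero_iff] at h1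
  have := Nat.le_of_dvd (by omega) h1
  omega

theorem n14a_ind (hm : 3 ≤ m) (g : ZMod m) : n14a_i (g ≠ 0 ∧ g ≠ 1) =
    ∑ s ∈ Icc 1 (m - 2), n14a_i (g = -(s : ZMod m)) := by
  have hm0 : NeZero m := ⟨by omega⟩
  by_cases h : g ≠ 0 ∧ g ≠ 1
  · rw [n14a_pos h]
    have hg : -(((-g).val : ℕ) : ZMod m) = g := by
      rw [ZMod.natCast_zmod_val, neg_neg]
    have h1 : 1 ≤ (-g).val := by
      rcases Nat.eq_zero_or_pos (-g).val with h0 | h0
      · rw [ZMod.val_eq_zero] at h0
        exact absurd (neg_eq_zero.1 h0) h.1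
      · exact h0
    have h2 : (-g).val + 2 ≤ m := by
      have h3 : (-g).val < m := ZMod.val_lt _
      by_contra hcon
      have h4 : (-g).val + 1 = m := by omega
      have h5 : (((-g).val + 1 : ℕ) : ZMod m) = 0 := by rw [h4, ZMod.natCast_self]
      rw [Nat.cast_add, ZMod.natCast_zmod_val, Nat.cast_one] at h5
      apply h.2
      linear_combination -h5
    rw [Finset.sum_eq_single (-g).val]
    · rw [n14a_pos hg.symm]
    · intro s hs hne
      rw [mem_Icc] at hs
      rw [n14a_neg]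
      intro h3
      apply hne
      rw [h3, neg_neg, ZMod.val_natCast_of_lt (by omega)]
    · intro hs
      exact absurd (mem_Icc.2 ⟨h1, by omega⟩) hs
  · rw [n14a_neg h]
    symm
    apply Finset.sum_eq_zero
    intro s hs
    rw [mem_Icc] at hs
    rw [n14a_neg]
    rintro rfl
    apply h
    exact ⟨(n14a_ne_zero hs.1 (by omega)).symm, (n14a_ne_one (by omega)).symm⟩

theorem n14a_lam {G : Type} (c : V → V → G) (a : G) :
    lam (Wk c a) = (∑ x, ∑ y, n14a_i (c x y = a)) / (Fintype.card V : ℝ) ^ 2 := by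
  unfold lam dgr
  rw [← sum_div, div_div, ← sq]
  rfl

theorem n14a_cnt {S : Type} [Fintype S] (P : S → Prop) : (cnt P : ℝ) = ∑ s, n14a_i (P s) := by
  classical
  rw [cnt_eq_sum]
  refine sum_congr rfl fun s _ => ?_
  by_cases h : P s
  · rw [n14a_pos h, if_pos h]
  · rw [n14a_neg h, if_neg h]

theorem n14a_del (c : V → V → ZMod m) :
    del c = (∑ x, ∑ y, n14a_i (c x y ≠ 0 ∧ c x y ≠ 1)) / (Fintype.card V : ℝ) ^ 2 := by
  unfold del
  rw [n14a_cnt, Fintype.sum_prod_type]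

theorem n14a_sum {S : Finset ℕ} (c : V → V → ZMod m) :
    ∑ s ∈ S, lam (Wk c (-(s : ZMod m))) =
      (∑ x, ∑ y, ∑ s ∈ S, n14a_i (c x y = -(s : ZMod m))) / (Fintype.card V : ℝ) ^ 2 := by
  have h1 : ∀ s ∈ S, lam (Wk c (-(s : ZMod m))) =
      (∑ x, ∑ y, n14a_i (c x y = -(s : ZMod m))) / (Fintype.card V : ℝ) ^ 2 :=
    fun s _ => n14a_lam c (-(s : ZMod m))
  rw [sum_congr rfl h1, ← sum_div, Finset.sum_comm]
  congr 1
  refine sum_congr rfl fun x _ => ?_
  rw [Finset.sum_comm]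

/-- PROOF. The colours different from `0`, `1` are `-s`, `s = 1, …, m-2`, pairwise different; `lam (Wk c a) = #{(x,y) | c x y = a} / n^2`. -/
theorem del_eq (hm : 3 ≤ m) (c : V → V → ZMod m) :
    del c = ∑ s ∈ Icc 1 (m - 2), lam (Wk c (-(s : ZMod m))) := by
  rw [n14a_del, n14a_sum]
  congr 1
  exact sum_congr rfl fun x _ => sum_congr rfl fun y _ => n14a_ind hm _

theorem lam_add_del (hm : 3 ≤ m) [Nonempty V] (c : V → V → ZMod m) :
    lam (Wk c 0) + lam (Wk c 1) = 1 - del c := by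
  have hn : (0 : ℝ) < (Fintype.card V : ℝ) ^ 2 := by
    have : 0 < Fintype.card V := Fintype.card_pos
    positivity
  rw [n14a_lam, n14a_lam, n14a_del, ← add_div, eq_sub_iff_add_eq, ← add_div, div_eq_one_iff_eq hn.ne']
  rw [← sum_add_distrib, ← sum_add_distrib]
  have h1 : ∀ x : V, (∑ y, n14a_i (c x y = 0)) + (∑ y, n14a_i (c x y = 1)) +
      (∑ y, n14a_i (c x y ≠ 0 ∧ c x y ≠ 1)) = Fintype.card V := by
    intro x
    rw [← sum_add_distrib, ← sum_add_distrib]
    have h2 : ∀ y : V, n14a_i (c x y = 0) + n14a_i (c x y = 1) +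
        n14a_i (c x y ≠ 0 ∧ c x y ≠ 1) = 1 := by
      intro y
      have h01 : (0 : ZMod m) ≠ 1 := by
        intro h
        have h3 : ((1 : ℕ) : ZMod m) = 0 := by
          rw [Nat.cast_one]
          exact h.symm
        rw [ZMod.natCast_eq_zero_iff] at h3
        have := Nat.le_of_dvd one_pos h3
        omega
      by_cases hx : c x y = 0
      · rw [n14a_pos hx, n14a_neg (by rw [hx]; exact h01), n14a_neg (by rintro ⟨h, _⟩; exact h hx)]
        norm_num
      · by_cases hy : c x y = 1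
        · rw [n14a_neg hx, n14a_pos hy, n14a_neg (by rintro ⟨_, h⟩; exact h hy)]
          norm_num
        · rw [n14a_neg hx, n14a_neg hy, n14a_pos ⟨hx, hy⟩]
          norm_num
    rw [sum_congr rfl fun y _ => h2 y]
    simp
  rw [sum_congr rfl fun x _ => h1 x]
  simp [sq]

/-- PROOF. The number of pairs with a colour in `-S` is at most: pairs with `x` good + pairs with `y` good + `(β n)^2` (both not good); the first two are `n^2 ∑ Gam` (symmetry of `c`). The colours `-s`, `s ∈ S`, are pairwise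
different (`1 ≤ s ≤ m - 2`). -/
theorem gam_sum (c : V → V → ZMod m) (hc : ∀ x y, c x y = c y x) (S : Finset ℕ)
    (hS : ∀ s ∈ S, 1 ≤ s ∧ s + 2 ≤ m) (Gd : V → Prop) (β : ℝ)
    (hβ : (cnt (fun x : V => ¬ Gd x) : ℝ) ≤ β * (Fintype.card V : ℝ)) :
    (∑ s ∈ S, lam (Wk c (-(s : ZMod m))) - β ^ 2) / 2 ≤ ∑ s ∈ S, Gam c (-(s : ZMod m)) Gd := by
  obtain ⟨n, hn⟩ : ∃ n : ℝ, n = (Fintype.card V : ℝ) := ⟨_, rfl⟩
  have hn0 : 0 ≤ n := by rw [hn]; exact Nat.cast_nonneg _
  -- the function `f`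
  obtain ⟨f, hf⟩ : ∃ f : V → V → ℝ, ∀ x y, f x y = ∑ s ∈ S, n14a_i (c x y = -(s : ZMod m)) :=
    ⟨_, fun _ _ => rfl⟩
  have hf0 : ∀ x y, 0 ≤ f x y := by
    intro x y
    rw [hf]
    exact sum_nonneg fun s _ => n14a_nonneg _
  have hf1 : ∀ x y, f x y ≤ 1 := by
    intro x y
    rw [hf]
    by_cases hex : ∃ s ∈ S, c x y = -(s : ZMod m)
    · obtain ⟨s, hs, hs2⟩ := hex
      rw [Finset.sum_eq_single s]
      · rw [n14a_pos hs2]
      · intro t ht hne
        rw [n14a_neg]
        intro h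
        exact hne (n14a_cast_inj (hS t ht).2 (hS s hs).2 (h.symm.trans hs2))
      · intro h
        exact absurd hs h
    · push Not at hex
      rw [Finset.sum_eq_zero fun s hs => n14a_neg (hex s hs)]
      exact zero_le_one
  have hfs : ∀ x y, f x y = f y x := by
    intro x y
    rw [hf, hf, hc x y]
  have hL : ∑ s ∈ S, lam (Wk c (-(s : ZMod m))) = (∑ x, ∑ y, f x y) / n ^ 2 := by
    rw [n14a_sum, ← hn]
    congr 1
    exact sum_congr rfl fun x _ => sum_congr rfl fun y _ => (hf x y).symm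
  have hG : ∑ s ∈ S, Gam c (-(s : ZMod m)) Gd = (∑ x, ∑ y, n14a_i (Gd x) * f x y) / n ^ 2 := by
    have h1 : ∀ s ∈ S, Gam c (-(s : ZMod m)) Gd =
        (∑ x, ∑ y, n14a_i (Gd x) * n14a_i (c x y = -(s : ZMod m))) / n ^ 2 := by
      intro s _
      have h2 : (∑ x, ∑ y, n14a_i (Gd x) * n14a_i (c x y = -(s : ZMod m))) / n ^ 2 =
          (∑ x, (∑ y, n14a_i (Gd x) * n14a_i (c x y = -(s : ZMod m))) / n) / n := by
        rw [← sum_div, div_div, ← sq]
      rw [h2]
      unfold Gam dgr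
      rw [← hn]
      congr 1
      refine sum_congr rfl fun x _ => ?_
      rw [← mul_sum]
      by_cases hx : Gd x
      · rw [if_pos hx, n14a_pos hx, one_mul]
        rfl
      · rw [if_neg hx, n14a_neg hx, zero_mul, zero_div]
    rw [sum_congr rfl h1, ← sum_div]
    congr 1
    rw [Finset.sum_comm]
    refine sum_congr rfl fun x _ => ?_
    rw [Finset.sum_comm]
    refine sum_congr rfl fun y _ => ?_
    rw [← mul_sum, hf]
  have hpt : ∀ x y, f x y ≤ n14a_i (Gd x) * f x y + n14a_i (Gd y) * f x y +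
      n14a_i (¬ Gd x) * n14a_i (¬ Gd y) := by
    intro x y
    have h1 := hf0 x y
    have h2 := hf1 x y
    by_cases hx : Gd x
    · rw [n14a_pos hx, n14a_neg (not_not.2 hx), zero_mul, one_mul]
      have h3 := mul_nonneg (n14a_nonneg (Gd y)) h1
      linarith
    · by_cases hy : Gd y
      · rw [n14a_pos hy, n14a_neg hx, n14a_neg (not_not.2 hy), mul_zero]
        linarith
      · rw [n14a_neg hx, n14a_neg hy, n14a_pos hx, n14a_pos hy]
        linarith
  have hsum : ∑ x, ∑ y, f x y ≤ 2 * (∑ x, ∑ y, n14a_i (Gd x) * f x y) + (β * n) ^ 2 := by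
    have h1 : ∑ x, ∑ y, f x y ≤ ∑ x, ∑ y, (n14a_i (Gd x) * f x y + n14a_i (Gd y) * f x y +
        n14a_i (¬ Gd x) * n14a_i (¬ Gd y)) :=
      sum_le_sum fun x _ => sum_le_sum fun y _ => hpt x y
    refine h1.trans ?_
    simp only [sum_add_distrib]
    have h2 : ∑ x, ∑ y, n14a_i (Gd y) * f x y = ∑ x, ∑ y, n14a_i (Gd x) * f x y := by
      rw [Finset.sum_comm]
      refine sum_congr rfl fun x _ => sum_congr rfl fun y _ => ?_
      rw [hfs]
    have h3 : ∑ x, ∑ y, n14a_i (¬ Gd x) * n14a_i (¬ Gd y) =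
        (cnt (fun x : V => ¬ Gd x) : ℝ) ^ 2 := by
      rw [n14a_cnt, sq, Finset.sum_mul_sum]
    have h4 : (cnt (fun x : V => ¬ Gd x) : ℝ) ^ 2 ≤ (β * n) ^ 2 := by
      rw [hn]
      exact pow_le_pow_left₀ (Nat.cast_nonneg _) hβ 2
    rw [h2, h3]
    linarith
  rw [hL, hG]
  rcases hn0.eq_or_lt with h0 | h0
  · rw [← h0, zero_pow two_ne_zero, div_zero, div_zero]
    have := sq_nonneg β
    linarith
  · have h5 : 0 < n ^ 2 := by positivity
    rw [div_le_iff₀ (by norm_num : (0 : ℝ) < 2), div_mul_eq_mul_div, sub_le_iff_le_add,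
      div_le_iff₀ h5, add_mul, div_mul_cancel₀ _ h5.ne']
    have h6 : β ^ 2 * n ^ 2 = (β * n) ^ 2 := by ring
    rw [h6]
    linarith

/-- PROOF. `PS (1 - c) p 0 x = m - PS c p 0 x = - PS c p 0 x`. -/
theorem NN_flip (c : V → V → ZMod m) : NN (fun x y => 1 - c x y) m 0 = NN c m 0 := by
  unfold NN
  apply cnt_congr
  intro q
  refine and_congr_right fun _ => ?_
  have h1 : PS (fun x y => 1 - c x y) q.1 0 q.2 = -(PS c q.1 0 q.2) := by
    unfold PS
    rw [sum_sub_distrib, sum_const, card_erase_of_mem (mem_univ _), card_univ, Fintype.card_fin,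
      Nat.add_sub_cancel, nsmul_eq_mul, mul_one, ZMod.natCast_self, zero_sub]
  rw [h1, neg_eq_zero]

theorem del_flip (c : V → V → ZMod m) : del (fun x y => 1 - c x y) = del c := by
  unfold del
  have h0 : cnt (fun q : V × V => 1 - c q.1 q.2 ≠ 0 ∧ 1 - c q.1 q.2 ≠ 1) =
      cnt (fun q : V × V => c q.1 q.2 ≠ 0 ∧ c q.1 q.2 ≠ 1) := by
    apply cnt_congr
    intro q
    constructor
    · rintro ⟨h1, h2⟩
      refine ⟨?_, ?_⟩
      · intro h
        apply h2
        rw [h, sub_zero]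
      · intro h
        apply h1
        rw [h, sub_self]
    · rintro ⟨h1, h2⟩
      refine ⟨?_, ?_⟩
      · intro h
        exact h2 (sub_eq_zero.1 h).symm
      · intro h
        exact h1 (by linear_combination -h)
  rw [h0]

/-- PROOF. `1 - c = -s` iff `c = 1 + s = -(m - 1 - s)`; every `s ∈ [1, m-2]` has `2 s ≤ m - 1` or `2 (m - 1 - s) ≤ m - 1`. `del_eq`. -/
theorem low_flip (hm : 3 ≤ m) (c : V → V → ZMod m) :
    del c ≤ ∑ s ∈ (Icc 1 (m - 2)).filter (fun s => 2 * s ≤ m - 1), lam (Wk c (-(s : ZMod m))) +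
      ∑ s ∈ (Icc 1 (m - 2)).filter (fun s => 2 * s ≤ m - 1),
        lam (Wk (fun x y => 1 - c x y) (-(s : ZMod m))) := by
  rw [del_eq hm, ← Finset.sum_filter_add_sum_filter_not (Icc 1 (m - 2)) (fun s => 2 * s ≤ m - 1)]
  apply add_le_add le_rfl
  have h1 : ∀ s ∈ (Icc 1 (m - 2)).filter (fun s => ¬ 2 * s ≤ m - 1),
      lam (Wk c (-(s : ZMod m))) = lam (Wk (fun x y => 1 - c x y) (-((m - 1 - s : ℕ) : ZMod m))) := by
    intro s hs
    rw [mem_filter, mem_Icc] at hs
    rw [n14a_lam, n14a_lam]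
    congr 1
    refine sum_congr rfl fun x _ => sum_congr rfl fun y _ => ?_
    have h2 : (((m - 1 - s : ℕ) : ZMod m)) = -1 - (s : ZMod m) := by
      have h3 : ((m - 1 - s + (1 + s) : ℕ) : ZMod m) = 0 := by
        rw [show m - 1 - s + (1 + s) = m by omega, ZMod.natCast_self]
      push_cast at h3
      linear_combination h3
    apply n14a_congr
    rw [h2]
    constructor
    · intro h
      rw [h]
      ring
    · intro h
      linear_combination -h
  rw [sum_congr rfl h1]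
  have hinj : Set.InjOn (fun s : ℕ => m - 1 - s)
      ((Icc 1 (m - 2)).filter (fun s => ¬ 2 * s ≤ m - 1) : Finset ℕ) := by
    intro s hs t ht hst
    rw [mem_coe, mem_filter, mem_Icc] at hs ht
    simp only at hst
    omega
  rw [← Finset.sum_image (f := fun t : ℕ => lam (Wk (fun x y => 1 - c x y) (-(t : ZMod m)))) hinj]
  refine sum_le_sum_of_subset_of_nonneg ?_ fun t _ _ => lam_nonneg (Wk_nonneg _ _)
  intro t ht
  rw [mem_image] at ht
  obtain ⟨s, hs, rfl⟩ := ht
  rw [mem_filter, mem_Icc] at hs ⊢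
  omega

end Pool.Agent.ZT
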