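import Pool.Agent.ZT.N04
import Pool.Agent.ZT.N05
import Pool.Agent.ZT.N06
import Pool.Agent.ZT.N14

/-! # [ZN-15] consequences of few zero-sum trees -/

set_option autoImplicit false

open Finset

namespace Pool.Agent.ZT

variable {V : Type} [Fintype V] {m : ℕ}

theorem n15_prod_Wk {A : Type} [Fintype A] [DecidableEq A] (c : V → V → ZMod m) (a : ZMod m) (v : A)
    (p : A → A) (x : A → V) [Decidable (Mono c v a (p, x))] :
    ∏ w ∈ univ.erase v, Wk c a (x w) (x (p w)) = if Mono c v a (p, x) then 1 else 0 := by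
  classical
  split_ifs with h
  · refine prod_eq_one fun w hw => ?_
    unfold Wk
    rw [if_pos (h w (Finset.ne_of_mem_erase hw))]
  · have h' : ¬ ∀ w, w ≠ v → c (x w) (x (p w)) = a := h
    push Not at h'
    obtain ⟨w, hw, hne⟩ := h'
    refine prod_eq_zero (i := w) (mem_erase.2 ⟨hw, mem_univ _⟩) ?_
    unfold Wk
    rw [if_neg hne]

theorem Tm_eq (c : V → V → ZMod m) (a : ZMod m) :
    (Tm c a : ℝ) = ∑ p ∈ PT (Fin (m + 1)) 0, ∑ x : Fin (m + 1) → V,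
      ∏ w ∈ univ.erase (0 : Fin (m + 1)), Wk c a (x w) (x (p w)) := by
  classical
  unfold Tm
  rw [cnt_eq_sum, Fintype.sum_prod_type, ← sum_subset (subset_univ (PT (Fin (m + 1)) 0))]
  · refine sum_congr rfl fun p hp => sum_congr rfl fun x _ => ?_
    rw [n15_prod_Wk]
    simp only [hp, true_and]
  · intro p _ hp
    refine sum_eq_zero fun x _ => ?_
    simp only [hp, false_and, if_false]

theorem mono_ge (hm : 1 ≤ m) (c : V → V → ZMod m) (hc : ∀ x y, c x y = c y x) (a : ZMod m) :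
    lam (Wk c a) ^ m * Real.exp (((m : ℝ) - 1) * Dv (Wk c a)) * ((m + 1 : ℕ) : ℝ) ^ (m - 1) *
      (Fintype.card V : ℝ) ^ (m + 1) ≤ (Tm c a : ℝ) := by
  rcases (lam_nonneg (Wk_nonneg c a)).eq_or_lt with h0 | h0
  · rw [← h0, zero_pow (by omega), zero_mul, zero_mul, zero_mul]
    exact Nat.cast_nonneg _
  · rw [Tm_eq]
    have h1 : ∀ p ∈ PT (Fin (m + 1)) 0, (Fintype.card V : ℝ) ^ (m + 1) * lam (Wk c a) ^ m *
        Real.exp (((m : ℝ) - 1) * Dv (Wk c a)) ≤ ∑ x : Fin (m + 1) → V,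
          ∏ w ∈ univ.erase (0 : Fin (m + 1)), Wk c a (x w) (x (p w)) := by
      intro p hp
      have h2 := sid_strong (Wk c a) (Wk_nonneg c a) (Wk_symm c hc a) h0 (0 : Fin (m + 1)) p hp
      rw [Fintype.card_fin] at h2
      have e : ((m + 1 : ℕ) : ℝ) - 2 = (m : ℝ) - 1 := by push_cast; ring
      rw [e, Nat.add_sub_cancel] at h2
      exact h2
    have h3 := sum_le_sum h1
    rw [sum_const, card_PT, Fintype.card_fin, nsmul_eq_mul] at h3
    refine le_trans (le_of_eq ?_) h3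
    have e : m + 1 - 2 = m - 1 := by omega
    rw [e]
    push_cast
    ring

/-- A colouring with few zero-sum trees is regular. -/
theorem regular (hm : 20 ≤ m) (c : V → V → ZMod m) (hc : ∀ x y, c x y = c y x) (hδ : del c ≤ 1 / 100)
    (h : (NN c m 0 : ℝ) < 2 * (1 / 2 : ℝ) ^ m * (1 + min 1 (del c * m) / 4) *
      ((m + 1 : ℕ) : ℝ) ^ (m - 1) * (Fintype.card V : ℝ) ^ (m + 1)) :
    Nonempty V ∧
    lam (Wk c 0) + lam (Wk c 1) = 1 - del c ∧
    |lam (Wk c 0) - lam (Wk c 1)| ≤ del c + 2 / m ∧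
    (∀ η : ℝ, 0 < η → (cnt (fun x : V => ¬ Good c η x) : ℝ) ≤
      300 * del c / η ^ 2 * (Fintype.card V : ℝ)) ∧
    (Tm c 0 : ℝ) ≤ 4 * (1 / 2 : ℝ) ^ m * ((m + 1 : ℕ) : ℝ) ^ (m - 1) * (Fintype.card V : ℝ) ^ (m + 1) := by
  classical
  have hδ0 : 0 ≤ del c := by unfold del; positivity
  have hn : 0 < Fintype.card V := by
    by_contra hcon
    have h0 : Fintype.card V = 0 := by omega
    rw [h0, Nat.cast_zero, zero_pow (by omega), mul_zero] at h
    exact absurd h (not_lt.2 (Nat.cast_nonneg _))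
  have hne : Nonempty V := Fintype.card_pos_iff.1 hn
  have hnR : (0 : ℝ) < Fintype.card V := by exact_mod_cast hn
  set Q : ℝ := ((m + 1 : ℕ) : ℝ) ^ (m - 1) * (Fintype.card V : ℝ) ^ (m + 1) with hQ
  have hQ0 : 0 < Q := by positivity
  have hab := lam_add_del (by omega : 3 ≤ m) c
  have hsplit : (Tm c 0 : ℝ) + (Tm c 1 : ℝ) + (Xm c : ℝ) ≤ (NN c m 0 : ℝ) := by
    exact_mod_cast NN_split (by omega : 2 ≤ m) c
  have hX : (0 : ℝ) ≤ Xm c := Nat.cast_nonneg _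
  have hT0 : (0 : ℝ) ≤ Tm c 0 := Nat.cast_nonneg _
  have hT1 : (0 : ℝ) ≤ Tm c 1 := Nat.cast_nonneg _
  have g0 := mono_ge (by omega : 1 ≤ m) c hc 0
  have g1 := mono_ge (by omega : 1 ≤ m) c hc 1
  have h' : (NN c m 0 : ℝ) < 2 * (1 / 2 : ℝ) ^ m * (1 + min 1 (del c * m) / 4) * Q := by
    rw [hQ]; rw [← mul_assoc]; exact h
  have key : (lam (Wk c 0) ^ m * Real.exp (((m : ℝ) - 1) * Dv (Wk c 0)) +
      lam (Wk c 1) ^ m * Real.exp (((m : ℝ) - 1) * Dv (Wk c 1))) * Q ≤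
      2 * (1 / 2 : ℝ) ^ m * (1 + min 1 (del c * m) / 4) * Q := by
    have e0 : lam (Wk c 0) ^ m * Real.exp (((m : ℝ) - 1) * Dv (Wk c 0)) * Q ≤ (Tm c 0 : ℝ) := by
      rw [hQ, ← mul_assoc]; exact g0
    have e1 : lam (Wk c 1) ^ m * Real.exp (((m : ℝ) - 1) * Dv (Wk c 1)) * Q ≤ (Tm c 1 : ℝ) := by
      rw [hQ, ← mul_assoc]; exact g1
    rw [add_mul]
    linarith
  have key2 := le_of_mul_le_mul_right key hQ0
  have hDnn : ∀ a : ZMod m, 0 ≤ Dv (Wk c a) := by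
    intro a
    rcases (lam_nonneg (Wk_nonneg c a)).eq_or_lt with h0 | h0
    · unfold Dv
      rw [← h0]
      simp
    · refine le_trans ?_ (Dv_ge (Wk c a) (Wk_nonneg c a) h0)
      exact div_nonneg (sum_nonneg fun x _ => sq_nonneg _) hnR.le
  obtain ⟨r1, r2, r3⟩ := mono_num m (by omega) (del c) (lam (Wk c 0)) (lam (Wk c 1)) (Dv (Wk c 0))
    (Dv (Wk c 1)) hδ0 hδ (lam_nonneg (Wk_nonneg c 0)) (lam_nonneg (Wk_nonneg c 1)) hab (hDnn 0) (hDnn 1) key2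
  refine ⟨hne, hab, r1, fun η hη => ?_, ?_⟩
  · exact good_card hm c (del c) hδ0 hδ hab r1 r2 r3 η hη
  · have hmin : min 1 (del c * m) ≤ 1 := min_le_left _ _
    have : 2 * (1 / 2 : ℝ) ^ m * (1 + min 1 (del c * m) / 4) * Q ≤ 4 * (1 / 2 : ℝ) ^ m * Q := by
      refine mul_le_mul_of_nonneg_right ?_ hQ0.le
      have h3 : (0 : ℝ) < (1 / 2 : ℝ) ^ m := by positivity
      nlinarith
    calc (Tm c 0 : ℝ) ≤ 2 * (1 / 2 : ℝ) ^ m * (1 + min 1 (del c * m) / 4) * Q := by linarith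
      _ ≤ 4 * (1 / 2 : ℝ) ^ m * Q := this
      _ = _ := by rw [hQ, ← mul_assoc]

end Pool.Agent.ZT
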