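import Pool.Agent.ZT.N10
import Pool.Agent.ZT.N11
import Pool.Agent.ZT.N13
import Pool.Agent.ZT.N15

/-! # [ZN-16] the near regime -/

set_option autoImplicit false

open Finset

namespace Pool.Agent.ZT

/-- the low third colours -/
def Slow (m : ℕ) : Finset ℕ := (Icc 1 (m - 2)).filter (fun s => 2 * s ≤ m - 1)

theorem n16_mem {m s : ℕ} (hm : 3 ≤ m) : s ∈ Slow m ↔ 1 ≤ s ∧ s + 2 ≤ m ∧ 2 * s ≤ m - 1 := by
  unfold Slow
  rw [mem_filter, mem_Icc]
  omega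

theorem n16_sum_inv (S : Finset ℕ) (hS : ∀ s ∈ S, 1 ≤ s) : ∑ s ∈ S, ((s : ℝ) ^ 2)⁻¹ ≤ 2 := by
  have h1 := sum_Ioo_inv_sq_le (α := ℝ) 0 (S.sup id + 1)
  have h2 : S ⊆ Ioo 0 (S.sup id + 1) := by
    intro s hs
    rw [mem_Ioo]
    have := hS s hs
    have h3 : id s ≤ S.sup id := Finset.le_sup hs
    exact ⟨by omega, by simp only [id] at h3; omega⟩
  calc ∑ s ∈ S, ((s : ℝ) ^ 2)⁻¹ ≤ ∑ s ∈ Ioo 0 (S.sup id + 1), ((s : ℝ) ^ 2)⁻¹ :=
        sum_le_sum_of_subset_of_nonneg h2 fun s _ _ => by positivity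
    _ ≤ 2 / ((0 : ℕ) + 1) := h1
    _ = 2 := by norm_num

variable {V : Type} [Fintype V] {m : ℕ}

/-- enough extra trees suffice -/
theorem n16_enough (hm : 20 ≤ m) (c : V → V → ZMod m) (hc : ∀ x y, c x y = c y x) (hδ : del c ≤ 1 / 100)
    [Nonempty V]
    (hX : 4 * min 1 (del c * m) * ((1 / 2 : ℝ) ^ m * ((m + 1 : ℕ) : ℝ) ^ (m - 1) *
      (Fintype.card V : ℝ) ^ (m + 1)) ≤ (Xm c : ℝ)) :
    2 * (1 / 2 : ℝ) ^ m * (1 + min 1 (del c * m) / 4) * ((m + 1 : ℕ) : ℝ) ^ (m - 1) *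
      (Fintype.card V : ℝ) ^ (m + 1) ≤ (NN c m 0 : ℝ) := by
  have hδ0 : 0 ≤ del c := by unfold del; positivity
  have hab := lam_add_del (by omega : 3 ≤ m) c
  have hsplit : (Tm c 0 : ℝ) + (Tm c 1 : ℝ) + (Xm c : ℝ) ≤ (NN c m 0 : ℝ) := by
    exact_mod_cast NN_split (by omega : 2 ≤ m) c
  set Q : ℝ := ((m + 1 : ℕ) : ℝ) ^ (m - 1) * (Fintype.card V : ℝ) ^ (m + 1) with hQ
  have hQ0 : 0 ≤ Q := by positivity
  set a := lam (Wk c 0) with ha
  set b := lam (Wk c 1) with hb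
  have ha0 : 0 ≤ a := lam_nonneg (Wk_nonneg c 0)
  have hb0 : 0 ≤ b := lam_nonneg (Wk_nonneg c 1)
  have hDnn : ∀ a : ZMod m, 0 ≤ Dv (Wk c a) := by
    intro a
    rcases (lam_nonneg (Wk_nonneg c a)).eq_or_lt with h0 | h0
    · unfold Dv
      rw [← h0]
      simp
    · refine le_trans ?_ (Dv_ge (Wk c a) (Wk_nonneg c a) h0)
      exact div_nonneg (sum_nonneg fun x _ => sq_nonneg _) (Nat.cast_nonneg _)
  have hm1 : (0 : ℝ) ≤ (m : ℝ) - 1 := by
    have : (20 : ℝ) ≤ m := by exact_mod_cast hm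
    linarith
  have g : ∀ i : ZMod m, lam (Wk c i) ^ m * Q ≤ (Tm c i : ℝ) := by
    intro i
    have g0 := mono_ge (by omega : 1 ≤ m) c hc i
    have h1 : (1 : ℝ) ≤ Real.exp (((m : ℝ) - 1) * Dv (Wk c i)) :=
      Real.one_le_exp (mul_nonneg hm1 (hDnn i))
    have h2 : 0 ≤ lam (Wk c i) ^ m := pow_nonneg (lam_nonneg (Wk_nonneg c i)) _
    calc lam (Wk c i) ^ m * Q ≤ lam (Wk c i) ^ m * Real.exp (((m : ℝ) - 1) * Dv (Wk c i)) * Q := by
          refine mul_le_mul_of_nonneg_right ?_ hQ0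
          nlinarith
      _ ≤ (Tm c i : ℝ) := by rw [hQ, ← mul_assoc]; exact g0
  have g0 := g 0
  have g1 := g 1
  -- power mean
  have hpm : 2 * ((1 / 2 : ℝ) ^ m * (1 - del c) ^ m) ≤ a ^ m + b ^ m := by
    have hcv := (convexOn_pow m).2 (Set.mem_Ici.2 ha0) (Set.mem_Ici.2 hb0)
      (by norm_num : (0 : ℝ) ≤ 1 / 2) (by norm_num : (0 : ℝ) ≤ 1 / 2) (by norm_num : (1 / 2 : ℝ) + 1 / 2 = 1)
    simp only [smul_eq_mul] at hcv
    have e : (1 / 2 : ℝ) * a + 1 / 2 * b = 1 / 2 * (1 - del c) := by rw [← hab]; ring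
    rw [e, mul_pow] at hcv
    linarith
  set t : ℝ := min 1 (del c * m) with ht
  have hbern : 1 - t ≤ (1 - del c) ^ m := by
    have hB := one_add_mul_le_pow (a := -del c) (by linarith) m
    have hp : (0 : ℝ) ≤ (1 - del c) ^ m := pow_nonneg (by linarith) _
    rcases le_total 1 (del c * m) with h1 | h1
    · have : t = 1 := min_eq_left h1
      rw [this]; linarith
    · have : t = del c * m := min_eq_right h1
      rw [this]
      have e : 1 + (m : ℝ) * -del c = 1 - del c * m := by ring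
      rw [e] at hB
      have e2 : (1 + -del c) ^ m = (1 - del c) ^ m := by ring_nf
      rw [e2] at hB
      exact hB
  have ht0 : 0 ≤ t := le_min zero_le_one (mul_nonneg hδ0 (Nat.cast_nonneg _))
  have hh : (0 : ℝ) < (1 / 2 : ℝ) ^ m := by positivity
  have hX' : 4 * t * ((1 / 2 : ℝ) ^ m * Q) ≤ (Xm c : ℝ) := by
    have e : (1 / 2 : ℝ) ^ m * Q = (1 / 2 : ℝ) ^ m * ((m + 1 : ℕ) : ℝ) ^ (m - 1) * (Fintype.card V : ℝ) ^ (m + 1) := by
      rw [hQ]; ring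
    rw [e]; exact hX
  have hmain : 2 * (1 / 2 : ℝ) ^ m * (1 + t / 4) * Q ≤ (a ^ m + b ^ m) * Q + 4 * t * ((1 / 2 : ℝ) ^ m * Q) := by
    have h1 : 2 * ((1 / 2 : ℝ) ^ m * (1 - t)) ≤ a ^ m + b ^ m :=
      le_trans (mul_le_mul_of_nonneg_left (mul_le_mul_of_nonneg_left hbern hh.le) (by norm_num)) hpm
    have h2 := mul_le_mul_of_nonneg_right h1 hQ0
    have h3 : 0 ≤ t * ((1 / 2 : ℝ) ^ m * Q) := by positivity
    nlinarith
  have e : 2 * (1 / 2 : ℝ) ^ m * (1 + t / 4) * ((m + 1 : ℕ) : ℝ) ^ (m - 1) * (Fintype.card V : ℝ) ^ (m + 1) =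
      2 * (1 / 2 : ℝ) ^ m * (1 + t / 4) * Q := by rw [hQ]; ring
  rw [e]
  calc 2 * (1 / 2 : ℝ) ^ m * (1 + t / 4) * Q ≤ (a ^ m + b ^ m) * Q + 4 * t * ((1 / 2 : ℝ) ^ m * Q) := hmain
    _ = a ^ m * Q + b ^ m * Q + 4 * t * ((1 / 2 : ℝ) ^ m * Q) := by ring
    _ ≤ (NN c m 0 : ℝ) := by linarith

/-- the good set gives `Deg` -/
theorem n16_deg (c : V → V → ZMod m) (hc : ∀ x y, c x y = c y x) (β : ℝ) (hβ1 : β ≤ 1 / 40)
    (hβ : (cnt (fun x : V => ¬ Good c (1 / 40) x) : ℝ) ≤ β * (Fintype.card V : ℝ)) :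
    Deg c (Good c (1 / 40)) where
  symm := hc
  d0 := by
    intro x hx
    have h1 := dgr_WG_ge c 0 (Good c (1 / 40)) β hβ x hx
    have h2 := (abs_le.1 hx.1).1
    linarith
  d0' := by
    intro x hx
    have h1 := dgr_mono (WG_le_Wk c 0 (Good c (1 / 40))) x
    have h2 := (abs_le.1 hx.1).2
    linarith
  e0 := by
    intro x hx
    have h2 := (abs_le.1 hx.1).1
    linarith
  e1 := by
    intro x hx
    have h2 := (abs_le.1 hx.2).1
    linarith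

/-- `(2 λ')^m ≥ exp (-4 - 2 C' δ m)` -/
theorem n16_lam (hm : 20 ≤ m) (δ l t : ℝ) (hδ : 0 ≤ δ) (hδ1 : 2000000 * δ ≤ 1 / 4)
    (hl : 1 / 2 - δ - 1 / m - 2 * (480000 * δ) ≤ l) (ht : t = 2000000 * δ) :
    1 ≤ Real.exp (4 + 2 * t * m) * (2 * l) ^ m := by
  have hmR : (20 : ℝ) ≤ m := by exact_mod_cast hm
  have hm0 : (0 : ℝ) < m := by linarith
  have h1 : 1 - (2 / m + t) ≤ 2 * l := by
    rw [ht]
    have e : (2 : ℝ) / m = 2 * (1 / m) := by ring
    rw [e]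
    linarith
  have h2m : (2 : ℝ) / m ≤ 1 / 10 := by
    rw [div_le_div_iff₀ hm0 (by norm_num)]
    linarith
  set u : ℝ := 2 / m + t with hu
  have hu0 : 0 ≤ u := by
    rw [hu, ht]; positivity
  have hu1 : u ≤ 1 / 2 := by rw [hu, ht]; linarith
  have h3 : Real.exp (-(2 * u)) ≤ 1 - u := by
    have h4 : 1 - u ≥ 0 := by linarith
    have h5 := Real.add_one_le_exp (2 * u)
    have h6 : 1 ≤ (1 - u) * Real.exp (2 * u) := by
      have : (1 : ℝ) ≤ (1 - u) * (2 * u + 1) := by nlinarith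
      exact this.trans (mul_le_mul_of_nonneg_left h5 h4)
    rw [Real.exp_neg]
    rw [inv_le_iff_one_le_mul₀ (Real.exp_pos _)]
    exact h6
  have h7 : Real.exp (-(2 * u)) ^ m ≤ (2 * l) ^ m :=
    pow_le_pow_left₀ (Real.exp_pos _).le (h3.trans h1) m
  rw [← Real.exp_nat_mul] at h7
  have e : (m : ℝ) * -(2 * u) = -(4 + 2 * t * m) := by
    rw [hu]
    field_simp
    ring
  rw [e] at h7
  calc (1 : ℝ) = Real.exp (4 + 2 * t * m) * Real.exp (-(4 + 2 * t * m)) := by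
        rw [← Real.exp_add, add_neg_cancel, Real.exp_zero]
    _ ≤ Real.exp (4 + 2 * t * m) * (2 * l) ^ m := mul_le_mul_of_nonneg_left h7 (Real.exp_pos _).le

theorem n16_pow (hm : 20 ≤ m) : 4 * (m : ℝ) * ((m + 1 : ℕ) : ℝ) ^ (m - 1) ≤ 1000 / 16 * (m : ℝ) ^ m := by
  have hmR : (20 : ℝ) ≤ m := by exact_mod_cast hm
  have hm0 : (0 : ℝ) < m := by linarith
  have h1 : ((m + 1 : ℕ) : ℝ) ≤ m * Real.exp (1 / m) := by
    have h2 := Real.add_one_le_exp (1 / (m : ℝ))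
    calc ((m + 1 : ℕ) : ℝ) = m * (1 / m + 1) := by
          push_cast
          field_simp
          ring
      _ ≤ m * Real.exp (1 / m) := mul_le_mul_of_nonneg_left h2 hm0.le
  have h2 : ((m + 1 : ℕ) : ℝ) ^ (m - 1) ≤ (m : ℝ) ^ (m - 1) * 3 := by
    calc ((m + 1 : ℕ) : ℝ) ^ (m - 1) ≤ (m * Real.exp (1 / m)) ^ (m - 1) :=
          pow_le_pow_left₀ (by positivity) h1 _
      _ = (m : ℝ) ^ (m - 1) * Real.exp ((m - 1 : ℕ) * (1 / m)) := by
          rw [mul_pow, ← Real.exp_nat_mul]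
      _ ≤ (m : ℝ) ^ (m - 1) * 3 := by
          refine mul_le_mul_of_nonneg_left ?_ (by positivity)
          refine le_trans ?_ Real.exp_one_lt_three.le
          rw [Real.exp_le_exp]
          rw [Nat.cast_sub (by omega)]
          push_cast
          rw [mul_one_div, div_le_one hm0]
          linarith
  have e : (m : ℝ) ^ m = (m : ℝ) ^ (m - 1) * m := by
    rw [← pow_succ]
    congr 1
    omega
  rw [e]
  have h3 : (0 : ℝ) < (m : ℝ) ^ (m - 1) := by positivity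
  calc 4 * (m : ℝ) * ((m + 1 : ℕ) : ℝ) ^ (m - 1) ≤ 4 * (m : ℝ) * ((m : ℝ) ^ (m - 1) * 3) :=
        mul_le_mul_of_nonneg_left h2 (by positivity)
    _ ≤ 1000 / 16 * ((m : ℝ) ^ (m - 1) * m) := by nlinarith [mul_pos hm0 h3]


/-- the case of many third edges of colours `-s` with `s` large -/
theorem n16_large (hm : 20 ≤ m) (c : V → V → ZMod m) (hc : ∀ x y, c x y = c y x)
    (η c1 : ℝ) (hη0 : 0 < η) (hη : η ≤ 1 / 100)
    (hbc : ∀ s : ℕ, c1 * m < s → 2 * s ≤ m - 1 →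
      1000 * (m : ℝ) ^ 2 * (1 / 2 : ℝ) ^ m ≤ ((m - 1).choose s : ℝ) * (1 / 2 - 2 * η) ^ (m - 1))
    (hδ2 : 300 * del c / η ^ 2 ≤ η) (hδ3 : (300 * del c / η ^ 2) ^ 2 ≤ del c / 8)
    (hgood : (cnt (fun x : V => ¬ Good c η x) : ℝ) ≤ 300 * del c / η ^ 2 * (Fintype.card V : ℝ))
    (hthird : del c / 4 ≤ ∑ s ∈ (Slow m).filter (fun s : ℕ => c1 * m < s), lam (Wk c (-(s : ZMod m)))) :
    4 * min 1 (del c * m) * ((1 / 2 : ℝ) ^ m * ((m + 1 : ℕ) : ℝ) ^ (m - 1) *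
      (Fintype.card V : ℝ) ^ (m + 1)) ≤ (Xm c : ℝ) := by
  classical
  have hδ0 : 0 ≤ del c := by unfold del; positivity
  have hmR : (20 : ℝ) ≤ m := by exact_mod_cast hm
  have hm0 : (0 : ℝ) < m := by linarith
  set Gd : V → Prop := Good c η with hGd
  set S := (Slow m).filter (fun s : ℕ => c1 * m < s) with hS
  have hSm : ∀ s ∈ S, 1 ≤ s ∧ s + 2 ≤ m := by
    intro s hs
    have := (n16_mem (by omega)).1 (mem_filter.1 hs).1
    exact ⟨this.1, this.2.1⟩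
  set β : ℝ := 300 * del c / η ^ 2 with hβ
  have hgam := gam_sum c hc S hSm Gd β hgood
  have hdeg : ∀ a : ZMod m, a = 0 ∨ a = 1 → ∀ x, Gd x → 1 / 2 - 2 * η ≤ dgr (WG c a Gd) x := by
    intro a ha x hx
    have h1 := dgr_WG_ge c a Gd β hgood x hx
    have h2 : |dgr (Wk c a) x - 1 / 2| ≤ η := by
      rcases ha with rfl | rfl
      · exact hx.1
      · exact hx.2
    have h3 := (abs_le.1 h2).1
    linarith
  have hcount := lcount m (by omega) c hc Gd (1 / 2 - 2 * η) (by linarith) (hdeg 0 (Or.inl rfl))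
    (hdeg 1 (Or.inr rfl)) S hSm
  have hG0 : ∀ s : ℕ, 0 ≤ Gam c (-(s : ZMod m)) Gd := by
    intro s
    unfold Gam
    refine div_nonneg (sum_nonneg fun y _ => ?_) (Nat.cast_nonneg _)
    split_ifs
    · exact dgr_nonneg (Wk_nonneg c _) y
    · exact le_rfl
  have hsum : del c / 16 ≤ ∑ s ∈ S, Gam c (-(s : ZMod m)) Gd := by
    refine le_trans ?_ hgam
    linarith
  set R : ℝ := (m : ℝ) ^ (m - 2) * (Fintype.card V : ℝ) ^ (m + 1) with hR
  have hR0 : 0 ≤ R := by positivity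
  have h1 : (∑ s ∈ S, Gam c (-(s : ZMod m)) Gd) * (1000 * (m : ℝ) ^ 2 * (1 / 2 : ℝ) ^ m) * R ≤ (Xm c : ℝ) := by
    refine le_trans ?_ hcount
    rw [sum_mul, sum_mul]
    refine sum_le_sum fun s hs => ?_
    have h2 := hbc s (mem_filter.1 hs).2 ((n16_mem (by omega)).1 (mem_filter.1 hs).1).2.2
    calc Gam c (-(s : ZMod m)) Gd * (1000 * (m : ℝ) ^ 2 * (1 / 2 : ℝ) ^ m) * R
        ≤ Gam c (-(s : ZMod m)) Gd * (((m - 1).choose s : ℝ) * (1 / 2 - 2 * η) ^ (m - 1)) * R :=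
          mul_le_mul_of_nonneg_right (mul_le_mul_of_nonneg_left h2 (hG0 s)) hR0
      _ = _ := by rw [hR]; ring
  refine le_trans ?_ h1
  have h2 : del c / 16 * (1000 * (m : ℝ) ^ 2 * (1 / 2 : ℝ) ^ m) * R ≤
      (∑ s ∈ S, Gam c (-(s : ZMod m)) Gd) * (1000 * (m : ℝ) ^ 2 * (1 / 2 : ℝ) ^ m) * R :=
    mul_le_mul_of_nonneg_right (mul_le_mul_of_nonneg_right hsum (by positivity)) hR0
  refine le_trans ?_ h2
  have h3 := n16_pow hm
  have e : (m : ℝ) ^ 2 * (m : ℝ) ^ (m - 2) = (m : ℝ) ^ m := by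
    rw [← pow_add]
    congr 1
    omega
  have hmin : min 1 (del c * m) ≤ del c * m := min_le_right _ _
  have hh : (0 : ℝ) < (1 / 2 : ℝ) ^ m := by positivity
  calc 4 * min 1 (del c * m) * ((1 / 2 : ℝ) ^ m * ((m + 1 : ℕ) : ℝ) ^ (m - 1) * (Fintype.card V : ℝ) ^ (m + 1))
      ≤ 4 * (del c * m) * ((1 / 2 : ℝ) ^ m * ((m + 1 : ℕ) : ℝ) ^ (m - 1) * (Fintype.card V : ℝ) ^ (m + 1)) := by
        refine mul_le_mul_of_nonneg_right ?_ (by positivity)
        linarith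
    _ = del c * ((1 / 2 : ℝ) ^ m * (Fintype.card V : ℝ) ^ (m + 1)) * (4 * (m : ℝ) * ((m + 1 : ℕ) : ℝ) ^ (m - 1)) := by
        ring
    _ ≤ del c * ((1 / 2 : ℝ) ^ m * (Fintype.card V : ℝ) ^ (m + 1)) * (1000 / 16 * (m : ℝ) ^ m) :=
        mul_le_mul_of_nonneg_left h3 (by positivity)
    _ = del c / 16 * (1000 * (m : ℝ) ^ 2 * (1 / 2 : ℝ) ^ m) * R := by
        rw [hR, ← e]; ring

/-- the case of many third edges of colours `-s` with `s` small -/
theorem n16_small (hm : 20 ≤ m) (c : V → V → ZMod m) (hc : ∀ x y, c x y = c y x) (C c1 : ℝ)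
    (hC : 500 * Real.exp 16 ≤ C) (hC2 : 16000000 ≤ C)
    (hj : ∀ s : ℕ, 1 ≤ s → (s : ℝ) ≤ c1 * m → ∀ Γ : ℝ, del c / (32 * (s : ℝ) ^ 2) ≤ Γ →
    ∃ j : ℕ, 1 ≤ j ∧ 4 * (j + j * s) ≤ m + 1 ∧
      C * Real.exp (C * (del c * m)) * min 1 (del c * m) ≤
        (((m + 1 : ℕ) : ℝ) / 10 ^ 10) ^ (j * s) * (Γ * ((m + 1 : ℕ) : ℝ) / 10 ^ 10) ^ j /
          ((j.factorial : ℝ) * ((j * s).factorial : ℝ)))
    (hd0 : 0 < del c) (hδ2 : 480000 * del c ≤ 1 / 40) (hδ3 : (480000 * del c) ^ 2 ≤ del c / 8)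
    (hδ4 : 2000000 * del c ≤ 1 / 4)
    (hab : lam (Wk c 0) + lam (Wk c 1) = 1 - del c)
    (hθ : |lam (Wk c 0) - lam (Wk c 1)| ≤ del c + 2 / m)
    (hgood : (cnt (fun x : V => ¬ Good c (1 / 40) x) : ℝ) ≤ 480000 * del c * (Fintype.card V : ℝ))
    (hT : (Tm c 0 : ℝ) ≤ 4 * (1 / 2 : ℝ) ^ m * ((m + 1 : ℕ) : ℝ) ^ (m - 1) * (Fintype.card V : ℝ) ^ (m + 1))
    (hthird : del c / 4 ≤ ∑ s ∈ (Slow m).filter (fun s : ℕ => (s : ℝ) ≤ c1 * m), lam (Wk c (-(s : ZMod m)))) :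
    4 * min 1 (del c * m) * ((1 / 2 : ℝ) ^ m * ((m + 1 : ℕ) : ℝ) ^ (m - 1) *
      (Fintype.card V : ℝ) ^ (m + 1)) ≤ (Xm c : ℝ) := by
  classical
  have hmR : (20 : ℝ) ≤ m := by exact_mod_cast hm
  have hm0 : (0 : ℝ) < m := by linarith
  set δ := del c with hδdef
  set Gd : V → Prop := Good c (1 / 40) with hGd
  set S := (Slow m).filter (fun s : ℕ => (s : ℝ) ≤ c1 * m) with hS
  have hSm : ∀ s ∈ S, 1 ≤ s ∧ s + 2 ≤ m := by
    intro s hs
    have := (n16_mem (by omega)).1 (mem_filter.1 hs).1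
    exact ⟨this.1, this.2.1⟩
  have hgam := gam_sum c hc S hSm Gd (480000 * δ) hgood
  have hsum : δ / 16 ≤ ∑ s ∈ S, Gam c (-(s : ZMod m)) Gd := by
    refine le_trans ?_ hgam
    linarith
  -- a colour with enough mass
  have hex : ∃ s ∈ S, δ / (32 * (s : ℝ) ^ 2) ≤ Gam c (-(s : ZMod m)) Gd := by
    by_contra hcon
    push Not at hcon
    have hne : S.Nonempty := by
      by_contra he
      rw [not_nonempty_iff_eq_empty] at he
      rw [he, sum_empty] at hsum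
      linarith
    have h1 : ∑ s ∈ S, Gam c (-(s : ZMod m)) Gd < ∑ s ∈ S, δ / (32 * (s : ℝ) ^ 2) :=
      sum_lt_sum_of_nonempty hne hcon
    have h2 : ∑ s ∈ S, δ / (32 * (s : ℝ) ^ 2) = δ / 32 * ∑ s ∈ S, ((s : ℝ) ^ 2)⁻¹ := by
      rw [mul_sum]
      refine sum_congr rfl fun s _ => ?_
      rw [div_mul_eq_div_div]
      rfl
    have h3 := n16_sum_inv S fun s hs => (hSm s hs).1
    have h4 : δ / 32 * ∑ s ∈ S, ((s : ℝ) ^ 2)⁻¹ ≤ δ / 32 * 2 :=
      mul_le_mul_of_nonneg_left h3 (by linarith)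
    linarith
  obtain ⟨s, hsS, hsG⟩ := hex
  obtain ⟨hs1, hs2⟩ := hSm s hsS
  obtain ⟨j, hj1, hj4, hjj⟩ := hj s hs1 (mem_filter.1 hsS).2 _ hsG
  have hs0 : (0 : ℝ) < s := by exact_mod_cast hs1
  have hGpos : 0 < Gam c (-(s : ZMod m)) Gd := lt_of_lt_of_le (by positivity) hsG
  have hDeg := n16_deg c hc (480000 * δ) hδ2 hgood
  set E : ℝ := Real.exp (4 + 2 * (2000000 * δ) * m) with hE
  have hE1 : 1 ≤ E := Real.one_le_exp (by positivity)
  have hneV : Nonempty V := by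
    by_contra he
    rw [not_nonempty_iff] at he
    have h0 : del c = 0 := by
      unfold del
      rw [Fintype.card_eq_zero, Nat.cast_zero, zero_pow two_ne_zero, div_zero]
    rw [hδdef, h0] at hd0
    exact lt_irrefl _ hd0
  have hlam : 1 / 2 - δ - 1 / m - 2 * (480000 * δ) ≤ lam (WG c 0 Gd) := by
    have h1 := lam_WG_ge c 0 Gd (480000 * δ) hgood
    have h2 := (abs_le.1 hθ).1
    have e : (2 : ℝ) / m = 2 * (1 / m) := by ring
    rw [e] at h2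
    linarith
  have hE2 : 1 ≤ E * (2 * lam (WG c 0 Gd)) ^ m :=
    n16_lam hm δ (lam (WG c 0 Gd)) (2000000 * δ) hd0.le hδ4 hlam rfl
  have hx := xs m s j hs1 hs2 hj1 hj4 c Gd hDeg hGpos E hE1 hE2 hT
  refine le_trans ?_ hx
  set Q : ℝ := (1 / 2 : ℝ) ^ m * ((m + 1 : ℕ) : ℝ) ^ (m - 1) * (Fintype.card V : ℝ) ^ (m + 1) with hQ
  refine mul_le_mul_of_nonneg_right ?_ (by positivity)
  rw [le_div_iff₀ (by positivity)]
  refine le_trans ?_ hjj
  have ht0 : 0 ≤ min 1 (δ * m) := le_min zero_le_one (by positivity)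
  have hE4 : E ^ 4 = Real.exp 16 * Real.exp (16000000 * (δ * m)) := by
    rw [hE, ← Real.exp_nat_mul, ← Real.exp_add]
    congr 1
    push_cast
    ring
  rw [hE4]
  have h5 : Real.exp (16000000 * (δ * m)) ≤ Real.exp (C * (δ * m)) := by
    rw [Real.exp_le_exp]
    exact mul_le_mul_of_nonneg_right hC2 (by positivity)
  calc 4 * min 1 (δ * m) * (125 * (Real.exp 16 * Real.exp (16000000 * (δ * m))))
      = (500 * Real.exp 16) * Real.exp (16000000 * (δ * m)) * min 1 (δ * m) := by ring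
    _ ≤ C * Real.exp (C * (δ * m)) * min 1 (δ * m) := by
        refine mul_le_mul_of_nonneg_right ?_ ht0
        exact mul_le_mul hC h5 (Real.exp_pos _).le (by linarith [Real.exp_pos 16])

/-- NEAR REGIME, with the low third colours in the majority -/
theorem near_low : ∃ δ0 : ℝ, 0 < δ0 ∧ ∃ m0 : ℕ, ∀ m ≥ m0, ∀ (V : Type) [Fintype V] (c : V → V → ZMod m),
    (∀ x y, c x y = c y x) → del c ≤ δ0 → del c / 2 ≤ ∑ s ∈ Slow m, lam (Wk c (-(s : ZMod m))) →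
    2 * (1 / 2 : ℝ) ^ m * (1 + min 1 (del c * m) / 4) * ((m + 1 : ℕ) : ℝ) ^ (m - 1) *
      (Fintype.card V : ℝ) ^ (m + 1) ≤ (NN c m 0 : ℝ) := by
  classical
  set C : ℝ := 500 * Real.exp 16 + 16000000 with hCdef
  have hexp : 0 < Real.exp 16 := Real.exp_pos _
  have hC1 : 1 ≤ C := by rw [hCdef]; linarith
  obtain ⟨c1, hc10, hc11, δ1, hδ10, m1, hj⟩ := choose_j C hC1
  obtain ⟨η, hη0, hη1, m2, hbc⟩ := big_choose c1 hc10 hc11
  have hη4 : 0 < η ^ 4 := by positivity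
  -- the bound for δ
  set δ0 : ℝ := min δ1 (min (1 / 10 ^ 13) (η ^ 4 / 10 ^ 7)) with hδ0
  have hδ0pos : 0 < δ0 := by
    rw [hδ0]
    refine lt_min hδ10 (lt_min (by norm_num) (by positivity))
  refine ⟨δ0, hδ0pos, max 20 (max m1 m2), fun m hm V _ c hc hδ hlow => ?_⟩
  have hm20 : 20 ≤ m := (le_max_left _ _).trans hm
  have hm1 : m1 ≤ m := ((le_max_left _ _).trans (le_max_right _ _)).trans hm
  have hm2 : m2 ≤ m := ((le_max_right _ _).trans (le_max_right _ _)).trans hm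
  have hd1 : del c ≤ δ1 := hδ.trans (min_le_left _ _)
  have hd2 : del c ≤ 1 / 10 ^ 13 := hδ.trans ((min_le_right _ _).trans (min_le_left _ _))
  have hd3 : del c ≤ η ^ 4 / 10 ^ 7 := hδ.trans ((min_le_right _ _).trans (min_le_right _ _))
  have hdnn : 0 ≤ del c := by unfold del; positivity
  have hd4 : del c ≤ 1 / 100 := hd2.trans (by norm_num)
  by_contra hcon
  push Not at hcon
  obtain ⟨hne, hab, hθ, hgood, hT⟩ := regular hm20 c hc hd4 hcon
  -- `δ = 0`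
  rcases hdnn.eq_or_lt with h0 | hd0
  · refine absurd (n16_enough hm20 c hc hd4 ?_) (not_le.2 hcon)
    rw [← h0, zero_mul, min_eq_right zero_le_one]
    simp
  -- split the low third colours
  have hsplit : ∑ s ∈ Slow m, lam (Wk c (-(s : ZMod m))) =
      ∑ s ∈ (Slow m).filter (fun s : ℕ => (s : ℝ) ≤ c1 * m), lam (Wk c (-(s : ZMod m))) +
      ∑ s ∈ (Slow m).filter (fun s : ℕ => c1 * m < s), lam (Wk c (-(s : ZMod m))) := by
    rw [← sum_filter_add_sum_filter_not (Slow m) (fun s : ℕ => (s : ℝ) ≤ c1 * m)]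
    simp only [not_le]
  have hcases : del c / 4 ≤ ∑ s ∈ (Slow m).filter (fun s : ℕ => (s : ℝ) ≤ c1 * m), lam (Wk c (-(s : ZMod m))) ∨
      del c / 4 ≤ ∑ s ∈ (Slow m).filter (fun s : ℕ => c1 * m < s), lam (Wk c (-(s : ZMod m))) := by
    by_contra h
    push Not at h
    rw [hsplit] at hlow
    linarith [h.1, h.2]
  refine absurd (n16_enough hm20 c hc hd4 ?_) (not_le.2 hcon)
  rcases hcases with h | h
  · refine n16_small hm20 c hc C c1 (by rw [hCdef]; linarith) (by rw [hCdef]; linarith)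
      (fun s hs1 hs2 Γ hΓ => hj m hm1 (del c) hd0 hd1 s hs1 hs2 Γ hΓ) hd0 ?_ ?_ ?_ hab hθ ?_ hT h
    · have : (480000 : ℝ) * (1 / 10 ^ 13) ≤ 1 / 40 := by norm_num
      linarith
    · have h1 : (480000 * del c) ^ 2 = (480000 ^ 2 * del c) * del c := by ring
      rw [h1]
      have h2 : (480000 : ℝ) ^ 2 * del c ≤ 1 / 8 := by
        have : (480000 : ℝ) ^ 2 * (1 / 10 ^ 13) ≤ 1 / 8 := by norm_num
        have h3 : (480000 : ℝ) ^ 2 * del c ≤ (480000 : ℝ) ^ 2 * (1 / 10 ^ 13) :=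
          mul_le_mul_of_nonneg_left hd2 (by norm_num)
        linarith
      calc 480000 ^ 2 * del c * del c ≤ 1 / 8 * del c := mul_le_mul_of_nonneg_right h2 hdnn
        _ = del c / 8 := by ring
    · have : (2000000 : ℝ) * (1 / 10 ^ 13) ≤ 1 / 4 := by norm_num
      linarith
    · have h1 := hgood (1 / 40) (by norm_num)
      have e : 300 * del c / (1 / 40 : ℝ) ^ 2 = 480000 * del c := by ring
      rw [e] at h1
      exact h1
  · have hη2 : 0 < η ^ 2 := by positivity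
    refine n16_large hm20 c hc η c1 hη0 hη1 (fun s hs1 hs2 => hbc m hm2 s hs1 hs2) ?_ ?_ (hgood η hη0) h
    · rw [div_le_iff₀ hη2]
      calc 300 * del c ≤ 300 * (η ^ 4 / 10 ^ 7) := by linarith
        _ = η * η ^ 2 * (300 / 10 ^ 7 * η) := by ring
        _ ≤ η * η ^ 2 * 1 := by
            refine mul_le_mul_of_nonneg_left ?_ (by positivity)
            nlinarith
        _ = η * η ^ 2 := mul_one _
    · have e : (300 * del c / η ^ 2) ^ 2 = 90000 / η ^ 4 * del c * del c := by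
        field_simp
        ring
      rw [e]
      have h2 : 90000 / η ^ 4 * del c ≤ 1 / 8 := by
        calc 90000 / η ^ 4 * del c ≤ 90000 / η ^ 4 * (η ^ 4 / 10 ^ 7) :=
              mul_le_mul_of_nonneg_left hd3 (by positivity)
          _ = 90000 / 10 ^ 7 := by field_simp
          _ ≤ 1 / 8 := by norm_num
      calc 90000 / η ^ 4 * del c * del c ≤ 1 / 8 * del c := mul_le_mul_of_nonneg_right h2 hdnn
        _ = del c / 8 := by ring

/-- THE NEAR REGIME. -/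
theorem near : ∃ δ0 : ℝ, 0 < δ0 ∧ ∃ m0 : ℕ, ∀ m ≥ m0, ∀ (V : Type) [Fintype V] (c : V → V → ZMod m),
    (∀ x y, c x y = c y x) → del c ≤ δ0 →
    2 * (1 / 2 : ℝ) ^ m * (1 + min 1 (del c * m) / 4) * ((m + 1 : ℕ) : ℝ) ^ (m - 1) *
      (Fintype.card V : ℝ) ^ (m + 1) ≤ (NN c m 0 : ℝ) := by
  obtain ⟨δ0, hδ0, m0, h⟩ := near_low
  refine ⟨δ0, hδ0, max 3 m0, fun m hm V _ c hc hδ => ?_⟩
  have hm3 : 3 ≤ m := (le_max_left _ _).trans hm
  have hm0 : m0 ≤ m := (le_max_right _ _).trans hm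
  have hl := low_flip hm3 c
  by_cases h1 : del c / 2 ≤ ∑ s ∈ Slow m, lam (Wk c (-(s : ZMod m)))
  · exact h m hm0 V c hc hδ h1
  · push Not at h1
    have h2 := h m hm0 V (fun x y => 1 - c x y) (fun x y => by rw [hc x y]) (by rw [del_flip]; exact hδ)
      (by
        rw [del_flip]
        unfold Slow at h1 ⊢
        linarith)
    rw [del_flip, NN_flip] at h2
    exact h2

end Pool.Agent.ZT
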