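import Pool.Agent.ZT.Cayley

/-! # ZT, near regime: definitions

`V` finite, `n = card V`; a kernel is `K : V → V → ℝ`, symmetric and `≥ 0`; all averages are over the uniform
probability on `V`. -/

set_option autoImplicit false
set_option linter.unusedSectionVars false

open Finset

namespace Pool.Agent.ZT

section
variable {V : Type} [Fintype V]

/-- degree of `x` -/
noncomputable def dgr (K : V → V → ℝ) (x : V) : ℝ := (∑ y, K x y) / (Fintype.card V : ℝ)

/-- density of the kernel -/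
noncomputable def lam (K : V → V → ℝ) : ℝ := (∑ x, dgr K x) / (Fintype.card V : ℝ)

/-- `log (d / λ)` -/
noncomputable def hlog (K : V → V → ℝ) (x : V) : ℝ := Real.log (dgr K x / lam K)

/-- the divergence of `π = d / (n λ)` from the uniform law -/
noncomputable def Dv (K : V → V → ℝ) : ℝ :=
  ∑ x, dgr K x / ((Fintype.card V : ℝ) * lam K) * hlog K x

/-- the Markov measure of the kernel on the placements of the tree `p` -/
noncomputable def mkp {A : Type} [Fintype A] [DecidableEq A] (K : V → V → ℝ) (p : A → A) (v : A)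
    (x : A → V) : ℝ :=
  dgr K (x v) / ((Fintype.card V : ℝ) * lam K) *
    ∏ w ∈ univ.erase v, (K (x (p w)) (x w) / ((Fintype.card V : ℝ) * dgr K (x (p w))))

/-- the exponent -/
noncomputable def Hf {A : Type} [Fintype A] [DecidableEq A] (K : V → V → ℝ) (p : A → A) (v : A)
    (x : A → V) : ℝ :=
  (∑ w ∈ univ.erase v, hlog K (x (p w))) - hlog K (x v)

open Classical in
/-- the kernel of the colour `a` -/
noncomputable def Wk {G : Type} (c : V → V → G) (a : G) (x y : V) : ℝ := if c x y = a then 1 else 0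

open Classical in
/-- the kernel of the colour `a` restricted to the vertices in `Gd` -/
noncomputable def WG {G : Type} (c : V → V → G) (a : G) (Gd : V → Prop) (x y : V) : ℝ :=
  if c x y = a ∧ Gd x ∧ Gd y then 1 else 0

open Classical in
/-- the mass of the colour `a` seen from the vertices in `Gd` -/
noncomputable def Gam {G : Type} (c : V → V → G) (a : G) (Gd : V → Prop) : ℝ :=
  (∑ y, if Gd y then dgr (Wk c a) y else 0) / (Fintype.card V : ℝ)

/-- number of gadgets `(y, l)`: a vertex `y` in `Gd` joined to `z` by the colour `0` and a leaf `l` hanging on `y`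
with colour `a` -/
noncomputable def Fg {m : ℕ} (c : V → V → ZMod m) (Gd : V → Prop) (a : ZMod m) (z : V) : ℕ :=
  cnt (fun q : V × V => Gd q.1 ∧ c q.1 z = 0 ∧ c q.2 q.1 = a)

/-- core trees with all edges `0`, all vertices in `Gd`, with gadgets of colours `col i` hung on the core -/
noncomputable def S0 {m : ℕ} (c : V → V → ZMod m) (Gd : V → Prop) (B : Type) [Fintype B] [DecidableEq B]
    (b0 : B) {J : Type} [Fintype J] (col : J → ZMod m) : ℝ :=
  ∑ p ∈ PT B b0, ∑ x : B → V, (∏ w ∈ univ.erase b0, WG c 0 Gd (x w) (x (p w))) *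
    ∏ i : J, ∑ b : B, (Fg c Gd (col i) (x b) : ℝ)

/-- The placed tree `(p, x)` has the gadget leaves `l i` (with parents `y i`) of colours `col i`; all the other
edges are `0`. Here `e (inl i) = y i`, `e (inr i) = l i`. -/
def Gad {m : ℕ} (c : V → V → ZMod m) {A : Type} [Fintype A] [DecidableEq A] (v : A) {J : Type}
    (col : J → ZMod m) (e : J ⊕ J ↪ {a : A // a ≠ v}) (q : (A → A) × (A → V)) : Prop :=
  q.1 ∈ PT A v ∧ (∀ i, q.1 (e (Sum.inr i)).1 = (e (Sum.inl i)).1) ∧
    (∀ i, c (q.2 (e (Sum.inr i)).1) (q.2 (e (Sum.inl i)).1) = col i) ∧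
    ∀ w, w ≠ v → (∀ i, w ≠ (e (Sum.inr i)).1) → c (q.2 w) (q.2 (q.1 w)) = 0

/-- all edges have the colour `a` -/
def Mono {m : ℕ} (c : V → V → ZMod m) {A : Type} (v : A) (a : ZMod m) (q : (A → A) × (A → V)) : Prop :=
  ∀ w, w ≠ v → c (q.2 w) (q.2 (q.1 w)) = a

/-- number of placed trees with `m` edges all of colour `a` -/
noncomputable def Tm {m : ℕ} (c : V → V → ZMod m) (a : ZMod m) : ℕ :=
  cnt (fun q : (Fin (m + 1) → Fin (m + 1)) × (Fin (m + 1) → V) => q.1 ∈ PT (Fin (m + 1)) 0 ∧ Mono c 0 a q)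

/-- number of zero-sum placed trees with `m` edges which are neither all `0` nor all `1` -/
noncomputable def Xm {m : ℕ} (c : V → V → ZMod m) : ℕ :=
  cnt (fun q : (Fin (m + 1) → Fin (m + 1)) × (Fin (m + 1) → V) => q.1 ∈ PT (Fin (m + 1)) 0 ∧
    PS c q.1 0 q.2 = 0 ∧ ¬ Mono c 0 0 q ∧ ¬ Mono c 0 1 q)

/-- fraction of the pairs whose colour is neither `0` nor `1` -/
noncomputable def del {m : ℕ} (c : V → V → ZMod m) : ℝ :=
  (cnt (fun q : V × V => c q.1 q.2 ≠ 0 ∧ c q.1 q.2 ≠ 1) : ℝ) / (Fintype.card V : ℝ) ^ 2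

/-- `x` is `η`-good -/
def Good {m : ℕ} (c : V → V → ZMod m) (η : ℝ) (x : V) : Prop :=
  |dgr (Wk c 0) x - 1 / 2| ≤ η ∧ |dgr (Wk c 1) x - 1 / 2| ≤ η

end

section basic
variable {V : Type} [Fintype V] {G : Type}

theorem Wk_nonneg (c : V → V → G) (a : G) (x y : V) : 0 ≤ Wk c a x y := by
  unfold Wk; split_ifs <;> norm_num

theorem Wk_le_one (c : V → V → G) (a : G) (x y : V) : Wk c a x y ≤ 1 := by
  unfold Wk; split_ifs <;> norm_num

theorem Wk_symm (c : V → V → G) (hc : ∀ x y, c x y = c y x) (a : G) (x y : V) :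
    Wk c a x y = Wk c a y x := by
  unfold Wk; rw [hc x y]

theorem WG_nonneg (c : V → V → G) (a : G) (Gd : V → Prop) (x y : V) : 0 ≤ WG c a Gd x y := by
  unfold WG; split_ifs <;> norm_num

theorem WG_le_Wk (c : V → V → G) (a : G) (Gd : V → Prop) (x y : V) : WG c a Gd x y ≤ Wk c a x y := by
  classical
  unfold WG Wk
  by_cases h : c x y = a ∧ Gd x ∧ Gd y
  · rw [if_pos h, if_pos h.1]
  · rw [if_neg h]; split_ifs <;> norm_num

theorem WG_symm (c : V → V → G) (hc : ∀ x y, c x y = c y x) (a : G) (Gd : V → Prop) (x y : V) :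
    WG c a Gd x y = WG c a Gd y x := by
  classical
  unfold WG
  rw [hc x y]
  by_cases h : c y x = a ∧ Gd x ∧ Gd y
  · rw [if_pos h, if_pos ⟨h.1, h.2.2, h.2.1⟩]
  · rw [if_neg h, if_neg fun h' => h ⟨h'.1, h'.2.2, h'.2.1⟩]

theorem dgr_nonneg {K : V → V → ℝ} (hK : ∀ x y, 0 ≤ K x y) (x : V) : 0 ≤ dgr K x :=
  div_nonneg (sum_nonneg fun y _ => hK x y) (Nat.cast_nonneg _)

theorem dgr_mono {K L : V → V → ℝ} (h : ∀ x y, K x y ≤ L x y) (x : V) : dgr K x ≤ dgr L x :=
  div_le_div_of_nonneg_right (sum_le_sum fun y _ => h x y) (Nat.cast_nonneg _)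

theorem lam_nonneg {K : V → V → ℝ} (hK : ∀ x y, 0 ≤ K x y) : 0 ≤ lam K :=
  div_nonneg (sum_nonneg fun x _ => dgr_nonneg hK x) (Nat.cast_nonneg _)

theorem lam_mono {K L : V → V → ℝ} (h : ∀ x y, K x y ≤ L x y) : lam K ≤ lam L :=
  div_le_div_of_nonneg_right (sum_le_sum fun x _ => dgr_mono h x) (Nat.cast_nonneg _)

theorem dgr_le_one {K : V → V → ℝ} (h : ∀ x y, K x y ≤ 1) (x : V) : dgr K x ≤ 1 := by
  unfold dgr
  have hn : (0 : ℝ) < Fintype.card V := by
    have : 0 < Fintype.card V := Fintype.card_pos_iff.2 ⟨x⟩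
    exact_mod_cast this
  rw [div_le_one hn]
  calc ∑ y, K x y ≤ ∑ _y : V, (1 : ℝ) := sum_le_sum fun y _ => h x y
    _ = Fintype.card V := by simp

end basic

end Pool.Agent.ZT
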